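import Pool.Agent.HWR.Defs

/-!
# HWR-LA: local estimates (no number theory)

Let `q ≥ 101` be a natural number, `|a q| ≤ 2 √q`, `|a (q^2)| ≤ 2 q`, `σ = Re s ≥ 1`,
`y = q^(1/2 - σ) ≤ 1/10`.
PLAN. `w = a q * q^(-s) - q^(1-2s)`, `|w| ≤ 2 y + y^2 ≤ 2.1 y ≤ .21`, `efac = (1 - w)⁻¹`;
`w2 = a(q^2) (q^2)^(-s) - (q^2)^(1-2s)`, `|w2| ≤ 2 y^2 + y^4 ≤ 2.01 y^2 ≤ .0201`,
`Fm = (1 - w2)⁻¹`, `F1 = (1-w)⁻²`.
* `bet = (1/2) ((1-w)⁻¹ - (1-w) (1-w2)⁻¹) = (1/2) (2w - w^2 - w2) / ((1-w)(1-w2))`, so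
  `|bet| ≤ 4 y`;
* `gamm = (1/2) (w^2 + w2 - 2 w w2) / ((1-w)(1-w2))`, so `|gamm| ≤ 10 y^2` (in fact 5 y^2);
* `FF` at `u ∈ {0, 1, -1}`: `F1 = e (1 + bet + gamm)`, `Fm = e (1 - bet + gamm)`,
  definition of `bet`, `gamm` and `e ≠ 0`;
* `mloc - 1 = (gamm/(1+1/q) + q^(2-4s)) / (1 - q^(2-4s))`, `|q^(2-4s)| = y^4`; so
  `|mloc - 1| ≤ 12 y^2 < 1`.
Here `y^2 = q^(1-2σ)` and `‖(q:ℂ)^z‖ = q^(Re z)` (`Complex.norm_natCast_cpow_of_pos`).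
Also `(q^2 : ℕ)` casts: `((q^2:ℕ):ℂ)^(-s) `, its norm is `q^(-2σ)`.
-/

namespace Pool.Agent.HWR

namespace LEst

/-! abstract estimates -/

theorem den1 {y : ℝ} (h0 : 0 ≤ y) (h1 : y ≤ 1 / 10) {w : ℂ} (hw : ‖w‖ ≤ 2 * y + y ^ 2) :
    79 / 100 ≤ ‖1 - w‖ := by
  have h2 : ‖(1 : ℂ)‖ - ‖w‖ ≤ ‖1 - w‖ := norm_sub_norm_le _ _
  rw [norm_one] at h2
  nlinarith

theorem den2 {y : ℝ} (h0 : 0 ≤ y) (h1 : y ≤ 1 / 10) {w : ℂ} (hw : ‖w‖ ≤ 2 * y ^ 2 + y ^ 4) :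
    979 / 1000 ≤ ‖1 - w‖ := by
  have h2 : ‖(1 : ℂ)‖ - ‖w‖ ≤ ‖1 - w‖ := norm_sub_norm_le _ _
  rw [norm_one] at h2
  have h3 : y ^ 2 ≤ 1 / 100 := by nlinarith
  have h4 : y ^ 4 ≤ 1 / 10000 := by nlinarith [sq_nonneg y]
  linarith

theorem y4_le {y : ℝ} (h0 : 0 ≤ y) (h1 : y ≤ 1 / 10) : y ^ 4 ≤ 1 / 100 * y ^ 2 := by
  have h2 : y ^ 2 ≤ (1 / 10) ^ 2 := pow_le_pow_left₀ h0 h1 2
  calc y ^ 4 = y ^ 2 * y ^ 2 := by ring
    _ ≤ (1 / 10) ^ 2 * y ^ 2 := by gcongr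
    _ = 1 / 100 * y ^ 2 := by norm_num

theorem ne_of_le {z : ℂ} {c : ℝ} (hc : 0 < c) (h : c ≤ ‖z‖) : z ≠ 0 := by
  intro h0; rw [h0, norm_zero] at h; linarith

theorem inv_sub_one {w : ℂ} {c B D : ℝ} (hc : 0 < c) (h : c ≤ ‖1 - w‖) (hB : ‖w‖ ≤ B)
    (hD : B ≤ c * D) : ‖(1 - w)⁻¹ - 1‖ ≤ D := by
  have hne := ne_of_le hc h
  have e : (1 - w)⁻¹ - 1 = w / (1 - w) := by field_simp; ring
  rw [e, norm_div, div_le_iff₀ (by linarith)]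
  have hD0 : 0 ≤ D := by
    have : 0 ≤ c * D := le_trans (le_trans (norm_nonneg _) hB) hD
    exact nonneg_of_mul_nonneg_right this hc
  nlinarith

theorem bet_abs {y : ℝ} (h0 : 0 ≤ y) (h1 : y ≤ 1 / 10) {w w2 : ℂ} (hw : ‖w‖ ≤ 2 * y + y ^ 2)
    (hw2 : ‖w2‖ ≤ 2 * y ^ 2 + y ^ 4) :
    ‖(((1 - w)⁻¹) ^ 2 - (1 - w2)⁻¹) / (2 * (1 - w)⁻¹)‖ ≤ 4 * y := by
  have d1 := den1 h0 h1 hw
  have d2 := den2 h0 h1 hw2
  have n1 := ne_of_le (by norm_num) d1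
  have n2 := ne_of_le (by norm_num) d2
  have e : (((1 - w)⁻¹) ^ 2 - (1 - w2)⁻¹) / (2 * (1 - w)⁻¹) =
      (2 * w - w ^ 2 - w2) / (2 * ((1 - w) * (1 - w2))) := by
    field_simp
    ring
  rw [e, norm_div, norm_mul, norm_mul, Complex.norm_two]
  have hden : 77 / 100 ≤ ‖1 - w‖ * ‖1 - w2‖ := by nlinarith
  rw [div_le_iff₀ (by linarith)]
  have hw' : ‖w‖ ≤ 21 / 10 * y := by nlinarith
  have hw2' : ‖w2‖ ≤ 21 / 100 * y := by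
    have h4 : y ^ 4 ≤ 1 / 1000 * y := by
      have : y ^ 3 ≤ 1 / 1000 := by
        calc y ^ 3 ≤ (1 / 10) ^ 3 := pow_le_pow_left₀ h0 h1 3
          _ = 1 / 1000 := by norm_num
      nlinarith
    nlinarith
  have hn : ‖2 * w - w ^ 2 - w2‖ ≤ 2 * ‖w‖ + ‖w‖ ^ 2 + ‖w2‖ := by
    calc ‖2 * w - w ^ 2 - w2‖ ≤ ‖2 * w - w ^ 2‖ + ‖w2‖ := norm_sub_le _ _
      _ ≤ ‖2 * w‖ + ‖w ^ 2‖ + ‖w2‖ := by gcongr; exact norm_sub_le _ _
      _ = _ := by rw [norm_mul, norm_pow, Complex.norm_two]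
  have hw3 : ‖w‖ ^ 2 ≤ 441 / 1000 * y := by
    have := norm_nonneg w
    nlinarith
  have : 4 * y * (2 * (77 / 100)) ≤ 4 * y * (2 * (‖1 - w‖ * ‖1 - w2‖)) := by gcongr
  linarith

theorem gamm_abs {y : ℝ} (h0 : 0 ≤ y) (h1 : y ≤ 1 / 10) {w w2 : ℂ} (hw : ‖w‖ ≤ 2 * y + y ^ 2)
    (hw2 : ‖w2‖ ≤ 2 * y ^ 2 + y ^ 4) :
    ‖((((1 - w)⁻¹) ^ 2 + (1 - w2)⁻¹) / 2 - (1 - w)⁻¹) / (1 - w)⁻¹‖ ≤ 5 * y ^ 2 := by
  have d1 := den1 h0 h1 hw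
  have d2 := den2 h0 h1 hw2
  have n1 := ne_of_le (by norm_num) d1
  have n2 := ne_of_le (by norm_num) d2
  have e : ((((1 - w)⁻¹) ^ 2 + (1 - w2)⁻¹) / 2 - (1 - w)⁻¹) / (1 - w)⁻¹ =
      (w ^ 2 + w2 - 2 * w * w2) / (2 * ((1 - w) * (1 - w2))) := by
    field_simp
    ring
  rw [e, norm_div, norm_mul, norm_mul, Complex.norm_two]
  have hden : 77 / 100 ≤ ‖1 - w‖ * ‖1 - w2‖ := by nlinarith
  rw [div_le_iff₀ (by linarith)]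
  have hw' : ‖w‖ ≤ 21 / 10 * y := by nlinarith
  have hw'' : ‖w‖ ≤ 21 / 100 := by nlinarith
  have hw2' : ‖w2‖ ≤ 201 / 100 * y ^ 2 := by
    have h4 := y4_le h0 h1
    linarith
  have hn : ‖w ^ 2 + w2 - 2 * w * w2‖ ≤ ‖w‖ ^ 2 + ‖w2‖ + 2 * ‖w‖ * ‖w2‖ := by
    calc ‖w ^ 2 + w2 - 2 * w * w2‖ ≤ ‖w ^ 2 + w2‖ + ‖2 * w * w2‖ := norm_sub_le _ _
      _ ≤ ‖w ^ 2‖ + ‖w2‖ + ‖2 * w * w2‖ := by gcongr; exact norm_add_le _ _
      _ = _ := by rw [norm_mul, norm_mul, norm_pow, Complex.norm_two]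
  have hw3 : ‖w‖ ^ 2 ≤ 441 / 100 * y ^ 2 := by
    have := norm_nonneg w
    nlinarith
  have hw4 : ‖w‖ * ‖w2‖ ≤ 21 / 100 * (201 / 100 * y ^ 2) := by
    apply mul_le_mul hw'' hw2' (norm_nonneg _) (by norm_num)
  have : 5 * y ^ 2 * (2 * (77 / 100)) ≤ 5 * y ^ 2 * (2 * (‖1 - w‖ * ‖1 - w2‖)) := by gcongr
  nlinarith [sq_nonneg y]

/-! the two numbers `w` -/

/-- `1 -` the reciprocal of the Euler factor -/
noncomputable def ww (a : ℕ → ℝ) (q : ℕ) (s : ℂ) : ℂ :=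
  (a q : ℂ) * (q : ℂ) ^ (-s) - (q : ℂ) ^ (1 - 2 * s)

theorem den_eq (a : ℕ → ℝ) (q : ℕ) (s : ℂ) :
    1 - (a q : ℂ) * (q : ℂ) ^ (-s) + (q : ℂ) ^ (1 - 2 * s) = 1 - ww a q s := by
  unfold ww; ring

theorem efac_eq (a : ℕ → ℝ) (q : ℕ) (s : ℂ) : efac a q s = (1 - ww a q s)⁻¹ := by
  unfold efac; rw [den_eq]

theorem norm_ww_le {a : ℕ → ℝ} (ha : ∀ q : ℕ, |a q| ≤ 2 * Real.sqrt q) {q : ℕ} (hq : 0 < q)
    (s : ℂ) : ‖ww a q s‖ ≤ 2 * (q : ℝ) ^ (1 / 2 - s.re) + (q : ℝ) ^ (1 - 2 * s.re) := by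
  have hq' : (0 : ℝ) < q := by exact_mod_cast hq
  unfold ww
  refine (norm_sub_le _ _).trans ?_
  rw [norm_mul, Complex.norm_natCast_cpow_of_pos hq, Complex.norm_natCast_cpow_of_pos hq,
    Complex.norm_real, Real.norm_eq_abs]
  have e1 : (1 - 2 * s).re = 1 - 2 * s.re := by simp
  have e2 : (-s).re = -s.re := by simp
  rw [e1, e2]
  apply add_le_add_left
  calc |a q| * (q : ℝ) ^ (-s.re) ≤ (2 * Real.sqrt q) * (q : ℝ) ^ (-s.re) := by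
        gcongr; exact ha q
    _ = 2 * (q : ℝ) ^ (1 / 2 - s.re) := by
        rw [Real.sqrt_eq_rpow, mul_assoc, ← Real.rpow_add hq']
        congr 2

theorem y_bound {q : ℕ} (hq : 101 ≤ q) {σ : ℝ} (hs : 1 ≤ σ) :
    (q : ℝ) ^ (1 / 2 - σ) ≤ 1 / 10 := by
  have hq' : (101 : ℝ) ≤ q := by exact_mod_cast hq
  have hq0 : (0 : ℝ) < q := by linarith
  calc (q : ℝ) ^ (1 / 2 - σ) ≤ (q : ℝ) ^ (-(1 / 2) : ℝ) := by
        apply Real.rpow_le_rpow_of_exponent_le (by linarith) (by linarith)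
    _ = ((q : ℝ) ^ (1 / 2 : ℝ))⁻¹ := Real.rpow_neg hq0.le _
    _ = (Real.sqrt q)⁻¹ := by rw [← Real.sqrt_eq_rpow]
    _ ≤ 10⁻¹ := by
        apply inv_anti₀ (by norm_num)
        apply Real.le_sqrt_of_sq_le
        linarith
    _ = 1 / 10 := by norm_num

theorem y_sq {q : ℕ} (hq : 101 ≤ q) (σ : ℝ) :
    ((q : ℝ) ^ (1 / 2 - σ)) ^ 2 = (q : ℝ) ^ (1 - 2 * σ) := by
  have hq0 : (0 : ℝ) < q := by
    have : (101 : ℝ) ≤ q := by exact_mod_cast hq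
    linarith
  rw [← Real.rpow_natCast, ← Real.rpow_mul hq0.le]
  congr 1
  push_cast
  ring

theorem y_four {q : ℕ} (hq : 101 ≤ q) (σ : ℝ) :
    ((q : ℝ) ^ (1 / 2 - σ)) ^ 4 = (q : ℝ) ^ (2 - 4 * σ) := by
  have hq0 : (0 : ℝ) < q := by
    have : (101 : ℝ) ≤ q := by exact_mod_cast hq
    linarith
  rw [← Real.rpow_natCast, ← Real.rpow_mul hq0.le]
  congr 1
  push_cast
  ring

theorem q2_pow {q : ℕ} (hq : 101 ≤ q) (x : ℝ) : ((q ^ 2 : ℕ) : ℝ) ^ x = (q : ℝ) ^ (2 * x) := by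
  have hq0 : (0 : ℝ) < q := by
    have : (101 : ℝ) ≤ q := by exact_mod_cast hq
    linarith
  rw [Nat.cast_pow, ← Real.rpow_natCast, ← Real.rpow_mul hq0.le]
  norm_num

theorem norm_ww {a : ℕ → ℝ} (ha : ∀ q : ℕ, |a q| ≤ 2 * Real.sqrt q) {q : ℕ} (hq : 101 ≤ q)
    (s : ℂ) : ‖ww a q s‖ ≤ 2 * (q : ℝ) ^ (1 / 2 - s.re) + ((q : ℝ) ^ (1 / 2 - s.re)) ^ 2 := by
  rw [y_sq hq]
  exact norm_ww_le ha (by omega) s

theorem norm_ww2 {a : ℕ → ℝ} (ha : ∀ q : ℕ, |a q| ≤ 2 * Real.sqrt q) {q : ℕ} (hq : 101 ≤ q)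
    (s : ℂ) : ‖ww a (q ^ 2) s‖ ≤
      2 * ((q : ℝ) ^ (1 / 2 - s.re)) ^ 2 + ((q : ℝ) ^ (1 / 2 - s.re)) ^ 4 := by
  have h := norm_ww_le ha (q := q ^ 2) (by positivity) s
  rw [q2_pow hq, q2_pow hq] at h
  rw [y_sq hq, y_four hq]
  have e1 : 2 * (1 / 2 - s.re) = 1 - 2 * s.re := by ring
  have e2 : 2 * (1 - 2 * s.re) = 2 - 4 * s.re := by ring
  rw [e1, e2] at h
  exact h

theorem ww_diff (a : ℕ → ℝ) {q : ℕ} (hq : q ≠ 0) (s : ℂ) : DifferentiableAt ℂ (ww a q) s := by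
  have hq' : (q : ℂ) ≠ 0 := by exact_mod_cast hq
  unfold ww
  apply DifferentiableAt.sub
  · apply DifferentiableAt.mul (differentiableAt_const _)
    exact DifferentiableAt.const_cpow (by fun_prop) (Or.inl hq')
  · exact DifferentiableAt.const_cpow (by fun_prop) (Or.inl hq')

theorem efac_diff' (a : ℕ → ℝ) {q : ℕ} (hq : q ≠ 0) {s : ℂ} (h : 1 - ww a q s ≠ 0) :
    DifferentiableAt ℂ (efac a q) s := by
  have e : efac a q = fun s => (1 - ww a q s)⁻¹ := funext (efac_eq a q)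
  rw [e]
  exact DifferentiableAt.fun_inv ((differentiableAt_const _).sub (ww_diff a hq s)) h

end LEst

open LEst

variable {a : ℕ → ℝ} (ha : ∀ q : ℕ, |a q| ≤ 2 * Real.sqrt q) {q : ℕ} (hq : 101 ≤ q) {s : ℂ}
  (hs : 1 ≤ s.re)
include ha hq hs

theorem efac_den_ne : 1 - (a q : ℂ) * (q : ℂ) ^ (-s) + (q : ℂ) ^ (1 - 2 * s) ≠ 0 := by
  rw [den_eq]
  exact ne_of_le (by norm_num) (den1 (by positivity) (y_bound hq hs) (norm_ww ha hq s))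

theorem efac_ne : efac a q s ≠ 0 := by
  unfold efac
  exact inv_ne_zero (efac_den_ne ha hq hs)

theorem efac_sub_one : ‖efac a q s - 1‖ ≤ 3 * (q : ℝ) ^ (1 / 2 - s.re) := by
  rw [efac_eq]
  have h0 : (0 : ℝ) ≤ (q : ℝ) ^ (1 / 2 - s.re) := by positivity
  have h1 := y_bound hq hs
  have hw := norm_ww ha hq s
  set y := (q : ℝ) ^ (1 / 2 - s.re) with hy
  apply inv_sub_one (c := 79 / 100) (by norm_num) (den1 h0 h1 hw) hw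
  nlinarith

theorem Fm_ne : Fm a q s ≠ 0 := by
  unfold Fm
  rw [efac_eq]
  exact inv_ne_zero (ne_of_le (by norm_num)
    (den2 (by positivity) (y_bound hq hs) (norm_ww2 ha hq s)))

theorem Fm_den_ne :
    1 - (a (q ^ 2) : ℂ) * ((q ^ 2 : ℕ) : ℂ) ^ (-s) + ((q ^ 2 : ℕ) : ℂ) ^ (1 - 2 * s) ≠ 0 := by
  rw [den_eq]
  exact ne_of_le (by norm_num) (den2 (by positivity) (y_bound hq hs) (norm_ww2 ha hq s))

theorem Fm_sub_one : ‖Fm a q s - 1‖ ≤ 3 * (q : ℝ) ^ (1 - 2 * s.re) := by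
  unfold Fm
  rw [efac_eq, ← y_sq hq]
  have h0 : (0 : ℝ) ≤ (q : ℝ) ^ (1 / 2 - s.re) := by positivity
  have h1 := y_bound hq hs
  have hw := norm_ww2 ha hq s
  set y := (q : ℝ) ^ (1 / 2 - s.re) with hy
  apply inv_sub_one (c := 979 / 1000) (by norm_num) (den2 h0 h1 hw) hw
  have h4 := y4_le h0 h1
  nlinarith [sq_nonneg y, mul_nonneg h0 h0]

theorem bet_le : ‖bet a q s‖ ≤ 4 * (q : ℝ) ^ (1 / 2 - s.re) := by
  unfold bet F1 Fm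
  rw [efac_eq, efac_eq]
  exact bet_abs (by positivity) (y_bound hq hs) (norm_ww ha hq s) (norm_ww2 ha hq s)

private theorem gamm_le5 : ‖gamm a q s‖ ≤ 5 * ((q : ℝ) ^ (1 / 2 - s.re)) ^ 2 := by
  unfold gamm F1 Fm
  rw [efac_eq, efac_eq]
  exact gamm_abs (by positivity) (y_bound hq hs) (norm_ww ha hq s) (norm_ww2 ha hq s)

theorem gamm_le : ‖gamm a q s‖ ≤ 10 * (q : ℝ) ^ (1 - 2 * s.re) := by
  have h := gamm_le5 ha hq hs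
  rw [y_sq hq] at h
  refine h.trans ?_
  have : (0 : ℝ) ≤ (q : ℝ) ^ (1 - 2 * s.re) := by positivity
  linarith

theorem FF_eq {u : ℂ} (hu : u = 1 ∨ u = -1 ∨ u = 0) :
    FF a q u s = efac a q s * (1 + bet a q s * u + gamm a q s * u ^ 2) := by
  have hne := efac_ne ha hq hs
  rcases hu with rfl | rfl | rfl
  · unfold FF bet gamm
    rw [if_pos rfl]
    field_simp
    ring
  · unfold FF bet gamm
    rw [if_neg (by norm_num), if_pos rfl]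
    field_simp
    ring
  · unfold FF
    rw [if_neg (by norm_num), if_neg (by norm_num)]
    simp

omit hs in
theorem q_pow_lt (hs' : 1 ≤ s.re) : ‖(q : ℂ) ^ (2 - 4 * s)‖ ≤ 1 / 10000 := by
  rw [Complex.norm_natCast_cpow_of_pos (by omega)]
  have e : (2 - 4 * s).re = 2 - 4 * s.re := by simp
  rw [e, ← y_four hq]
  calc ((q : ℝ) ^ (1 / 2 - s.re)) ^ 4 ≤ (1 / 10) ^ 4 :=
        pow_le_pow_left₀ (by positivity) (y_bound hq hs') 4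
    _ = 1 / 10000 := by norm_num

private theorem mden : 9999 / 10000 ≤ ‖1 - (q : ℂ) ^ (2 - 4 * s)‖ := by
  have h := q_pow_lt ha hq hs
  have h2 : ‖(1 : ℂ)‖ - ‖(q : ℂ) ^ (2 - 4 * s)‖ ≤ ‖1 - (q : ℂ) ^ (2 - 4 * s)‖ :=
    norm_sub_norm_le _ _
  rw [norm_one] at h2
  linarith

omit ha hq hs in
private theorem one_le_qinv : 1 ≤ ‖(1 : ℂ) + (q : ℂ)⁻¹‖ := by
  have : (1 : ℂ) + (q : ℂ)⁻¹ = ((1 + (q : ℝ)⁻¹ : ℝ) : ℂ) := by push_cast; rfl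
  rw [this, Complex.norm_real, Real.norm_of_nonneg (by positivity)]
  have : (0 : ℝ) ≤ (q : ℝ)⁻¹ := by positivity
  linarith

theorem mloc_sub_one : ‖mloc a q s - 1‖ ≤ 12 * (q : ℝ) ^ (1 - 2 * s.re) := by
  have hd := mden ha hq hs
  have hne := ne_of_le (by norm_num) hd
  have e : mloc a q s - 1 =
      (gamm a q s / (1 + (q : ℂ)⁻¹) + (q : ℂ) ^ (2 - 4 * s)) / (1 - (q : ℂ) ^ (2 - 4 * s)) := by
    unfold mloc
    rw [div_sub_one hne]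
    congr 1
    ring
  rw [e, norm_div, div_le_iff₀ (by linarith), ← y_sq hq]
  have hg : ‖gamm a q s / (1 + (q : ℂ)⁻¹)‖ ≤ 5 * ((q : ℝ) ^ (1 / 2 - s.re)) ^ 2 := by
    rw [norm_div]
    refine (div_le_self (norm_nonneg _) one_le_qinv).trans (gamm_le5 ha hq hs)
  have hz : ‖(q : ℂ) ^ (2 - 4 * s)‖ = ((q : ℝ) ^ (1 / 2 - s.re)) ^ 4 := by
    rw [Complex.norm_natCast_cpow_of_pos (by omega), y_four hq]
    simp
  have h0 : (0 : ℝ) ≤ (q : ℝ) ^ (1 / 2 - s.re) := by positivity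
  have h1 := y_bound hq hs
  set y := (q : ℝ) ^ (1 / 2 - s.re) with hy
  have hn : ‖gamm a q s / (1 + (q : ℂ)⁻¹) + (q : ℂ) ^ (2 - 4 * s)‖ ≤ 5 * y ^ 2 + y ^ 4 := by
    refine (norm_add_le _ _).trans ?_
    rw [hz]
    linarith
  have h4 := y4_le h0 h1
  have : 12 * y ^ 2 * (9999 / 10000) ≤ 12 * y ^ 2 * ‖1 - (q : ℂ) ^ (2 - 4 * s)‖ := by gcongr
  nlinarith [sq_nonneg y]

theorem mloc_ne : mloc a q s ≠ 0 := by
  have h := mloc_sub_one ha hq hs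
  rw [← y_sq hq] at h
  have h0 : (0 : ℝ) ≤ (q : ℝ) ^ (1 / 2 - s.re) := by positivity
  have h1 := y_bound hq hs
  intro h2
  rw [h2, zero_sub, norm_neg, norm_one] at h
  nlinarith

theorem efac_diff : DifferentiableAt ℂ (efac a q) s := by
  apply efac_diff' a (by omega)
  exact ne_of_le (by norm_num) (den1 (by positivity) (y_bound hq hs) (norm_ww ha hq s))

theorem Fm_diff : DifferentiableAt ℂ (Fm a q) s := by
  have e : Fm a q = efac a (q ^ 2) := rfl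
  rw [e]
  apply efac_diff' a (pow_ne_zero 2 (by omega))
  exact ne_of_le (by norm_num) (den2 (by positivity) (y_bound hq hs) (norm_ww2 ha hq s))

theorem mloc_diff : DifferentiableAt ℂ (mloc a q) s := by
  have hq' : (q : ℂ) ≠ 0 := by
    have : q ≠ 0 := by omega
    exact_mod_cast this
  have he := efac_diff ha hq hs
  have hF := Fm_diff ha hq hs
  have hg : DifferentiableAt ℂ (gamm a q) s := by
    have e : gamm a q = fun s => ((efac a q s ^ 2 + Fm a q s) / 2 - efac a q s) / efac a q s :=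
      rfl
    rw [e]
    exact ((((he.fun_pow 2).fun_add hF).div_const 2).fun_sub he).fun_div he (efac_ne ha hq hs)
  have e : mloc a q = fun s => (1 + gamm a q s / (1 + (q : ℂ)⁻¹)) / (1 - (q : ℂ) ^ (2 - 4 * s)) :=
    rfl
  rw [e]
  apply DifferentiableAt.fun_div
  · exact (differentiableAt_const _).fun_add (hg.div_const _)
  · apply DifferentiableAt.fun_sub (differentiableAt_const _)
    exact DifferentiableAt.const_cpow (by fun_prop) (Or.inl hq')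
  · exact ne_of_le (by norm_num) (mden ha hq hs)

end Pool.Agent.HWR
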