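import Pool.Agent.HWR.Defs

/-!
# HWR-D1: the field `K(√δ)`

`exists_ext` PLAN. `f = X^2 - C (δ : K)` is irreducible over `K` (degree 2, no root:
`Polynomial.irreducible_of_degree_le_three_of_not_isRoot` or `X_pow_sub_C_irreducible_iff...`).
`K' = AdjoinRoot f`, `Fact (Irreducible f)`; `NumberField K'`: finite over `K`, which is finite
over `ℚ` (`FiniteDimensional.trans`, needs `IsScalarTower ℚ K K'`), char 0.
`finrank = natDegree = 2`.  `θ = AdjoinRoot.root f` is integral (`θ^2 = δ` is integral), as an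
element of `𝓞 K'`.

`totally_complex` PLAN. An infinite place `w` of `K'` is given by `φ : K' →+* ℂ`; if it is real,
then `σ = φ ∘ algebraMap K K'` is real, `σ δ = (φ θ)^2` is the square of a real number, so
`(σ δ).re ≥ 0`, contradiction. (`NumberField.IsTotallyComplex`, `InfinitePlace.isReal_iff` /
`ComplexEmbedding.IsReal`.)
-/

namespace Pool.Agent.HWR

open NumberField IsDedekindDomain

theorem exists_ext (K : Type) [Field K] [NumberField K] (δ : 𝓞 K)
    (hns : ∀ x : K, x ^ 2 ≠ (δ : K)) :
    ∃ (K' : Type) (_ : Field K') (_ : NumberField K') (_ : Algebra K K') (θ : 𝓞 K'),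
      Module.finrank K K' = 2 ∧ θ ^ 2 = algebraMap (𝓞 K) (𝓞 K') δ := by
  set f : Polynomial K := Polynomial.X ^ 2 - Polynomial.C (δ : K) with hf
  have hdeg : f.natDegree = 2 := Polynomial.natDegree_X_pow_sub_C
  have hm : f.Monic := Polynomial.monic_X_pow_sub_C _ two_ne_zero
  have hirr : Irreducible f := by
    apply Polynomial.irreducible_of_degree_le_three_of_not_isRoot
    · rw [hdeg]; decide
    · intro x hx
      rw [hf, Polynomial.IsRoot.def, Polynomial.eval_sub, Polynomial.eval_pow, Polynomial.eval_X,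
        Polynomial.eval_C, sub_eq_zero] at hx
      exact hns x hx
  have : Fact (Irreducible f) := ⟨hirr⟩
  have : Module.Finite K (AdjoinRoot f) := hm.finite_adjoinRoot
  have hNF : NumberField (AdjoinRoot f) := NumberField.of_module_finite K (AdjoinRoot f)
  have hroot : AdjoinRoot.root f ^ 2 = algebraMap K (AdjoinRoot f) (δ : K) := by
    have h1 := AdjoinRoot.eval₂_root f
    rw [hf, Polynomial.eval₂_sub, Polynomial.eval₂_pow, Polynomial.eval₂_X, Polynomial.eval₂_C,
      sub_eq_zero] at h1
    exact h1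
  have hint : IsIntegral ℤ (AdjoinRoot.root f) := by
    apply IsIntegral.of_pow (n := 2) two_pos
    rw [hroot]
    exact map_isIntegral_int (algebraMap K (AdjoinRoot f)) (RingOfIntegers.isIntegral_coe δ)
  refine ⟨AdjoinRoot f, inferInstance, hNF, inferInstance, ⟨AdjoinRoot.root f, hint⟩, ?_, ?_⟩
  · rw [(AdjoinRoot.powerBasis hirr.ne_zero).finrank, AdjoinRoot.powerBasis_dim, hdeg]
  · apply RingOfIntegers.ext
    exact hroot

theorem totally_complex (K : Type) [Field K] [NumberField K] (K' : Type) [Field K']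
    [NumberField K'] [Algebra K K'] (δ : 𝓞 K) (θ : 𝓞 K')
    (hθ : θ ^ 2 = algebraMap (𝓞 K) (𝓞 K') δ)
    (hneg : ∀ σ : K →+* ℂ, ComplexEmbedding.IsReal σ → (σ (δ : K)).re < 0) :
    IsTotallyComplex K' := by
  refine ⟨fun w => ?_⟩
  rw [← InfinitePlace.not_isReal_iff_isComplex]
  intro hw
  rw [InfinitePlace.isReal_iff] at hw
  set φ := w.embedding with hφ
  have hreal : ∀ x, (starRingEnd ℂ) (φ x) = φ x := by
    intro x
    have h1 := ComplexEmbedding.isReal_iff.1 hw
    exact RingHom.congr_fun h1 x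
  have hσ : ComplexEmbedding.IsReal (φ.comp (algebraMap K K')) := by
    rw [ComplexEmbedding.isReal_iff]
    ext x
    exact hreal (algebraMap K K' x)
  have h2 := hneg _ hσ
  have h3 : (φ.comp (algebraMap K K')) (δ : K) = φ (θ : K') ^ 2 := by
    rw [← map_pow, RingHom.comp_apply]
    congr 1
    have h4 := congrArg (fun z : 𝓞 K' => (z : K')) hθ
    simp only [map_pow] at h4
    rw [h4]
    rfl
  rw [h3] at h2
  have h5 : (φ (θ : K')).im = 0 := Complex.conj_eq_iff_im.1 (hreal _)
  rw [pow_two, Complex.mul_re, h5] at h2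
  nlinarith [mul_self_nonneg (φ (θ : K')).re]

end Pool.Agent.HWR
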