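import Pool.Agent.HWR.Defs

/-!
# HWR-S1: summability of `N v ^ (-x)` for `x > 1`, and lower bound for norms

PLAN.
`summable_nrm`: every `v` lies over a unique rational prime `p` (the characteristic of the finite
field `𝓞 K / v`, or `Ideal.under ℤ`), `N v = p ^ f >= p`, and at most `n = [K:ℚ]` places lie over
`p` (Mathlib: `Ideal.sum_ramification_inertia`, `Ideal.card_primesOverFinset_le_finrank`-like
lemmas; or: the product of `k` distinct primes above `p` contains `p`, norms: `p^k <= p^n`).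
So the sum is at most `n * ∑ p^(-x) < ∞` (`Nat.Primes.summable_rpow` or `Real.summable_nat_rpow`).
Convenient: `summable_of_sum_le` (partial sums over finsets), or sigma-summability via the map
`v ↦ p` with finite fibres.

`nrm_ge`: `p ∈ v` for the characteristic `p` of `𝓞 K / v`, so `p ∉ T`, so `p ≥ 101` and
`N v = p ^ f ≥ p`.
-/

namespace Pool.Agent.HWR

open NumberField IsDedekindDomain Filter Topology

theorem nrm_ne_zero {K : Type} [Field K] [NumberField K] (v : HeightOneSpectrum (𝓞 K)) :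
    nrm v ≠ 0 := by
  unfold nrm
  rw [Ne, Ideal.absNorm_eq_zero_iff]
  exact v.ne_bot

theorem nrm_ne_one {K : Type} [Field K] [NumberField K] (v : HeightOneSpectrum (𝓞 K)) :
    nrm v ≠ 1 := by
  unfold nrm
  rw [Ne, Ideal.absNorm_eq_one_iff]
  exact v.isPrime.ne_top

theorem card_partial (K : Type) [Field K] [NumberField K] :
    Tendsto (fun n : ℕ => (∑ k ∈ Finset.Icc 1 n,
      (Nat.card {I : Ideal (𝓞 K) // Ideal.absNorm I = k} : ℝ)) / n) atTop
      (𝓝 (NumberField.dedekindZeta_residue K)) := by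
  refine ((NumberField.Ideal.tendsto_norm_le_div_atTop₀ K).comp
    tendsto_natCast_atTop_atTop).congr fun n ↦ ?_
  simp only [Function.comp_apply, Nat.cast_le, ← Nat.cast_sum]
  congr
  rw [← add_left_inj 1, ← Ideal.card_norm_le_eq_card_norm_le_add_one,
    show Finset.Icc 1 n = Finset.Ioc 0 n from Finset.Icc_succ_left_eq_Ioc _ _,
    show 1 = Nat.card {I : Ideal (𝓞 K) // Ideal.absNorm I = 0} by simp [Ideal.absNorm_eq_zero_iff],
    Finset.sum_Ioc_add_eq_sum_Icc (n.zero_le),
    ← Finset.card_preimage_eq_sum_card_image_eq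
      (fun k _ ↦ Ideal.finite_setOfPred_absNorm_eq k)]
  simp [Set.coe_eq_subtype]

theorem summable_card (K : Type) [Field K] [NumberField K] {x : ℝ} (hx : 1 < x) :
    Summable fun n : ℕ => (Nat.card {I : Ideal (𝓞 K) // Ideal.absNorm I = n} : ℝ) *
      (n : ℝ) ^ (-x) := by
  have hO : (fun n : ℕ ↦ ∑ k ∈ Finset.Icc 1 n,
      (Nat.card {I : Ideal (𝓞 K) // Ideal.absNorm I = k} : ℝ)) =O[atTop]
      fun n ↦ (n : ℝ) ^ (1 : ℝ) := by
    have h1 := (card_partial K).isBigO_one ℝ
    have h2 := h1.mul (Asymptotics.isBigO_refl (fun n : ℕ => (n : ℝ)) atTop)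
    refine (h2.congr' ?_ ?_)
    · filter_upwards [eventually_ne_atTop 0] with n hn
      have : (n : ℝ) ≠ 0 := by exact_mod_cast hn
      field_simp
    · filter_upwards with n
      rw [Real.rpow_one, one_mul]
  have h := LSeriesSummable_of_sum_norm_bigO_and_nonneg (s := (x : ℂ)) hO
    (fun _ => Nat.cast_nonneg _) zero_le_one (by simpa using hx)
  have h3 : Summable fun n : ℕ => ‖LSeries.term (fun n ↦
      (((Nat.card {I : Ideal (𝓞 K) // Ideal.absNorm I = n} : ℝ)) : ℂ)) (x : ℂ) n‖ := h.norm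
  refine Summable.congr_cofinite h3 ?_
  rw [Nat.cofinite_eq_atTop]
  filter_upwards [eventually_ne_atTop 0] with n hn
  rw [LSeries.term_of_ne_zero hn, norm_div]
  have hn' : (0 : ℝ) < n := by exact_mod_cast Nat.pos_of_ne_zero hn
  rw [Complex.norm_real, Real.norm_of_nonneg (Nat.cast_nonneg _), Complex.norm_natCast_cpow_of_pos
    (Nat.pos_of_ne_zero hn), Complex.ofReal_re, Real.rpow_neg hn'.le]
  rfl

theorem summable_nrm (K : Type) [Field K] [NumberField K] {x : ℝ} (hx : 1 < x) :
    Summable fun v : HeightOneSpectrum (𝓞 K) => (nrm v : ℝ) ^ (-x) := by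
  classical
  set f : HeightOneSpectrum (𝓞 K) → ℝ := fun v => (nrm v : ℝ) ^ (-x) with hf
  have hf0 : ∀ v, 0 ≤ f v := fun v => Real.rpow_nonneg (Nat.cast_nonneg _) _
  let e := Equiv.sigmaFiberEquiv (nrm : HeightOneSpectrum (𝓞 K) → ℕ)
  rw [← e.summable_iff]
  -- fibres
  have hinj : ∀ n : ℕ, Function.Injective
      (fun v : {v : HeightOneSpectrum (𝓞 K) // nrm v = n} =>
        (⟨v.1.asIdeal, v.2⟩ : {I : Ideal (𝓞 K) // Ideal.absNorm I = n})) := by
    intro n v w h
    apply Subtype.ext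
    apply HeightOneSpectrum.ext
    exact congrArg Subtype.val h
  have hfin : ∀ n : ℕ, n ≠ 0 → Finite {I : Ideal (𝓞 K) // Ideal.absNorm I = n} := fun n _ =>
    Ideal.finite_setOfPred_absNorm_eq n
  have hfin' : ∀ n : ℕ, Finite {v : HeightOneSpectrum (𝓞 K) // nrm v = n} := by
    intro n
    rcases eq_or_ne n 0 with rfl | hn
    · have : IsEmpty {v : HeightOneSpectrum (𝓞 K) // nrm v = 0} :=
        ⟨fun v => nrm_ne_zero v.1 v.2⟩
      infer_instance
    · have := hfin n hn
      exact Finite.of_injective _ (hinj n)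
  rw [summable_sigma_of_nonneg (f := f ∘ e) (fun p => hf0 _)]
  constructor
  · intro n
    haveI := hfin' n
    exact Summable.of_finite
  · refine Summable.of_nonneg_of_le (fun n => tsum_nonneg fun _ => hf0 _) (fun n => ?_)
      (summable_card K hx)
    haveI := hfin' n
    haveI := Fintype.ofFinite {v : HeightOneSpectrum (𝓞 K) // nrm v = n}
    rw [tsum_fintype]
    have e1 : ∀ y : {v : HeightOneSpectrum (𝓞 K) // nrm v = n},
        (f ∘ e) ⟨n, y⟩ = (n : ℝ) ^ (-x) := by
      intro y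
      show (nrm y.1 : ℝ) ^ (-x) = _
      rw [y.2]
    rw [Finset.sum_congr rfl fun y _ => e1 y, Finset.sum_const, nsmul_eq_mul, Finset.card_univ,
      ← Nat.card_eq_fintype_card]
    refine mul_le_mul_of_nonneg_right ?_ (Real.rpow_nonneg (Nat.cast_nonneg _) _)
    rcases eq_or_ne n 0 with rfl | hn
    · have : IsEmpty {v : HeightOneSpectrum (𝓞 K) // nrm v = 0} :=
        ⟨fun v => nrm_ne_zero v.1 v.2⟩
      simp
    · haveI := hfin n hn
      exact_mod_cast Nat.card_le_card_of_injective _ (hinj n)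

theorem exists_prime_mem {K : Type} [Field K] [NumberField K] (v : HeightOneSpectrum (𝓞 K)) (n : ℕ)
    (hn : n ≠ 0) (h : ((n : ℕ) : 𝓞 K) ∈ v.asIdeal) :
    ∃ p : ℕ, p.Prime ∧ p ≤ n ∧ ((p : ℕ) : 𝓞 K) ∈ v.asIdeal := by
  induction n using Nat.strong_induction_on with
  | _ n ih =>
    have hn1 : n ≠ 1 := by
      rintro rfl
      apply v.isPrime.ne_top
      rw [Ideal.eq_top_iff_one]
      simpa using h
    obtain ⟨m, hm⟩ := Nat.minFac_dvd n
    have hp : (Nat.minFac n).Prime := Nat.minFac_prime hn1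
    have hm0 : m ≠ 0 := by
      rintro rfl
      exact hn (by simpa using hm)
    have h2 : ((Nat.minFac n : ℕ) : 𝓞 K) * ((m : ℕ) : 𝓞 K) ∈ v.asIdeal := by
      rw [← Nat.cast_mul, ← hm]
      exact h
    rcases v.isPrime.mem_or_mem h2 with h3 | h3
    · exact ⟨_, hp, Nat.minFac_le (Nat.pos_of_ne_zero hn), h3⟩
    · have hlt : m < n := by
        have h4 := hp.two_le
        have h5 : 0 < m := Nat.pos_of_ne_zero hm0
        rw [hm]
        nlinarith
      obtain ⟨p, a, b, c⟩ := ih m hlt hm0 h3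
      exact ⟨p, a, b.trans hlt.le, c⟩

theorem nrm_ge (K : Type) [Field K] [NumberField K] (T : Finset ℕ)
    (hT : ∀ p : ℕ, p.Prime → p < 101 → p ∈ T) (v : HeightOneSpectrum (𝓞 K))
    (hv : Away K T v) : 101 ≤ nrm v := by
  by_contra hlt
  push Not at hlt
  obtain ⟨p, hp, hle, hmem⟩ := exists_prime_mem v (nrm v) (nrm_ne_zero v) (Ideal.absNorm_mem _)
  exact hv p (hT p hp (by omega)) hmem

end Pool.Agent.HWR
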