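import Pool.Agent.HWR.LocalEst
import Pool.Agent.HWR.SumNrm

/-!
# HWR-D7a: the Euler product over `K'` regrouped over `K`

PLAN. The places `w` of `K'` away from `T` correspond to pairs (place `v` of `K` away from
`T`, `w` over `v`) (`w ∩ 𝓞 K = v`, `HeightOneSpectrum.under`-like; `p ∈ w ↔ p ∈ v`).  The product
over `w` is (unconditionally) multipliable for `Re s > 3/2` (`efac_sub_one`, `nrm_ge`,
`summable_nrm` for `K'`), so `Multipliable.tprod_sigma` over the fibres, each fibre finite
(`tprod = finprod`; `primesOver` of a nonzero prime is a finite set of nonzero primes).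
-/

namespace Pool.Agent.HWR

open NumberField IsDedekindDomain

private theorem away_under (K : Type) [Field K] [NumberField K] (K' : Type) [Field K']
    [NumberField K'] [Algebra K K'] (T : Finset ℕ) (w : HeightOneSpectrum (𝓞 K')) :
    Away K T (HeightOneSpectrum.under (𝓞 K) w) ↔ Away K' T w := by
  unfold Away
  have h : ∀ p : ℕ, ((p : ℕ) : 𝓞 K) ∈ (HeightOneSpectrum.under (𝓞 K) w).asIdeal ↔
      ((p : ℕ) : 𝓞 K') ∈ w.asIdeal := by
    intro p
    rw [HeightOneSpectrum.under_asIdeal, Ideal.under_def, Ideal.mem_comap, map_natCast]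
  simp only [h]

theorem LT_ext (K : Type) [Field K] [NumberField K] (K' : Type) [Field K'] [NumberField K']
    [Algebra K K'] {a : ℕ → ℝ} (ha : ∀ q : ℕ, |a q| ≤ 2 * Real.sqrt q) (T : Finset ℕ)
    (hT : ∀ p : ℕ, p.Prime → p < 101 → p ∈ T) {s : ℂ} (hs : 3 / 2 < s.re) :
    LT K' a T s = ∏' v : {v : HeightOneSpectrum (𝓞 K) // Away K T v},
      ∏ᶠ w ∈ v.1.asIdeal.primesOver (𝓞 K'), efac a (Ideal.absNorm w) s := by
  have hmul : Multipliable fun w : {w : HeightOneSpectrum (𝓞 K') // Away K' T w} =>
      efac a (nrm w.1) s := by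
    have h1 : Summable fun w : {w : HeightOneSpectrum (𝓞 K') // Away K' T w} =>
        ‖efac a (nrm w.1) s - 1‖ := by
      have h2 := ((summable_nrm K' (x := s.re - 1 / 2) (by linarith)).comp_injective
        (Subtype.val_injective (p := fun w => Away K' T w))).mul_left 3
      refine Summable.of_nonneg_of_le (fun _ => norm_nonneg _) (fun w => ?_) h2
      have h3 := efac_sub_one ha (nrm_ge K' T hT w.1 w.2) (by linarith : 1 ≤ s.re)
      refine h3.trans (le_of_eq ?_)
      have h4 : (1 / 2 - s.re : ℝ) = -(s.re - 1 / 2) := by ring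
      rw [h4]
      rfl
    have h4 := multipliable_one_add_of_summable h1
    simpa using h4
  let π : {w : HeightOneSpectrum (𝓞 K') // Away K' T w} →
      {v : HeightOneSpectrum (𝓞 K) // Away K T v} :=
    fun w => ⟨HeightOneSpectrum.under (𝓞 K) w.1, (away_under K K' T w.1).2 w.2⟩
  let f : ∀ v : {v : HeightOneSpectrum (𝓞 K) // Away K T v},
      {w : {w : HeightOneSpectrum (𝓞 K') // Away K' T w} // π w = v} →
        v.1.asIdeal.primesOver (𝓞 K') := fun v w =>
    ⟨w.1.1.asIdeal, w.1.1.isPrime, ⟨(congrArg (fun x => x.1.asIdeal) w.2).symm⟩⟩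
  have hf : ∀ v, Function.Bijective (f v) := by
    intro v
    constructor
    · intro w1 w2 h
      have h1 : w1.1.1.asIdeal = w2.1.1.asIdeal := congrArg Subtype.val h
      exact Subtype.ext (Subtype.ext (HeightOneSpectrum.ext h1))
    · rintro ⟨P, hP⟩
      have hPb : P ≠ ⊥ := Ideal.ne_bot_of_mem_primesOver v.1.ne_bot hP
      have hu : HeightOneSpectrum.under (𝓞 K) (⟨P, hP.1, hPb⟩ : HeightOneSpectrum (𝓞 K')) = v.1 := by
        apply HeightOneSpectrum.ext
        rw [HeightOneSpectrum.under_asIdeal]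
        exact hP.2.over.symm
      have hA : Away K' T (⟨P, hP.1, hPb⟩ : HeightOneSpectrum (𝓞 K')) := by
        rw [← away_under K K' T, hu]
        exact v.2
      exact ⟨⟨⟨⟨P, hP.1, hPb⟩, hA⟩, Subtype.ext hu⟩, rfl⟩
  have hfinS : ∀ v : {v : HeightOneSpectrum (𝓞 K) // Away K T v},
      (v.1.asIdeal.primesOver (𝓞 K')).Finite := fun v =>
    have := v.1.isPrime.isMaximal v.1.ne_bot
    IsDedekindDomain.primesOver_finite v.1.asIdeal (𝓞 K')
  have hfin : ∀ v : {v : HeightOneSpectrum (𝓞 K) // Away K T v},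
      Finite {w : {w : HeightOneSpectrum (𝓞 K') // Away K' T w} // π w = v} := by
    intro v
    have := (hfinS v).to_subtype
    exact Finite.of_injective (f v) (hf v).1
  unfold LT
  rw [← (Equiv.sigmaFiberEquiv π).tprod_eq]
  rw [Multipliable.tprod_sigma']
  · refine tprod_congr fun v => ?_
    have := (hfinS v).to_subtype
    rw [← finprod_set_coe_eq_finprod_mem, ← tprod_eq_finprod
      (L := SummationFilter.unconditional (v.1.asIdeal.primesOver (𝓞 K'))) (Set.toFinite _),
      ← (Equiv.ofBijective (f v) (hf v)).tprod_eq]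
    rfl
  · intro v
    have := hfin v
    exact multipliable_of_hasFiniteMulSupport (Set.toFinite _)
  · exact (Equiv.sigmaFiberEquiv π).multipliable_iff.2 hmul

end Pool.Agent.HWR
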