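import Pool.Agent.HWR.Defs

/-!
# HWR-D0: splitting types in a quadratic extension

PLAN. `e_w`, `f_w` ramification and inertia degrees: `∑_{w ∣ v} e_w f_w = [K' : K] = 2`
(`Ideal.sum_ramification_inertia (𝓞 K') K K' ...`), `v 𝓞 K' = ∏ w^(e_w)`
(`Ideal.map ... = ∏ w ∈ primesOverFinset, w ^ ramificationIdx`,
e.g. `Ideal.factors_..`/`IsDedekindDomain...`), `N w = (N v)^(f_w)`
(`Ideal.absNorm_eq_pow_inertiaDeg...` is for `ℤ`; relative version: `𝓞 K' / w` is a vector space
of dimension `f_w` over `𝓞 K / v`, `Module.card_eq_pow_finrank`).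
Two primes: `e = f = 1` for both; one prime: `(e,f) = (2,1)` or `(1,2)`.
-/

namespace Pool.Agent.HWR

open NumberField IsDedekindDomain

theorem quad_types (K : Type) [Field K] [NumberField K] (K' : Type) [Field K'] [NumberField K']
    [Algebra K K'] (hdeg : Module.finrank K K' = 2) (v : HeightOneSpectrum (𝓞 K)) :
    (Splits K K' v ∧ ∀ w ∈ v.asIdeal.primesOver (𝓞 K'), Ideal.absNorm w = nrm v) ∨
    (∃ w : Ideal (𝓞 K'), v.asIdeal.primesOver (𝓞 K') = {w} ∧
      ((v.asIdeal.map (algebraMap (𝓞 K) (𝓞 K')) = w ^ 2 ∧ Ideal.absNorm w = nrm v) ∨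
       (v.asIdeal.map (algebraMap (𝓞 K) (𝓞 K')) = w ∧ Ideal.absNorm w = nrm v ^ 2))) := by
  classical
  set p : Ideal (𝓞 K) := v.asIdeal with hp
  have hp0 : p ≠ ⊥ := v.ne_bot
  have hmax : p.IsMaximal := v.isMaximal
  have : Module.Finite (𝓞 K) (𝓞 K') := inferInstance
  have hfin : Finite (p.primesOver (𝓞 K')) := by
    rw [← IsDedekindDomain.coe_primesOverFinset hp0 (𝓞 K')]
    exact Finset.finite_toSet _
  let _ : Fintype (p.primesOver (𝓞 K')) := Fintype.ofFinite _
  have hrank : Module.finrank (𝓞 K) (𝓞 K') = 2 := by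
    rw [← hdeg]
    exact (IsFractionRing.finrank_eq (𝓞 K) K (𝓞 K') K').symm
  have hsum := Ideal.sum_ramification_inertia_eq_finrank p (𝓞 K')
  rw [hrank] at hsum
  -- the norm of a prime over `v`
  have hnorm : ∀ w ∈ p.primesOver (𝓞 K'), Ideal.absNorm w = nrm v ^ (w.inertiaDeg (𝓞 K)) := by
    intro w hw
    have : w.IsPrime := hw.1
    have : w.LiesOver p := hw.2
    have hw0 : w ≠ ⊥ := Ideal.ne_bot_of_mem_primesOver hp0 hw
    have : w.IsMaximal := Ring.DimensionLEOne.maximalOfPrime hw0 hw.1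
    rw [← Ideal.absNorm_relNorm (𝓞 K) (𝓞 K') w, Ideal.relNorm_eq_pow_of_isMaximal w p, map_pow]
    rfl
  have hpos : ∀ q : p.primesOver (𝓞 K'),
      1 ≤ q.1.ramificationIdx (𝓞 K) * q.1.inertiaDeg (𝓞 K) := by
    intro q
    have : q.1.IsPrime := q.2.1
    exact Nat.mul_pos (q.1.ramificationIdx_pos (𝓞 K)) (q.1.inertiaDeg_pos (𝓞 K))
  have hcard : Fintype.card (p.primesOver (𝓞 K')) ≤ 2 := by
    rw [← hsum, ← Finset.card_univ, Finset.card_eq_sum_ones]
    exact Finset.sum_le_sum fun q _ => hpos q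
  have hcard0 : Fintype.card (p.primesOver (𝓞 K')) ≠ 0 := by
    intro h0
    have := Fintype.card_eq_zero_iff.mp h0
    rw [Finset.univ_eq_empty, Finset.sum_empty] at hsum
    exact absurd hsum (by norm_num)
  have hcases : Fintype.card (p.primesOver (𝓞 K')) = 2 ∨
      Fintype.card (p.primesOver (𝓞 K')) = 1 := by omega
  rcases hcases with h2 | h1
  · left
    constructor
    · unfold Splits
      rw [← Nat.card_coe_set_eq, Nat.card_eq_fintype_card]
      exact h2
    · intro w hw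
      have h3 : ∑ q : p.primesOver (𝓞 K'), (1 : ℕ) =
          ∑ q : p.primesOver (𝓞 K'), q.1.ramificationIdx (𝓞 K) * q.1.inertiaDeg (𝓞 K) := by
        rw [hsum, ← Finset.card_eq_sum_ones, Finset.card_univ, h2]
      have h4 := (Finset.sum_eq_sum_iff_of_le (fun q _ => hpos q)).mp h3 ⟨w, hw⟩ (Finset.mem_univ _)
      have h5 : w.inertiaDeg (𝓞 K) = 1 := Nat.eq_one_of_mul_eq_one_left h4.symm
      rw [hnorm w hw, h5, pow_one]
  · right
    obtain ⟨w, hw⟩ := Fintype.card_eq_one_iff.mp h1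
    have hset : p.primesOver (𝓞 K') = {w.1} := by
      ext u
      constructor
      · intro hu
        exact congrArg Subtype.val (hw ⟨u, hu⟩)
      · rintro rfl
        exact w.2
    have hsum1 : w.1.ramificationIdx (𝓞 K) * w.1.inertiaDeg (𝓞 K) = 2 := by
      rw [← hsum]
      have h6 := Fintype.sum_eq_single (f := fun q : p.primesOver (𝓞 K') =>
        q.1.ramificationIdx (𝓞 K) * q.1.inertiaDeg (𝓞 K)) w (fun q hq => absurd (hw q) hq)
      exact h6.symm
    have hmap : p.map (algebraMap (𝓞 K) (𝓞 K')) = w.1 ^ w.1.ramificationIdx (𝓞 K) := by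
      rw [Ideal.map_algebraMap_eq_finsetProd_pow hp0, ← Finset.prod_set_coe]
      exact Fintype.prod_eq_single (f := fun q : p.primesOver (𝓞 K') =>
        q.1 ^ q.1.ramificationIdx (𝓞 K)) w (fun q hq => absurd (hw q) hq)
    refine ⟨w.1, hset, ?_⟩
    have hdvd : w.1.ramificationIdx (𝓞 K) ∣ 2 := ⟨_, hsum1.symm⟩
    rcases (Nat.dvd_prime Nat.prime_two).mp hdvd with he | he
    · right
      rw [he, one_mul] at hsum1
      rw [he, pow_one] at hmap
      exact ⟨hmap, by rw [hnorm w.1 w.2, hsum1]⟩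
    · left
      rw [he] at hsum1 hmap
      have hf : w.1.inertiaDeg (𝓞 K) = 1 := by omega
      exact ⟨hmap, by rw [hnorm w.1 w.2, hf, pow_one]⟩

end Pool.Agent.HWR
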