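import Pool.Agent.HWR.LocalEst

/-!
# HWR-H: infinite products (pure complex analysis)

`ι` any index type, `N : ι → ℕ` with `N i ≥ 101` and `∑ (N i)^(-x) < ∞` for `x > 1`.
PLAN. By `efac_sub_one` the product of `efac a (N i) s` converges absolutely and locally uniformly
on `Re s > 3/2` (majorant `3 (N i)^(1/2 - b)` on `Re s ≥ b > 3/2`), by `mloc_sub_one` the product
of `mloc` on `Re s > 1` (majorant `12 (N i)^(1 - 2b)` on `Re s ≥ b > 1`).
Mathlib: `Complex.multipliable_one_add_of_summable`, `multipliable_one_add_of_summable`,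
`HasProdLocallyUniformlyOn`/`Summable.hasProdUniformlyOn_one_add`,
`differentiableOn_tprod...` (search in `Mathlib/Analysis/.../MultipliableUniformlyOn`,
`Mathlib/Analysis/SpecialFunctions/Log/Summable`); the limit of a locally uniformly convergent
sequence of holomorphic functions is holomorphic (`TendstoLocallyUniformlyOn.differentiableOn`).
`tprod_mloc_ne`: apply the first part to the inverse factors `(mloc)⁻¹` (`|m⁻¹ - 1| ≤ 2 |m - 1|`
up to a constant since `|m - 1| ≤ 12/101`): the product of the two infinite products is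
`∏' 1 = 1` (`Multipliable.tprod_mul`).
`..._bdd`: `‖∏' (1 + f i)‖ ≤ exp (∑' ‖f i‖)`.
-/

namespace Pool.Agent.HWR

section gen

variable {ι : Type} {f : ι → ℂ → ℂ} {σ₀ : ℝ} {u : ℝ → ι → ℝ}

private theorem gen_sum (hu : ∀ b, σ₀ < b → Summable (u b))
    (hb : ∀ b, σ₀ < b → ∀ s : ℂ, b ≤ s.re → ∀ i, ‖f i s - 1‖ ≤ u b i) {s : ℂ} (hs : σ₀ < s.re) :
    Summable fun i => ‖f i s - 1‖ :=
  Summable.of_nonneg_of_le (fun i => norm_nonneg _) (fun i => hb s.re hs s le_rfl i) (hu s.re hs)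

private theorem gen_mult (hu : ∀ b, σ₀ < b → Summable (u b))
    (hb : ∀ b, σ₀ < b → ∀ s : ℂ, b ≤ s.re → ∀ i, ‖f i s - 1‖ ≤ u b i) {s : ℂ} (hs : σ₀ < s.re) :
    Multipliable fun i => f i s := by
  have h := multipliable_one_add_of_summable (f := fun i => f i s - 1) (gen_sum hu hb hs)
  simpa only [add_sub_cancel] using h

private theorem gen_ne (hu : ∀ b, σ₀ < b → Summable (u b))
    (hb : ∀ b, σ₀ < b → ∀ s : ℂ, b ≤ s.re → ∀ i, ‖f i s - 1‖ ≤ u b i) {s : ℂ} (hs : σ₀ < s.re)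
    (h0 : ∀ i, f i s ≠ 0) : ∏' i, f i s ≠ 0 := by
  have h := tprod_one_add_ne_zero_of_summable (f := fun i => f i s - 1)
    (fun i => by rw [add_sub_cancel]; exact h0 i) (gen_sum hu hb hs)
  simpa only [add_sub_cancel] using h

private theorem gen_bdd (hu : ∀ b, σ₀ < b → Summable (u b))
    (hb : ∀ b, σ₀ < b → ∀ s : ℂ, b ≤ s.re → ∀ i, ‖f i s - 1‖ ≤ u b i) {b : ℝ} (hb0 : σ₀ < b) :
    ∃ C : ℝ, ∀ s : ℂ, s.re = b → ‖∏' i, f i s‖ ≤ C := by
  refine ⟨Real.exp (∑' i, u b i), fun s hs => ?_⟩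
  have hs' : σ₀ < s.re := by rw [hs]; exact hb0
  have h1 := (gen_mult hu hb hs').hasProd
  refine le_of_tendsto' h1.norm fun t => ?_
  have h2 := Finset.norm_prod_one_add_sub_one_le t (fun i => f i s - 1)
  simp only [add_sub_cancel] at h2
  have h3 : ∑ i ∈ t, ‖f i s - 1‖ ≤ ∑' i, u b i := by
    refine (Finset.sum_le_sum fun i _ => hb b hb0 s hs.ge i).trans ?_
    exact (hu b hb0).sum_le_tsum _ fun i _ => (norm_nonneg _).trans (hb b hb0 s hs.ge i)
  have h4 := norm_le_norm_sub_add (∏ i ∈ t, f i s) 1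
  rw [norm_one] at h4
  have h5 := Real.exp_le_exp.2 h3
  change ∏ i ∈ t, ‖f i s‖ ≤ _
  rw [← norm_prod]
  linarith

private theorem gen_diff (hu : ∀ b, σ₀ < b → Summable (u b))
    (hb : ∀ b, σ₀ < b → ∀ s : ℂ, b ≤ s.re → ∀ i, ‖f i s - 1‖ ≤ u b i)
    (hd : ∀ i (s : ℂ), σ₀ < s.re → DifferentiableAt ℂ (f i) s) :
    DifferentiableOn ℂ (fun s => ∏' i, f i s) {s : ℂ | σ₀ < s.re} := by
  intro s hs
  have hs' : σ₀ < s.re := hs
  have hb0 : σ₀ < (σ₀ + s.re) / 2 := by linarith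
  have hU : IsOpen {z : ℂ | (σ₀ + s.re) / 2 < z.re} := isOpen_lt continuous_const Complex.continuous_re
  have hsU : s ∈ {z : ℂ | (σ₀ + s.re) / 2 < z.re} := by
    change (σ₀ + s.re) / 2 < s.re
    linarith
  have h1 := Summable.hasProdLocallyUniformlyOn_one_add (f := fun i z => f i z - 1) hU (hu _ hb0)
    (Filter.Eventually.of_forall fun i z hz => hb _ hb0 z (le_of_lt hz) i)
    (fun i z hz => ((hd i z (hb0.trans hz)).continuousAt.sub continuousAt_const).continuousWithinAt)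
  simp only [add_sub_cancel] at h1
  rw [hasProdLocallyUniformlyOn_iff_tendstoLocallyUniformlyOn] at h1
  have h2 := h1.differentiableOn (Filter.Eventually.of_forall fun t z hz => by
    refine DifferentiableAt.differentiableWithinAt ?_
    exact DifferentiableAt.fun_finset_prod fun i _ => hd i z (hb0.trans hz)) hU
  exact (h2.differentiableAt (hU.mem_nhds hsU)).differentiableWithinAt

end gen

section bounds

variable {a : ℕ → ℝ} {ι : Type} {N : ι → ℕ}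

private theorem hu_efac (hsum : ∀ x : ℝ, 1 < x → Summable fun i => (N i : ℝ) ^ (-x)) :
    ∀ b, (3 / 2 : ℝ) < b → Summable (fun i => 3 * (N i : ℝ) ^ (1 / 2 - b)) := by
  intro b hb
  have h := (hsum (b - 1 / 2) (by linarith)).mul_left 3
  simpa only [neg_sub] using h

private theorem hu_mloc (hsum : ∀ x : ℝ, 1 < x → Summable fun i => (N i : ℝ) ^ (-x)) :
    ∀ b, (1 : ℝ) < b → Summable (fun i => 12 * (N i : ℝ) ^ (1 - 2 * b)) := by
  intro b hb
  have h := (hsum (2 * b - 1) (by linarith)).mul_left 12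
  simpa only [neg_sub] using h

private theorem hb_efac (ha : ∀ q : ℕ, |a q| ≤ 2 * Real.sqrt q) (hN : ∀ i, 101 ≤ N i) :
    ∀ b, (3 / 2 : ℝ) < b → ∀ s : ℂ, b ≤ s.re → ∀ i,
      ‖efac a (N i) s - 1‖ ≤ 3 * (N i : ℝ) ^ (1 / 2 - b) := by
  intro b hb s hs i
  refine (efac_sub_one ha (hN i) (by linarith)).trans ?_
  have h1 : (1 : ℝ) ≤ N i := by
    have := hN i
    exact_mod_cast (by omega : 1 ≤ N i)
  have := Real.rpow_le_rpow_of_exponent_le h1 (show 1 / 2 - s.re ≤ 1 / 2 - b by linarith)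
  linarith

private theorem hb_mloc (ha : ∀ q : ℕ, |a q| ≤ 2 * Real.sqrt q) (hN : ∀ i, 101 ≤ N i) :
    ∀ b, (1 : ℝ) < b → ∀ s : ℂ, b ≤ s.re → ∀ i,
      ‖mloc a (N i) s - 1‖ ≤ 12 * (N i : ℝ) ^ (1 - 2 * b) := by
  intro b hb s hs i
  refine (mloc_sub_one ha (hN i) (by linarith)).trans ?_
  have h1 : (1 : ℝ) ≤ N i := by
    have := hN i
    exact_mod_cast (by omega : 1 ≤ N i)
  have := Real.rpow_le_rpow_of_exponent_le h1 (show 1 - 2 * s.re ≤ 1 - 2 * b by linarith)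
  linarith

end bounds

variable {a : ℕ → ℝ} (ha : ∀ q : ℕ, |a q| ≤ 2 * Real.sqrt q) {ι : Type} {N : ι → ℕ}
  (hN : ∀ i, 101 ≤ N i) (hsum : ∀ x : ℝ, 1 < x → Summable fun i => (N i : ℝ) ^ (-x))
include ha hN hsum

theorem mult_efac {s : ℂ} (hs : 3 / 2 < s.re) : Multipliable fun i => efac a (N i) s := by
  exact gen_mult (σ₀ := 3 / 2) (u := fun b i => 3 * (N i : ℝ) ^ (1 / 2 - b)) (hu_efac hsum)
    (hb_efac ha hN) hs

theorem diff_tprod_efac :
    DifferentiableOn ℂ (fun s => ∏' i, efac a (N i) s) {s : ℂ | 3 / 2 < s.re} := by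
  exact gen_diff (σ₀ := 3 / 2) (u := fun b i => 3 * (N i : ℝ) ^ (1 / 2 - b)) (hu_efac hsum)
    (hb_efac ha hN) (fun i s hs => efac_diff ha (hN i) (by linarith))

theorem bdd_tprod_efac {b : ℝ} (hb : 3 / 2 < b) :
    ∃ C : ℝ, ∀ s : ℂ, s.re = b → ‖∏' i, efac a (N i) s‖ ≤ C := by
  exact gen_bdd (σ₀ := 3 / 2) (u := fun b i => 3 * (N i : ℝ) ^ (1 / 2 - b)) (hu_efac hsum)
    (hb_efac ha hN) hb

theorem mult_mloc {s : ℂ} (hs : 1 < s.re) : Multipliable fun i => mloc a (N i) s := by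
  exact gen_mult (σ₀ := 1) (u := fun b i => 12 * (N i : ℝ) ^ (1 - 2 * b)) (hu_mloc hsum)
    (hb_mloc ha hN) hs

theorem diff_tprod_mloc :
    DifferentiableOn ℂ (fun s => ∏' i, mloc a (N i) s) {s : ℂ | 1 < s.re} := by
  exact gen_diff (σ₀ := 1) (u := fun b i => 12 * (N i : ℝ) ^ (1 - 2 * b)) (hu_mloc hsum)
    (hb_mloc ha hN) (fun i s hs => mloc_diff ha (hN i) hs.le)

theorem tprod_mloc_ne {s : ℂ} (hs : 1 < s.re) : ∏' i, mloc a (N i) s ≠ 0 := by
  exact gen_ne (σ₀ := 1) (u := fun b i => 12 * (N i : ℝ) ^ (1 - 2 * b)) (hu_mloc hsum)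
    (hb_mloc ha hN) hs (fun i => mloc_ne ha (hN i) hs.le)

theorem bdd_tprod_mloc {b : ℝ} (hb : 1 < b) :
    ∃ C : ℝ, ∀ s : ℂ, s.re = b → ‖∏' i, mloc a (N i) s‖ ≤ C := by
  exact gen_bdd (σ₀ := 1) (u := fun b i => 12 * (N i : ℝ) ^ (1 - 2 * b)) (hu_mloc hsum)
    (hb_mloc ha hN) hb

end Pool.Agent.HWR
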