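import Pool.Agent.HWR.ThreeLines

/-!
# HWR-AB2: abstract continuation theorem (pure complex analysis)

PLAN.  `E j s = 2^(-n j) S j 0 s`, `B j s = E (j+1) s - 2^(2n(1-s)) E j s`, `D j = B (j+1) - B j`.
Fix `0 < η < 1`, strip `a = -η`, `b = 2+η`, small `ε`.
(right) `Re s = b`: by h4, h5, h6 `B j s = G s (c (j+1) 0 - 2^(2n(1-s)) c j 0) + O(2^(j(ε-n)))`
  and `D j s = O(2^(j(ε-n)))` (uniformly in `Im s`; `|2^(2n(1-s))|` is constant on the line).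
(left, bounded height) `Re s = -η`, `|Im s| ≤ T`: by h3 and h4 (at `2 - s`, real part `b`, with
  `z = 2(1-s)`, `‖z‖` bounded) `E j s = ε0 Q^(1-s) 2^(2nj(1-s)) (c j z G(2-s) + O(2^(j(ε-n))))`,
  hence `B j s = ε0 Q^(1-s) 2^(2n(j+1)(1-s)) ((c (j+1) z - c j z) G(2-s) + O(2^(j(ε-n))))
  = O(2^(j (n(1+2η) + ε)))` because `|2^(2nj(1-s))| = 2^(2nj(1+η))`.
(left, all heights) `E j s = O(2^(2nj(1+η)))` by h3, h7 (`Re z = 2(1+η)` fixed), same for `B`, `D`.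
`three_lines` (X = 2^j) gives in the strip, for `|Im s| ≤ T0`,
`‖D j s‖ ≤ C 2^(j (n (1+η-σ) + ε + κ))`, summable uniformly on `1+2η ≤ Re s ≤ 2+η`.
So `B j` converges locally uniformly on `1 < Re s < 3` (for a compact subset choose `η`; if
`Re s ≥ 2 + η` use the right-hand line estimate at `b = Re s`, or simply take `η` close to `1`
and two values of `η`), the limit `F` is holomorphic; for `2 < Re s < 3` h4, h5 at `b = Re s`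
give `B j s → c∞ G s (1 - 2^(2n(1-s)))`, `c∞ = lim c j 0` (exists by h5, geometric).
The bounded-in-strip hypothesis of `three_lines` for `D j` comes from h2.
Note that locally uniform convergence is only needed on small neighbourhoods: for `s0` with
`1 < Re s0 < 3` choose `η` with `1 + 2η < Re s0 < 2 + η`.
-/

namespace Pool.Agent.HWR

open Filter Topology

private lemma norm_two_cpow (w : ℂ) : ‖(2 : ℂ) ^ w‖ = (2 : ℝ) ^ w.re := by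
  have h := Complex.norm_cpow_eq_rpow_re_of_pos (x := 2) (by norm_num) w
  simpa using h

private lemma tw_pos (x : ℝ) : 0 < (2 : ℝ) ^ x := Real.rpow_pos_of_pos (by norm_num) x

private lemma tw_mono {x y : ℝ} (h : x ≤ y) : (2 : ℝ) ^ x ≤ (2 : ℝ) ^ y :=
  Real.rpow_le_rpow_of_exponent_le (by norm_num) h

private lemma tw_add (x y : ℝ) : (2 : ℝ) ^ (x + y) = (2 : ℝ) ^ x * (2 : ℝ) ^ y :=
  Real.rpow_add (by norm_num) x y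

private lemma tw_nat (n j : ℕ) : ‖(2 : ℂ) ^ (n * j)‖ = (2 : ℝ) ^ ((n : ℝ) * (j : ℝ)) := by
  rw [norm_pow, Complex.norm_ofNat, ← Real.rpow_natCast]
  push_cast
  rfl

private lemma two_pow_ne (m : ℕ) : (2 : ℂ) ^ m ≠ 0 := pow_ne_zero _ (by norm_num)

/-- the factor `2^(2n(1-s))` -/
private noncomputable def pf (n : ℕ) (s : ℂ) : ℂ := (2 : ℂ) ^ (2 * (n : ℂ) * (1 - s))

private noncomputable def Ef (n : ℕ) (S : ℕ → ℂ → ℂ → ℂ) (j : ℕ) (s : ℂ) : ℂ :=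
  S j 0 s / (2 : ℂ) ^ (n * j)

private noncomputable def Bf (n : ℕ) (S : ℕ → ℂ → ℂ → ℂ) (j : ℕ) (s : ℂ) : ℂ :=
  Ef n S (j + 1) s - pf n s * Ef n S j s

private noncomputable def Df (n : ℕ) (S : ℕ → ℂ → ℂ → ℂ) (j : ℕ) (s : ℂ) : ℂ :=
  Bf n S (j + 1) s - Bf n S j s

private lemma norm_pf (n : ℕ) (s : ℂ) : ‖pf n s‖ = (2 : ℝ) ^ (2 * (n : ℝ) * (1 - s.re)) := by
  rw [pf, norm_two_cpow]
  congr 1
  simp

private lemma diff_pf (n : ℕ) : Differentiable ℂ (pf n) := by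
  intro s
  unfold pf
  exact (DifferentiableAt.const_cpow (by fun_prop) (Or.inl (by norm_num)))

private lemma diff_Df {n : ℕ} {S : ℕ → ℂ → ℂ → ℂ} (h1 : ∀ j, Differentiable ℂ (S j 0)) (j : ℕ) :
    Differentiable ℂ (Df n S j) := by
  have hE : ∀ j, Differentiable ℂ (Ef n S j) := fun j => (h1 j).div_const _
  have hB : ∀ j, Differentiable ℂ (Bf n S j) := fun j => (hE (j + 1)).sub ((diff_pf n).mul (hE j))
  exact (hB (j + 1)).sub (hB j)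

private lemma diff_Bf {n : ℕ} {S : ℕ → ℂ → ℂ → ℂ} (h1 : ∀ j, Differentiable ℂ (S j 0)) (j : ℕ) :
    Differentiable ℂ (Bf n S j) := by
  have hE : ∀ j, Differentiable ℂ (Ef n S j) := fun j => (h1 j).div_const _
  exact (hE (j + 1)).sub ((diff_pf n).mul (hE j))

private lemma bdd_Df {n : ℕ} {S : ℕ → ℂ → ℂ → ℂ}
    (h2 : ∀ j (a b : ℝ), ∃ M : ℝ, ∀ s : ℂ, a ≤ s.re → s.re ≤ b → ‖S j 0 s‖ ≤ M)
    (j : ℕ) (a b : ℝ) : ∃ M : ℝ, ∀ s : ℂ, a ≤ s.re → s.re ≤ b → ‖Df n S j s‖ ≤ M := by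
  have hE : ∀ j, ∃ M : ℝ, 0 ≤ M ∧ ∀ s : ℂ, a ≤ s.re → s.re ≤ b → ‖Ef n S j s‖ ≤ M := by
    intro j
    obtain ⟨M, hM⟩ := h2 j a b
    refine ⟨|M| / ‖(2 : ℂ) ^ (n * j)‖, by positivity, fun s ha hb => ?_⟩
    rw [Ef, norm_div]
    gcongr
    exact (hM s ha hb).trans (le_abs_self M)
  have hB : ∀ j, ∃ M : ℝ, ∀ s : ℂ, a ≤ s.re → s.re ≤ b → ‖Bf n S j s‖ ≤ M := by
    intro j
    obtain ⟨M1, h10, hM1⟩ := hE (j + 1)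
    obtain ⟨M2, h20, hM2⟩ := hE j
    refine ⟨M1 + (2 : ℝ) ^ (2 * (n : ℝ) * (1 - a)) * M2, fun s ha hb => ?_⟩
    refine (norm_sub_le _ _).trans (add_le_add (hM1 s ha hb) ?_)
    rw [norm_mul, norm_pf]
    refine mul_le_mul (tw_mono ?_) (hM2 s ha hb) (norm_nonneg _) (tw_pos _).le
    have : (0 : ℝ) ≤ n := n.cast_nonneg
    nlinarith
  obtain ⟨M1, hM1⟩ := hB (j + 1)
  obtain ⟨M2, hM2⟩ := hB j
  exact ⟨M1 + M2, fun s ha hb => (norm_sub_le _ _).trans (add_le_add (hM1 s ha hb) (hM2 s ha hb))⟩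

/-- right line, `E j` -/
private lemma right_E {n : ℕ} {S : ℕ → ℂ → ℂ → ℂ} {c : ℕ → ℂ → ℂ} {G : ℂ → ℂ}
    (h4 : ∀ b : ℝ, 2 < b → ∀ ε : ℝ, 0 < ε → ∀ R : ℝ, ∃ C : ℝ, ∀ (j : ℕ) (z s : ℂ),
      ‖z‖ ≤ R → s.re = b →
      ‖S j z s - c j z * (2 : ℂ) ^ (n * j) * G s‖ ≤ C * (2 : ℝ) ^ (ε * (j : ℝ)))
    {b : ℝ} (hb : 2 < b) {ε : ℝ} (hε : 0 < ε) (R : ℝ) : ∃ C : ℝ, 0 ≤ C ∧ ∀ (j : ℕ) (z s : ℂ),
      ‖z‖ ≤ R → s.re = b →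
      ‖S j z s / (2 : ℂ) ^ (n * j) - c j z * G s‖ ≤ C * (2 : ℝ) ^ ((ε - n) * (j : ℝ)) := by
  obtain ⟨C, hC⟩ := h4 b hb ε hε R
  refine ⟨|C|, abs_nonneg C, fun j z s hz hs => ?_⟩
  have e1 : S j z s / (2 : ℂ) ^ (n * j) - c j z * G s =
      (S j z s - c j z * (2 : ℂ) ^ (n * j) * G s) / (2 : ℂ) ^ (n * j) := by
    have := two_pow_ne (n * j)
    field_simp
  rw [e1, norm_div, tw_nat, div_le_iff₀ (tw_pos _), mul_assoc |C|, ← tw_add]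
  have e2 : (ε - n) * (j : ℝ) + (n : ℝ) * (j : ℝ) = ε * j := by ring
  rw [e2]
  refine (hC j z s hz hs).trans ?_
  exact mul_le_mul_of_nonneg_right (le_abs_self C) (tw_pos _).le

private lemma step_le {ε : ℝ} (n : ℕ) (j : ℕ) : (2 : ℝ) ^ ((ε - n) * ((j + 1 : ℕ) : ℝ)) ≤
    (2 : ℝ) ^ ε * (2 : ℝ) ^ ((ε - n) * (j : ℝ)) := by
  rw [← tw_add]
  refine tw_mono ?_
  have : (0 : ℝ) ≤ n := n.cast_nonneg
  push_cast
  nlinarith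

/-- right line, `B j` -/
private lemma right_B {n : ℕ} {S : ℕ → ℂ → ℂ → ℂ} {c : ℕ → ℂ → ℂ} {G : ℂ → ℂ}
    (h4 : ∀ b : ℝ, 2 < b → ∀ ε : ℝ, 0 < ε → ∀ R : ℝ, ∃ C : ℝ, ∀ (j : ℕ) (z s : ℂ),
      ‖z‖ ≤ R → s.re = b →
      ‖S j z s - c j z * (2 : ℂ) ^ (n * j) * G s‖ ≤ C * (2 : ℝ) ^ (ε * (j : ℝ)))
    {b : ℝ} (hb : 2 < b) {ε : ℝ} (hε : 0 < ε) : ∃ C : ℝ, 0 ≤ C ∧ ∀ (j : ℕ) (s : ℂ),
      s.re = b →
      ‖Bf n S j s - (c (j + 1) 0 - pf n s * c j 0) * G s‖ ≤ C * (2 : ℝ) ^ ((ε - n) * (j : ℝ)) := by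
  obtain ⟨C, hC0, hC⟩ := right_E (n := n) h4 hb hε 0
  refine ⟨C * (2 : ℝ) ^ ε + C, by positivity, fun j s hs => ?_⟩
  have e1 : Bf n S j s - (c (j + 1) 0 - pf n s * c j 0) * G s =
      (Ef n S (j + 1) s - c (j + 1) 0 * G s) - pf n s * (Ef n S j s - c j 0 * G s) := by
    rw [Bf]; ring
  rw [e1]
  have hp : ‖pf n s‖ ≤ 1 := by
    rw [norm_pf, hs]
    have h0 : (0 : ℝ) ≤ n := n.cast_nonneg
    have : 2 * (n : ℝ) * (1 - b) ≤ 0 := by nlinarith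
    calc (2 : ℝ) ^ (2 * (n : ℝ) * (1 - b)) ≤ (2 : ℝ) ^ (0 : ℝ) := tw_mono this
      _ = 1 := Real.rpow_zero 2
  have a1 := hC (j + 1) 0 s (by simp) hs
  have a2 := hC j 0 s (by simp) hs
  calc ‖(Ef n S (j + 1) s - c (j + 1) 0 * G s) - pf n s * (Ef n S j s - c j 0 * G s)‖
      ≤ ‖Ef n S (j + 1) s - c (j + 1) 0 * G s‖ + ‖pf n s‖ * ‖Ef n S j s - c j 0 * G s‖ := by
        rw [← norm_mul]; exact norm_sub_le _ _
    _ ≤ C * ((2 : ℝ) ^ ε * (2 : ℝ) ^ ((ε - n) * (j : ℝ))) + 1 * (C * (2 : ℝ) ^ ((ε - n) * (j : ℝ))) := by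
        refine add_le_add (a1.trans ?_) (mul_le_mul hp a2 (norm_nonneg _) zero_le_one)
        exact mul_le_mul_of_nonneg_left (step_le n j) hC0
    _ = (C * (2 : ℝ) ^ ε + C) * (2 : ℝ) ^ ((ε - n) * (j : ℝ)) := by ring

/-- right line, `D j` -/
private lemma right_D {n : ℕ} {S : ℕ → ℂ → ℂ → ℂ} {c : ℕ → ℂ → ℂ} {G : ℂ → ℂ}
    (h4 : ∀ b : ℝ, 2 < b → ∀ ε : ℝ, 0 < ε → ∀ R : ℝ, ∃ C : ℝ, ∀ (j : ℕ) (z s : ℂ),
      ‖z‖ ≤ R → s.re = b →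
      ‖S j z s - c j z * (2 : ℂ) ^ (n * j) * G s‖ ≤ C * (2 : ℝ) ^ (ε * (j : ℝ)))
    (h5 : ∀ R : ℝ, ∃ C : ℝ, ∀ (j : ℕ) (z : ℂ), ‖z‖ ≤ R →
      ‖c j z‖ ≤ C ∧ ‖c (j + 1) z - c j z‖ ≤ C * (2 : ℝ) ^ (-((n : ℝ) * (j : ℝ))))
    (h6 : ∀ b : ℝ, 2 < b → ∃ C : ℝ, ∀ s : ℂ, s.re = b → ‖G s‖ ≤ C)
    {b : ℝ} (hb : 2 < b) {ε : ℝ} (hε : 0 < ε) : ∃ C : ℝ, 0 ≤ C ∧ ∀ (j : ℕ) (s : ℂ),
      s.re = b → ‖Df n S j s‖ ≤ C * (2 : ℝ) ^ ((ε - n) * (j : ℝ)) := by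
  obtain ⟨C, hC0, hC⟩ := right_B (n := n) h4 hb hε
  obtain ⟨C5, hC5⟩ := h5 0
  obtain ⟨C6, hC6⟩ := h6 b hb
  have hn0 : (0 : ℝ) ≤ n := n.cast_nonneg
  refine ⟨C * (2 : ℝ) ^ ε + C + 2 * |C5| * |C6|, by positivity, fun j s hs => ?_⟩
  have hp : ‖pf n s‖ ≤ 1 := by
    rw [norm_pf, hs]
    have : 2 * (n : ℝ) * (1 - b) ≤ 0 := by nlinarith
    calc (2 : ℝ) ^ (2 * (n : ℝ) * (1 - b)) ≤ (2 : ℝ) ^ (0 : ℝ) := tw_mono this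
      _ = 1 := Real.rpow_zero 2
  have d1 : ∀ i : ℕ, ‖c (i + 1) 0 - c i 0‖ ≤ |C5| * (2 : ℝ) ^ (-((n : ℝ) * (i : ℝ))) := fun i =>
    ((hC5 i 0 (by simp)).2).trans (mul_le_mul_of_nonneg_right (le_abs_self _) (tw_pos _).le)
  have e1 : Df n S j s =
      (Bf n S (j + 1) s - (c (j + 1 + 1) 0 - pf n s * c (j + 1) 0) * G s) -
      (Bf n S j s - (c (j + 1) 0 - pf n s * c j 0) * G s) +
      ((c (j + 1 + 1) 0 - c (j + 1) 0) - pf n s * (c (j + 1) 0 - c j 0)) * G s := by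
    rw [Df]; ring
  have d2 : ‖((c (j + 1 + 1) 0 - c (j + 1) 0) - pf n s * (c (j + 1) 0 - c j 0)) * G s‖ ≤
      2 * |C5| * |C6| * (2 : ℝ) ^ ((ε - n) * (j : ℝ)) := by
    rw [norm_mul]
    have x1 : ‖(c (j + 1 + 1) 0 - c (j + 1) 0) - pf n s * (c (j + 1) 0 - c j 0)‖ ≤
        2 * |C5| * (2 : ℝ) ^ ((ε - n) * (j : ℝ)) := by
      have y1 := d1 (j + 1)
      have y2 := d1 j
      have z1 : (2 : ℝ) ^ (-((n : ℝ) * ((j + 1 : ℕ) : ℝ))) ≤ (2 : ℝ) ^ ((ε - n) * (j : ℝ)) := by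
        refine tw_mono ?_
        have : (0 : ℝ) ≤ (j : ℝ) := j.cast_nonneg
        push_cast
        nlinarith [mul_nonneg hε.le this]
      have z2 : (2 : ℝ) ^ (-((n : ℝ) * (j : ℝ))) ≤ (2 : ℝ) ^ ((ε - n) * (j : ℝ)) := by
        refine tw_mono ?_
        have : (0 : ℝ) ≤ (j : ℝ) := j.cast_nonneg
        nlinarith [mul_nonneg hε.le this]
      calc ‖(c (j + 1 + 1) 0 - c (j + 1) 0) - pf n s * (c (j + 1) 0 - c j 0)‖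
          ≤ ‖c (j + 1 + 1) 0 - c (j + 1) 0‖ + ‖pf n s‖ * ‖c (j + 1) 0 - c j 0‖ := by
            rw [← norm_mul]; exact norm_sub_le _ _
        _ ≤ |C5| * (2 : ℝ) ^ ((ε - n) * (j : ℝ)) + 1 * (|C5| * (2 : ℝ) ^ ((ε - n) * (j : ℝ))) := by
            refine add_le_add (y1.trans (mul_le_mul_of_nonneg_left z1 (abs_nonneg _)))
              (mul_le_mul hp (y2.trans (mul_le_mul_of_nonneg_left z2 (abs_nonneg _)))
                (norm_nonneg _) zero_le_one)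
        _ = 2 * |C5| * (2 : ℝ) ^ ((ε - n) * (j : ℝ)) := by ring
    calc ‖(c (j + 1 + 1) 0 - c (j + 1) 0) - pf n s * (c (j + 1) 0 - c j 0)‖ * ‖G s‖
        ≤ (2 * |C5| * (2 : ℝ) ^ ((ε - n) * (j : ℝ))) * |C6| :=
          mul_le_mul x1 ((hC6 s hs).trans (le_abs_self _)) (norm_nonneg _)
            (mul_nonneg (by positivity) (tw_pos _).le)
      _ = 2 * |C5| * |C6| * (2 : ℝ) ^ ((ε - n) * (j : ℝ)) := by ring
  rw [e1]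
  have a1 := hC (j + 1) s hs
  have a2 := hC j s hs
  have a3 : C * (2 : ℝ) ^ ((ε - n) * ((j + 1 : ℕ) : ℝ)) ≤
      C * ((2 : ℝ) ^ ε * (2 : ℝ) ^ ((ε - n) * (j : ℝ))) :=
    mul_le_mul_of_nonneg_left (step_le n j) hC0
  refine (norm_add_le _ _).trans ((add_le_add ((norm_sub_le _ _).trans (add_le_add a1 a2)) d2).trans ?_)
  linarith [a3]

/-- left line, `E j` by the functional equation -/
private lemma left_E {n : ℕ} {Q : ℝ} {ε0 : ℂ} {S : ℕ → ℂ → ℂ → ℂ}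
    (h3 : ∀ (j : ℕ) (s : ℂ), S j 0 s =
      ε0 * (Q : ℂ) ^ (1 - s) * (2 : ℂ) ^ (2 * (n : ℂ) * (j : ℂ) * (1 - s)) *
        S j (2 * (1 - s)) (2 - s)) (j : ℕ) (s : ℂ) :
    Ef n S j s = ε0 * (Q : ℂ) ^ (1 - s) * (2 : ℂ) ^ (2 * (n : ℂ) * (j : ℂ) * (1 - s)) *
      (S j (2 * (1 - s)) (2 - s) / (2 : ℂ) ^ (n * j)) := by
  rw [Ef, h3, mul_div_assoc]

private lemma cpow_step (n j : ℕ) (s : ℂ) :
    (2 : ℂ) ^ (2 * (n : ℂ) * ((j + 1 : ℕ) : ℂ) * (1 - s)) =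
      pf n s * (2 : ℂ) ^ (2 * (n : ℂ) * (j : ℂ) * (1 - s)) := by
  rw [pf, ← Complex.cpow_add _ _ (by norm_num)]
  congr 1
  push_cast
  ring

private lemma left_B {n : ℕ} {Q : ℝ} {ε0 : ℂ} {S : ℕ → ℂ → ℂ → ℂ}
    (h3 : ∀ (j : ℕ) (s : ℂ), S j 0 s =
      ε0 * (Q : ℂ) ^ (1 - s) * (2 : ℂ) ^ (2 * (n : ℂ) * (j : ℂ) * (1 - s)) *
        S j (2 * (1 - s)) (2 - s)) (j : ℕ) (s : ℂ) :
    Bf n S j s = ε0 * (Q : ℂ) ^ (1 - s) * pf n s *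
      (2 : ℂ) ^ (2 * (n : ℂ) * (j : ℂ) * (1 - s)) *
      (S (j + 1) (2 * (1 - s)) (2 - s) / (2 : ℂ) ^ (n * (j + 1)) -
        S j (2 * (1 - s)) (2 - s) / (2 : ℂ) ^ (n * j)) := by
  rw [Bf, left_E h3, left_E h3, cpow_step]
  ring

private lemma norm_left {n : ℕ} {Q : ℝ} (hQ : 0 < Q) {ε0 : ℂ} (hε0 : ‖ε0‖ = 1) {η : ℝ} (j : ℕ)
    (s : ℂ) (hs : s.re = -η) (w : ℂ) :
    ‖ε0 * (Q : ℂ) ^ (1 - s) * pf n s * (2 : ℂ) ^ (2 * (n : ℂ) * (j : ℂ) * (1 - s)) * w‖ =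
      Q ^ (1 + η) * (2 : ℝ) ^ (2 * (n : ℝ) * (1 + η)) * (2 : ℝ) ^ (2 * (n : ℝ) * (1 + η) * (j : ℝ)) *
        ‖w‖ := by
  rw [norm_mul, norm_mul, norm_mul, norm_mul, hε0, norm_pf, norm_two_cpow,
    Complex.norm_cpow_eq_rpow_re_of_pos hQ, one_mul]
  have e1 : (1 - s).re = 1 + η := by simp [hs]
  have e2 : (2 * (n : ℂ) * (j : ℂ) * (1 - s)).re = 2 * (n : ℝ) * (1 + η) * (j : ℝ) := by
    have : (2 * (n : ℂ) * (j : ℂ) * (1 - s)) = ((2 * (n : ℝ) * (j : ℝ) : ℝ) : ℂ) * (1 - s) := by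
      push_cast; ring
    rw [this, Complex.re_ofReal_mul, e1]
    ring
  rw [e1, e2, hs]
  have e3 : 2 * (n : ℝ) * (1 - -η) = 2 * (n : ℝ) * (1 + η) := by ring
  rw [e3]

/-- left line, all heights -/
private lemma left_all {n : ℕ} {Q : ℝ} (hQ : 0 < Q) {ε0 : ℂ} (hε0 : ‖ε0‖ = 1)
    {S : ℕ → ℂ → ℂ → ℂ}
    (h3 : ∀ (j : ℕ) (s : ℂ), S j 0 s =
      ε0 * (Q : ℂ) ^ (1 - s) * (2 : ℂ) ^ (2 * (n : ℂ) * (j : ℂ) * (1 - s)) *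
        S j (2 * (1 - s)) (2 - s))
    (h7 : ∀ b : ℝ, 2 < b → ∀ x : ℝ, ∃ C : ℝ, ∀ (j : ℕ) (z s : ℂ), z.re = x → s.re = b →
      ‖S j z s‖ ≤ C * (2 : ℝ) ^ ((n : ℝ) * (j : ℝ))) {η : ℝ} (hη : 0 < η) :
    ∃ C : ℝ, 0 ≤ C ∧ ∀ (j : ℕ) (s : ℂ), s.re = -η →
      ‖Df n S j s‖ ≤ C * (2 : ℝ) ^ (2 * (n : ℝ) * (1 + η) * (j : ℝ)) := by
  obtain ⟨C7, hC7⟩ := h7 (2 + η) (by linarith) (2 * (1 + η))
  have hH : ∀ (j : ℕ) (s : ℂ), s.re = -η →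
      ‖S j (2 * (1 - s)) (2 - s) / (2 : ℂ) ^ (n * j)‖ ≤ |C7| := by
    intro j s hs
    have hz : (2 * (1 - s)).re = 2 * (1 + η) := by
      have : (2 * (1 - s)) = ((2 : ℝ) : ℂ) * (1 - s) := by push_cast; ring
      rw [this, Complex.re_ofReal_mul]
      simp [hs]
    have hs' : (2 - s).re = 2 + η := by simp [hs]
    rw [norm_div, tw_nat, div_le_iff₀ (tw_pos _)]
    exact (hC7 j _ _ hz hs').trans (mul_le_mul_of_nonneg_right (le_abs_self _) (tw_pos _).le)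
  obtain ⟨K, hK⟩ : ∃ K, K = Q ^ (1 + η) * (2 : ℝ) ^ (2 * (n : ℝ) * (1 + η)) := ⟨_, rfl⟩
  have hK0 : 0 ≤ K := by rw [hK]; positivity
  have hB : ∀ (j : ℕ) (s : ℂ), s.re = -η →
      ‖Bf n S j s‖ ≤ K * (2 * |C7|) * (2 : ℝ) ^ (2 * (n : ℝ) * (1 + η) * (j : ℝ)) := by
    intro j s hs
    rw [left_B h3, norm_left hQ hε0 j s hs, ← hK]
    have h8 : ‖S (j + 1) (2 * (1 - s)) (2 - s) / (2 : ℂ) ^ (n * (j + 1)) -
        S j (2 * (1 - s)) (2 - s) / (2 : ℂ) ^ (n * j)‖ ≤ 2 * |C7| := by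
      refine (norm_sub_le _ _).trans ?_
      have := add_le_add (hH (j + 1) s hs) (hH j s hs)
      linarith
    calc K * (2 : ℝ) ^ (2 * (n : ℝ) * (1 + η) * (j : ℝ)) * _
        ≤ K * (2 : ℝ) ^ (2 * (n : ℝ) * (1 + η) * (j : ℝ)) * (2 * |C7|) :=
          mul_le_mul_of_nonneg_left h8 (mul_nonneg hK0 (tw_pos _).le)
      _ = K * (2 * |C7|) * (2 : ℝ) ^ (2 * (n : ℝ) * (1 + η) * (j : ℝ)) := by ring
  refine ⟨K * (2 * |C7|) * (2 : ℝ) ^ (2 * (n : ℝ) * (1 + η)) + K * (2 * |C7|), by positivity,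
    fun j s hs => ?_⟩
  rw [Df]
  refine (norm_sub_le _ _).trans ((add_le_add (hB (j + 1) s hs) (hB j s hs)).trans ?_)
  have e : (2 : ℝ) ^ (2 * (n : ℝ) * (1 + η) * ((j + 1 : ℕ) : ℝ)) =
      (2 : ℝ) ^ (2 * (n : ℝ) * (1 + η)) * (2 : ℝ) ^ (2 * (n : ℝ) * (1 + η) * (j : ℝ)) := by
    rw [← tw_add]; congr 1; push_cast; ring
  rw [e]
  exact le_of_eq (by ring)

/-- left line, bounded height -/
private lemma left_T {n : ℕ} {Q : ℝ} (hQ : 0 < Q) {ε0 : ℂ} (hε0 : ‖ε0‖ = 1)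
    {S : ℕ → ℂ → ℂ → ℂ} {c : ℕ → ℂ → ℂ} {G : ℂ → ℂ}
    (h3 : ∀ (j : ℕ) (s : ℂ), S j 0 s =
      ε0 * (Q : ℂ) ^ (1 - s) * (2 : ℂ) ^ (2 * (n : ℂ) * (j : ℂ) * (1 - s)) *
        S j (2 * (1 - s)) (2 - s))
    (h4 : ∀ b : ℝ, 2 < b → ∀ ε : ℝ, 0 < ε → ∀ R : ℝ, ∃ C : ℝ, ∀ (j : ℕ) (z s : ℂ),
      ‖z‖ ≤ R → s.re = b →
      ‖S j z s - c j z * (2 : ℂ) ^ (n * j) * G s‖ ≤ C * (2 : ℝ) ^ (ε * (j : ℝ)))
    (h5 : ∀ R : ℝ, ∃ C : ℝ, ∀ (j : ℕ) (z : ℂ), ‖z‖ ≤ R →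
      ‖c j z‖ ≤ C ∧ ‖c (j + 1) z - c j z‖ ≤ C * (2 : ℝ) ^ (-((n : ℝ) * (j : ℝ))))
    (h6 : ∀ b : ℝ, 2 < b → ∃ C : ℝ, ∀ s : ℂ, s.re = b → ‖G s‖ ≤ C)
    {η : ℝ} (hη : 0 < η) {ε : ℝ} (hε : 0 < ε) (T : ℝ) :
    ∃ C : ℝ, 0 ≤ C ∧ ∀ (j : ℕ) (s : ℂ), s.re = -η → |s.im| ≤ T →
      ‖Df n S j s‖ ≤ C * (2 : ℝ) ^ (((n : ℝ) * (1 + 2 * η) + ε) * (j : ℝ)) := by
  obtain ⟨C4, hC40, hC4⟩ := right_E (n := n) h4 (b := 2 + η) (by linarith) hε (2 * (1 + η + T))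
  obtain ⟨C5, hC5⟩ := h5 (2 * (1 + η + T))
  obtain ⟨C6, hC6⟩ := h6 (2 + η) (by linarith)
  have hn0 : (0 : ℝ) ≤ n := n.cast_nonneg
  obtain ⟨K, hK⟩ : ∃ K, K = Q ^ (1 + η) * (2 : ℝ) ^ (2 * (n : ℝ) * (1 + η)) := ⟨_, rfl⟩
  have hK0 : 0 ≤ K := by rw [hK]; positivity
  obtain ⟨L, hL⟩ : ∃ L, L = C4 * (2 : ℝ) ^ ε + C4 + |C5| * |C6| := ⟨_, rfl⟩
  have hL0 : 0 ≤ L := by rw [hL]; positivity
  have hB : ∀ (j : ℕ) (s : ℂ), s.re = -η → |s.im| ≤ T →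
      ‖Bf n S j s‖ ≤ K * L * (2 : ℝ) ^ (((n : ℝ) * (1 + 2 * η) + ε) * (j : ℝ)) := by
    intro j s hs hT
    have hs' : (2 - s).re = 2 + η := by simp [hs]
    have hz : ‖2 * (1 - s)‖ ≤ 2 * (1 + η + T) := by
      rw [norm_mul, Complex.norm_ofNat]
      have h9 : ‖1 - s‖ ≤ |(1 - s).re| + |(1 - s).im| := Complex.norm_le_abs_re_add_abs_im _
      have h10 : |(1 - s).re| = 1 + η := by
        rw [Complex.sub_re, Complex.one_re, hs, abs_of_pos (by linarith)]; ring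
      have h11 : |(1 - s).im| = |s.im| := by
        rw [Complex.sub_im, Complex.one_im, zero_sub, abs_neg]
      rw [h10, h11] at h9
      linarith
    have a1 := hC4 (j + 1) _ _ hz hs'
    have a2 := hC4 j _ _ hz hs'
    have a3 := (hC5 j _ hz).2
    have a4 := (hC6 _ hs').trans (le_abs_self C6)
    have hj0 : (0 : ℝ) ≤ (j : ℝ) := j.cast_nonneg
    have hH : ‖S (j + 1) (2 * (1 - s)) (2 - s) / (2 : ℂ) ^ (n * (j + 1)) -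
        S j (2 * (1 - s)) (2 - s) / (2 : ℂ) ^ (n * j)‖ ≤ L * (2 : ℝ) ^ ((ε - n) * (j : ℝ)) := by
      have e1 : S (j + 1) (2 * (1 - s)) (2 - s) / (2 : ℂ) ^ (n * (j + 1)) -
          S j (2 * (1 - s)) (2 - s) / (2 : ℂ) ^ (n * j) =
          (S (j + 1) (2 * (1 - s)) (2 - s) / (2 : ℂ) ^ (n * (j + 1)) -
            c (j + 1) (2 * (1 - s)) * G (2 - s)) -
          (S j (2 * (1 - s)) (2 - s) / (2 : ℂ) ^ (n * j) - c j (2 * (1 - s)) * G (2 - s)) +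
          (c (j + 1) (2 * (1 - s)) - c j (2 * (1 - s))) * G (2 - s) := by ring
      rw [e1]
      have z2 : (2 : ℝ) ^ (-((n : ℝ) * (j : ℝ))) ≤ (2 : ℝ) ^ ((ε - n) * (j : ℝ)) := by
        refine tw_mono ?_
        nlinarith [mul_nonneg hε.le hj0]
      have a5 : ‖(c (j + 1) (2 * (1 - s)) - c j (2 * (1 - s))) * G (2 - s)‖ ≤
          |C5| * |C6| * (2 : ℝ) ^ ((ε - n) * (j : ℝ)) := by
        rw [norm_mul]
        calc ‖c (j + 1) (2 * (1 - s)) - c j (2 * (1 - s))‖ * ‖G (2 - s)‖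
            ≤ (|C5| * (2 : ℝ) ^ ((ε - n) * (j : ℝ))) * |C6| := by
              refine mul_le_mul (a3.trans ?_) a4 (norm_nonneg _)
                (mul_nonneg (abs_nonneg _) (tw_pos _).le)
              exact mul_le_mul (le_abs_self _) z2 (tw_pos _).le (abs_nonneg _)
          _ = |C5| * |C6| * (2 : ℝ) ^ ((ε - n) * (j : ℝ)) := by ring
      have a6 : C4 * (2 : ℝ) ^ ((ε - n) * ((j + 1 : ℕ) : ℝ)) ≤
          C4 * ((2 : ℝ) ^ ε * (2 : ℝ) ^ ((ε - n) * (j : ℝ))) :=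
        mul_le_mul_of_nonneg_left (step_le n j) hC40
      refine (norm_add_le _ _).trans
        ((add_le_add ((norm_sub_le _ _).trans (add_le_add (a1.trans a6) a2)) a5).trans ?_)
      rw [hL]
      exact le_of_eq (by ring)
    rw [left_B h3, norm_left hQ hε0 j s hs, ← hK]
    calc K * (2 : ℝ) ^ (2 * (n : ℝ) * (1 + η) * (j : ℝ)) * _
        ≤ K * (2 : ℝ) ^ (2 * (n : ℝ) * (1 + η) * (j : ℝ)) * (L * (2 : ℝ) ^ ((ε - n) * (j : ℝ))) :=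
          mul_le_mul_of_nonneg_left hH (mul_nonneg hK0 (tw_pos _).le)
      _ = K * L * ((2 : ℝ) ^ (2 * (n : ℝ) * (1 + η) * (j : ℝ)) * (2 : ℝ) ^ ((ε - n) * (j : ℝ))) := by
          ring
      _ = K * L * (2 : ℝ) ^ (((n : ℝ) * (1 + 2 * η) + ε) * (j : ℝ)) := by
          rw [← tw_add]; congr 2; ring
  refine ⟨K * L * (2 : ℝ) ^ ((n : ℝ) * (1 + 2 * η) + ε) + K * L, by positivity,
    fun j s hs hT => ?_⟩
  rw [Df]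
  refine (norm_sub_le _ _).trans ((add_le_add (hB (j + 1) s hs hT) (hB j s hs hT)).trans ?_)
  have e : (2 : ℝ) ^ (((n : ℝ) * (1 + 2 * η) + ε) * ((j + 1 : ℕ) : ℝ)) =
      (2 : ℝ) ^ ((n : ℝ) * (1 + 2 * η) + ε) * (2 : ℝ) ^ (((n : ℝ) * (1 + 2 * η) + ε) * (j : ℝ)) := by
    rw [← tw_add]; congr 1; push_cast; ring
  rw [e]
  exact le_of_eq (by ring)

private lemma pow_rpow (j : ℕ) (ρ : ℝ) : ((2 : ℝ) ^ j) ^ ρ = (2 : ℝ) ^ (ρ * (j : ℝ)) := by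
  rw [← Real.rpow_natCast, ← Real.rpow_mul (by norm_num), mul_comm]

/-- the estimate inside the strip -/
private lemma inside {n : ℕ} (hn : 1 ≤ n) {Q : ℝ} (hQ : 0 < Q) {ε0 : ℂ}
    (hε0 : ‖ε0‖ = 1) {S : ℕ → ℂ → ℂ → ℂ} {c : ℕ → ℂ → ℂ} {G : ℂ → ℂ}
    (h1 : ∀ j, Differentiable ℂ (S j 0))
    (h2 : ∀ j (a b : ℝ), ∃ M : ℝ, ∀ s : ℂ, a ≤ s.re → s.re ≤ b → ‖S j 0 s‖ ≤ M)
    (h3 : ∀ (j : ℕ) (s : ℂ), S j 0 s =
      ε0 * (Q : ℂ) ^ (1 - s) * (2 : ℂ) ^ (2 * (n : ℂ) * (j : ℂ) * (1 - s)) *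
        S j (2 * (1 - s)) (2 - s))
    (h4 : ∀ b : ℝ, 2 < b → ∀ ε : ℝ, 0 < ε → ∀ R : ℝ, ∃ C : ℝ, ∀ (j : ℕ) (z s : ℂ),
      ‖z‖ ≤ R → s.re = b →
      ‖S j z s - c j z * (2 : ℂ) ^ (n * j) * G s‖ ≤ C * (2 : ℝ) ^ (ε * (j : ℝ)))
    (h5 : ∀ R : ℝ, ∃ C : ℝ, ∀ (j : ℕ) (z : ℂ), ‖z‖ ≤ R →
      ‖c j z‖ ≤ C ∧ ‖c (j + 1) z - c j z‖ ≤ C * (2 : ℝ) ^ (-((n : ℝ) * (j : ℝ))))
    (h6 : ∀ b : ℝ, 2 < b → ∃ C : ℝ, ∀ s : ℂ, s.re = b → ‖G s‖ ≤ C)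
    (h7 : ∀ b : ℝ, 2 < b → ∀ x : ℝ, ∃ C : ℝ, ∀ (j : ℕ) (z s : ℂ), z.re = x → s.re = b →
      ‖S j z s‖ ≤ C * (2 : ℝ) ^ ((n : ℝ) * (j : ℝ))) {η : ℝ} (hη : 0 < η) (T0 : ℝ) :
    ∃ C : ℝ, 0 ≤ C ∧ ∀ (j : ℕ) (s : ℂ), 1 + 2 * η ≤ s.re → s.re ≤ 2 + η → |s.im| ≤ T0 →
      ‖Df n S j s‖ ≤ C * ((2 : ℝ) ^ (-((n : ℝ) * η / 2))) ^ j := by
  have hn0 : (0 : ℝ) < n := by exact_mod_cast hn
  have hε : 0 < (n : ℝ) * η / 4 := by positivity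
  obtain ⟨T1, hT1⟩ := three_lines (a := -η) (b := 2 + η) (by linarith)
    ((n : ℝ) * (1 + 2 * η) + (n : ℝ) * η / 4) ((n : ℝ) * η / 4 - n) (2 * (n : ℝ) * (1 + η))
    hε T0
  obtain ⟨C1, hC10, hC1⟩ := right_D (n := n) h4 h5 h6 (b := 2 + η) (by linarith) hε
  obtain ⟨C2, hC20, hC2⟩ := left_T (n := n) hQ hε0 h3 h4 h5 h6 hη hε T1
  obtain ⟨C3, hC30, hC3⟩ := left_all (n := n) hQ hε0 h3 h7 hη
  have hC : 0 < C1 + C2 + C3 + 1 := by linarith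
  refine ⟨C1 + C2 + C3 + 1, hC.le, fun j s hs1 hs2 hs3 => ?_⟩
  have key := hT1 ((2 : ℝ) ^ j) (C1 + C2 + C3 + 1) (Df n S j) (one_le_pow₀ (by norm_num)) hC
    (diff_Df h1 j) (bdd_Df h2 j _ _)
    (fun z hz => by
      rw [pow_rpow]
      exact (hC1 j z hz).trans (mul_le_mul_of_nonneg_right (by linarith) (tw_pos _).le))
    (fun z hz hz2 => by
      rw [pow_rpow]
      exact (hC2 j z hz hz2).trans (mul_le_mul_of_nonneg_right (by linarith) (tw_pos _).le))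
    (fun z hz => by
      rw [pow_rpow]
      exact (hC3 j z hz).trans (mul_le_mul_of_nonneg_right (by linarith) (tw_pos _).le))
    s (by linarith) hs2 hs3
  refine key.trans (mul_le_mul_of_nonneg_left ?_ hC.le)
  rw [pow_rpow, ← Real.rpow_natCast, ← Real.rpow_mul (by norm_num)]
  refine tw_mono ?_
  have hj0 : (0 : ℝ) ≤ (j : ℝ) := j.cast_nonneg
  refine mul_le_mul_of_nonneg_right ?_ hj0
  have e1 : (((n : ℝ) * (1 + 2 * η) + (n : ℝ) * η / 4) * (2 + η - s.re) +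
      ((n : ℝ) * η / 4 - n) * (s.re - -η)) / (2 + η - -η) =
      (n : ℝ) * (1 + η - s.re) + (n : ℝ) * η / 4 := by
    have : (2 + η - -η) ≠ 0 := by
      have : 0 < 2 + η - -η := by linarith
      exact this.ne'
    rw [div_eq_iff this]
    ring
  rw [e1]
  nlinarith

private lemma tend_B {n : ℕ} (hn : 1 ≤ n) {S : ℕ → ℂ → ℂ → ℂ} {c : ℕ → ℂ → ℂ} {G : ℂ → ℂ}
    (h4 : ∀ b : ℝ, 2 < b → ∀ ε : ℝ, 0 < ε → ∀ R : ℝ, ∃ C : ℝ, ∀ (j : ℕ) (z s : ℂ),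
      ‖z‖ ≤ R → s.re = b →
      ‖S j z s - c j z * (2 : ℂ) ^ (n * j) * G s‖ ≤ C * (2 : ℝ) ^ (ε * (j : ℝ)))
    {cinf : ℂ} (hc : Tendsto (fun j => c j 0) atTop (𝓝 cinf)) (s : ℂ) (hs : 2 < s.re) :
    Tendsto (fun j => Bf n S j s) atTop (𝓝 (cinf * G s * (1 - pf n s))) := by
  have hn0 : (0 : ℝ) < n := by exact_mod_cast hn
  obtain ⟨C, hC0, hC⟩ := right_B (n := n) h4 hs (ε := (n : ℝ) / 2) (by positivity)
  have h1 : Tendsto (fun j => (c (j + 1) 0 - pf n s * c j 0) * G s) atTop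
      (𝓝 ((cinf - pf n s * cinf) * G s)) :=
    (((tendsto_add_atTop_iff_nat 1).mpr hc).sub (hc.const_mul _)).mul_const _
  have h2 : Tendsto (fun j => Bf n S j s - (c (j + 1) 0 - pf n s * c j 0) * G s) atTop (𝓝 0) := by
    refine squeeze_zero_norm (a := fun j : ℕ => C * ((2 : ℝ) ^ (-((n : ℝ) / 2))) ^ j)
      (fun j => ?_) ?_
    · refine (hC j s rfl).trans (le_of_eq ?_)
      rw [← Real.rpow_natCast, ← Real.rpow_mul (by norm_num)]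
      congr 2
      ring
    · have h3 : (2 : ℝ) ^ (-((n : ℝ) / 2)) < 1 :=
        Real.rpow_lt_one_of_one_lt_of_neg (by norm_num) (by linarith)
      have h4' := tendsto_pow_atTop_nhds_zero_of_lt_one (tw_pos (-((n : ℝ) / 2))).le h3
      simpa using h4'.const_mul C
  have h3 := h2.add h1
  rw [zero_add] at h3
  refine (h3.congr fun j => by ring).trans (le_of_eq ?_)
  congr 1
  ring

theorem abstract_continuation {n : ℕ} (hn : 1 ≤ n) {Q : ℝ} (hQ : 0 < Q) {ε0 : ℂ}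
    (hε0 : ‖ε0‖ = 1) (S : ℕ → ℂ → ℂ → ℂ) (c : ℕ → ℂ → ℂ) (G : ℂ → ℂ)
    (h1 : ∀ j, Differentiable ℂ (S j 0))
    (h2 : ∀ j (a b : ℝ), ∃ M : ℝ, ∀ s : ℂ, a ≤ s.re → s.re ≤ b → ‖S j 0 s‖ ≤ M)
    (h3 : ∀ (j : ℕ) (s : ℂ), S j 0 s =
      ε0 * (Q : ℂ) ^ (1 - s) * (2 : ℂ) ^ (2 * (n : ℂ) * (j : ℂ) * (1 - s)) *
        S j (2 * (1 - s)) (2 - s))
    (h4 : ∀ b : ℝ, 2 < b → ∀ ε : ℝ, 0 < ε → ∀ R : ℝ, ∃ C : ℝ, ∀ (j : ℕ) (z s : ℂ),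
      ‖z‖ ≤ R → s.re = b →
      ‖S j z s - c j z * (2 : ℂ) ^ (n * j) * G s‖ ≤ C * (2 : ℝ) ^ (ε * (j : ℝ)))
    (h5 : ∀ R : ℝ, ∃ C : ℝ, ∀ (j : ℕ) (z : ℂ), ‖z‖ ≤ R →
      ‖c j z‖ ≤ C ∧ ‖c (j + 1) z - c j z‖ ≤ C * (2 : ℝ) ^ (-((n : ℝ) * (j : ℝ))))
    (h6 : ∀ b : ℝ, 2 < b → ∃ C : ℝ, ∀ s : ℂ, s.re = b → ‖G s‖ ≤ C)
    (h7 : ∀ b : ℝ, 2 < b → ∀ x : ℝ, ∃ C : ℝ, ∀ (j : ℕ) (z s : ℂ), z.re = x → s.re = b →
      ‖S j z s‖ ≤ C * (2 : ℝ) ^ ((n : ℝ) * (j : ℝ))) :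
    ∃ (F : ℂ → ℂ) (cinf : ℂ), DifferentiableOn ℂ F {s : ℂ | 1 < s.re ∧ s.re < 3} ∧
      Tendsto (fun j => c j 0) atTop (𝓝 cinf) ∧
      ∀ s : ℂ, 2 < s.re → s.re < 3 →
        F s = cinf * G s * (1 - (2 : ℂ) ^ (2 * (n : ℂ) * (1 - s))) := by
  classical
  -- the limit of `c j 0`
  have hn0 : (0 : ℝ) < n := by exact_mod_cast hn
  have hr1 : (2 : ℝ) ^ (-(n : ℝ)) < 1 :=
    Real.rpow_lt_one_of_one_lt_of_neg (by norm_num) (by linarith)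
  obtain ⟨C5, hC5⟩ := h5 0
  have hcau : CauchySeq (fun j => c j 0) := by
    refine cauchySeq_of_le_geometric ((2 : ℝ) ^ (-(n : ℝ))) C5 hr1 (fun j => ?_)
    rw [dist_comm, dist_eq_norm]
    refine ((hC5 j 0 (by simp)).2).trans (le_of_eq ?_)
    rw [← Real.rpow_natCast, ← Real.rpow_mul (by norm_num)]
    congr 2
    ring
  obtain ⟨cinf, hcinf⟩ := cauchySeq_tendsto_of_complete hcau
  -- summability of the differences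
  have hsum : ∀ s0 : ℂ, 1 < s0.re → s0.re < 3 → ∃ (U : Set ℂ) (u : ℕ → ℝ), IsOpen U ∧ s0 ∈ U ∧
      Summable u ∧ ∀ j, ∀ s ∈ U, ‖Df n S j s‖ ≤ u j := by
    intro s0 hs1 hs3
    obtain ⟨η, hη0, hη1, hη2⟩ : ∃ η : ℝ, 0 < η ∧ 1 + 2 * η < s0.re ∧ s0.re < 2 + η := by
      rcases lt_or_ge s0.re 2 with h | h
      · exact ⟨(s0.re - 1) / 4, by linarith, by linarith, by linarith⟩
      · refine ⟨((s0.re - 1) / 2 + (s0.re - 2)) / 2, by linarith, by linarith, by linarith⟩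
    obtain ⟨C, hC0, hC⟩ := inside hn hQ hε0 h1 h2 h3 h4 h5 h6 h7 hη0 (|s0.im| + 1)
    have hr : (2 : ℝ) ^ (-((n : ℝ) * η / 2)) < 1 :=
      Real.rpow_lt_one_of_one_lt_of_neg (by norm_num) (by
        have : 0 < (n : ℝ) * η / 2 := by positivity
        linarith)
    refine ⟨{s : ℂ | 1 + 2 * η < s.re} ∩ {s : ℂ | s.re < 2 + η} ∩ {s : ℂ | |s.im| < |s0.im| + 1},
      fun j => C * ((2 : ℝ) ^ (-((n : ℝ) * η / 2))) ^ j, ?_, ?_, ?_, ?_⟩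
    · exact ((isOpen_lt continuous_const Complex.continuous_re).inter
        (isOpen_lt Complex.continuous_re continuous_const)).inter
        (isOpen_lt (continuous_abs.comp Complex.continuous_im) continuous_const)
    · exact ⟨⟨hη1, hη2⟩, by simp⟩
    · exact (summable_geometric_of_lt_one (tw_pos _).le hr).mul_left C
    · intro j s hs
      exact hC j s hs.1.1.le hs.1.2.le hs.2.le
  refine ⟨fun s => Bf n S 0 s + ∑' j, Df n S j s, cinf, ?_, hcinf, ?_⟩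
  · intro s0 hs0
    obtain ⟨U, u, hU, hmem, hu, hle⟩ := hsum s0 hs0.1 hs0.2
    have hd : DifferentiableOn ℂ (fun s => ∑' j, Df n S j s) U :=
      Complex.differentiableOn_tsum_of_summable_norm hu (fun j => (diff_Df h1 j).differentiableOn) hU
        (fun j s hs => hle j s hs)
    have hd2 : DifferentiableAt ℂ (fun s => ∑' j, Df n S j s) s0 :=
      hd.differentiableAt (hU.mem_nhds hmem)
    exact ((diff_Bf h1 0 s0).add hd2).differentiableWithinAt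
  · intro s hs2 hs3
    obtain ⟨U, u, hU, hmem, hu, hle⟩ := hsum s (by linarith) hs3
    have hsm : Summable (fun j => Df n S j s) := Summable.of_norm_bounded hu (fun j => hle j s hmem)
    have ht : Tendsto (fun m => ∑ j ∈ Finset.range m, Df n S j s) atTop (𝓝 (∑' j, Df n S j s)) :=
      hsm.hasSum.tendsto_sum_nat
    have htel : ∀ m, Bf n S 0 s + ∑ j ∈ Finset.range m, Df n S j s = Bf n S m s := by
      intro m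
      have := Finset.sum_range_sub (fun j => Bf n S j s) m
      have h8 : ∑ j ∈ Finset.range m, Df n S j s = Bf n S m s - Bf n S 0 s := this
      rw [h8]; ring
    have ht2 : Tendsto (fun m => Bf n S m s) atTop (𝓝 (Bf n S 0 s + ∑' j, Df n S j s)) :=
      (ht.const_add _).congr htel
    exact tendsto_nhds_unique ht2 (tend_B hn h4 hcinf s hs2)

end Pool.Agent.HWR
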