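import Pool.Agent.HWR.Defs

/-!
# HWR-PL: Phragmen-Lindelof for functions of finite order in strips

PLAN: `PhragmenLindelof.vertical_strip`; growth: `‖f s‖ ≤ exp (C (1+|t|)^A) ≤ exp (B exp (c |t|))`
with `c = π / (2 (b-a))` (`(1+|t|)^A ≤ B' exp (c |t|)`; `C` or `A` may be negative).
-/

namespace Pool.Agent.HWR

open Filter Asymptotics in
theorem bounded_of_edges {f : ℂ → ℂ} (hf : Differentiable ℂ f) {a b : ℝ} (hab : a < b)
    (ho : ∃ A C : ℝ, ∀ s : ℂ, a ≤ s.re → s.re ≤ b → ‖f s‖ ≤ Real.exp (C * (1 + |s.im|) ^ A))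
    {M : ℝ} (ha : ∀ s : ℂ, s.re = a → ‖f s‖ ≤ M) (hb : ∀ s : ℂ, s.re = b → ‖f s‖ ≤ M) :
    ∀ s : ℂ, a ≤ s.re → s.re ≤ b → ‖f s‖ ≤ M := by
  obtain ⟨A, C, hAC⟩ := ho
  intro s hsa hsb
  have hba : 0 < b - a := by linarith
  have hc0 : 0 < Real.pi / (2 * (b - a)) := by positivity
  refine PhragmenLindelof.vertical_strip hf.diffContOnCl
    ⟨Real.pi / (2 * (b - a)), ?_, Real.exp (Real.pi / (2 * (b - a))), ?_⟩ ha hb hsa hsb
  · rw [div_lt_div_iff₀ (by positivity) hba]
    nlinarith [mul_pos Real.pi_pos hba]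
  · set c := Real.pi / (2 * (b - a)) with hc
    have h1 := (isLittleO_rpow_exp_pos_mul_atTop A hc0).bound
      (show (0 : ℝ) < 1 / (|C| + 1) by positivity)
    have h2 : ∀ᶠ x : ℝ in atTop, C * (1 + x) ^ A ≤ Real.exp c * Real.exp (c * x) := by
      have h3 : Tendsto (fun x : ℝ => 1 + x) atTop atTop := tendsto_atTop_add_const_left _ _ tendsto_id
      filter_upwards [h3.eventually h1, eventually_ge_atTop 0] with x hx hx0
      have h4 : (0 : ℝ) ≤ (1 + x) ^ A := Real.rpow_nonneg (by linarith) _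
      rw [Real.norm_of_nonneg h4, Real.norm_of_nonneg (Real.exp_pos _).le] at hx
      have h5 : (|C| + 1) * (1 + x) ^ A ≤ Real.exp (c * (1 + x)) := by
        rw [div_mul_eq_mul_div, one_mul, le_div_iff₀ (by positivity)] at hx
        linarith
      calc C * (1 + x) ^ A ≤ (|C| + 1) * (1 + x) ^ A := by
            apply mul_le_mul_of_nonneg_right _ h4
            linarith [le_abs_self C]
        _ ≤ Real.exp (c * (1 + x)) := h5
        _ = Real.exp c * Real.exp (c * x) := by rw [← Real.exp_add]; congr 1; ring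
    have h6 : ∀ᶠ z : ℂ in comap (abs ∘ Complex.im) atTop,
        C * (1 + |z.im|) ^ A ≤ Real.exp c * Real.exp (c * |z.im|) :=
      (tendsto_comap (f := abs ∘ Complex.im)).eventually h2
    apply IsBigO.of_bound 1
    rw [eventually_inf_principal]
    filter_upwards [h6] with z hz hz2
    rw [one_mul, Real.norm_of_nonneg (Real.exp_pos _).le]
    exact (hAC z hz2.1.le hz2.2.le).trans (Real.exp_le_exp.mpr hz)

end Pool.Agent.HWR
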