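import Pool.Agent.HWR.Defs

/-!
# HWR-DAT: existence of the family data

PLAN. Let `p` be a prime number not in `T` (T finite), `p ≠ 2`, and `q` a maximal ideal of `𝓞 K`
containing `p` (`Ideal.exists_le_maximal`, `p` is not a unit; it is nonzero because `p ≠ 0`).
`Away`: if `r ∈ T` lies in `q` then `1 ∈ q` because `r` and `p` are coprime integers (`r` prime,
`r ≠ p`).
The residue field `𝓞 K / q` is finite (`Ideal.finiteQuotientOfFreeOfNeBot` or
`Ring.HasFiniteQuotients`) of odd characteristic `p`, so it has a nonsquare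
(`FiniteField.exists_nonsquare`); lift it to `ν : 𝓞 K`.
The ideals `(R)`, `R = 8 ∏ p`, and `q` are coprime (as `R ∉ q`: all prime factors of `R` lie in
`T ∪ {2}` and `2 ∈ T`), so CRT gives `δ1 ≡ 1` mod `R`, `δ1 ≡ ν` mod `q`
(`Ideal.IsMaximal.coprime_of_ne`, `Ideal.quotientInfEquivQuotientProd` or
`Ideal.isCoprime_iff_exists`: `1 = i + j` and take `δ1 = 1 * j' + ν * i'`).
`nonres`: `δ1 - x^2 ∈ q` would give `ν = x^2` in the residue field.

`I0_ne_bot`, `not_mem`: `δ1 ∉ I0` since otherwise `1 ∈ (R)`, i.e. `R` a unit, impossible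
(norm of `R` is `R^n`, or: `2 ∣ R`, `2` lies in some maximal ideal).
`unit_at`: for `δ - δ1 ∈ I0` and `v` not in `P` (i.e. `v` over `T`, or `v = q`), `δ ∉ v`:
`v` over `T`: `R ∈ v` (an element of `T` lies in `v`) and `δ ≡ 1` mod `R`;
`v = q`: `δ ∈ q` contradicts `nonres 0`.
`not_le`: for `v ∈ P`: `I0` is not contained in `v` (else `R ∈ v` or `q ≤ v`, i.e. `q = v`).
-/

namespace Pool.Agent.HWR

open NumberField IsDedekindDomain

theorem dat_not_unit (K : Type) [Field K] [NumberField K] {p : ℕ} (hp : p.Prime) :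
    ¬ IsUnit ((p : ℕ) : 𝓞 K) := by
  intro h
  have h1 : IsUnit (Algebra.norm ℤ ((p : ℕ) : 𝓞 K)) := h.map (Algebra.norm ℤ)
  have h2 : ((p : ℕ) : 𝓞 K) = algebraMap ℤ (𝓞 K) (p : ℤ) := by simp
  rw [h2, Algebra.norm_algebraMap] at h1
  have h3 : Module.finrank ℤ (𝓞 K) ≠ 0 := by
    rw [RingOfIntegers.rank]
    exact Module.finrank_pos.ne'
  have h4 : IsUnit (p : ℤ) := (isUnit_pow_iff h3).1 h1
  exact (Nat.prime_iff_prime_int.1 hp).not_unit h4

theorem dat_prod_not_mem {K : Type} [Field K] [NumberField K] {T : Finset ℕ} (h2 : 2 ∈ T)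
    {v : HeightOneSpectrum (𝓞 K)} (hv : Away K T v) :
    (((8 * ∏ p ∈ T, p : ℕ)) : 𝓞 K) ∉ v.asIdeal := by
  intro h
  have hpr := v.isPrime
  rw [Nat.cast_mul] at h
  rcases hpr.mem_or_mem h with h | h
  · have h3 : ((8 : ℕ) : 𝓞 K) = ((2 : ℕ) : 𝓞 K) ^ 3 := by norm_num
    rw [h3] at h
    exact hv 2 h2 (hpr.mem_of_pow_mem 3 h)
  · rw [Nat.cast_prod] at h
    obtain ⟨p, hp, hpv⟩ := (Ideal.IsPrime.prod_mem_iff (hp := hpr)).1 h
    exact hv p hp hpv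

theorem exists_dat (K : Type) [Field K] [NumberField K] (T : Finset ℕ)
    (hTp : ∀ p ∈ T, p.Prime) (h2 : 2 ∈ T) : Nonempty (Dat K T) := by
  classical
  obtain ⟨p, hpT, hp⟩ := Nat.exists_infinite_primes (T.sup id + 1)
  have hpn : p ∉ T := by
    intro h
    have : p ≤ T.sup id := Finset.le_sup (f := id) h
    omega
  have hne : Ideal.span {((p : ℕ) : 𝓞 K)} ≠ ⊤ := by
    intro h
    exact dat_not_unit K hp (Ideal.span_singleton_eq_top.1 h)
  obtain ⟨M, hM, hpM⟩ := Ideal.exists_le_maximal _ hne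
  have hpM' : ((p : ℕ) : 𝓞 K) ∈ M := hpM (Ideal.mem_span_singleton_self _)
  have hMb : M ≠ ⊥ := by
    intro h
    rw [h, Ideal.mem_bot] at hpM'
    have : (p : ℕ) = 0 := by exact_mod_cast hpM'
    exact hp.ne_zero this
  let q : HeightOneSpectrum (𝓞 K) := ⟨M, hM.isPrime, hMb⟩
  have hq : Away K T q := by
    intro r hr hrM
    have hrp : r.Prime := hTp r hr
    have hne' : r ≠ p := fun h => hpn (h ▸ hr)
    have hcop : IsCoprime (r : ℤ) (p : ℤ) := by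
      rw [Nat.isCoprime_iff_coprime]
      exact (Nat.coprime_primes hrp hp).2 hne'
    obtain ⟨x, y, hxy⟩ := hcop
    have h1 : (1 : 𝓞 K) ∈ M := by
      have h3 : ((x * r + y * p : ℤ) : 𝓞 K) = 1 := by rw [hxy]; simp
      rw [← h3]
      push_cast
      exact M.add_mem (M.mul_mem_left _ hrM) (M.mul_mem_left _ hpM')
    exact hM.ne_top ((Ideal.eq_top_iff_one M).2 h1)
  have hR : (((8 * ∏ p ∈ T, p : ℕ)) : 𝓞 K) ∉ M := dat_prod_not_mem (v := q) h2 hq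
  obtain ⟨y, i, hi, hyi⟩ := hM.exists_inv hR
  -- a nonsquare in the residue field
  letI : Field (𝓞 K ⧸ M) := Ideal.Quotient.field M
  haveI : Finite (𝓞 K ⧸ M) := Ideal.finiteQuotientOfFreeOfNeBot M hMb
  have hchar : ringChar (𝓞 K ⧸ M) ≠ 2 := by
    intro h
    have h3 : ((ringChar (𝓞 K ⧸ M) : ℕ) : 𝓞 K ⧸ M) = 0 := ringChar.Nat.cast_ringChar
    rw [h] at h3
    have h4 : Ideal.Quotient.mk M ((2 : ℕ) : 𝓞 K) = 0 := by
      rw [map_natCast]; exact h3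
    exact hq 2 h2 (Ideal.Quotient.eq_zero_iff_mem.1 h4)
  obtain ⟨a, ha⟩ := FiniteField.exists_nonsquare hchar
  obtain ⟨ν, rfl⟩ := Ideal.Quotient.mk_surjective a
  refine ⟨⟨q, i + y * (((8 * ∏ p ∈ T, p : ℕ)) : 𝓞 K) * ν, hq, ?_, ?_⟩⟩
  · rw [Ideal.mem_span_singleton]
    refine ⟨y * (ν - 1), ?_⟩
    have : i = 1 - y * (((8 * ∏ p ∈ T, p : ℕ)) : 𝓞 K) := by rw [← hyi]; ring
    rw [this]
    ring
  · intro x hx
    apply ha
    refine ⟨Ideal.Quotient.mk M x, ?_⟩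
    rw [← map_mul, Ideal.Quotient.eq]
    have h3 : ν - x * x = (i + y * (((8 * ∏ p ∈ T, p : ℕ)) : 𝓞 K) * ν - x ^ 2) - i * (1 - ν) := by
      have : y * (((8 * ∏ p ∈ T, p : ℕ)) : 𝓞 K) = 1 - i := by rw [← hyi]; ring
      rw [this]
      ring
    rw [h3]
    exact M.sub_mem hx (M.mul_mem_right _ hi)

variable {K : Type} [Field K] [NumberField K] {T : Finset ℕ}

theorem Dat.I0_le_q (D : Dat K T) : D.I0 ≤ D.q.asIdeal := Ideal.mul_le_right

theorem Dat.I0_le_R (D : Dat K T) : D.I0 ≤ Ideal.span {(((8 * ∏ p ∈ T, p : ℕ)) : 𝓞 K)} :=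
  Ideal.mul_le_left

theorem Dat.I0_ne_bot (D : Dat K T) (hTp : ∀ p ∈ T, p.Prime) : D.I0 ≠ ⊥ := by
  unfold Dat.I0
  rw [Ne, Ideal.mul_eq_bot, not_or]
  refine ⟨?_, D.q.ne_bot⟩
  rw [Ideal.span_singleton_eq_bot]
  have h : (8 * ∏ p ∈ T, p : ℕ) ≠ 0 :=
    mul_ne_zero (by norm_num) (Finset.prod_ne_zero_iff.2 fun p hp => (hTp p hp).ne_zero)
  exact_mod_cast h

theorem Dat.not_mem (D : Dat K T) : D.δ1 ∉ D.I0 := by
  intro h
  apply D.nonres 0
  have := D.I0_le_q h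
  simpa using this

theorem Dat.one' (D : Dat K T) {δ : 𝓞 K} (hδ : δ - D.δ1 ∈ D.I0) :
    δ - 1 ∈ Ideal.span {(((8 * ∏ p ∈ T, p : ℕ)) : 𝓞 K)} := by
  have h : δ - 1 = (δ - D.δ1) + (D.δ1 - 1) := by ring
  rw [h]
  exact Ideal.add_mem _ (D.I0_le_R hδ) D.one

theorem Dat.nonres' (D : Dat K T) {δ : 𝓞 K} (hδ : δ - D.δ1 ∈ D.I0) (x : 𝓞 K) :
    δ - x ^ 2 ∉ D.q.asIdeal := by
  intro h
  apply D.nonres x
  have h1 : D.δ1 - x ^ 2 = (δ - x ^ 2) - (δ - D.δ1) := by ring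
  rw [h1]
  exact Ideal.sub_mem _ h (D.I0_le_q hδ)

theorem Dat.unit_at (D : Dat K T) {δ : 𝓞 K} (hδ : δ - D.δ1 ∈ D.I0)
    (v : HeightOneSpectrum (𝓞 K)) (hv : ¬ (Away K T v ∧ v ≠ D.q)) : δ ∉ v.asIdeal := by
  intro hmem
  by_cases hvq : v = D.q
  · apply D.nonres' hδ 0
    subst hvq
    simpa using hmem
  · have hA : ¬ Away K T v := fun h => hv ⟨h, hvq⟩
    unfold Away at hA
    push Not at hA
    obtain ⟨p, hp, hpv⟩ := hA
    have h1 : (((8 * ∏ p ∈ T, p : ℕ)) : 𝓞 K) ∈ v.asIdeal := by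
      rw [← Finset.mul_prod_erase T (fun p => p) hp]
      have : ((8 * (p * ∏ x ∈ T.erase p, x) : ℕ) : 𝓞 K) =
          (8 * ((∏ x ∈ T.erase p, x : ℕ) : 𝓞 K)) * ((p : ℕ) : 𝓞 K) := by
        push_cast; ring
      rw [this]
      exact Ideal.mul_mem_left _ _ hpv
    have h2 : δ - 1 ∈ v.asIdeal := by
      have := D.one' hδ
      rw [Ideal.mem_span_singleton] at this
      obtain ⟨c, hc⟩ := this
      rw [hc]
      exact Ideal.mul_mem_right _ _ h1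
    have h3 : (1 : 𝓞 K) ∈ v.asIdeal := by
      have : (1 : 𝓞 K) = δ - (δ - 1) := by ring
      rw [this]
      exact Ideal.sub_mem _ hmem h2
    exact v.isPrime.ne_top ((Ideal.eq_top_iff_one _).2 h3)

theorem Dat.not_le (D : Dat K T) (hTp : ∀ p ∈ T, p.Prime) (h2 : 2 ∈ T)
    (v : HeightOneSpectrum (𝓞 K)) (hv : Away K T v ∧ v ≠ D.q) : ¬ D.I0 ≤ v.asIdeal := by
  intro h
  unfold Dat.I0 at h
  rcases (Ideal.IsPrime.mul_le v.isPrime).1 h with h | h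
  · have h1 := h (Ideal.mem_span_singleton_self _)
    exact dat_prod_not_mem h2 hv.1 h1
  · have h1 : D.q.asIdeal.IsMaximal := D.q.isMaximal
    have h3 := h1.eq_of_le v.isPrime.ne_top h
    exact hv.2 (HeightOneSpectrum.ext h3.symm)

theorem Dat.two_not_mem (h2 : 2 ∈ T) (v : HeightOneSpectrum (𝓞 K)) (hv : Away K T v) :
    (2 : 𝓞 K) ∉ v.asIdeal := by
  have := hv 2 h2
  exact_mod_cast this

end Pool.Agent.HWR
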