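import Pool.Agent.HWR.Defs

/-!
# HWR-D6a: orders and norm of `δ`

PLAN.
`ord_iff`: for `δ ≠ 0`, the set `{k | δ ∈ v^k}` is an initial segment, bounded
(`v^k ∣ (δ)` and `N(v)^k ∣ N(δ) ≠ 0`, `N v ≥ 2`; or `multiplicity`), so
`δ ∈ v^k ↔ k ≤ ord v δ`.
`ord_finite`: `v ∣ (δ)` for finitely many `v` only (`Ideal.finite_factors`).
`norm_prod`: `(δ) = ∏ v^(ord v δ)` (`Ideal.finprod_heightOneSpectrum_factorization` or
`Associates` version), take `absNorm` (`Ideal.absNorm_span_singleton`), split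
`ord = 2 (ord/2) + (ord mod 2)`.
`mul_mem_pow`: for a prime `v`: `a ∉ v`, `a b ∈ v^k` imply `b ∈ v^k`.
-/

namespace Pool.Agent.HWR

open NumberField IsDedekindDomain

variable {K : Type} [Field K] [NumberField K]

private theorem na_ne {δ : 𝓞 K} (hδ : δ ≠ 0) : Ideal.span {δ} ≠ 0 := by
  rw [Ideal.zero_eq_bot, Ne, Ideal.span_singleton_eq_bot]
  exact hδ

private theorem na_fin {δ : 𝓞 K} (hδ : δ ≠ 0) (v : HeightOneSpectrum (𝓞 K)) :
    FiniteMultiplicity v.asIdeal (Ideal.span {δ}) :=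
  FiniteMultiplicity.of_not_isUnit v.irreducible.not_isUnit (na_ne hδ)

private theorem na_iff {δ : 𝓞 K} (hδ : δ ≠ 0) (v : HeightOneSpectrum (𝓞 K)) (k : ℕ) :
    δ ∈ v.asIdeal ^ k ↔ k ≤ multiplicity v.asIdeal (Ideal.span {δ}) := by
  rw [← Ideal.dvd_span_singleton]
  exact (na_fin hδ v).pow_dvd_iff_le_multiplicity

private theorem na_ord {δ : 𝓞 K} (hδ : δ ≠ 0) (v : HeightOneSpectrum (𝓞 K)) :
    ord v δ = multiplicity v.asIdeal (Ideal.span {δ}) := by
  have h1 : {k : ℕ | δ ∈ v.asIdeal ^ k} = Set.Iic (multiplicity v.asIdeal (Ideal.span {δ})) := by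
    ext k
    exact na_iff hδ v k
  rw [ord, h1, csSup_Iic]

theorem ord_iff {δ : 𝓞 K} (hδ : δ ≠ 0) (v : HeightOneSpectrum (𝓞 K)) (k : ℕ) :
    δ ∈ v.asIdeal ^ k ↔ k ≤ ord v δ := by
  rw [na_ord hδ, na_iff hδ]

theorem ord_finite {δ : 𝓞 K} (hδ : δ ≠ 0) :
    {v : HeightOneSpectrum (𝓞 K) | ord v δ ≠ 0}.Finite := by
  refine (Ideal.finite_factors (na_ne hδ)).subset fun v hv => ?_
  have h1 : 1 ≤ ord v δ := Nat.one_le_iff_ne_zero.2 hv
  have h2 := (ord_iff hδ v 1).2 h1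
  rw [pow_one] at h2
  exact Ideal.dvd_span_singleton.2 h2

theorem ord_mul {x y : 𝓞 K} (hx : x ≠ 0) (hy : y ≠ 0) (v : HeightOneSpectrum (𝓞 K)) :
    ord v (x * y) = ord v x + ord v y := by
  have hxy : x * y ≠ 0 := mul_ne_zero hx hy
  rw [na_ord hx, na_ord hy, na_ord hxy]
  have h1 := na_fin hxy v
  rw [← Ideal.span_singleton_mul_span_singleton] at h1 ⊢
  exact multiplicity_mul v.prime h1

theorem mem_pow_of_mul (v : HeightOneSpectrum (𝓞 K)) {a b : 𝓞 K} {k : ℕ} (ha : a ∉ v.asIdeal)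
    (hab : a * b ∈ v.asIdeal ^ k) : b ∈ v.asIdeal ^ k := by
  have ha0 : a ≠ 0 := by
    rintro rfl
    exact ha (zero_mem _)
  by_cases hb : b = 0
  · rw [hb]
    exact zero_mem _
  rw [ord_iff (mul_ne_zero ha0 hb), ord_mul ha0 hb] at hab
  rw [ord_iff hb]
  have h1 : ord v a = 0 := by
    by_contra h
    refine ha ?_
    have := (ord_iff ha0 v 1).2 (Nat.one_le_iff_ne_zero.2 h)
    rwa [pow_one] at this
  omega

open Classical in
theorem norm_prod {δ : 𝓞 K} (hδ : δ ≠ 0) :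
    (Algebra.norm ℤ δ).natAbs =
      (∏ᶠ v : HeightOneSpectrum (𝓞 K), (if Odd (ord v δ) then nrm v else 1)) *
      (∏ᶠ v : HeightOneSpectrum (𝓞 K), nrm v ^ (ord v δ / 2)) ^ 2 := by
  have h1 : ∏ᶠ v : HeightOneSpectrum (𝓞 K), v.asIdeal ^ ord v δ = Ideal.span {δ} := by
    rw [← Ideal.finprod_heightOneSpectrum_factorization (na_ne hδ)]
    refine finprod_congr fun v => ?_
    rw [HeightOneSpectrum.maxPowDividing_eq_pow_multiset_count _ (na_ne hδ)]
    rw [na_ord hδ]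
    congr 1
    have := UniqueFactorizationMonoid.emultiplicity_eq_count_normalizedFactors v.irreducible (na_ne hδ)
    rw [normalize_eq v.asIdeal] at this
    apply_fun ((↑) : ℕ → ℕ∞) using CharZero.cast_injective
    rw [← this]
    exact (na_fin hδ v).emultiplicity_eq_multiplicity.symm
  have hfin := ord_finite hδ
  have f1 : Function.HasFiniteMulSupport fun v : HeightOneSpectrum (𝓞 K) => v.asIdeal ^ ord v δ := by
    refine hfin.subset fun v hv h0 => hv ?_
    show v.asIdeal ^ ord v δ = 1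
    rw [h0, pow_zero]
  have f2 : Function.HasFiniteMulSupport fun v : HeightOneSpectrum (𝓞 K) =>
      (if Odd (ord v δ) then nrm v else 1) := by
    refine hfin.subset fun v hv h0 => hv ?_
    show (if Odd (ord v δ) then nrm v else 1) = 1
    rw [h0]
    simp
  have f3 : Function.HasFiniteMulSupport fun v : HeightOneSpectrum (𝓞 K) => nrm v ^ (ord v δ / 2) := by
    refine hfin.subset fun v hv h0 => hv ?_
    show nrm v ^ (ord v δ / 2) = 1
    rw [h0]
    simp
  have f4 : Function.HasFiniteMulSupport fun v : HeightOneSpectrum (𝓞 K) =>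
      (nrm v ^ (ord v δ / 2)) ^ 2 := by
    refine hfin.subset fun v hv h0 => hv ?_
    show (nrm v ^ (ord v δ / 2)) ^ 2 = 1
    rw [h0]
    simp
  have h2 := congrArg Ideal.absNorm h1
  rw [Ideal.absNorm_span_singleton, map_finprod _ f1] at h2
  rw [← h2, finprod_pow f3, ← finprod_mul_distrib f2 f4]
  refine finprod_congr fun v => ?_
  rw [map_pow]
  show nrm v ^ ord v δ = _
  rw [← pow_mul]
  rcases Nat.even_or_odd (ord v δ) with he | ho
  · rw [if_neg (Nat.not_odd_iff_even.2 he), one_mul, Nat.div_mul_cancel he.two_dvd]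
  · rw [if_pos ho, ← pow_succ']
    congr 1
    obtain ⟨m, hm⟩ := ho
    omega

end Pool.Agent.HWR
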