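import Pool.Agent.HWR.Defs

/-!
# HWR-P5a: properties of the symbol `uu` and of the function `hh`

`v` a place, `δ ≠ 0`, everything modulo powers of `v`.
PLAN.
* `uu_cases`.
* `uu_congr`: if `δ ∉ v^(c+1)` and `δ - δ' ∈ v^(c+1)` then `uu v δ = uu v δ'` (both have the same
  order `≤ c`; the existence of `x` with `δ - x^2 ∈ v^(2j+1)`, `2j ≤ c`, only depends on `δ` mod
  `v^(c+1)`).
* `uu_sq`: `uu v δ ^ 2 = 1` if the order is even, `0` if odd (for `δ ≠ 0`).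
* `uu_mul`: for `a ∉ v` (unit at `v`), `2 ∉ v`: `uu v (a * δ) = uu v a * uu v δ`: the orders agree.
  If both symbols on the right are determined by squares: write `δ = x^2` mod `v^(2j+1)` or not;
  the units modulo squares of the finite field `𝓞 K / v` form a group of order 2.  Precisely, let
  `ord δ = 2j`.  Fix `π ∈ v^j \ v^(j+1)`.  The `𝓞 K / v`-line `v^(2j) / v^(2j+1)` is spanned by
  `π^2`, so `δ ≡ b π^2` with `b` a unit at `v`, and `uu v δ = 1` iff `b` is a square mod `v`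
  (`x = y π`: an `x` with `x^2 ≡ δ` has order `j`, `x ≡ y π` mod `v^(j+1)`); same for `a δ` with
  `a b`.  Now use the quadratic character (`quadraticChar` is multiplicative) of the finite field
  `𝓞 K / v`.
* `uu_unit`: for `a ∉ v`: `uu v a = 1` iff `a` is a square mod `v`, else `-1`; so `uu v a` is the
  quadratic character of the residue field at `a`; `exists_nonres`: for `2 ∉ v` there is
  `a ∉ v` with `uu v a = -1`.
* `hh_congr`: `hh` is periodic modulo `JJ`.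
-/

namespace Pool.Agent.HWR

open NumberField IsDedekindDomain

variable {K : Type} [Field K] [NumberField K] (v : HeightOneSpectrum (𝓞 K))

/-- multiplicity of `v` in `x` -/
private noncomputable def sem (x : 𝓞 K) : ℕ∞ := emultiplicity v.asIdeal (Ideal.span {x})

private theorem sem_mem (x : 𝓞 K) (m : ℕ) : x ∈ v.asIdeal ^ m ↔ (m : ℕ∞) ≤ sem v x := by
  rw [sem, ← pow_dvd_iff_le_emultiplicity, Ideal.dvd_span_singleton]

private theorem sem_mul (x y : 𝓞 K) : sem v (x * y) = sem v x + sem v y := by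
  rw [sem, ← Ideal.span_singleton_mul_span_singleton, emultiplicity_mul v.prime]
  rfl

private theorem sem_unit {x : 𝓞 K} (h : x ∉ v.asIdeal) : sem v x = 0 := by
  have h1 := (sem_mem v x 1).not.1 (by rwa [pow_one])
  push_cast at h1
  rw [not_le, Order.lt_one_iff] at h1
  exact h1

private theorem sem_eq_iff (x : 𝓞 K) (k : ℕ) :
    (x ∈ v.asIdeal ^ k ∧ x ∉ v.asIdeal ^ (k + 1)) ↔ sem v x = k := by
  rw [sem_mem, sem_mem]
  constructor
  · rintro ⟨h1, h2⟩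
    rw [not_le] at h2
    refine le_antisymm ?_ h1
    push_cast at h2
    exact Order.lt_add_one_iff_of_not_isMax (by simp) |>.1 h2
  · intro h
    rw [h]
    refine ⟨le_rfl, ?_⟩
    rw [not_le]
    exact_mod_cast Nat.lt_succ_self k

private theorem sem_lt_top {x : 𝓞 K} (hx : x ≠ 0) : ∃ k : ℕ, sem v x = k := by
  have h : sem v x ≠ ⊤ := by
    intro h
    have h1 : ∀ m : ℕ, x ∈ v.asIdeal ^ m := fun m => (sem_mem v x m).2 (by rw [h]; exact le_top)
    have h2 := Ideal.iInf_pow_eq_bot_of_isDomain v.asIdeal v.isPrime.ne_top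
    have h3 : x ∈ (⨅ i : ℕ, v.asIdeal ^ i) := by
      rw [Ideal.mem_iInf]
      exact h1
    rw [h2] at h3
    exact hx h3
  obtain ⟨k, hk⟩ := ENat.ne_top_iff_exists.1 h
  exact ⟨k, hk.symm⟩

private theorem sem_ord {x : 𝓞 K} {k : ℕ} (h : sem v x = k) : ord v x = k := by
  rw [ord]
  have : {m : ℕ | x ∈ v.asIdeal ^ m} = Set.Iic k := by
    ext m
    rw [Set.mem_ofPred_eq, sem_mem, h, Set.mem_Iic]
    exact_mod_cast Iff.rfl
  rw [this]
  exact csSup_Iic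

theorem uu_cases (δ : 𝓞 K) : uu v δ = 1 ∨ uu v δ = -1 ∨ uu v δ = 0 := by
  rw [uu]
  split_ifs <;> simp

private theorem uu_congr_aux {δ δ' : 𝓞 K} {c : ℕ} (h1 : δ ∉ v.asIdeal ^ (c + 1))
    (h2 : δ - δ' ∈ v.asIdeal ^ (c + 1)) (j : ℕ)
    (h : δ ∈ v.asIdeal ^ (2 * j) ∧ δ ∉ v.asIdeal ^ (2 * j + 1)) :
    (δ' ∈ v.asIdeal ^ (2 * j) ∧ δ' ∉ v.asIdeal ^ (2 * j + 1)) ∧ 2 * j + 1 ≤ c + 1 := by
  have hj : 2 * j + 1 ≤ c + 1 := by
    by_contra hlt
    exact h1 (Ideal.pow_le_pow_right (by omega) h.1)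
  have h3 : δ - δ' ∈ v.asIdeal ^ (2 * j + 1) := Ideal.pow_le_pow_right hj h2
  have h4 : δ - δ' ∈ v.asIdeal ^ (2 * j) := Ideal.pow_le_pow_right (by omega) h3
  refine ⟨⟨?_, ?_⟩, hj⟩
  · have := (v.asIdeal ^ (2 * j)).sub_mem h.1 h4
    rwa [sub_sub_cancel] at this
  · intro h5
    apply h.2
    have := (v.asIdeal ^ (2 * j + 1)).add_mem h3 h5
    rwa [sub_add_cancel] at this

theorem uu_congr {δ δ' : 𝓞 K} {c : ℕ} (h1 : δ ∉ v.asIdeal ^ (c + 1))
    (h2 : δ - δ' ∈ v.asIdeal ^ (c + 1)) : uu v δ = uu v δ' := by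
  have h1' : δ' ∉ v.asIdeal ^ (c + 1) := by
    intro h
    apply h1
    have := (v.asIdeal ^ (c + 1)).add_mem h2 h
    rwa [sub_add_cancel] at this
  have h2' : δ' - δ ∈ v.asIdeal ^ (c + 1) := by
    have := (v.asIdeal ^ (c + 1)).neg_mem h2
    rwa [neg_sub] at this
  have e1 : (∃ j : ℕ, δ ∈ v.asIdeal ^ (2 * j) ∧ δ ∉ v.asIdeal ^ (2 * j + 1)) ↔
      (∃ j : ℕ, δ' ∈ v.asIdeal ^ (2 * j) ∧ δ' ∉ v.asIdeal ^ (2 * j + 1)) :=
    ⟨fun ⟨j, h⟩ => ⟨j, (uu_congr_aux v h1 h2 j h).1⟩,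
      fun ⟨j, h⟩ => ⟨j, (uu_congr_aux v h1' h2' j h).1⟩⟩
  have e2 : (∃ j : ℕ, δ ∈ v.asIdeal ^ (2 * j) ∧ δ ∉ v.asIdeal ^ (2 * j + 1) ∧
        ∃ x : 𝓞 K, δ - x ^ 2 ∈ v.asIdeal ^ (2 * j + 1)) ↔
      (∃ j : ℕ, δ' ∈ v.asIdeal ^ (2 * j) ∧ δ' ∉ v.asIdeal ^ (2 * j + 1) ∧
        ∃ x : 𝓞 K, δ' - x ^ 2 ∈ v.asIdeal ^ (2 * j + 1)) := by
    constructor
    · rintro ⟨j, h3, h4, x, hx⟩
      have h5 := uu_congr_aux v h1 h2 j ⟨h3, h4⟩
      refine ⟨j, h5.1.1, h5.1.2, x, ?_⟩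
      have := (v.asIdeal ^ (2 * j + 1)).add_mem hx (Ideal.pow_le_pow_right h5.2 h2')
      have e : δ - x ^ 2 + (δ' - δ) = δ' - x ^ 2 := by ring
      rwa [e] at this
    · rintro ⟨j, h3, h4, x, hx⟩
      have h5 := uu_congr_aux v h1' h2' j ⟨h3, h4⟩
      refine ⟨j, h5.1.1, h5.1.2, x, ?_⟩
      have := (v.asIdeal ^ (2 * j + 1)).add_mem hx (Ideal.pow_le_pow_right h5.2 h2)
      have e : δ' - x ^ 2 + (δ - δ') = δ - x ^ 2 := by ring
      rwa [e] at this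
  classical
  rw [uu, uu]
  exact if_congr e1 (if_congr e2 rfl rfl) rfl

private theorem sem_ex_iff (δ : 𝓞 K) :
    (∃ j : ℕ, δ ∈ v.asIdeal ^ (2 * j) ∧ δ ∉ v.asIdeal ^ (2 * j + 1)) ↔
      ∃ j : ℕ, sem v δ = ((2 * j : ℕ) : ℕ∞) := by
  refine exists_congr fun j => ?_
  rw [sem_eq_iff]

private theorem uu_zero_of_not {δ : 𝓞 K} (h : ¬ ∃ j : ℕ, sem v δ = ((2 * j : ℕ) : ℕ∞)) :
    uu v δ = 0 := by
  rw [uu, if_neg (by rwa [sem_ex_iff])]

private theorem uu_val {δ : 𝓞 K} {j : ℕ} (h : sem v δ = ((2 * j : ℕ) : ℕ∞)) :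
    ((∃ x : 𝓞 K, δ - x ^ 2 ∈ v.asIdeal ^ (2 * j + 1)) → uu v δ = 1) ∧
      ((¬ ∃ x : 𝓞 K, δ - x ^ 2 ∈ v.asIdeal ^ (2 * j + 1)) → uu v δ = -1) := by
  have h1 : ∃ j : ℕ, δ ∈ v.asIdeal ^ (2 * j) ∧ δ ∉ v.asIdeal ^ (2 * j + 1) := by
    rw [sem_ex_iff]; exact ⟨j, h⟩
  have hj := (sem_eq_iff v δ (2 * j)).2 h
  constructor
  · intro hx
    rw [uu, if_pos h1, if_pos ⟨j, hj.1, hj.2, hx⟩]
  · intro hx
    rw [uu, if_pos h1, if_neg]
    rintro ⟨i, hi1, hi2, hi3⟩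
    have h2 := (sem_eq_iff v δ (2 * i)).1 ⟨hi1, hi2⟩
    rw [h] at h2
    have h3 : 2 * j = 2 * i := by exact_mod_cast h2
    rw [← h3] at hi3
    exact hx hi3

open Classical in
theorem uu_sq {δ : 𝓞 K} (hδ : δ ≠ 0) : uu v δ ^ 2 = if Even (ord v δ) then 1 else 0 := by
  obtain ⟨k, hk⟩ := sem_lt_top v hδ
  rw [sem_ord v hk]
  split_ifs with h
  · obtain ⟨j, hj⟩ := h
    have h1 := uu_val v (δ := δ) (j := j) (by rw [hk]; congr 1; omega)
    by_cases hx : ∃ x : 𝓞 K, δ - x ^ 2 ∈ v.asIdeal ^ (2 * j + 1)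
    · rw [h1.1 hx]; norm_num
    · rw [h1.2 hx]; norm_num
  · rw [uu_zero_of_not]
    · norm_num
    · rintro ⟨j, hj⟩
      rw [hk] at hj
      have : k = 2 * j := by exact_mod_cast hj
      exact h ⟨j, by omega⟩

/-- the residue field -/
private abbrev RF := 𝓞 K ⧸ v.asIdeal

private noncomputable abbrev rfField : Field (RF v) := by
  have := v.isMaximal
  exact Ideal.Quotient.field v.asIdeal

private noncomputable abbrev rfFin : Fintype (RF v) := by
  have := Ideal.finiteQuotientOfFreeOfNeBot v.asIdeal v.ne_bot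
  exact Fintype.ofFinite _

attribute [local instance] rfField rfFin

open Classical in
/-- the symbol as a quadratic character of the residue field -/
private theorem uu_eq {δ b π : 𝓞 K} {j : ℕ} (hπ : sem v π = j) (hb : b ∉ v.asIdeal)
    (h : δ - π ^ 2 * b ∈ v.asIdeal ^ (2 * j + 1)) :
    uu v δ = ((quadraticChar (RF v) (Ideal.Quotient.mk v.asIdeal b) : ℤ) : ℂ) := by
  have hπ2 : sem v (π ^ 2) = ((2 * j : ℕ) : ℕ∞) := by
    rw [sq, sem_mul, hπ]; push_cast; ring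
  have hπb : sem v (π ^ 2 * b) = ((2 * j : ℕ) : ℕ∞) := by
    rw [sem_mul, hπ2, sem_unit v hb, add_zero]
  have hδ : sem v δ = ((2 * j : ℕ) : ℕ∞) := by
    rw [← sem_eq_iff] at hπb ⊢
    have h4 : δ - π ^ 2 * b ∈ v.asIdeal ^ (2 * j) := Ideal.pow_le_pow_right (by omega) h
    constructor
    · have := (v.asIdeal ^ (2 * j)).add_mem h4 hπb.1
      rwa [sub_add_cancel] at this
    · intro h5
      apply hπb.2
      have := (v.asIdeal ^ (2 * j + 1)).sub_mem h5 h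
      rwa [sub_sub_cancel] at this
  have hb0 : Ideal.Quotient.mk v.asIdeal b ≠ 0 := by
    rw [Ne, Ideal.Quotient.eq_zero_iff_mem]
    exact hb
  have key : (∃ x : 𝓞 K, δ - x ^ 2 ∈ v.asIdeal ^ (2 * j + 1)) ↔
      IsSquare (Ideal.Quotient.mk v.asIdeal b) := by
    constructor
    · rintro ⟨x, hx⟩
      -- `x` has order at least `j`
      have hx2 : x ^ 2 ∈ v.asIdeal ^ (2 * j) := by
        have h1 := ((sem_eq_iff v δ _).2 hδ).1
        have := (v.asIdeal ^ (2 * j)).sub_mem h1 (Ideal.pow_le_pow_right (by omega) hx)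
        rwa [sub_sub_cancel] at this
      have hxj : x ∈ v.asIdeal ^ j := by
        rw [sem_mem] at hx2 ⊢
        rw [sq, sem_mul] at hx2
        by_contra hlt
        rw [not_le] at hlt
        obtain ⟨m, hm⟩ := ENat.ne_top_iff_exists.1 (ne_top_of_lt hlt)
        rw [← hm] at hlt hx2
        have h1 : m < j := by exact_mod_cast hlt
        have h2 : 2 * j ≤ m + m := by exact_mod_cast hx2
        omega
      have hπ' := (sem_eq_iff v π j).2 hπ
      obtain ⟨y, e, he, hy⟩ := Ideal.exists_mul_add_mem_pow_succ v.ne_bot π x hπ'.1 hπ'.2 hxj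
      have h6 : π ^ 2 * (b - y ^ 2) ∈ v.asIdeal ^ (2 * j + 1) := by
        have e1 : π * e ∈ v.asIdeal ^ (2 * j + 1) := by
          have := Ideal.mul_mem_mul hπ'.1 he
          rw [← pow_add] at this
          have e2 : j + (j + 1) = 2 * j + 1 := by ring
          rwa [e2] at this
        have e3 : e ^ 2 ∈ v.asIdeal ^ (2 * j + 1) := by
          rw [sq]
          have := Ideal.mul_mem_mul he he
          rw [← pow_add] at this
          exact Ideal.pow_le_pow_right (by omega) this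
        have e4 : π ^ 2 * (b - y ^ 2) = (δ - x ^ 2) - (δ - π ^ 2 * b) + (2 * y * (π * e) + e ^ 2) := by
          rw [← hy]; ring
        rw [e4]
        exact Ideal.add_mem _ (Ideal.sub_mem _ hx h)
          (Ideal.add_mem _ (Ideal.mul_mem_left _ _ e1) e3)
      have h7 : b - y ^ 2 ∈ v.asIdeal := by
        refine Ideal.mem_prime_of_mul_mem_pow v.ne_bot (i := 2 * j) ?_ h6
        exact ((sem_eq_iff v (π ^ 2) _).2 hπ2).2
      refine ⟨Ideal.Quotient.mk v.asIdeal y, ?_⟩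
      rw [← map_mul, Ideal.Quotient.eq, ← sq]
      exact h7
    · rintro ⟨z, hz⟩
      obtain ⟨y, rfl⟩ := Ideal.Quotient.mk_surjective z
      rw [← map_mul, Ideal.Quotient.eq, ← sq] at hz
      refine ⟨π * y, ?_⟩
      have e4 : δ - (π * y) ^ 2 = (δ - π ^ 2 * b) + π ^ 2 * (b - y ^ 2) := by ring
      rw [e4]
      refine Ideal.add_mem _ h ?_
      have := Ideal.mul_mem_mul ((sem_eq_iff v (π ^ 2) _).2 hπ2).1 hz
      rw [← pow_succ] at this
      exact this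
  have hu := uu_val v hδ
  by_cases hs : IsSquare (Ideal.Quotient.mk v.asIdeal b)
  · rw [hu.1 (key.2 hs), (quadraticChar_one_iff_isSquare hb0).2 hs]
    simp
  · rw [hu.2 (fun h => hs (key.1 h)), quadraticChar_neg_one_iff_not_isSquare.2 hs]
    simp

open Classical in
private theorem uu_eq_unit {a : 𝓞 K} (ha : a ∉ v.asIdeal) :
    uu v a = ((quadraticChar (RF v) (Ideal.Quotient.mk v.asIdeal a) : ℤ) : ℂ) := by
  refine uu_eq v (π := 1) (j := 0) ?_ ha (by simp)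
  have h1 : (1 : 𝓞 K) ∉ v.asIdeal := fun h => v.isPrime.ne_top ((Ideal.eq_top_iff_one _).2 h)
  rw [sem_unit v h1]; simp

theorem uu_mul (h2 : (2 : 𝓞 K) ∉ v.asIdeal) {a δ : 𝓞 K} (ha : a ∉ v.asIdeal) :
    uu v (a * δ) = uu v a * uu v δ := by
  classical
  have hsem : sem v (a * δ) = sem v δ := by rw [sem_mul, sem_unit v ha, zero_add]
  by_cases hex : ∃ j : ℕ, sem v δ = ((2 * j : ℕ) : ℕ∞)
  · obtain ⟨j, hj⟩ := hex
    obtain ⟨π, hπ⟩ := Ideal.exists_mem_pow_notMem_pow_succ v.asIdeal v.ne_bot v.isPrime.ne_top j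
    have hπs := (sem_eq_iff v π j).1 hπ
    have hπ2 : sem v (π ^ 2) = ((2 * j : ℕ) : ℕ∞) := by
      rw [sq, sem_mul, hπs]; push_cast; ring
    have hπ2' := (sem_eq_iff v (π ^ 2) _).2 hπ2
    have hδ' := (sem_eq_iff v δ _).2 hj
    obtain ⟨b, e, he, hb⟩ := Ideal.exists_mul_add_mem_pow_succ v.ne_bot (π ^ 2) δ hπ2'.1 hπ2'.2 hδ'.1
    have hbv : b ∉ v.asIdeal := by
      intro h
      apply hδ'.2
      rw [← hb]
      refine Ideal.add_mem _ ?_ he
      rw [pow_succ]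
      exact Ideal.mul_mem_mul hπ2'.1 h
    have hab : a * b ∉ v.asIdeal := fun h => (v.isPrime.mem_or_mem h).elim ha hbv
    have e1 : δ - π ^ 2 * b ∈ v.asIdeal ^ (2 * j + 1) := by
      rw [← hb, add_sub_cancel_left]; exact he
    have e2 : a * δ - π ^ 2 * (a * b) ∈ v.asIdeal ^ (2 * j + 1) := by
      have e3 : a * δ - π ^ 2 * (a * b) = a * (δ - π ^ 2 * b) := by ring
      rw [e3]
      exact Ideal.mul_mem_left _ _ e1
    rw [uu_eq v hπs hbv e1, uu_eq v hπs hab e2, uu_eq_unit v ha, map_mul, map_mul]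
    push_cast
    ring
  · rw [uu_zero_of_not v hex, uu_zero_of_not v (by rwa [hsem]), mul_zero]

theorem uu_unit {a : 𝓞 K} (ha : a ∉ v.asIdeal) :
    uu v a = 1 ∨ uu v a = -1 := by
  have h := uu_val v (δ := a) (j := 0) (by rw [sem_unit v ha]; simp)
  by_cases hx : ∃ x : 𝓞 K, a - x ^ 2 ∈ v.asIdeal ^ (2 * 0 + 1)
  · exact Or.inl (h.1 hx)
  · exact Or.inr (h.2 hx)

theorem uu_of_one_sub_mem {a : 𝓞 K} (ha : a - 1 ∈ v.asIdeal) : uu v a = 1 := by
  have ha' : a ∉ v.asIdeal := by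
    intro h
    have := v.asIdeal.sub_mem h ha
    rw [sub_sub_cancel] at this
    exact v.isPrime.ne_top ((Ideal.eq_top_iff_one _).2 this)
  have h := uu_val v (δ := a) (j := 0) (by rw [sem_unit v ha']; simp)
  exact h.1 ⟨1, by simpa using ha⟩

theorem exists_nonres (h2 : (2 : 𝓞 K) ∉ v.asIdeal) : ∃ a : 𝓞 K, a ∉ v.asIdeal ∧ uu v a = -1 := by
  classical
  have hch : ringChar (RF v) ≠ 2 := by
    intro h
    apply h2
    have h1 : ((2 : ℕ) : RF v) = 0 := by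
      rw [← h]; exact ringChar.Nat.cast_ringChar
    have h3 : Ideal.Quotient.mk v.asIdeal (2 : 𝓞 K) = 0 := by
      have : Ideal.Quotient.mk v.asIdeal (((2 : ℕ)) : 𝓞 K) = 0 := by
        rw [map_natCast]; exact h1
      exact_mod_cast this
    exact Ideal.Quotient.eq_zero_iff_mem.1 h3
  obtain ⟨z, hz⟩ := quadraticChar_exists_neg_one hch
  obtain ⟨a, rfl⟩ := Ideal.Quotient.mk_surjective z
  have ha : a ∉ v.asIdeal := by
    intro h
    rw [Ideal.Quotient.eq_zero_iff_mem.2 h, quadraticChar_zero] at hz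
    norm_num at hz
  refine ⟨a, ha, ?_⟩
  rw [uu_eq_unit v ha, hz]
  simp

private theorem ifcongr {I : Ideal (𝓞 K)} {x y : 𝓞 K} (h : x - y ∈ I) : x ∈ I ↔ y ∈ I := by
  constructor
  · intro h1
    have := I.sub_mem h1 h
    rwa [sub_sub_cancel] at this
  · intro h1
    have := I.add_mem h h1
    rwa [sub_add_cancel] at this

private theorem memaux {R : Type} [CommRing R] (I P Q : Ideal R) (z : R)
    (h : z ∈ I * P * Q) : z ∈ I ∧ z ∈ P ∧ z ∈ P * Q := by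
  have g1 : I * P * Q ≤ I * P := Ideal.mul_le_left
  have g2 : I * P ≤ I := Ideal.mul_le_left
  have g3 : I * P ≤ P := Ideal.mul_le_right
  have g4 : I * (P * Q) ≤ P * Q := Ideal.mul_le_right
  have h1 : z ∈ I * P := g1 h
  refine ⟨g2 h1, g3 h1, ?_⟩
  rw [mul_assoc] at h
  exact g4 h

private theorem memdvd {R : Type} [CommRing R] (I J : Ideal R) (z : R) (h : I ∣ J)
    (hz : z ∈ J) : z ∈ I := by
  have g : J ≤ I := Ideal.le_of_dvd h
  exact g hz

theorem hh_congr (I0 : Ideal (𝓞 K)) (δ1 : 𝓞 K) (s l : Finset (HeightOneSpectrum (𝓞 K)))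
    (hl : l ⊆ s) (c : HeightOneSpectrum (𝓞 K) → ℕ) (x y : 𝓞 K) (h : x - y ∈ JJ I0 s l c) :
    hh I0 δ1 s l c x = hh I0 δ1 s l c y := by
  classical
  rw [JJ] at h
  have b := memaux I0 (∏ v ∈ s, v.asIdeal ^ c v) (∏ v ∈ l, v.asIdeal) (x - y) h
  have hs : ∀ w ∈ s, x - y ∈ w.asIdeal ^ c w := fun w hw =>
    memdvd (w.asIdeal ^ c w) (∏ v ∈ s, v.asIdeal ^ c v) (x - y)
      (Finset.dvd_prod_of_mem (fun v => v.asIdeal ^ c v) hw) b.2.1
  have hl' : ∀ w ∈ l, x - y ∈ w.asIdeal ^ (c w + 1) := by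
    intro w hw
    have k1 : w.asIdeal ^ c w ∣ ∏ v ∈ s, v.asIdeal ^ c v :=
      Finset.dvd_prod_of_mem (fun v : HeightOneSpectrum (𝓞 K) => v.asIdeal ^ c v) (hl hw)
    have k2 : w.asIdeal ∣ ∏ v ∈ l, v.asIdeal :=
      Finset.dvd_prod_of_mem (fun v : HeightOneSpectrum (𝓞 K) => v.asIdeal) hw
    have h4 := mul_dvd_mul k1 k2
    rw [← pow_succ] at h4
    exact memdvd _ _ _ h4 b.2.2
  have e1 : (x - δ1 ∈ I0) = (y - δ1 ∈ I0) := propext (ifcongr (by
    have e : x - δ1 - (y - δ1) = x - y := by ring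
    rw [e]
    exact b.1))
  have e2 : ∀ w ∈ s, (x ∈ w.asIdeal ^ c w) = (y ∈ w.asIdeal ^ c w) :=
    fun w hw => propext (ifcongr (hs w hw))
  have e3 : ∀ w ∈ l, (x ∈ w.asIdeal ^ (c w + 1)) = (y ∈ w.asIdeal ^ (c w + 1)) :=
    fun w hw => propext (ifcongr (hl' w hw))
  unfold hh
  congr 1
  · congr 1
    · simp only [e1]
    · refine Finset.prod_congr rfl fun w hw => ?_
      simp only [e2 w hw]
  · refine Finset.prod_congr rfl fun w hw => ?_
    by_cases h1 : x ∈ w.asIdeal ^ (c w + 1)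
    · rw [if_pos h1, if_pos ((e3 w hw) ▸ h1)]
    · rw [if_neg h1, if_neg ((e3 w hw) ▸ h1)]
      exact uu_congr w h1 (hl' w hw)

end Pool.Agent.HWR
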