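import Pool.Agent.HWR.HolProd
import Pool.Agent.HWR.NormA
import Pool.Agent.HWR.Symbol
import Pool.Agent.HWR.SumNrm

/-!
# HWR-RA2a: the infinite product of the local factors `loc`

PLAN. `q = nrm v ≥ 101` for `v : D.P` (`nrm_ge`); `‖uu‖ ≤ 1`; for `Re s = b > 3/2`:
`loc - 1 = (1 + bet uu + gamm uu^2) ∑_{k ≤ ord/2} z4^k - 1`, `|z4| = q^(4(1-b)) ≤ 1/10000`, so
`‖loc - 1‖ ≤ C (|bet| + |gamm| + |z4|) ≤ C' q^(1/2-b)` (`bet_le`, `gamm_le`) with absolute `C'`,
and `∑_v q^(1/2-b)` converges (`summable_nrm` with `x = b - 1/2 > 1`).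
`‖∏' (1 + f)‖ ≤ exp (∑' ‖f‖)`.  (No finiteness of the support is needed.)
-/

namespace Pool.Agent.HWR

open NumberField IsDedekindDomain

variable {K : Type} [Field K] [NumberField K]
  {a : ℕ → ℝ} (ha : ∀ q : ℕ, |a q| ≤ 2 * Real.sqrt q) {T : Finset ℕ}
  (hT : ∀ p : ℕ, p.Prime → p < 101 → p ∈ T) (D : Dat K T)

private theorem uu_norm (v : HeightOneSpectrum (𝓞 K)) (δ : 𝓞 K) : ‖uu v δ‖ ≤ 1 := by
  rcases uu_cases v δ with h | h | h <;> rw [h] <;> simp

/-- finite sums of a geometric series of small ratio -/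
private theorem geom_near (z : ℂ) (hz : ‖z‖ ≤ 1 / 2) (m : ℕ) :
    ‖∑ k ∈ Finset.range (m + 1), z ^ k - 1‖ ≤ 2 * ‖z‖ := by
  rw [Finset.sum_range_succ', pow_zero, add_sub_cancel_right]
  refine (norm_sum_le _ _).trans ?_
  have h1 : ∀ k ∈ Finset.range m, ‖z ^ (k + 1)‖ ≤ ‖z‖ * (1 / 2) ^ k := by
    intro k _
    rw [norm_pow, pow_succ, mul_comm]
    exact mul_le_mul_of_nonneg_left (pow_le_pow_left₀ (norm_nonneg z) hz k) (norm_nonneg z)
  refine (Finset.sum_le_sum h1).trans ?_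
  rw [← Finset.mul_sum, mul_comm]
  refine mul_le_mul_of_nonneg_right ?_ (norm_nonneg z)
  have h2 : ∀ m : ℕ, ∑ k ∈ Finset.range m, ((1 : ℝ) / 2) ^ k = 2 - 2 * (1 / 2) ^ m := by
    intro m
    induction m with
    | zero => simp
    | succ m ih => rw [Finset.sum_range_succ, ih]; ring
  rw [h2]
  have : (0 : ℝ) ≤ (1 / 2) ^ m := by positivity
  linarith

include ha in
private theorem loc_near (v : HeightOneSpectrum (𝓞 K)) (hv : 101 ≤ nrm v) (δ : 𝓞 K) {s : ℂ}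
    (hs : 3 / 2 < s.re) :
    ‖loc a v δ s - 1‖ ≤ 30 * (nrm v : ℝ) ^ (1 / 2 - s.re) := by
  have hs1 : 1 ≤ s.re := by linarith
  have hq1 : (1 : ℝ) ≤ nrm v := by
    have : (101 : ℝ) ≤ nrm v := by exact_mod_cast hv
    linarith
  have hq0 : (0 : ℝ) < nrm v := by linarith
  set y : ℝ := (nrm v : ℝ) ^ (1 / 2 - s.re) with hy
  have hy0 : 0 ≤ y := Real.rpow_nonneg hq0.le _
  have b1 := bet_le ha hv hs1
  have b2 := gamm_le ha hv hs1
  have b3 : (nrm v : ℝ) ^ (1 - 2 * s.re) ≤ y :=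
    Real.rpow_le_rpow_of_exponent_le hq1 (by linarith)
  have bz : ‖z4 (nrm v) s‖ ≤ y := by
    unfold z4
    rw [Complex.norm_natCast_cpow_of_pos (by omega)]
    refine Real.rpow_le_rpow_of_exponent_le hq1 ?_
    simp only [Complex.mul_re, Complex.sub_re, Complex.one_re, Complex.sub_im, Complex.one_im]
    norm_num
    linarith
  have hyh : y ≤ 1 / 2 := by
    have h1 : y ≤ (nrm v : ℝ) ^ (-1 : ℝ) :=
      Real.rpow_le_rpow_of_exponent_le hq1 (by linarith)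
    rw [Real.rpow_neg_one] at h1
    refine h1.trans ?_
    rw [inv_eq_one_div]
    apply one_div_le_one_div_of_le two_pos
    have : (101 : ℝ) ≤ nrm v := by exact_mod_cast hv
    linarith
  have hg := geom_near (z4 (nrm v) s) (bz.trans hyh) (ord v δ / 2)
  set S := ∑ k ∈ Finset.range (ord v δ / 2 + 1), z4 (nrm v) s ^ k with hS
  have hS1 : ‖S - 1‖ ≤ 2 * y := hg.trans (by linarith)
  have hS2 : ‖S‖ ≤ 2 := by
    have : S = (S - 1) + 1 := by ring
    rw [this]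
    refine (norm_add_le _ _).trans ?_
    rw [norm_one]
    linarith
  have hu := uu_norm v δ
  have e : loc a v δ s - 1 =
      (bet a (nrm v) s * uu v δ + gamm a (nrm v) s * uu v δ ^ 2) * S + (S - 1) := by
    unfold loc
    rw [← hS]
    ring
  rw [e]
  refine (norm_add_le _ _).trans ?_
  have h1 : ‖bet a (nrm v) s * uu v δ + gamm a (nrm v) s * uu v δ ^ 2‖ ≤ 14 * y := by
    refine (norm_add_le _ _).trans ?_
    rw [norm_mul, norm_mul, norm_pow]
    have h2 : ‖bet a (nrm v) s‖ * ‖uu v δ‖ ≤ 4 * y := by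
      calc _ ≤ ‖bet a (nrm v) s‖ * 1 := mul_le_mul_of_nonneg_left hu (norm_nonneg _)
        _ ≤ 4 * y := by rw [mul_one]; exact b1
    have h3 : ‖gamm a (nrm v) s‖ * ‖uu v δ‖ ^ 2 ≤ 10 * y := by
      calc _ ≤ ‖gamm a (nrm v) s‖ * 1 :=
            mul_le_mul_of_nonneg_left (pow_le_one₀ (norm_nonneg _) hu) (norm_nonneg _)
        _ ≤ 10 * y := by rw [mul_one]; exact b2.trans (by linarith)
    linarith
  have h4 : ‖(bet a (nrm v) s * uu v δ + gamm a (nrm v) s * uu v δ ^ 2) * S‖ ≤ 14 * y * 2 := by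
    rw [norm_mul]
    exact mul_le_mul h1 hS2 (norm_nonneg _) (by positivity)
  linarith

include hT in
private theorem P_ge (v : D.P) : 101 ≤ nrm v.1 := nrm_ge K T hT v.1 v.2.1

private theorem P_summable {b : ℝ} (hb : 3 / 2 < b) :
    Summable fun v : D.P => 30 * (nrm v.1 : ℝ) ^ (1 / 2 - b) := by
  have h1 := (summable_nrm K (x := b - 1 / 2) (by linarith)).subtype
    {v : HeightOneSpectrum (𝓞 K) | Away K T v ∧ v ≠ D.q}
  have h2 : Summable fun v : D.P => (nrm v.1 : ℝ) ^ (1 / 2 - b) := by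
    refine h1.congr fun v => ?_
    simp only [Function.comp_apply, neg_sub]
  exact h2.mul_left 30

include ha hT in
private theorem loc_summable {δ : 𝓞 K} {s : ℂ} (hs : 3 / 2 < s.re) :
    Summable fun v : D.P => ‖loc a v.1 δ s - 1‖ :=
  Summable.of_nonneg_of_le (fun v => norm_nonneg _)
    (fun v => loc_near ha v.1 (P_ge hT D v) δ hs) (P_summable D hs)

include ha hT in
theorem loc_mult {δ : 𝓞 K} (hδ : δ ≠ 0) {s : ℂ} (hs : 3 / 2 < s.re) :
    Multipliable fun v : D.P => loc a v.1 δ s := by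
  have h1 := multipliable_one_add_of_summable (loc_summable ha hT D (δ := δ) hs)
  refine h1.congr fun _ => ?_
  ring

include ha hT in
theorem loc_bdd {b : ℝ} (hb : 3 / 2 < b) : ∃ C : ℝ, ∀ δ : 𝓞 K, δ ≠ 0 → ∀ s : ℂ, s.re = b →
    ‖∏' v : D.P, loc a v.1 δ s‖ ≤ C := by
  refine ⟨Real.exp (∑' v : D.P, 30 * (nrm v.1 : ℝ) ^ (1 / 2 - b)), ?_⟩
  intro δ hδ s hs
  subst hs
  have hm := (loc_mult ha hT D hδ hb).hasProd
  have hlim : Filter.Tendsto (fun F : Finset D.P => ‖∏ v ∈ F, loc a v.1 δ s‖) Filter.atTop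
      (nhds ‖∏' v : D.P, loc a v.1 δ s‖) := (continuous_norm.tendsto _).comp hm
  refine le_of_tendsto hlim (Filter.Eventually.of_forall fun F => ?_)
  rw [_root_.norm_prod]
  have h1 : ∀ v ∈ F, ‖loc a v.1 δ s‖ ≤ 1 + 30 * (nrm v.1 : ℝ) ^ (1 / 2 - s.re) := by
    intro v _
    have h2 := loc_near ha v.1 (P_ge hT D v) δ hb
    have h3 : loc a v.1 δ s = 1 + (loc a v.1 δ s - 1) := by ring
    rw [h3]
    refine (norm_add_le _ _).trans ?_
    rw [norm_one]
    linarith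
  refine (Finset.prod_le_prod (fun v _ => norm_nonneg _) h1).trans ?_
  have h4 : ∀ v : D.P, 0 ≤ 30 * (nrm v.1 : ℝ) ^ (1 / 2 - s.re) := fun v => by positivity
  refine (Real.prod_one_add_le_exp_sum F h4).trans ?_
  rw [Real.exp_le_exp]
  exact (P_summable D hb).sum_le_tsum F fun v _ => h4 v

end Pool.Agent.HWR
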