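import Pool.Agent.HWR.RAfin
import Pool.Agent.HWR.HolProd
import Pool.Agent.HWR.RAloc
import Pool.Agent.HWR.DatExists
import Pool.Agent.HWR.SumNrm

/-!
# HWR-RA2: mean value of the full Euler product over the family (`Re s = b > 2`)

PLAN. `z4 = z4 (nrm v) s`, `|z4| = N^(4(1-b)) ≤ N^(-4)`, `f(k) = (1 + gamm 1[k even])
∑_{i ≤ k/2} z4^i`.  `x v c = f(c) - f(c-1)` (`x v 0 = 1 + gamm`),
`y v c = bet ∑_{i ≤ c/2} z4^i` for even `c`, `0` for odd `c`.  For `δ ≠ 0`: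
`loc a v δ s = locxy x y v δ` (`uu_sq`, telescoping; `uu = 0` for odd order).
* `∑_c x v c N^(-c) = mloc a (nrm v) s`:
  `= (1 - 1/N) ∑_k f(k) N^(-k) = (1 + gamm/(1+1/N)) / (1 - z4/N^2)` and `z4 / N^2 = N^(2-4s)`.
* `x v (2k+1) = - gamm ∑_{i≤k} z4^i`, `x v (2k+2) = gamm ∑_{i ≤ k+1} z4^i + z4^(k+1)`; so
  `|x v c| ≤ 2 |gamm| + |z4|^(c/2) 1[c even]` for `c ≥ 1`, and
  `∑_c |x v c| N^(-cε) + 2 √N ∑_c |y v c| N^(-cε) ≤ 1 + t_v`,
  `t_v = C_ε (|gamm| + |z4| + √N |bet|) ≤ C_ε' N^(1-b)`, `∑_v t_v < ∞` (`summable_nrm`, `b > 2`).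
So `ra_fin` for finite `S ⊆ P` has error `≤ C X^(nε) exp (∑ t_v)`, uniformly in `S` and `s` on the
line `Re s = b`.  Let `S → P`: for each of the finitely many `δ` the product of `loc` over `P`
converges (`bet_le`, `gamm_le`, `ord_finite`; `loc_mult`), and the product of `mloc` too
(`mult_mloc`).
-/

namespace Pool.Agent.HWR

open NumberField IsDedekindDomain

namespace RA2

/-- geometric sums -/
noncomputable def GG (Z : ℂ) (k : ℕ) : ℂ := ∑ i ∈ Finset.range (k + 1), Z ^ i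

/-- the weights `x` -/
noncomputable def xx (g Z : ℂ) (c : ℕ) : ℂ :=
  if Even c then g * GG Z (c / 2) + Z ^ (c / 2) else -(g * GG Z (c / 2))

/-- the weights `y` -/
noncomputable def yy (β Z : ℂ) (c : ℕ) : ℂ := if Even c then β * GG Z (c / 2) else 0

theorem xx_even (g Z : ℂ) (k : ℕ) : xx g Z (2 * k) = g * GG Z k + Z ^ k := by
  simp [xx]

theorem xx_odd (g Z : ℂ) (k : ℕ) : xx g Z (2 * k + 1) = -(g * GG Z k) := by
  have h : ¬ Even (2 * k + 1) := by simp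
  have h2 : (2 * k + 1) / 2 = k := by omega
  simp only [xx, if_neg h, h2]

theorem yy_even (β Z : ℂ) (k : ℕ) : yy β Z (2 * k) = β * GG Z k := by
  simp [yy]

theorem yy_odd (β Z : ℂ) {c : ℕ} (h : Odd c) : yy β Z c = 0 := by
  have h' : ¬ Even c := by simpa using h
  simp only [yy, if_neg h']

theorem GG_succ (Z : ℂ) (k : ℕ) : GG Z (k + 1) = GG Z k + Z ^ (k + 1) := by
  simp only [GG]
  rw [Finset.sum_range_succ]

theorem sum_xx_odd (g Z : ℂ) (k : ℕ) :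
    ∑ c ∈ Finset.range (2 * k + 1 + 1), xx g Z c = GG Z k := by
  induction k with
  | zero =>
    have h0 := xx_even g Z 0
    have h1 := xx_odd g Z 0
    simp only [mul_zero, zero_add] at h0 h1
    rw [Finset.sum_range_succ, Finset.sum_range_succ]
    simp only [zero_add, Finset.range_zero, Finset.sum_empty]
    rw [h0, h1]
    simp [GG]
  | succ k ih =>
    have e1 := xx_even g Z (k + 1)
    have e2 := xx_odd g Z (k + 1)
    have e3 : ∑ c ∈ Finset.range (2 * (k + 1)), xx g Z c = GG Z k := ih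
    rw [Finset.sum_range_succ, Finset.sum_range_succ, e1, e2, e3, GG_succ]
    ring

theorem sum_xx_even (g Z : ℂ) (k : ℕ) :
    ∑ c ∈ Finset.range (2 * k + 1), xx g Z c = (1 + g) * GG Z k := by
  have h := sum_xx_odd g Z k
  rw [Finset.sum_range_succ, xx_odd] at h
  linear_combination h

theorem norm_GG_le {Z : ℂ} (hZ : ‖Z‖ ≤ 1 / 2) (k : ℕ) : ‖GG Z k‖ ≤ 2 := by
  unfold GG
  refine (norm_sum_le _ _).trans (le_trans ?_ (sum_geometric_two_le (k + 1)))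
  refine Finset.sum_le_sum fun i _ => ?_
  rw [norm_pow]
  exact pow_le_pow_left₀ (norm_nonneg _) hZ i

theorem norm_xx_le {g Z : ℂ} (hZ : ‖Z‖ ≤ 1 / 2) (c : ℕ) :
    ‖xx g Z c‖ ≤ 2 * ‖g‖ + (if Even c then ‖Z‖ ^ (c / 2) else 0) := by
  have h := norm_GG_le hZ (c / 2)
  have h2 : ‖g * GG Z (c / 2)‖ ≤ 2 * ‖g‖ := by
    rw [norm_mul]
    nlinarith [norm_nonneg g]
  unfold xx
  split_ifs with hc
  · refine (norm_add_le _ _).trans ?_
    rw [norm_pow]
    linarith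
  · rw [norm_neg]
    linarith

theorem norm_yy_le {β Z : ℂ} (hZ : ‖Z‖ ≤ 1 / 2) (c : ℕ) : ‖yy β Z c‖ ≤ 2 * ‖β‖ := by
  have h := norm_GG_le hZ (c / 2)
  unfold yy
  split_ifs with hc
  · rw [norm_mul]
    nlinarith [norm_nonneg β]
  · rw [norm_zero]
    positivity

theorem hasSum_GG {Z w : ℂ} (hZ : ‖Z‖ < 1) (hw : ‖w‖ < 1) :
    HasSum (fun k => GG Z k * w ^ k) (1 / ((1 - w) * (1 - Z * w))) := by
  have hZw : ‖Z * w‖ < 1 := by
    rw [norm_mul]
    nlinarith [norm_nonneg Z, norm_nonneg w]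
  have e1 : (1 - Z) ≠ 0 := by
    intro h
    have : Z = 1 := by linear_combination -h
    rw [this, norm_one] at hZ
    exact lt_irrefl _ hZ
  have e2 : (1 - w) ≠ 0 := by
    intro h
    have : w = 1 := by linear_combination -h
    rw [this, norm_one] at hw
    exact lt_irrefl _ hw
  have e3 : (1 - Z * w) ≠ 0 := by
    intro h
    have : Z * w = 1 := by linear_combination -h
    rw [this, norm_one] at hZw
    exact lt_irrefl _ hZw
  have h1 := hasSum_geometric_of_norm_lt_one hw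
  have h2 := hasSum_geometric_of_norm_lt_one hZw
  have h3 := (h1.sub (h2.mul_left Z)).mul_left (1 - Z)⁻¹
  have e4 : (fun k => GG Z k * w ^ k) =
      fun i => (1 - Z)⁻¹ * (w ^ i - Z * (Z * w) ^ i) := by
    funext k
    have h4 : GG Z k * (1 - Z) = 1 - Z ^ (k + 1) := by
      unfold GG
      exact geom_sum_mul_neg Z (k + 1)
    have h5 : GG Z k = (1 - Z)⁻¹ * (1 - Z ^ (k + 1)) := by
      rw [← h4, mul_comm (GG Z k), inv_mul_cancel_left₀ e1]
    rw [h5, mul_pow]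
    ring
  have e5 : 1 / ((1 - w) * (1 - Z * w)) =
      (1 - Z)⁻¹ * ((1 - w)⁻¹ - Z * (1 - Z * w)⁻¹) := by
    rw [eq_comm, inv_mul_eq_iff_eq_mul₀ e1, eq_comm, one_div, mul_inv]
    have e6 : (1 - w)⁻¹ * (1 - w) = 1 := inv_mul_cancel₀ e2
    have e7 : (1 - Z * w)⁻¹ * (1 - Z * w) = 1 := inv_mul_cancel₀ e3
    linear_combination (1 - w)⁻¹ * e7 - Z * (1 - Z * w)⁻¹ * e6
  rw [e4, e5]
  exact h3

theorem hasSum_xx {g Z t : ℂ} (hZ : ‖Z‖ < 1) (ht : ‖t‖ < 1) :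
    HasSum (fun c => xx g Z c * t ^ c) ((1 + g / (1 + t)) / (1 - Z * t ^ 2)) := by
  have hw : ‖t ^ 2‖ < 1 := by
    rw [norm_pow]
    nlinarith [norm_nonneg t]
  have hZw : ‖Z * t ^ 2‖ < 1 := by
    rw [norm_mul]
    nlinarith [norm_nonneg Z, norm_nonneg (t ^ 2)]
  have e1 : 1 + t ≠ 0 := by
    intro h
    have : t = -1 := by linear_combination h
    rw [this, norm_neg, norm_one] at ht
    exact lt_irrefl _ ht
  have e2 : 1 - t ≠ 0 := by
    intro h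
    have : t = 1 := by linear_combination -h
    rw [this, norm_one] at ht
    exact lt_irrefl _ ht
  have e3 : 1 - Z * t ^ 2 ≠ 0 := by
    intro h
    have : Z * t ^ 2 = 1 := by linear_combination -h
    rw [this, norm_one] at hZw
    exact lt_irrefl _ hZw
  have e4 : 1 - t ^ 2 ≠ 0 := by
    have : 1 - t ^ 2 = (1 - t) * (1 + t) := by ring
    rw [this]
    exact mul_ne_zero e2 e1
  have h1 := (hasSum_GG hZ hw).mul_left g
  have h2 := hasSum_geometric_of_norm_lt_one hZw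
  have h3 := (hasSum_GG hZ hw).mul_left (-(g * t))
  have h4 : HasSum (fun k => xx g Z (2 * k) * t ^ (2 * k))
      (g * (1 / ((1 - t ^ 2) * (1 - Z * t ^ 2))) + (1 - Z * t ^ 2)⁻¹) := by
    have e : (fun k => xx g Z (2 * k) * t ^ (2 * k)) =
        fun k => g * (GG Z k * (t ^ 2) ^ k) + (Z * t ^ 2) ^ k := by
      funext k
      rw [xx_even, pow_mul, mul_pow]
      ring
    rw [e]
    exact h1.add h2
  have h5 : HasSum (fun k => xx g Z (2 * k + 1) * t ^ (2 * k + 1))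
      (-(g * t) * (1 / ((1 - t ^ 2) * (1 - Z * t ^ 2)))) := by
    have e : (fun k => xx g Z (2 * k + 1) * t ^ (2 * k + 1)) =
        fun k => -(g * t) * (GG Z k * (t ^ 2) ^ k) := by
      funext k
      rw [xx_odd, pow_succ, pow_mul]
      ring
    rw [e]
    exact h3
  have h6 := HasSum.even_add_odd (f := fun c => xx g Z c * t ^ c) h4 h5
  have e5 : (1 - t ^ 2)⁻¹ * (1 - t) = (1 + t)⁻¹ := by
    rw [show 1 - t ^ 2 = (1 - t) * (1 + t) by ring, mul_inv]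
    field_simp
  have e6 : (1 + g / (1 + t)) / (1 - Z * t ^ 2) =
      (1 - Z * t ^ 2)⁻¹ + g * (1 + t)⁻¹ * (1 - Z * t ^ 2)⁻¹ := by
    rw [div_eq_mul_inv, div_eq_mul_inv]
    ring
  have e7 : (1 + g / (1 + t)) / (1 - Z * t ^ 2) =
      g * (1 / ((1 - t ^ 2) * (1 - Z * t ^ 2))) + (1 - Z * t ^ 2)⁻¹ +
        -(g * t) * (1 / ((1 - t ^ 2) * (1 - Z * t ^ 2))) := by
    rw [e6, ← e5, one_div, mul_inv]
    ring
  rw [e7]
  exact h6

theorem sum_norm_xx {g Z : ℂ} (hZ : ‖Z‖ ≤ 1 / 2) {u : ℝ} (hu0 : 0 ≤ u) (hu : u < 1) :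
    ∑' c : ℕ, ‖xx g Z c‖ * u ^ c ≤ 1 + 2 * ‖Z‖ + 2 * ‖g‖ * (1 - u)⁻¹ := by
  have hZu : ‖Z‖ * u ^ 2 < 1 := by
    have h1 : u ^ 2 < 1 := by nlinarith
    nlinarith [norm_nonneg Z, sq_nonneg u]
  have h1 : HasSum (fun c : ℕ => 2 * ‖g‖ * u ^ c) (2 * ‖g‖ * (1 - u)⁻¹) :=
    (hasSum_geometric_of_lt_one hu0 hu).mul_left _
  have h2 : HasSum (fun c : ℕ => (if Even c then ‖Z‖ ^ (c / 2) else 0) * u ^ c)
      ((1 - ‖Z‖ * u ^ 2)⁻¹ + 0) := by
    refine HasSum.even_add_odd ?_ ?_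
    · have h3 := hasSum_geometric_of_lt_one (by positivity) hZu
      have e : (fun k : ℕ => (if Even (2 * k) then ‖Z‖ ^ (2 * k / 2) else 0) * u ^ (2 * k)) =
          fun k : ℕ => (‖Z‖ * u ^ 2) ^ k := by
        funext k
        simp only [even_two, Even.mul_right, if_true]
        rw [Nat.mul_div_cancel_left k two_pos, mul_pow, ← pow_mul]
      rw [e]
      exact h3
    · have e : (fun k : ℕ => (if Even (2 * k + 1) then ‖Z‖ ^ ((2 * k + 1) / 2) else 0) *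
          u ^ (2 * k + 1)) = fun k : ℕ => (0 : ℝ) := by
        funext k
        have h : ¬ Even (2 * k + 1) := by simp
        rw [if_neg h, zero_mul]
      rw [e]
      exact hasSum_zero
  have h3 := h1.add h2
  have h4 : ∀ c, ‖xx g Z c‖ * u ^ c ≤
      2 * ‖g‖ * u ^ c + (if Even c then ‖Z‖ ^ (c / 2) else 0) * u ^ c := by
    intro c
    have := mul_le_mul_of_nonneg_right (norm_xx_le (g := g) hZ c) (pow_nonneg hu0 c)
    linarith [this, add_mul (2 * ‖g‖) (if Even c then ‖Z‖ ^ (c / 2) else 0) (u ^ c)]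
  have h5 : Summable fun c : ℕ => ‖xx g Z c‖ * u ^ c :=
    Summable.of_nonneg_of_le (fun c => by positivity) h4 h3.summable
  have h6 := h5.tsum_le_tsum h4 h3.summable
  rw [h3.tsum_eq] at h6
  have h7 : (1 - ‖Z‖ * u ^ 2)⁻¹ ≤ 1 + 2 * ‖Z‖ := by
    have h8 : 0 < 1 - ‖Z‖ * u ^ 2 := by linarith
    rw [inv_le_comm₀ h8 (by positivity), inv_le_iff_one_le_mul₀ (by positivity)]
    have h9 : ‖Z‖ * u ^ 2 ≤ ‖Z‖ := by
      have : u ^ 2 ≤ 1 := by nlinarith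
      nlinarith [norm_nonneg Z]
    nlinarith [norm_nonneg Z]
  linarith

theorem sum_norm_yy {β Z : ℂ} (hZ : ‖Z‖ ≤ 1 / 2) {u : ℝ} (hu0 : 0 ≤ u) (hu : u < 1) :
    ∑' c : ℕ, ‖yy β Z c‖ * u ^ c ≤ 2 * ‖β‖ * (1 - u)⁻¹ := by
  have h1 : HasSum (fun c : ℕ => 2 * ‖β‖ * u ^ c) (2 * ‖β‖ * (1 - u)⁻¹) :=
    (hasSum_geometric_of_lt_one hu0 hu).mul_left _
  have h4 : ∀ c, ‖yy β Z c‖ * u ^ c ≤ 2 * ‖β‖ * u ^ c := by
    intro c
    exact mul_le_mul_of_nonneg_right (norm_yy_le (β := β) hZ c) (pow_nonneg hu0 c)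
  have h5 : Summable fun c : ℕ => ‖yy β Z c‖ * u ^ c :=
    Summable.of_nonneg_of_le (fun c => by positivity) h4 h1.summable
  have h6 := h5.tsum_le_tsum h4 h1.summable
  rw [h1.tsum_eq] at h6
  exact h6

end RA2

open RA2

variable {K : Type} [Field K] [NumberField K] {W : (Idx K → ℝ) → ℝ} (hW : IsWeight W)
  {a : ℕ → ℝ} (ha : ∀ q : ℕ, |a q| ≤ 2 * Real.sqrt q) {T : Finset ℕ}
  (hT : ∀ p : ℕ, p.Prime → p < 101 → p ∈ T) (hTp : ∀ p ∈ T, p.Prime) (D : Dat K T)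

/-- The local factor `loc` in the form `locxy`. -/
theorem RA2.loc_eq (a : ℕ → ℝ) (s : ℂ) (v : HeightOneSpectrum (𝓞 K)) {δ : 𝓞 K} (hδ : δ ≠ 0) :
    loc a v δ s = locxy (fun v c => xx (gamm a (nrm v) s) (z4 (nrm v) s) c)
      (fun v c => yy (bet a (nrm v) s) (z4 (nrm v) s) c) v δ := by
  have hsq := uu_sq v hδ
  unfold loc locxy
  rcases Nat.even_or_odd' (ord v δ) with ⟨k, hk | hk⟩
  · have he : Even (ord v δ) := by rw [hk]; simp
    rw [if_pos he] at hsq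
    have e2 : ord v δ / 2 = k := by omega
    have hy := yy_even (bet a (nrm v) s) (z4 (nrm v) s) k
    rw [e2, hk, sum_xx_even, hsq]
    beta_reduce
    rw [hy]
    change _ * GG (z4 (nrm v) s) k = _
    ring
  · have he : ¬ Even (ord v δ) := by rw [hk]; simp
    rw [if_neg he] at hsq
    have hu : uu v δ = 0 := by simpa using hsq
    have e2 : ord v δ / 2 = k := by omega
    rw [e2, hu, hk, sum_xx_odd]
    change _ * GG (z4 (nrm v) s) k = _
    ring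

theorem RA2.norm_z4 {q : ℕ} (hq : 101 ≤ q) {b : ℝ} {s : ℂ} (hs : s.re = b) :
    ‖z4 q s‖ = (q : ℝ) ^ (4 * (1 - b)) := by
  have hq0 : 0 < q := by omega
  unfold z4
  rw [Complex.norm_natCast_cpow_of_pos hq0]
  congr 1
  simp [hs]

theorem RA2.z4_le {q : ℕ} (hq : 101 ≤ q) {b : ℝ} (hb : 2 < b) {s : ℂ} (hs : s.re = b) :
    ‖z4 q s‖ ≤ 1 / 2 := by
  rw [norm_z4 hq hs]
  have hq1 : (1 : ℝ) ≤ q := by exact_mod_cast (by omega : 1 ≤ q)
  have hq2 : (101 : ℝ) ≤ q := by exact_mod_cast hq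
  have h1 : (q : ℝ) ^ (4 * (1 - b)) ≤ (q : ℝ) ^ (-1 : ℝ) :=
    Real.rpow_le_rpow_of_exponent_le hq1 (by linarith)
  refine h1.trans ?_
  rw [Real.rpow_neg_one, inv_le_comm₀ (by linarith) (by norm_num)]
  linarith

theorem RA2.mean_eq (a : ℕ → ℝ) {q : ℕ} (hq : 101 ≤ q) {b : ℝ} (hb : 2 < b) {s : ℂ}
    (hs : s.re = b) :
    ∑' c : ℕ, xx (gamm a q s) (z4 q s) c * ((q : ℂ) ^ c)⁻¹ = mloc a q s := by
  have hq0 : (q : ℂ) ≠ 0 := by
    have : q ≠ 0 := by omega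
    exact_mod_cast this
  have ht : ‖((q : ℂ))⁻¹‖ < 1 := by
    rw [norm_inv, Complex.norm_natCast]
    have hq2 : (101 : ℝ) ≤ q := by exact_mod_cast hq
    exact inv_lt_one_of_one_lt₀ (by linarith)
  have h := hasSum_xx (g := gamm a q s) (Z := z4 q s) (t := ((q : ℂ))⁻¹)
    (lt_of_le_of_lt (z4_le hq hb hs) (by norm_num)) ht
  simp only [inv_pow] at h
  rw [h.tsum_eq]
  unfold mloc
  congr 2
  unfold z4
  rw [← Complex.cpow_natCast, ← Complex.cpow_neg, ← Complex.cpow_add _ _ hq0]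
  congr 1
  push_cast
  ring

theorem RA2.err_le (ha : ∀ q : ℕ, |a q| ≤ 2 * Real.sqrt q) {b : ℝ} (hb : 2 < b) {ε : ℝ}
    (hε : 0 < ε) {q : ℕ} (hq : 101 ≤ q) {s : ℂ} (hs : s.re = b) :
    (∑' c : ℕ, ‖xx (gamm a q s) (z4 q s) c‖ * (q : ℝ) ^ (-(ε * c)) +
      2 * Real.sqrt q * ∑' c : ℕ, ‖yy (bet a q s) (z4 q s) c‖ * (q : ℝ) ^ (-(ε * c))) ≤
      1 + (2 + 36 * (1 - (101 : ℝ) ^ (-ε))⁻¹) * (q : ℝ) ^ (-(b - 1)) := by
  have hq1 : (1 : ℝ) ≤ q := by exact_mod_cast (by omega : 1 ≤ q)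
  have hq2 : (101 : ℝ) ≤ q := by exact_mod_cast hq
  have hqp : (0 : ℝ) < q := by linarith
  have hu0 : 0 ≤ (q : ℝ) ^ (-ε) := by positivity
  have hu1 : (q : ℝ) ^ (-ε) ≤ (101 : ℝ) ^ (-ε) :=
    Real.rpow_le_rpow_of_nonpos (by norm_num) hq2 (by linarith)
  have h101 : (101 : ℝ) ^ (-ε) < 1 := Real.rpow_lt_one_of_one_lt_of_neg (by norm_num) (by linarith)
  have hu : (q : ℝ) ^ (-ε) < 1 := lt_of_le_of_lt hu1 h101
  have hκ : (1 - (q : ℝ) ^ (-ε))⁻¹ ≤ (1 - (101 : ℝ) ^ (-ε))⁻¹ := by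
    apply inv_anti₀ (by linarith) (by linarith)
  have hκ0 : 0 < (1 - (q : ℝ) ^ (-ε))⁻¹ := inv_pos.2 (by linarith)
  set κ := (1 - (101 : ℝ) ^ (-ε))⁻¹ with hκdef
  have hpow : ∀ c : ℕ, (q : ℝ) ^ (-(ε * c)) = ((q : ℝ) ^ (-ε)) ^ c := by
    intro c
    rw [← Real.rpow_natCast, ← Real.rpow_mul hqp.le]
    congr 1
    ring
  simp only [hpow]
  have hZ := z4_le hq hb hs
  have h1 := sum_norm_xx (g := gamm a q s) hZ hu0 hu
  have h2 := sum_norm_yy (β := bet a q s) hZ hu0 hu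
  have hs1 : 1 ≤ s.re := by rw [hs]; linarith
  have h3 := gamm_le ha hq hs1
  have h4 := bet_le ha hq hs1
  rw [hs] at h3 h4
  have h5 : (q : ℝ) ^ (1 - 2 * b) ≤ (q : ℝ) ^ (-(b - 1)) :=
    Real.rpow_le_rpow_of_exponent_le hq1 (by linarith)
  have h6 : ‖z4 q s‖ ≤ (q : ℝ) ^ (-(b - 1)) := by
    rw [norm_z4 hq hs]
    exact Real.rpow_le_rpow_of_exponent_le hq1 (by linarith)
  have h7 : Real.sqrt q * (q : ℝ) ^ (1 / 2 - b) = (q : ℝ) ^ (-(b - 1)) := by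
    rw [Real.sqrt_eq_rpow, ← Real.rpow_add hqp]
    congr 1
    ring
  have hs0 : 0 ≤ Real.sqrt q := Real.sqrt_nonneg _
  have h8 : Real.sqrt q * ‖bet a q s‖ ≤ 4 * (q : ℝ) ^ (-(b - 1)) := by
    rw [← h7]
    have := mul_le_mul_of_nonneg_left h4 hs0
    linarith
  have h9 : 2 * ‖gamm a q s‖ * (1 - (q : ℝ) ^ (-ε))⁻¹ ≤ 20 * κ * (q : ℝ) ^ (-(b - 1)) := by
    have e1 : 2 * ‖gamm a q s‖ ≤ 20 * (q : ℝ) ^ (-(b - 1)) := by linarith
    calc 2 * ‖gamm a q s‖ * (1 - (q : ℝ) ^ (-ε))⁻¹ ≤ (20 * (q : ℝ) ^ (-(b - 1))) * κ :=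
          mul_le_mul e1 hκ hκ0.le (by positivity)
      _ = _ := by ring
  have h10 : 2 * Real.sqrt q * (2 * ‖bet a q s‖ * (1 - (q : ℝ) ^ (-ε))⁻¹) ≤
      16 * κ * (q : ℝ) ^ (-(b - 1)) := by
    have e1 : 4 * (Real.sqrt q * ‖bet a q s‖) ≤ 16 * (q : ℝ) ^ (-(b - 1)) := by linarith
    calc 2 * Real.sqrt q * (2 * ‖bet a q s‖ * (1 - (q : ℝ) ^ (-ε))⁻¹)
        = 4 * (Real.sqrt q * ‖bet a q s‖) * (1 - (q : ℝ) ^ (-ε))⁻¹ := by ring
      _ ≤ (16 * (q : ℝ) ^ (-(b - 1))) * κ := mul_le_mul e1 hκ hκ0.le (by positivity)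
      _ = _ := by ring
  have h11 := mul_le_mul_of_nonneg_left h2 (show 0 ≤ 2 * Real.sqrt q by positivity)
  have e : 1 + (2 + 36 * κ) * (q : ℝ) ^ (-(b - 1)) = 1 + 2 * (q : ℝ) ^ (-(b - 1)) +
      20 * κ * (q : ℝ) ^ (-(b - 1)) + 16 * κ * (q : ℝ) ^ (-(b - 1)) := by ring
  rw [e]
  linarith

open Classical in
include hW ha hT hTp in
theorem ra_full {b : ℝ} (hb : 2 < b) {ε : ℝ} (hε : 0 < ε) (hε1 : ε ≤ 1) (R : ℝ) :
    ∃ C : ℝ, 0 ≤ C ∧ ∀ z : ℂ, ‖z‖ ≤ R → ∀ s : ℂ, s.re = b → ∀ X : ℝ, 1 ≤ X →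
      ‖∑' δ : 𝓞 K, Phi W z (crdR X δ) *
          ((if δ - D.δ1 ∈ D.I0 then 1 else 0) * ∏' v : D.P, loc a v.1 δ s) -
        Tot W z X / (Ideal.absNorm D.I0 : ℂ) * ∏' v : D.P, mloc a (nrm v.1) s‖ ≤
      C * (X ^ Module.finrank ℚ K) ^ ε := by
  have h2T : 2 ∈ T := hT 2 Nat.prime_two (by norm_num)
  obtain ⟨C0, hC0, hfin⟩ := ra_fin hW (D.I0_ne_bot hTp) D.δ1 hε hε1 R
  have h101 : (101 : ℝ) ^ (-ε) < 1 := Real.rpow_lt_one_of_one_lt_of_neg (by norm_num) (by linarith)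
  set C1 : ℝ := 2 + 36 * (1 - (101 : ℝ) ^ (-ε))⁻¹ with hC1
  have hC1p : 0 ≤ C1 := by
    have : 0 ≤ (1 - (101 : ℝ) ^ (-ε))⁻¹ := inv_nonneg.2 (by linarith)
    positivity
  have hsum : Summable fun v : HeightOneSpectrum (𝓞 K) => C1 * (nrm v : ℝ) ^ (-(b - 1)) :=
    (summable_nrm K (by linarith)).mul_left C1
  set E : ℝ := ∑' v : HeightOneSpectrum (𝓞 K), C1 * (nrm v : ℝ) ^ (-(b - 1)) with hE
  have hge : ∀ v : HeightOneSpectrum (𝓞 K), (Away K T v ∧ v ≠ D.q) → 101 ≤ nrm v :=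
    fun v hv => nrm_ge K T hT v hv.1
  refine ⟨C0 * Real.exp E, by positivity, fun z hz s hs X hX => ?_⟩
  have hX0 : 0 < X := by linarith
  have hs1 : 1 ≤ s.re := by rw [hs]; linarith
  -- the statement for finite sets
  have key : ∀ S0 : Finset D.P,
      ‖∑' δ : 𝓞 K, Phi W z (crdR X δ) *
          ((if δ - D.δ1 ∈ D.I0 then 1 else 0) * ∏ v ∈ S0,
            locxy (fun v c => xx (gamm a (nrm v) s) (z4 (nrm v) s) c)
              (fun v c => yy (bet a (nrm v) s) (z4 (nrm v) s) c) v.1 δ) -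
        Tot W z X / (Ideal.absNorm D.I0 : ℂ) * ∏ v ∈ S0, mloc a (nrm v.1) s‖ ≤
      C0 * Real.exp E * (X ^ Module.finrank ℚ K) ^ ε := by
    intro S0
    have h := hfin (S0.map (Function.Embedding.subtype _))
      (by
        intro v hv
        obtain ⟨w, _, rfl⟩ := Finset.mem_map.1 hv
        exact D.not_le hTp h2T w.1 w.2)
      (by
        intro v hv
        obtain ⟨w, _, rfl⟩ := Finset.mem_map.1 hv
        exact Dat.two_not_mem h2T w.1 w.2.1)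
      (fun v c => xx (gamm a (nrm v) s) (z4 (nrm v) s) c)
      (fun v c => yy (bet a (nrm v) s) (z4 (nrm v) s) c)
      (fun v c hc => yy_odd _ _ hc)
      (by
        refine ⟨21, fun v hv c => ?_⟩
        obtain ⟨w, _, rfl⟩ := Finset.mem_map.1 hv
        have hq := hge w.1 w.2
        have hq1 : (1 : ℝ) ≤ nrm w.1 := by exact_mod_cast (by omega : 1 ≤ nrm w.1)
        have hZ := z4_le hq hb hs
        have hg := gamm_le ha hq hs1
        have hbt := bet_le ha hq hs1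
        have r1 : (nrm w.1 : ℝ) ^ (1 - 2 * s.re) ≤ 1 :=
          Real.rpow_le_one_of_one_le_of_nonpos hq1 (by linarith)
        have r2 : (nrm w.1 : ℝ) ^ (1 / 2 - s.re) ≤ 1 :=
          Real.rpow_le_one_of_one_le_of_nonpos hq1 (by linarith)
        have hx := norm_xx_le (g := gamm a (nrm w.1) s) hZ c
        have hy := norm_yy_le (β := bet a (nrm w.1) s) hZ c
        have hif : (if Even c then ‖z4 (nrm w.1) s‖ ^ (c / 2) else 0) ≤ 1 := by
          split_ifs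
          · exact pow_le_one₀ (norm_nonneg _) (hZ.trans (by norm_num))
          · norm_num
        change ‖xx (gamm a (nrm w.1) s) (z4 (nrm w.1) s) c‖ ≤ 21 ∧
          ‖yy (bet a (nrm w.1) s) (z4 (nrm w.1) s) c‖ ≤ 21
        constructor <;> linarith)
      z hz X hX
    simp only [Finset.prod_map, Function.Embedding.subtype_apply] at h
    have hm : ∏ v ∈ S0, ∑' c : ℕ, xx (gamm a (nrm v.1) s) (z4 (nrm v.1) s) c *
        ((nrm v.1 : ℂ) ^ c)⁻¹ = ∏ v ∈ S0, mloc a (nrm v.1) s :=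
      Finset.prod_congr rfl fun v _ => mean_eq a (hge v.1 v.2) hb hs
    rw [hm] at h
    refine h.trans ?_
    have hpr : ∏ v ∈ S0, (∑' c : ℕ, ‖xx (gamm a (nrm v.1) s) (z4 (nrm v.1) s) c‖ *
          (nrm v.1 : ℝ) ^ (-(ε * c)) +
        2 * Real.sqrt (nrm v.1) * ∑' c : ℕ, ‖yy (bet a (nrm v.1) s) (z4 (nrm v.1) s) c‖ *
          (nrm v.1 : ℝ) ^ (-(ε * c))) ≤ Real.exp E := by
      have r1 : ∏ v ∈ S0, (∑' c : ℕ, ‖xx (gamm a (nrm v.1) s) (z4 (nrm v.1) s) c‖ *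
          (nrm v.1 : ℝ) ^ (-(ε * c)) +
        2 * Real.sqrt (nrm v.1) * ∑' c : ℕ, ‖yy (bet a (nrm v.1) s) (z4 (nrm v.1) s) c‖ *
          (nrm v.1 : ℝ) ^ (-(ε * c))) ≤
          ∏ v ∈ S0, Real.exp (C1 * (nrm v.1 : ℝ) ^ (-(b - 1))) := by
        refine Finset.prod_le_prod (fun v _ => ?_) fun v _ => ?_
        · have e1 : 0 ≤ ∑' c : ℕ, ‖xx (gamm a (nrm v.1) s) (z4 (nrm v.1) s) c‖ *
              (nrm v.1 : ℝ) ^ (-(ε * c)) := tsum_nonneg fun c => by positivity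
          have e2 : 0 ≤ ∑' c : ℕ, ‖yy (bet a (nrm v.1) s) (z4 (nrm v.1) s) c‖ *
              (nrm v.1 : ℝ) ^ (-(ε * c)) := tsum_nonneg fun c => by positivity
          positivity
        · refine (err_le ha hb hε (hge v.1 v.2) hs).trans ?_
          have := Real.add_one_le_exp (C1 * (nrm v.1 : ℝ) ^ (-(b - 1)))
          linarith
      refine r1.trans ?_
      rw [← Real.exp_sum, Real.exp_le_exp]
      have r2 := hsum.sum_le_tsum (S0.map (Function.Embedding.subtype _))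
        (fun v _ => by positivity)
      rw [Finset.sum_map] at r2
      exact r2
    have hXn : 0 ≤ (X ^ Module.finrank ℚ K) ^ ε := by positivity
    calc _ ≤ C0 * (X ^ Module.finrank ℚ K) ^ ε * Real.exp E :=
          mul_le_mul_of_nonneg_left hpr (by positivity)
      _ = _ := by ring
  -- passage to the limit
  have hfs := supp_finite hW hX0
  have hzero : ∀ δ : 𝓞 K, δ ∉ hfs.toFinset → Phi W z (crdR X δ) = 0 := by
    intro δ hδ
    have : W (crdR X δ) = 0 := by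
      by_contra h
      exact hδ (hfs.mem_toFinset.2 h)
    unfold Phi
    rw [this]
    simp
  have hts : ∀ g : 𝓞 K → ℂ, ∑' δ : 𝓞 K, Phi W z (crdR X δ) * g δ =
      ∑ δ ∈ hfs.toFinset, Phi W z (crdR X δ) * g δ := by
    intro g
    exact tsum_eq_sum fun δ hδ => by rw [hzero δ hδ, zero_mul]
  simp only [hts] at key ⊢
  have hmm : Multipliable fun v : D.P => mloc a (nrm v.1) s := by
    refine mult_mloc (ι := D.P) (N := fun v => nrm v.1) ha (fun v => hge v.1 v.2) ?_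
      (by rw [hs]; linarith)
    intro x hx
    exact (summable_nrm K hx).comp_injective Subtype.val_injective
  have hlim : Filter.Tendsto (fun S0 : Finset D.P =>
      ∑ δ ∈ hfs.toFinset, Phi W z (crdR X δ) *
          ((if δ - D.δ1 ∈ D.I0 then 1 else 0) * ∏ v ∈ S0,
            locxy (fun v c => xx (gamm a (nrm v) s) (z4 (nrm v) s) c)
              (fun v c => yy (bet a (nrm v) s) (z4 (nrm v) s) c) v.1 δ) -
        Tot W z X / (Ideal.absNorm D.I0 : ℂ) * ∏ v ∈ S0, mloc a (nrm v.1) s) Filter.atTop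
      (nhds (∑ δ ∈ hfs.toFinset, Phi W z (crdR X δ) *
          ((if δ - D.δ1 ∈ D.I0 then 1 else 0) * ∏' v : D.P, loc a v.1 δ s) -
        Tot W z X / (Ideal.absNorm D.I0 : ℂ) * ∏' v : D.P, mloc a (nrm v.1) s)) := by
    refine Filter.Tendsto.sub ?_ ?_
    · refine tendsto_finsetSum _ fun δ _ => ?_
      refine Filter.Tendsto.const_mul _ ?_
      by_cases hδ : δ = 0
      · subst hδ
        have hn : ¬ ((0 : 𝓞 K) - D.δ1 ∈ D.I0) := by
          intro h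
          apply D.not_mem
          rw [zero_sub] at h
          exact (neg_mem_iff (S := Ideal (𝓞 K))).1 h
        simp only [if_neg hn, zero_mul]
        exact tendsto_const_nhds
      · refine Filter.Tendsto.const_mul _ ?_
        have h1 := (loc_mult ha hT D hδ (s := s) (by rw [hs]; linarith)).hasProd
        have h2 : (fun S0 : Finset D.P => ∏ v ∈ S0,
            locxy (fun v c => xx (gamm a (nrm v) s) (z4 (nrm v) s) c)
              (fun v c => yy (bet a (nrm v) s) (z4 (nrm v) s) c) v.1 δ) =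
            fun S0 : Finset D.P => ∏ v ∈ S0, loc a v.1 δ s := by
          funext S0
          exact Finset.prod_congr rfl fun v _ => (RA2.loc_eq a s v.1 hδ).symm
        rw [h2]
        exact h1
    · exact Filter.Tendsto.const_mul _ hmm.hasProd
  exact le_of_tendsto' hlim.norm key

end Pool.Agent.HWR
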