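import Pool.Agent.HWR.Psi
import Pool.Agent.HWR.RAfull
import Pool.Agent.HWR.Abstract
import Pool.Agent.HWR.PhragLind

/-!
# HWR-MAIN, part 1 (owner helper86): archimedean factor, bad factors
-/

namespace Pool.Agent.HWR

open NumberField IsDedekindDomain MeasureTheory

theorem norm_Gamma_le {s : ℂ} (hs : 0 < s.re) : ‖Complex.Gamma s‖ ≤ Real.Gamma s.re := by
  rw [Complex.Gamma_eq_integral hs, Real.Gamma_eq_integral hs]
  refine (norm_integral_le_integral_norm _).trans (le_of_eq ?_)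
  refine setIntegral_congr_fun measurableSet_Ioi fun x hx => ?_
  have hx' : 0 < x := hx
  simp only [norm_mul]
  rw [Complex.norm_cpow_eq_rpow_re_of_pos hx', Complex.norm_real, Real.norm_of_nonneg
    (Real.exp_pos _).le]
  simp

theorem gam1_line {b : ℝ} (hb : 0 < b) : ∃ C : ℝ, ∀ s : ℂ, s.re = b → ‖gam1 s‖ ≤ C := by
  refine ⟨(2 * Real.pi) ^ (-b) * Real.Gamma b, fun s hs => ?_⟩
  unfold gam1
  rw [norm_mul]
  have h1 : ‖(2 * Real.pi : ℂ) ^ (-s)‖ = (2 * Real.pi) ^ (-b) := by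
    rw [show (2 * Real.pi : ℂ) = ((2 * Real.pi : ℝ) : ℂ) by push_cast; ring,
      Complex.norm_cpow_eq_rpow_re_of_pos (by positivity)]
    simp [hs]
  rw [h1]
  gcongr
  rw [← hs]
  exact norm_Gamma_le (hs ▸ hb)

theorem gam1_ne {s : ℂ} (hs : 0 < s.re) : gam1 s ≠ 0 := by
  unfold gam1
  refine mul_ne_zero ?_ (Complex.Gamma_ne_zero_of_re_pos hs)
  rw [Complex.cpow_ne_zero_iff]
  left
  exact_mod_cast (by positivity : (2 * Real.pi : ℝ) ≠ 0)

theorem gam1_diff {s : ℂ} (hs : 0 < s.re) : DifferentiableAt ℂ gam1 s := by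
  unfold gam1
  refine DifferentiableAt.mul ?_ (Complex.differentiableAt_Gamma s ?_)
  · refine (differentiableAt_id.neg).const_cpow (Or.inl ?_)
    exact_mod_cast (by positivity : (2 * Real.pi : ℝ) ≠ 0)
  · intro m hm
    rw [hm] at hs
    simp at hs
    have : (0 : ℝ) ≤ m := Nat.cast_nonneg m
    linarith

theorem finEuler_factor {x : ℂ × ℕ} (hx : 2 ≤ x.2 ∧ ‖x.1‖ ≤ x.2) {s : ℂ} (hs : 1 < s.re) :
    ‖x.1 * (x.2 : ℂ) ^ (-s)‖ ≤ (2 : ℝ) ^ (1 - s.re) ∧
      1 - x.1 * (x.2 : ℂ) ^ (-s) ≠ 0 := by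
  obtain ⟨h2, h3⟩ := hx
  have hpos : (0 : ℝ) < x.2 := by
    have : (2 : ℝ) ≤ x.2 := by exact_mod_cast h2
    linarith
  have h4 : ‖x.1 * (x.2 : ℂ) ^ (-s)‖ ≤ (2 : ℝ) ^ (1 - s.re) := by
    rw [norm_mul, Complex.norm_natCast_cpow_of_pos (by omega)]
    calc ‖x.1‖ * (x.2 : ℝ) ^ (-s).re ≤ (x.2 : ℝ) * (x.2 : ℝ) ^ (-s).re := by gcongr
      _ = (x.2 : ℝ) ^ (1 - s.re) := by
          rw [show (1 - s.re) = 1 + (-s).re by simp; ring, Real.rpow_add hpos, Real.rpow_one]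
      _ ≤ (2 : ℝ) ^ (1 - s.re) := by
          apply Real.rpow_le_rpow_of_nonpos (by norm_num) (by exact_mod_cast h2) (by linarith)
  refine ⟨h4, fun h0 => ?_⟩
  have h5 : x.1 * (x.2 : ℂ) ^ (-s) = 1 := (sub_eq_zero.1 h0).symm
  rw [h5, norm_one] at h4
  have h6 : (2 : ℝ) ^ (1 - s.re) < 1 := Real.rpow_lt_one_of_one_lt_of_neg (by norm_num) (by linarith)
  linarith

theorem finEuler_diff {L : List (ℂ × ℕ)} (hL : ∀ x ∈ L, 2 ≤ x.2 ∧ ‖x.1‖ ≤ x.2) {s : ℂ}
    (hs : 1 < s.re) : DifferentiableAt ℂ (finEuler L) s ∧ finEuler L s ≠ 0 := by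
  induction L with
  | nil =>
    constructor
    · have : finEuler [] = fun _ => (1 : ℂ) := by funext s; simp [finEuler]
      rw [this]; exact differentiableAt_const _
    · simp [finEuler]
  | cons x L ih =>
    have hx := finEuler_factor (hL x (by simp)) hs
    obtain ⟨i1, i2⟩ := ih (fun y hy => hL y (by simp [hy]))
    have hx2 : (x.2 : ℂ) ≠ 0 := by
      have := (hL x (by simp)).1
      exact_mod_cast (by omega : x.2 ≠ 0)
    have e : finEuler (x :: L) = fun s => (1 - x.1 * (x.2 : ℂ) ^ (-s))⁻¹ * finEuler L s := by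
      funext s; simp [finEuler]
    rw [e]
    constructor
    · refine DifferentiableAt.mul (DifferentiableAt.inv ?_ hx.2) i1
      exact (differentiableAt_const _).sub ((differentiableAt_const _).mul
        ((differentiableAt_id.neg).const_cpow (Or.inl hx2)))
    · exact mul_ne_zero (inv_ne_zero hx.2) i2

theorem finEuler_line {L : List (ℂ × ℕ)} (hL : ∀ x ∈ L, 2 ≤ x.2 ∧ ‖x.1‖ ≤ x.2) {b : ℝ}
    (hb : 1 < b) : ∃ C : ℝ, ∀ s : ℂ, s.re = b → ‖finEuler L s‖ ≤ C := by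
  induction L with
  | nil => exact ⟨1, fun s _ => by simp [finEuler]⟩
  | cons x L ih =>
    obtain ⟨C, hC⟩ := ih (fun y hy => hL y (by simp [hy]))
    have h6 : (2 : ℝ) ^ (1 - b) < 1 := Real.rpow_lt_one_of_one_lt_of_neg (by norm_num) (by linarith)
    refine ⟨(1 - (2 : ℝ) ^ (1 - b))⁻¹ * C, fun s hs => ?_⟩
    have hx := finEuler_factor (hL x (by simp)) (s := s) (by rw [hs]; exact hb)
    have e : finEuler (x :: L) s = (1 - x.1 * (x.2 : ℂ) ^ (-s))⁻¹ * finEuler L s := by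
      simp [finEuler]
    rw [e, norm_mul, norm_inv]
    have h7 : 1 - (2 : ℝ) ^ (1 - b) ≤ ‖1 - x.1 * (x.2 : ℂ) ^ (-s)‖ := by
      have := norm_sub_norm_le (1 : ℂ) (x.1 * (x.2 : ℂ) ^ (-s))
      rw [norm_one] at this
      have h8 := hx.1
      rw [hs] at h8
      linarith
    have h9 : 0 < 1 - (2 : ℝ) ^ (1 - b) := by linarith
    have hC0 : ‖finEuler L s‖ ≤ C := hC s hs
    have : 0 ≤ ‖finEuler L s‖ := norm_nonneg _
    gcongr

end Pool.Agent.HWR
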