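import Pool.Agent.HWR.MainSums

/-!
# HWR-MAIN (owner helper86): general theorem
-/

namespace Pool.Agent.HWR

open NumberField IsDedekindDomain Filter Topology

/-- gluing along `2 < Re s < 3` -/
theorem glue {F1 F2 : ℂ → ℂ} (h1 : DifferentiableOn ℂ F1 {s : ℂ | 1 < s.re ∧ s.re < 3})
    (h2 : DifferentiableOn ℂ F2 {s : ℂ | 3 / 2 < s.re})
    (h : ∀ s : ℂ, 2 < s.re → s.re < 3 → F1 s = F2 s) :
    ∃ F : ℂ → ℂ, DifferentiableOn ℂ F {s : ℂ | 1 < s.re} ∧ ∀ s : ℂ, 3 / 2 < s.re → F s = F2 s := by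
  have o1 : IsOpen {s : ℂ | 1 < s.re ∧ s.re < 3} :=
    (isOpen_lt continuous_const Complex.continuous_re).inter
      (isOpen_lt Complex.continuous_re continuous_const)
  have o2 : IsOpen {s : ℂ | 3 / 2 < s.re} := isOpen_lt continuous_const Complex.continuous_re
  have o3 : IsOpen {s : ℂ | 3 / 2 < s.re ∧ s.re < 3} :=
    (isOpen_lt continuous_const Complex.continuous_re).inter
      (isOpen_lt Complex.continuous_re continuous_const)
  have conv : Convex ℝ {s : ℂ | 3 / 2 < s.re ∧ s.re < 3} :=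
    (convex_halfSpace_re_gt _).inter (convex_halfSpace_re_lt _)
  have key : ∀ s : ℂ, 3 / 2 < s.re → s.re < 3 → F1 s = F2 s := by
    intro s hs1 hs2
    have a1 : AnalyticOnNhd ℂ F1 {s : ℂ | 3 / 2 < s.re ∧ s.re < 3} :=
      (h1.mono (fun s hs => ⟨by linarith [hs.1], hs.2⟩)).analyticOnNhd o3
    have a2 : AnalyticOnNhd ℂ F2 {s : ℂ | 3 / 2 < s.re ∧ s.re < 3} :=
      (h2.mono (fun s hs => hs.1)).analyticOnNhd o3
    have hz : (5 / 2 : ℂ) ∈ {s : ℂ | 3 / 2 < s.re ∧ s.re < 3} := by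
      constructor <;> norm_num
    refine a1.eqOn_of_preconnected_of_eventuallyEq a2 conv.isPreconnected hz ?_ ⟨hs1, hs2⟩
    have o4 : IsOpen {s : ℂ | 2 < s.re ∧ s.re < 3} :=
      (isOpen_lt continuous_const Complex.continuous_re).inter
        (isOpen_lt Complex.continuous_re continuous_const)
    have hmem : (5 / 2 : ℂ) ∈ {s : ℂ | 2 < s.re ∧ s.re < 3} := by
      constructor <;> norm_num
    filter_upwards [o4.mem_nhds hmem] with w hw
    exact h w hw.1 hw.2
  refine ⟨fun s => if s.re < 5 / 2 then F1 s else F2 s, ?_, ?_⟩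
  · intro s hs
    have hs' : 1 < s.re := hs
    by_cases hlt : s.re < 3
    · have e : (fun s : ℂ => if s.re < 5 / 2 then F1 s else F2 s) =ᶠ[𝓝 s] F1 := by
        filter_upwards [o1.mem_nhds (⟨hs', hlt⟩ : s ∈ {s : ℂ | 1 < s.re ∧ s.re < 3})] with w hw
        by_cases hw2 : w.re < 5 / 2
        · simp [hw2]
        · simp only [hw2, if_false]
          exact (key w (by linarith) hw.2).symm
      exact ((h1.differentiableAt (o1.mem_nhds ⟨hs', hlt⟩)).congr_of_eventuallyEq e).differentiableWithinAt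
    · have hs2 : s ∈ {s : ℂ | 3 / 2 < s.re} := by
        simp only [Set.mem_setOf_eq]; linarith
      have o5 : IsOpen {s : ℂ | 5 / 2 < s.re} := isOpen_lt continuous_const Complex.continuous_re
      have e : (fun s : ℂ => if s.re < 5 / 2 then F1 s else F2 s) =ᶠ[𝓝 s] F2 := by
        filter_upwards [o5.mem_nhds (show s ∈ {s : ℂ | 5 / 2 < s.re} by
          simp only [Set.mem_setOf_eq]; linarith)] with w hw
        have : ¬ w.re < 5 / 2 := not_lt.2 (le_of_lt hw)
        simp [this]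
      exact ((h2.differentiableAt (o2.mem_nhds hs2)).congr_of_eventuallyEq e).differentiableWithinAt
  · intro s hs
    by_cases hlt : s.re < 5 / 2
    · simp only [hlt, if_true]
      exact key s hs (by linarith)
    · simp [hlt]

theorem main_general (K : Type) [Field K] [NumberField K] {a : ℕ → ℝ}
    (ha : ∀ q : ℕ, |a q| ≤ 2 * Real.sqrt q) {T : Finset ℕ}
    (hT : ∀ p : ℕ, p.Prime → p < 101 → p ∈ T) (hTp : ∀ p ∈ T, p.Prime)
    {Q : ℝ} (hQ : 0 < Q) (L : List (ℂ × ℕ)) (hL : ∀ x ∈ L, 2 ≤ x.2 ∧ ‖x.1‖ ≤ x.2)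
    (H : ∀ (K' : Type) [Field K'] [NumberField K'] [Algebra K K'], Module.finrank K K' = 2 →
      IsTotallyComplex K' → (∀ v, ¬ Away K T v → Splits K K' v) → Nice K K' a T Q L) :
    ∃ F : ℂ → ℂ, DifferentiableOn ℂ F {s : ℂ | 1 < s.re} ∧
      ∀ s : ℂ, 3 / 2 < s.re → F s = finEuler L s * LT K a T s := by
  classical
  have h2T : 2 ∈ T := hT 2 Nat.prime_two (by norm_num)
  obtain ⟨W, hW⟩ := exists_weight K
  obtain ⟨D⟩ := exists_dat K T hTp h2T
  set n := Module.finrank ℚ K with hn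
  have hn1 : 1 ≤ n := Module.finrank_pos
  set Q' : ℝ := Q * (NumberField.discr K : ℝ) ^ 4 with hQ'
  have hQ'pos : 0 < Q' := by
    have : (NumberField.discr K : ℝ) ≠ 0 := by exact_mod_cast NumberField.discr_ne_zero K
    positivity
  have hex : ∀ δ : 𝓞 K, ∃ Ψ : ℂ → ℂ, InFam D δ → GoodPsi a D Q' L δ Ψ := by
    intro δ
    by_cases hδ : InFam D δ
    · obtain ⟨Ψ, hΨ⟩ := exists_Psi K ha hT hTp D hQ L H δ hδ.1 hδ.2.1 hδ.2.2
      exact ⟨Ψ, fun _ => hΨ⟩
    · exact ⟨0, fun h => absurd h hδ⟩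
  choose Psi hPsi using hex
  set P1 : ℂ → ℂ := fun s => ∏' v : D.P, efac a (nrm v.1) s with hP1
  set M1 : ℂ → ℂ := fun s => ∏' v : D.P, mloc a (nrm v.1) s with hM1
  have hNP : ∀ v : D.P, 101 ≤ nrm v.1 := fun v => nrm_ge K T hT v.1 v.2.1
  have hsum : ∀ x : ℝ, 1 < x → Summable fun v : D.P => (nrm v.1 : ℝ) ^ (-x) :=
    fun x hx => summable_P D hx
  obtain ⟨F0, cinf, hF0, hcinf, hF0'⟩ := abstract_continuation (n := n) hn1 hQ'pos
    (ε0 := (-1 : ℂ) ^ n) (by simp) (SS W D Psi) (cc W D)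
    (fun s => pref a D L s * M1 s)
    (SS_diff hW D hPsi)
    (fun j x y => SS_strip hW ha hT D hL hQ'pos hPsi j x y)
    (fun j s => SS_fe hW D hPsi j s hQ'pos)
    (fun b hb ε hε R => SS_ra hW ha hT hTp D hL hPsi hb hε R)
    (fun R => cc_bounds hW D hTp R)
    (fun b hb => by
      obtain ⟨C1, hC1, h1⟩ := pref_line ha hT D hL (b := b) (by linarith)
      obtain ⟨C2, h2⟩ := bdd_tprod_mloc ha hNP hsum (b := b) (by linarith)
      refine ⟨C1 * |C2|, fun s hs => ?_⟩
      rw [norm_mul]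
      have g1 := h1 s hs
      have g2 := (h2 s hs).trans (le_abs_self C2)
      gcongr)
    (fun b hb x => SS_triv hW ha hT D hL hPsi (by linarith) x)
  have hc0 : cinf ≠ 0 := cc_lim_ne hW D hTp hcinf
  -- the denominator
  set Den : ℂ → ℂ := fun s => cinf * (gam1 s ^ (2 * n) * (finEuler L s ^ 2 * Fm a (nrm D.q) s)) *
    M1 s * (1 - (2 : ℂ) ^ (2 * (n : ℂ) * (1 - s))) with hDen
  have hqD := nrm_ge K T hT D.q D.hq
  have hpow : ∀ s : ℂ, 1 < s.re → 1 - (2 : ℂ) ^ (2 * (n : ℂ) * (1 - s)) ≠ 0 := by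
    intro s hs h0
    have h1 : (2 : ℂ) ^ (2 * (n : ℂ) * (1 - s)) = 1 := (sub_eq_zero.1 h0).symm
    have h2 : ‖(2 : ℂ) ^ (2 * (n : ℂ) * (1 - s))‖ < 1 := by
      have : ((2 : ℝ) : ℂ) = 2 := by norm_num
      rw [← this, Complex.norm_cpow_eq_rpow_re_of_pos (by norm_num)]
      apply Real.rpow_lt_one_of_one_lt_of_neg (by norm_num)
      have hre : (2 * (n : ℂ) * (1 - s)).re = 2 * n * (1 - s.re) := by
        simp [Complex.mul_re]
      rw [this] at *
      rw [hre]
      have : (1 : ℝ) ≤ n := by exact_mod_cast hn1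
      nlinarith
    rw [h1, norm_one] at h2
    exact lt_irrefl _ h2
  have hDen_ne : ∀ s : ℂ, 1 < s.re → Den s ≠ 0 := by
    intro s hs
    have hfe := (finEuler_diff hL hs).2
    refine mul_ne_zero (mul_ne_zero (mul_ne_zero hc0 (mul_ne_zero (pow_ne_zero _
      (gam1_ne (by linarith))) (mul_ne_zero (pow_ne_zero _ hfe) (Fm_ne ha hqD hs.le)))) ?_)
      (hpow s hs)
    exact tprod_mloc_ne ha hNP hsum hs
  have hM1d : ∀ s : ℂ, 1 < s.re → DifferentiableAt ℂ M1 s := fun s hs =>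
    (diff_tprod_mloc ha hNP hsum).differentiableAt
      ((isOpen_lt continuous_const Complex.continuous_re).mem_nhds hs)
  have hDen_d : ∀ s : ℂ, 1 < s.re → DifferentiableAt ℂ Den s := by
    intro s hs
    refine ((((gam1_diff (by linarith)).pow _).mul (((finEuler_diff hL hs).1.pow 2).mul
      (Fm_diff ha hqD hs.le))).const_mul cinf).mul (hM1d s hs) |>.mul ?_
    refine (differentiableAt_const _).sub ?_
    exact ((differentiableAt_const _).mul ((differentiableAt_const _).sub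
      differentiableAt_id)).const_cpow (Or.inl (by norm_num))
  set F1 : ℂ → ℂ := fun s => F0 s / Den s * (efac a (nrm D.q) s * finEuler L s) with hF1
  set F2 : ℂ → ℂ := fun s => finEuler L s * (efac a (nrm D.q) s * P1 s) with hF2
  have hF1d : DifferentiableOn ℂ F1 {s : ℂ | 1 < s.re ∧ s.re < 3} := by
    intro s hs
    have o1 : IsOpen {s : ℂ | 1 < s.re ∧ s.re < 3} :=
      (isOpen_lt continuous_const Complex.continuous_re).inter
        (isOpen_lt Complex.continuous_re continuous_const)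
    have d0 := hF0.differentiableAt (o1.mem_nhds hs)
    exact ((d0.div (hDen_d s hs.1) (hDen_ne s hs.1)).mul ((efac_diff ha hqD hs.1.le).mul
      (finEuler_diff hL hs.1).1)).differentiableWithinAt
  have hF2d : DifferentiableOn ℂ F2 {s : ℂ | 3 / 2 < s.re} := by
    intro s hs
    have hs' : 3 / 2 < s.re := hs
    have d0 := (diff_tprod_efac ha hNP hsum).differentiableAt
      ((isOpen_lt continuous_const Complex.continuous_re).mem_nhds hs)
    exact ((finEuler_diff hL (by linarith)).1.mul ((efac_diff ha hqD (by linarith)).mul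
      d0)).differentiableWithinAt
  have hF12 : ∀ s : ℂ, 2 < s.re → s.re < 3 → F1 s = F2 s := by
    intro s hs1 hs2
    have hne := hDen_ne s (by linarith)
    have h0 := hF0' s hs1 hs2
    have e : F0 s = Den s * P1 s := by
      rw [h0, hDen, hP1]
      simp only [pref, ← hn]
      ring
    simp only [hF1, hF2]
    rw [e]
    field_simp
  obtain ⟨F, hF, hF'⟩ := glue hF1d hF2d hF12
  refine ⟨F, hF, fun s hs => ?_⟩
  rw [hF' s hs, LT_self K ha hT D hs]

end Pool.Agent.HWR
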