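import Pool.Agent.HWR.Defs

/-!
# HWR-E: definitions for the elliptic curve `y^2 = x^3 + A x + B`
-/

namespace Pool.Agent.HWR

open NumberField IsDedekindDomain

/-- number of affine points of `y^2 = x^3 + A x + B` with coordinates in `k` -/
noncomputable def cnt (k : Type) [CommRing k] (A B : k) : ℕ :=
  Nat.card {p : k × k // p.2 ^ 2 = p.1 ^ 3 + A * p.1 + B}

section

variable {K : Type} [Field K] [NumberField K]

/-- the coefficient `a_v = N v + 1 - #E(k_v) = N v - #(affine points)` -/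
noncomputable def av (A B : ℤ) (v : HeightOneSpectrum (𝓞 K)) : ℝ :=
  (nrm v : ℝ) - (cnt (𝓞 K ⧸ v.asIdeal) (A : 𝓞 K ⧸ v.asIdeal) (B : 𝓞 K ⧸ v.asIdeal) : ℝ)

/-- the Euler factor of `E` at a place `v` of good reduction -/
noncomputable def efacE (A B : ℤ) (v : HeightOneSpectrum (𝓞 K)) (s : ℂ) : ℂ :=
  (1 - (av A B v : ℂ) * (nrm v : ℂ) ^ (-s) + (nrm v : ℂ) ^ (1 - 2 * s))⁻¹

end

/-- the part away from `T` of the Hasse-Weil L-function of `E` over `K` -/
noncomputable def LE (A B : ℤ) (K : Type) [Field K] [NumberField K] (T : Finset ℕ) (s : ℂ) : ℂ :=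
  ∏' v : {v : HeightOneSpectrum (𝓞 K) // Away K T v}, efacE A B v.1 s

end Pool.Agent.HWR
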