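import Pool.Agent.HWR.HassePts
import Pool.Agent.HWR.Ell

/-!
# HWR-HB4: the initial values

`dg P0 = q` (`x = t^q`), `Big P0`.
`dg (P0 - Q) = #(affine points) + 1`: by `xc_P0_sub_Q`, `x = num / (t^q - t)^2` with
`num = lam (lam^((q-1)/2) + 1)^2 - (t^q + t)(t^q - t)^2`.
Degree of `num` is `2q + 1`: `lam lam^(q-1) = lam^q = t^(3q) + A t^q + B`, the terms `t^(3q)`
cancel, and the coefficient of `t^(2q+1)` is `1` (`(t^q+t)(t^q-t)^2 = t^(3q) - t^(2q+1) - t^(q+2)
+ t^3`; `deg (2 lam^((q+1)/2)) = 3(q+1)/2 ≤ 2q` for `q ≥ 3`; note `2q+1 > q+2`).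
Common factors with `(t^q - t)^2 = ∏_{α ∈ k} (t - α)^2`
(`FiniteField.X_pow_card_sub_X...`, `FiniteField.prod_X_sub_C_eq`):
at `α` the order of `num` is the order of `lam (lam^((q-1)/2) + 1)^2` if that is `≤ 1`, and
`≥ 2` otherwise:
* `lam(α) = 0`: `lam` has a simple zero (`4A^3+27B^2 ≠ 0`: `lam'(α) ≠ 0`), the other factor is
  `1` at `α`: order exactly 1; cancel one factor; number of `y` with `y^2 = lam(α)`: 1.
* `lam(α)` a nonzero square: `lam(α)^((q-1)/2) = 1`, value `4 lam(α) ≠ 0`: no cancellation;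
  number of `y`: 2.
* `lam(α)` a nonsquare: `lam(α)^((q-1)/2) = -1`, so `(t-α)^2` divides: cancel two; number of
  `y`: 0.
So `gcd(num, (t^q-t)^2) = ∏_α (t-α)^(2 - m(α))`, `m(α) = #{y : y^2 = lam(α)}`, of degree
`2q - cnt`, and the degree of the reduced numerator is `2q + 1 - (2q - cnt) = cnt + 1`.
(`FiniteField.pow_dichotomy`, `FiniteField.isSquare_iff`, quadratic character.)
-/

namespace Pool.Agent.HWR.Hasse

open Polynomial

section Alg

variable {k : Type} [Field k]

private theorem deg_of_reduced {x : RatFunc k} {a b : k[X]} (hb : b ≠ 0) (hab : IsCoprime a b)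
    (hx : x = algebraMap k[X] (RatFunc k) a / algebraMap k[X] (RatFunc k) b) :
    x.num.natDegree = a.natDegree ∧ x.denom.natDegree = b.natDegree := by
  have hinj : Function.Injective (algebraMap k[X] (RatFunc k)) := RatFunc.algebraMap_injective k
  have hb' : algebraMap k[X] (RatFunc k) b ≠ 0 := by
    rwa [Ne, map_eq_zero_iff _ hinj]
  have hd' : algebraMap k[X] (RatFunc k) x.denom ≠ 0 := by
    rw [Ne, map_eq_zero_iff _ hinj]; exact RatFunc.denom_ne_zero x
  have e : x.num * b = a * x.denom := by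
    apply hinj
    rw [map_mul, map_mul, ← div_eq_div_iff hd' hb', RatFunc.num_div_denom, hx]
  have hc := RatFunc.isCoprime_num_denom x
  have d1 : x.denom ∣ b := by
    have : x.denom ∣ x.num * b := by rw [e]; exact dvd_mul_left _ _
    exact hc.symm.dvd_of_dvd_mul_left this
  have d2 : b ∣ x.denom := by
    have : b ∣ a * x.denom := by rw [← e]; exact dvd_mul_left _ _
    exact hab.symm.dvd_of_dvd_mul_left this
  have n1 : x.num ∣ a := by
    have : x.num ∣ a * x.denom := by rw [← e]; exact dvd_mul_right _ _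
    exact hc.dvd_of_dvd_mul_right this
  have n2 : a ∣ x.num := by
    have : a ∣ x.num * b := by rw [e]; exact dvd_mul_right _ _
    exact hab.dvd_of_dvd_mul_right this
  exact ⟨natDegree_eq_of_degree_eq (degree_eq_degree_of_associated (associated_of_dvd_dvd n1 n2)),
    natDegree_eq_of_degree_eq (degree_eq_degree_of_associated (associated_of_dvd_dvd d1 d2))⟩

private theorem lam_degree (A B : k) : (lam A B).natDegree = 3 := by
  unfold lam
  compute_degree!

private theorem lam_ne (A B : k) : lam A B ≠ 0 := by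
  intro h
  have := lam_degree A B
  rw [h] at this
  simp at this

private theorem lam_eval (A B a : k) : (lam A B).eval a = a ^ 3 + A * a + B := by
  unfold lam
  simp

/-- `lam` has simple roots -/
private theorem lam_simple (A B : k) (hD : 4 * A ^ 3 + 27 * B ^ 2 ≠ 0) (a : k)
    (h0 : (lam A B).eval a = 0) : ¬ (X - C a) ^ 2 ∣ lam A B := by
  rw [lam_eval] at h0
  intro h
  have e : lam A B = (X - C a) * (X ^ 2 + C a * X + C (a ^ 2 + A)) := by
    have hB : B = -(a ^ 3 + A * a) := by linear_combination h0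
    unfold lam
    rw [hB]
    simp only [map_neg, map_add, map_mul, map_pow]
    ring
  rw [e, pow_two] at h
  have h1 : (X - C a) ∣ X ^ 2 + C a * X + C (a ^ 2 + A) :=
    (mul_dvd_mul_iff_left (X_sub_C_ne_zero a)).1 h
  rw [dvd_iff_isRoot, IsRoot.def] at h1
  simp only [eval_add, eval_pow, eval_X, eval_mul, eval_C] at h1
  apply hD
  have hA : A = -(3 * a ^ 2) := by linear_combination h1
  have hB : B = -(a ^ 3 + A * a) := by linear_combination h0
  rw [hB, hA]
  ring

end Alg

section Fin

variable {k : Type} [Field k] [Fintype k]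

private theorem char_ne (h2 : (2 : k) ≠ 0) : ringChar k ≠ 2 := by
  intro h
  apply h2
  have := ringChar.Nat.cast_ringChar (R := k)
  rw [h] at this
  exact_mod_cast this

/-- number of square roots -/
private noncomputable def ms (c : k) : ℕ := Nat.card {y : k // y ^ 2 = c}

private theorem ms_zero : ms (0 : k) = 1 := by
  unfold ms
  rw [Nat.card_eq_one_iff_exists]
  refine ⟨⟨0, by simp⟩, ?_⟩
  rintro ⟨y, hy⟩
  apply Subtype.ext
  exact pow_eq_zero_iff two_ne_zero |>.1 hy

private theorem ms_sq (h2 : (2 : k) ≠ 0) {c : k} (hc : c ≠ 0) {y : k} (hy : y ^ 2 = c) :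
    ms c = 2 := by
  have hy0 : y ≠ 0 := by
    rintro rfl
    apply hc
    rw [← hy]; simp
  have hne : y ≠ -y := by
    intro h
    have h3 : 2 * y = 0 := by linear_combination h
    rcases mul_eq_zero.1 h3 with h4 | h4
    · exact h2 h4
    · exact hy0 h4
  unfold ms
  rw [Nat.card_eq_two_iff]
  refine ⟨⟨y, hy⟩, ⟨-y, by rw [neg_sq]; exact hy⟩, ?_, ?_⟩
  · intro h
    exact hne (congrArg Subtype.val h)
  · rw [Set.eq_univ_iff_forall]
    rintro ⟨z, hz⟩
    have h3 : (z - y) * (z + y) = 0 := by linear_combination hz - hy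
    rcases mul_eq_zero.1 h3 with h4 | h4
    · left
      apply Subtype.ext
      exact sub_eq_zero.1 h4
    · right
      apply Subtype.ext
      exact eq_neg_of_add_eq_zero_left h4

private theorem ms_nsq {c : k} (hc : ∀ y : k, y ^ 2 ≠ c) : ms c = 0 := by
  unfold ms
  have : IsEmpty {y : k // y ^ 2 = c} := ⟨fun y => hc y.1 y.2⟩
  exact Nat.card_of_isEmpty

private theorem cnt_eq (A B : k) : cnt k A B = ∑ a : k, ms ((lam A B).eval a) := by
  classical
  unfold cnt ms
  have e : {p : k × k // p.2 ^ 2 = p.1 ^ 3 + A * p.1 + B} ≃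
      Σ a : k, {y : k // y ^ 2 = (lam A B).eval a} :=
    { toFun := fun p => ⟨p.1.1, p.1.2, by rw [lam_eval]; exact p.2⟩
      invFun := fun p => ⟨(p.1, p.2.1), p.2.2.trans (lam_eval A B p.1)⟩
      left_inv := fun p => rfl
      right_inv := fun p => rfl }
  rw [Nat.card_congr e, Nat.card_sigma]

/-- half of the group order -/
private theorem odd_card (h2 : (2 : k) ≠ 0) :
    2 * ((Fintype.card k - 1) / 2) + 1 = Fintype.card k ∧ 3 ≤ Fintype.card k ∧
      (Fintype.card k - 1) / 2 = Fintype.card k / 2 := by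
  have h3 := FiniteField.odd_card_of_char_ne_two (char_ne h2)
  have h4 : 1 < Fintype.card k := Fintype.one_lt_card
  omega

/-- the three cases -/
private theorem ms_cases (h2 : (2 : k) ≠ 0) (c : k) :
    (c = 0 ∧ ms c = 1) ∨ (c ≠ 0 ∧ ms c = 2 ∧ c ^ ((Fintype.card k - 1) / 2) = 1) ∨
      (ms c = 0 ∧ c ^ ((Fintype.card k - 1) / 2) = -1) := by
  obtain ⟨-, -, h3⟩ := odd_card h2
  rw [h3]
  by_cases hc : c = 0
  · left; rw [hc]; exact ⟨rfl, ms_zero⟩
  · right
    have hsq := FiniteField.isSquare_iff (char_ne h2) hc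
    rcases FiniteField.pow_dichotomy (char_ne h2) hc with h4 | h4
    · left
      obtain ⟨y, hy⟩ := hsq.2 h4
      exact ⟨hc, ms_sq h2 hc (y := y) (by rw [hy]; ring), h4⟩
    · right
      refine ⟨ms_nsq fun y hy => ?_, h4⟩
      have h5 := hsq.1 ⟨y, by rw [← hy]; ring⟩
      rw [h5] at h4
      apply h2
      linear_combination h4

private theorem prod_X_sub : ∏ a : k, ((X : k[X]) - C a) = X ^ Fintype.card k - X := by
  have h1 := FiniteField.roots_X_pow_card_sub_X k
  have hm : (X ^ Fintype.card k - X : k[X]).Monic :=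
    monic_X_pow_sub (by
      rw [degree_X]
      exact_mod_cast Fintype.one_lt_card (α := k))
  have h3 := prod_multiset_X_sub_C_of_monic_of_roots_card_eq hm (by
    rw [h1, FiniteField.X_pow_card_sub_X_natDegree_eq k Fintype.one_lt_card]
    rfl)
  rw [h1] at h3
  exact h3

end Fin

variable {k : Type} [Field k] [Fintype k] (h2 : (2 : k) ≠ 0) (A B : k)
  (hD : 4 * A ^ 3 + 27 * B ^ 2 ≠ 0)

theorem big_P0 : Big A B (P0pt h2 A B hD) ∧ dg A B (P0pt h2 A B hD) = Fintype.card k := by
  have hinj : Function.Injective (algebraMap k[X] (RatFunc k)) := RatFunc.algebraMap_injective k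
  have h0 : algebraMap k[X] (RatFunc k) (lam A B) ≠ 0 := by
    rw [Ne, map_eq_zero_iff _ hinj]; exact lam_ne A B
  have hx : xc A B (P0pt h2 A B hD) = algebraMap k[X] (RatFunc k) (X ^ Fintype.card k) /
      algebraMap k[X] (RatFunc k) 1 := by
    change (algebraMap k[X] (RatFunc k) (lam A B) * RatFunc.X ^ Fintype.card k) /
      algebraMap k[X] (RatFunc k) (lam A B) = _
    rw [mul_div_cancel_left₀ _ h0, map_one, div_one, map_pow, RatFunc.algebraMap_X]
  obtain ⟨n1, n2⟩ := deg_of_reduced one_ne_zero isCoprime_one_right hx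
  rw [natDegree_X_pow] at n1
  rw [natDegree_one] at n2
  have hne : P0pt h2 A B hD ≠ 0 := by
    intro h
    cases h
  constructor
  · right
    rw [n1, n2]
    exact Fintype.card_pos
  · unfold dg
    rw [if_neg hne, n1]

/-- the numerator of the `x`-coordinate of `P0 - Q` -/
private noncomputable def NN (A B : k) : k[X] :=
  lam A B * (lam A B ^ ((Fintype.card k - 1) / 2) + 1) ^ 2 -
    (X ^ Fintype.card k + X) * (X ^ Fintype.card k - X) ^ 2

include h2 in
private theorem NN_degree : (NN A B).natDegree = 2 * Fintype.card k + 1 := by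
  obtain ⟨ho, h3, -⟩ := odd_card h2
  set q := Fintype.card k with hq
  set m := (q - 1) / 2 with hm
  have hexp : lam A B ^ q = X ^ (3 * q) + C A * X ^ q + C B := by
    rw [hq, ← FiniteField.expand_card]
    unfold lam
    simp only [map_add, map_mul, map_pow, expand_X, expand_C]
    ring
  have e : NN A B = X ^ (2 * q + 1) + (C A * X ^ q + C B + X ^ (q + 2) - X ^ 3 +
      2 * lam A B ^ (m + 1) + lam A B) := by
    unfold NN
    rw [← hq, ← hm]
    have e1 : lam A B * (lam A B ^ m + 1) ^ 2 = lam A B ^ q + 2 * lam A B ^ (m + 1) + lam A B := by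
      conv_rhs => rw [← ho]
      ring
    rw [e1, hexp]
    ring
  rw [e, natDegree_add_eq_left_of_natDegree_lt, natDegree_X_pow]
  rw [natDegree_X_pow, Nat.lt_succ_iff]
  have b1 : (C A * X ^ q : k[X]).natDegree ≤ 2 * q := by
    refine (natDegree_C_mul_X_pow_le _ _).trans ?_
    omega
  have b2 : (C B : k[X]).natDegree ≤ 2 * q := by rw [natDegree_C]; omega
  have b3 : (X ^ (q + 2) : k[X]).natDegree ≤ 2 * q := by rw [natDegree_X_pow]; omega
  have b4 : (X ^ 3 : k[X]).natDegree ≤ 2 * q := by rw [natDegree_X_pow]; omega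
  have b5 : (2 * lam A B ^ (m + 1)).natDegree ≤ 2 * q := by
    have e2 : (2 : k[X]) = C 2 := by rw [map_ofNat]
    rw [e2]
    refine natDegree_mul_le.trans ?_
    rw [natDegree_C, zero_add, natDegree_pow, lam_degree]
    omega
  have b6 : (lam A B).natDegree ≤ 2 * q := by rw [lam_degree]; omega
  have b7 : (C A * X ^ q + C B + X ^ (q + 2) - X ^ 3 : k[X]).natDegree ≤ 2 * q :=
    (natDegree_sub_le_of_le
      (natDegree_add_le_of_degree_le (natDegree_add_le_of_degree_le b1 b2) b3) b4).trans
      (max_le le_rfl le_rfl)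
  exact natDegree_add_le_of_degree_le (natDegree_add_le_of_degree_le b7 b5) b6

open Classical in
theorem dg_P0_sub_Q : dg A B (P0pt h2 A B hD - Qpt h2 A B hD) = (cnt k A B : ℤ) + 1 := by
  obtain ⟨hne, hx⟩ := xc_P0_sub_Q h2 A B hD
  obtain ⟨ho, h3, -⟩ := odd_card h2
  set q := Fintype.card k with hq
  set m := (q - 1) / 2 with hm
  have hm1 : 1 ≤ m := by omega
  set M : k → ℕ := fun a => ms ((lam A B).eval a) with hM
  have hMle : ∀ a, M a ≤ 2 := by
    intro a
    rcases ms_cases h2 ((lam A B).eval a) with h | h | h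
    · simp only [hM]; omega
    · simp only [hM]; omega
    · simp only [hM]; omega
  set G : k[X] := ∏ a : k, (X - C a) ^ (2 - M a) with hG
  set D' : k[X] := ∏ a : k, (X - C a) ^ (M a) with hD'
  have hGD : G * D' = (X ^ q - X) ^ 2 := by
    rw [hG, hD', ← Finset.prod_mul_distrib, hq, ← prod_X_sub, ← Finset.prod_pow]
    refine Finset.prod_congr rfl fun a _ => ?_
    rw [← pow_add]
    congr 1
    have := hMle a
    omega
  have hW : ∀ a : k, (X - C a) ^ 2 ∣ ((X : k[X]) ^ q - X) ^ 2 := by
    intro a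
    apply pow_dvd_pow_of_dvd
    rw [hq, ← prod_X_sub]
    exact Finset.dvd_prod_of_mem _ (Finset.mem_univ a)
  have hWeval : ∀ a : k, ((X : k[X]) ^ q - X).eval a = 0 := by
    intro a
    have h4 : (X - C a) ∣ (X : k[X]) ^ q - X := by
      rw [hq, ← prod_X_sub]
      exact Finset.dvd_prod_of_mem _ (Finset.mem_univ a)
    exact dvd_iff_isRoot.1 h4
  have hNeval : ∀ a : k, (NN A B).eval a =
      (lam A B).eval a * (((lam A B).eval a) ^ m + 1) ^ 2 := by
    intro a
    have h5 := hWeval a
    unfold NN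
    rw [← hq, ← hm]
    simp only [eval_sub, eval_mul, eval_pow, eval_add, eval_one, eval_X] at h5 ⊢
    rw [h5]
    ring
  -- divisibility
  have hdvd : G ∣ NN A B := by
    rw [hG]
    apply Finset.prod_dvd_of_coprime
    · intro a _ b _ hab
      exact (isCoprime_X_sub_C_of_isUnit_sub (isUnit_iff_ne_zero.2 (sub_ne_zero.2 hab))).pow
    · intro a _
      rcases ms_cases h2 ((lam A B).eval a) with ⟨h4, h5⟩ | ⟨h4, h5, h6⟩ | ⟨h5, h6⟩
      · have : M a = 1 := h5
        rw [this, pow_one, dvd_iff_isRoot, IsRoot.def, hNeval, h4, zero_mul]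
      · have : M a = 2 := h5
        rw [this, Nat.sub_self, pow_zero]
        exact one_dvd _
      · have : M a = 0 := h5
        rw [this, Nat.sub_zero]
        unfold NN
        rw [← hq, ← hm]
        refine dvd_sub (Dvd.dvd.mul_left (pow_dvd_pow_of_dvd ?_ 2) _) (Dvd.dvd.mul_left (hW a) _)
        rw [dvd_iff_isRoot, IsRoot.def]
        simp only [eval_add, eval_pow, eval_one]
        rw [h6]
        ring
  obtain ⟨N', hN'⟩ := hdvd
  have hGm : G.Monic := monic_prod_of_monic _ _ fun a _ => (monic_X_sub_C a).pow _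
  have hDm : D'.Monic := monic_prod_of_monic _ _ fun a _ => (monic_X_sub_C a).pow _
  have hGdeg : G.natDegree = ∑ a : k, (2 - M a) := by
    rw [hG, natDegree_prod_of_monic _ _ fun a _ => (monic_X_sub_C a).pow _]
    refine Finset.sum_congr rfl fun a _ => ?_
    rw [natDegree_pow, natDegree_X_sub_C, mul_one]
  have hsum : ∑ a : k, (2 - M a) + cnt k A B = 2 * q := by
    rw [cnt_eq, ← Finset.sum_add_distrib]
    have : ∀ a ∈ (Finset.univ : Finset k), 2 - M a + ms ((lam A B).eval a) = 2 := by
      intro a _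
      have h4 := hMle a
      have h5 : M a = ms ((lam A B).eval a) := rfl
      omega
    rw [Finset.sum_congr rfl this, Finset.sum_const, Finset.card_univ, smul_eq_mul, mul_comm]
  have hNdeg := NN_degree h2 A B
  rw [← hq] at hNdeg
  have hN'0 : N' ≠ 0 := by
    rintro rfl
    rw [mul_zero] at hN'
    rw [hN'] at hNdeg
    simp at hNdeg
  have hN'deg : N'.natDegree = cnt k A B + 1 := by
    have h4 : (G * N').natDegree = G.natDegree + N'.natDegree := natDegree_mul hGm.ne_zero hN'0
    rw [← hN', hNdeg, hGdeg] at h4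
    omega
  -- coprimality
  have hcop : IsCoprime N' D' := by
    rw [hD']
    apply IsCoprime.prod_right
    intro a _
    by_cases hMa : M a = 0
    · rw [hMa, pow_zero]
      exact isCoprime_one_right
    · apply IsCoprime.pow_right
      rw [isCoprime_comm, (irreducible_X_sub_C a).coprime_iff_not_dvd]
      intro hdv
      rcases ms_cases h2 ((lam A B).eval a) with ⟨h4, h5⟩ | ⟨h4, h5, h6⟩ | ⟨h5, h6⟩
      · have hMa1 : M a = 1 := h5
        -- (X - a)^2 divides NN
        have hG1 : (X - C a) ∣ G := by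
          have h7 : (X - C a) ^ (2 - M a) ∣ G := by
            rw [hG]; exact Finset.dvd_prod_of_mem (fun a => (X - C a) ^ (2 - M a)) (Finset.mem_univ a)
          rw [hMa1] at h7
          simpa using h7
        have h8 : (X - C a) ^ 2 ∣ NN A B := by
          rw [hN', pow_two]
          exact mul_dvd_mul hG1 hdv
        have h9 : (X - C a) ^ 2 ∣ lam A B * (lam A B ^ m + 1) ^ 2 := by
          have h10 := dvd_add h8 (Dvd.dvd.mul_left (hW a) (X ^ q + X))
          unfold NN at h10
          rw [← hq, ← hm, sub_add_cancel] at h10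
          exact h10
        have h11 : IsCoprime ((X - C a) ^ 2) ((lam A B ^ m + 1) ^ 2) := by
          apply IsCoprime.pow
          rw [(irreducible_X_sub_C a).coprime_iff_not_dvd, dvd_iff_isRoot, IsRoot.def]
          simp only [eval_add, eval_pow, eval_one]
          rw [h4, zero_pow (by omega), zero_add]
          exact one_ne_zero
        exact lam_simple A B hD a h4 (h11.dvd_of_dvd_mul_right h9)
      · have h7 : (NN A B).eval a = 0 := by
          rw [hN', eval_mul, dvd_iff_isRoot.1 hdv, mul_zero]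
        rw [hNeval, h6] at h7
        rcases mul_eq_zero.1 h7 with h8 | h8
        · exact h4 h8
        · have h9 : (1 : k) + 1 = 0 := pow_eq_zero_iff two_ne_zero |>.1 h8
          exact h2 (by linear_combination h9)
      · exact hMa h5
  have hinj : Function.Injective (algebraMap k[X] (RatFunc k)) := RatFunc.algebraMap_injective k
  have hG0 : algebraMap k[X] (RatFunc k) G ≠ 0 := by
    rw [Ne, map_eq_zero_iff _ hinj]; exact hGm.ne_zero
  have hx' : xc A B (P0pt h2 A B hD - Qpt h2 A B hD) =
      algebraMap k[X] (RatFunc k) N' / algebraMap k[X] (RatFunc k) D' := by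
    have e1 : algebraMap k[X] (RatFunc k) (NN A B) /
        algebraMap k[X] (RatFunc k) ((X ^ q - X) ^ 2) =
        algebraMap k[X] (RatFunc k) N' / algebraMap k[X] (RatFunc k) D' := by
      rw [hN', ← hGD, map_mul, map_mul, mul_div_mul_left _ _ hG0]
    rw [hx, ← e1]
    unfold NN
    rw [← hq, ← hm]
    simp only [map_sub, map_mul, map_pow, map_add, map_one, RatFunc.algebraMap_X]
  obtain ⟨n1, -⟩ := deg_of_reduced hDm.ne_zero hcop hx'
  unfold dg
  rw [if_neg hne, n1, hN'deg]
  push_cast
  rfl

end Pool.Agent.HWR.Hasse
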