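import Pool.Agent.HWR.HasseStep
import Pool.Agent.HWR.HasseStart

/-!
# HWR-HB5: Hasse's bound

`d n = dg (P0 + n • Q)`, `n : ℤ`; all these points are `Big` (induction in both directions,
`manin_step`), `d(n+1) + d(n-1) = 2 d n + 2`, `d 0 = q`, `d (-1) = cnt + 1`.  So
`d n = n^2 + a n + q` with `a = q - cnt` (induction).  `d n ≥ 0`, and `d n`, `d (n+1)` are not
both `0`.  If `a^2 > 4 q` this is impossible.
-/

namespace Pool.Agent.HWR

open NumberField IsDedekindDomain

open Classical in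
theorem hasse_bound_int {k : Type} [Field k] [Fintype k] (h2 : (2 : k) ≠ 0) (A B : k)
    (hD : 4 * A ^ 3 + 27 * B ^ 2 ≠ 0) :
    ((Fintype.card k : ℤ) - (cnt k A B : ℤ)) ^ 2 ≤ 4 * (Fintype.card k : ℤ) := by
  set Q := Hasse.Qpt h2 A B hD with hQ
  set P0 := Hasse.P0pt h2 A B hD with hP0
  have hQ0 : Q ≠ 0 := by
    intro h
    rw [hQ, Hasse.Qpt] at h
    exact WeierstrassCurve.Affine.Point.some_ne_zero _ h
  have hbig : ∀ n : ℤ, Hasse.Big A B (P0 + n • Q) := by
    intro n
    induction n using Int.induction_on with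
    | zero => simpa using (Hasse.big_P0 h2 A B hD).1
    | succ i ih =>
      have h := (Hasse.manin_step h2 A B hD ih).1
      rw [add_zsmul, one_zsmul, ← add_assoc]
      exact h
    | pred i ih =>
      have h := (Hasse.manin_step h2 A B hD ih).2.1
      rw [sub_zsmul, one_zsmul, ← sub_eq_add_neg, ← add_sub_assoc]
      exact h
  have hrec : ∀ n : ℤ, Hasse.dg A B (P0 + (n + 1) • Q) + Hasse.dg A B (P0 + (n - 1) • Q) =
      2 * Hasse.dg A B (P0 + n • Q) + 2 := by
    intro n
    have h := (Hasse.manin_step h2 A B hD (hbig n)).2.2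
    rw [add_zsmul, sub_zsmul, one_zsmul, ← sub_eq_add_neg, ← add_assoc, ← add_sub_assoc]
    exact h
  set q : ℤ := (Fintype.card k : ℤ) with hq
  set c : ℤ := (cnt k A B : ℤ) with hc
  have h0 : Hasse.dg A B (P0 + (0 : ℤ) • Q) = q := by
    rw [zero_zsmul, add_zero]
    exact (Hasse.big_P0 h2 A B hD).2
  have h1 : Hasse.dg A B (P0 + (-1 : ℤ) • Q) = c + 1 := by
    rw [neg_zsmul, one_zsmul, ← sub_eq_add_neg]
    exact Hasse.dg_P0_sub_Q h2 A B hD
  have hf : ∀ n : ℤ, Hasse.dg A B (P0 + n • Q) = n ^ 2 + (q - c) * n + q ∧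
      Hasse.dg A B (P0 + (n - 1) • Q) = (n - 1) ^ 2 + (q - c) * (n - 1) + q := by
    intro n
    induction n using Int.induction_on with
    | zero =>
      constructor
      · rw [h0]; ring
      · rw [zero_sub, h1]; ring
    | succ i ih =>
      obtain ⟨ha, hb⟩ := ih
      have h := hrec (i : ℤ)
      constructor
      · rw [ha, hb] at h
        linear_combination h
      · rw [add_sub_cancel_right]
        exact ha
    | pred i ih =>
      obtain ⟨ha, hb⟩ := ih
      refine ⟨hb, ?_⟩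
      have h := hrec (-(i : ℤ) - 1)
      rw [sub_add_cancel, ha, hb] at h
      linear_combination h
  have hnn : ∀ n : ℤ, 0 ≤ n ^ 2 + (q - c) * n + q := fun n => by
    rw [← (hf n).1]; exact Hasse.dg_nonneg A B _
  have hpos : ∀ n : ℤ, 1 ≤ n ^ 2 + (q - c) * n + q ∨
      1 ≤ (n + 1) ^ 2 + (q - c) * (n + 1) + q := by
    intro n
    by_cases hz : P0 + n • Q = 0
    · right
      rw [← (hf (n + 1)).1]
      refine Hasse.dg_pos A B (hbig _) ?_
      intro hz'
      rw [add_zsmul, one_zsmul, ← add_assoc, hz, zero_add] at hz'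
      exact hQ0 hz'
    · left
      rw [← (hf n).1]
      exact Hasse.dg_pos A B (hbig _) hz
  obtain ⟨m, hm | hm⟩ := Int.even_or_odd' (q - c)
  · have := hnn (-m)
    nlinarith
  · rcases hpos (-m - 1) with h | h
    · rw [hm] at h ⊢
      nlinarith
    · rw [hm] at h ⊢
      nlinarith

theorem hasse_bound {k : Type} [Field k] [Fintype k] (h2 : (2 : k) ≠ 0) (A B : k)
    (hD : 4 * A ^ 3 + 27 * B ^ 2 ≠ 0) :
    |(Fintype.card k : ℝ) - (cnt k A B : ℝ)| ≤ 2 * Real.sqrt (Fintype.card k) := by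
  have h := hasse_bound_int h2 A B hD
  have h' : ((Fintype.card k : ℝ) - (cnt k A B : ℝ)) ^ 2 ≤ 4 * (Fintype.card k : ℝ) := by
    exact_mod_cast h
  apply abs_le_of_sq_le_sq _ (by positivity)
  rw [mul_pow, Real.sq_sqrt (by positivity)]
  linarith

end Pool.Agent.HWR
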