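import Pool.Agent.HWR.HasseFinal

/-!
# HWR-E1: the coefficients `a(q)` of an elliptic curve over `ℚ`

`exists_a` PLAN. For a natural number `q` put `a q = q - cnt k A B` if there is a finite field `k : Type`
with `q` elements, `2 ≠ 0` and `4A^3+27B^2 ≠ 0` in `k`, else `0`.  Well defined: finite fields
with the same cardinality are isomorphic (`FiniteField.ringEquivOfCardEq`...) and `cnt` is invariant
under ring isomorphisms.  Bound: `hasse_bound`.  For a place `v` away from `T`, `𝓞 K / v` is a
finite field with `nrm v` elements (`Ideal.absNorm` = `Nat.card` of the quotient) in which `2` and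
`4A^3+27B^2` are nonzero (a prime factor of this integer which lies in `v` is in `T`).
-/

namespace Pool.Agent.HWR

open NumberField IsDedekindDomain

private theorem cnt_equiv {k k' : Type} [CommRing k] [CommRing k'] (e : k ≃+* k') (A B : k) :
    cnt k A B = cnt k' (e A) (e B) := by
  unfold cnt
  refine Nat.card_congr
    { toFun := fun p => ⟨(e p.1.1, e p.1.2), by
        have h := congrArg e p.2
        simpa only [map_pow, map_add, map_mul] using h⟩
      invFun := fun p => ⟨(e.symm p.1.1, e.symm p.1.2), by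
        have h := congrArg e.symm p.2
        simpa only [map_pow, map_add, map_mul, RingEquiv.symm_apply_apply] using h⟩
      left_inv := fun p => by
        apply Subtype.ext
        apply Prod.ext <;> simp
      right_inv := fun p => by
        apply Subtype.ext
        apply Prod.ext <;> simp }

private structure Fld (A B : ℤ) (q : ℕ) where
  k : Type
  fld : Field k
  fin : Fintype k
  card : Fintype.card k = q
  two : (2 : k) ≠ 0
  disc : 4 * (A : k) ^ 3 + 27 * (B : k) ^ 2 ≠ 0

private noncomputable def Fld.val {A B : ℤ} {q : ℕ} (F : Fld A B q) : ℝ :=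
  letI := F.fld
  (q : ℝ) - (cnt F.k (A : F.k) (B : F.k) : ℝ)

private theorem Fld.val_le {A B : ℤ} {q : ℕ} (F : Fld A B q) : |F.val| ≤ 2 * Real.sqrt q := by
  letI := F.fld
  letI := F.fin
  have h := hasse_bound F.two (A : F.k) (B : F.k) F.disc
  rw [F.card] at h
  exact h

private theorem Fld.val_eq {A B : ℤ} {q : ℕ} (F G : Fld A B q) : F.val = G.val := by
  letI := F.fld
  letI := F.fin
  letI := G.fld
  letI := G.fin
  have e : F.k ≃+* G.k := FiniteField.ringEquivOfCardEq (F.card.trans G.card.symm)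
  have h := cnt_equiv e (A : F.k) (B : F.k)
  rw [map_intCast, map_intCast] at h
  change (q : ℝ) - (cnt F.k (A : F.k) (B : F.k) : ℝ) = (q : ℝ) - (cnt G.k (A : G.k) (B : G.k) : ℝ)
  rw [h]

private theorem disc_mem {A B : ℤ} {T : Finset ℕ}
    (hT : ∀ p : ℕ, p.Prime → (p : ℤ) ∣ 4 * A ^ 3 + 27 * B ^ 2 → p ∈ T)
    {K : Type} [Field K] [NumberField K] (v : HeightOneSpectrum (𝓞 K)) (hv : Away K T v) :
    ((4 * A ^ 3 + 27 * B ^ 2 : ℤ) : 𝓞 K) ∉ v.asIdeal := by
  intro hm
  have h0 : (4 * A ^ 3 + 27 * B ^ 2 : ℤ) ≠ 0 := by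
    intro h
    obtain ⟨p, hp, hpT⟩ := Nat.exists_infinite_primes (T.sup id + 1)
    have h1 := hT p hpT (by rw [h]; exact dvd_zero _)
    have h2 := Finset.le_sup (f := id) h1
    simp only [id] at h2
    omega
  have key : ∀ n : ℕ, n ≠ 0 → ((n : ℕ) : 𝓞 K) ∈ v.asIdeal → ∃ p : ℕ, p.Prime ∧ p ∣ n ∧
      ((p : ℕ) : 𝓞 K) ∈ v.asIdeal := by
    intro n
    induction n using Nat.recOnMul with
    | zero => intro h; exact absurd rfl h
    | one =>
      intro _ h
      exact absurd ((Ideal.eq_top_iff_one _).2 (by simpa using h)) v.isPrime.ne_top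
    | prime p hp => intro _ h; exact ⟨p, hp, dvd_rfl, h⟩
    | mul a b ha hb =>
      intro h h1
      rw [Nat.cast_mul] at h1
      rcases v.isPrime.mem_or_mem h1 with h2 | h2
      · obtain ⟨p, hp, hpa, hpv⟩ := ha (left_ne_zero_of_mul h) h2
        exact ⟨p, hp, hpa.mul_right b, hpv⟩
      · obtain ⟨p, hp, hpb, hpv⟩ := hb (right_ne_zero_of_mul h) h2
        exact ⟨p, hp, hpb.mul_left a, hpv⟩
  have hm' : (((4 * A ^ 3 + 27 * B ^ 2 : ℤ).natAbs : ℕ) : 𝓞 K) ∈ v.asIdeal := by
    rcases Int.natAbs_eq (4 * A ^ 3 + 27 * B ^ 2) with h | h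
    · rw [h, Int.cast_natCast] at hm
      exact hm
    · rw [h, Int.cast_neg, Int.cast_natCast, neg_mem_iff] at hm
      exact hm
  obtain ⟨p, hp, hpd, hpv⟩ := key _ (Int.natAbs_ne_zero.2 h0) hm'
  exact hv p (hT p hp (Int.natCast_dvd.2 hpd)) hpv

theorem exists_a (A B : ℤ) : ∃ a : ℕ → ℝ, (∀ q : ℕ, |a q| ≤ 2 * Real.sqrt q) ∧
    ∀ (T : Finset ℕ), 2 ∈ T → (∀ p : ℕ, p.Prime → (p : ℤ) ∣ 4 * A ^ 3 + 27 * B ^ 2 → p ∈ T) →
      ∀ (K : Type) [Field K] [NumberField K] (v : HeightOneSpectrum (𝓞 K)), Away K T v →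
        a (nrm v) = av A B v := by
  refine ⟨fun q => open Classical in if h : Nonempty (Fld A B q) then h.some.val else 0, ?_, ?_⟩
  · intro q
    by_cases h : Nonempty (Fld A B q)
    · simp only [dif_pos h]
      exact Fld.val_le _
    · simp only [dif_neg h, abs_zero]
      positivity
  · intro T h2T hT K _ _ v hv
    haveI : v.asIdeal.IsMaximal := v.isMaximal
    haveI : Finite (𝓞 K ⧸ v.asIdeal) := Ideal.finiteQuotientOfFreeOfNeBot v.asIdeal v.ne_bot
    let F : Fld A B (nrm v) :=
      { k := 𝓞 K ⧸ v.asIdeal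
        fld := Ideal.Quotient.field v.asIdeal
        fin := Fintype.ofFinite _
        card := by
          unfold nrm
          rw [Ideal.absNorm_apply, Submodule.cardQuot_apply]
          exact (@Nat.card_eq_fintype_card _ (Fintype.ofFinite _)).symm
        two := by
          intro h
          have h1 : Ideal.Quotient.mk v.asIdeal ((2 : ℕ) : 𝓞 K) = 0 := by
            rw [map_natCast]
            exact_mod_cast h
          exact hv 2 h2T (Ideal.Quotient.eq_zero_iff_mem.1 h1)
        disc := by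
          intro h
          have h1 : Ideal.Quotient.mk v.asIdeal ((4 * A ^ 3 + 27 * B ^ 2 : ℤ) : 𝓞 K) = 0 := by
            rw [map_intCast]
            push_cast
            exact h
          exact disc_mem hT v hv (Ideal.Quotient.eq_zero_iff_mem.1 h1) }
    have hne : Nonempty (Fld A B (nrm v)) := ⟨F⟩
    simp only [dif_pos hne]
    rw [Fld.val_eq _ F]
    rfl

end Pool.Agent.HWR
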