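import Pool.Agent.HWR.Main
import Pool.Agent.HWR.ExistsA

/-!
# HWR-FINAL (owner helper86): elliptic curves over the rationals
-/

namespace Pool.Agent.HWR

open NumberField IsDedekindDomain

/-- Hasse-Weil (with finite order in strips) for `E : y^2 = x^3 + A x + B` over a quadratic
extension `K'` of `K` in which the places over `T` split; `L` lists the Euler factors of `E/K` over
`T`, `Q` is the norm of the conductor of `E/K'`. -/
def HW (A B : ℤ) (K : Type) [Field K] [NumberField K] (K' : Type) [Field K'] [NumberField K']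
    (T : Finset ℕ) (Q : ℝ) (L : List (ℂ × ℕ)) : Prop :=
  ∃ Lam : ℂ → ℂ, Differentiable ℂ Lam ∧ FinOrd Lam ∧
    (∀ s : ℂ, Lam (2 - s) = (-1) ^ Module.finrank ℚ K * Lam s) ∧
    ∀ s : ℂ, 3 / 2 < s.re →
      Lam s = ((Q * (NumberField.discr K' : ℝ) ^ 2 : ℝ) : ℂ) ^ (s / 2) *
        gam1 s ^ Module.finrank ℚ K' * (finEuler L s ^ 2 * LE A B K' T s)

theorem main_elliptic (A B : ℤ) (K : Type) [Field K] [NumberField K] (T : Finset ℕ)
    (hTp : ∀ p ∈ T, p.Prime) (hT : ∀ p : ℕ, p.Prime → p < 101 → p ∈ T)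
    (hbad : ∀ p : ℕ, p.Prime → (p : ℤ) ∣ 4 * A ^ 3 + 27 * B ^ 2 → p ∈ T)
    {Q : ℝ} (hQ : 0 < Q) (L : List (ℂ × ℕ)) (hL : ∀ x ∈ L, 2 ≤ x.2 ∧ ‖x.1‖ ≤ x.2)
    (H : ∀ (K' : Type) [Field K'] [NumberField K'] [Algebra K K'], Module.finrank K K' = 2 →
      IsTotallyComplex K' → (∀ v, ¬ Away K T v → Splits K K' v) → HW A B K K' T Q L) :
    ∃ F : ℂ → ℂ, DifferentiableOn ℂ F {s : ℂ | 1 < s.re} ∧
      ∀ s : ℂ, 3 / 2 < s.re → F s = finEuler L s * LE A B K T s := by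
  obtain ⟨a, ha, ha'⟩ := exists_a A B
  have h2 : 2 ∈ T := hT 2 Nat.prime_two (by norm_num)
  have key : ∀ (F : Type) [Field F] [NumberField F], LE A B F T = LT F a T := by
    intro F _ _
    funext s
    unfold LE LT
    congr 1
    funext v
    unfold efacE efac
    rw [ha' T h2 hbad F v.1 v.2]
  obtain ⟨F, hF, hF'⟩ := main_general K ha hT hTp hQ L hL (fun K' _ _ _ h1 h2 h3 => by
    obtain ⟨Lam, g1, g2, g3, g4⟩ := H K' h1 h2 h3
    refine ⟨Lam, g1, g2, g3, ?_⟩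
    intro s hs
    rw [g4 s hs, key K'])
  refine ⟨F, hF, ?_⟩
  intro s hs
  rw [hF' s hs, key K]

end Pool.Agent.HWR
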