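import Pool.Agent.HWR.Defs

/-!
# HWR-P3: number of additive characters of `𝓞 K / I` with small frequencies

`cc_pigeon`: `0 ≠ α ∈ I` with coordinates `≤ N(I)^(1/n)`; `cc_small`: a character with all
frequencies smaller than `1 / (n C1 N(I)^(1/n))` is trivial; `char_count`: packing.
-/

namespace Pool.Agent.HWR

open NumberField IsDedekindDomain

section CharCountAux

variable (K : Type) [Field K] [NumberField K]

theorem cc_card : Fintype.card (Module.Free.ChooseBasisIndex ℤ (𝓞 K)) = Module.finrank ℚ K := by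
  rw [← RingOfIntegers.rank K]
  exact (Module.finrank_eq_card_chooseBasisIndex ℤ (𝓞 K)).symm

theorem cc_pigeon (I : Ideal (𝓞 K)) (hI : I ≠ ⊥) (R : ℝ) (hR : 0 ≤ R)
    (hN : R ^ Module.finrank ℚ K = Ideal.absNorm I) :
    ∃ α ∈ I, α ≠ 0 ∧ ∀ i, |(((RingOfIntegers.basis K).repr α i : ℤ) : ℝ)| ≤ R := by
  classical
  have hNpos : 0 < Ideal.absNorm I := Nat.pos_of_ne_zero (by
    rw [Ne, Ideal.absNorm_eq_zero_iff]; exact hI)
  have hfin : Finite (𝓞 K ⧸ I) := by
    apply Nat.finite_of_card_ne_zero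
    have : Nat.card (𝓞 K ⧸ I) = Ideal.absNorm I := rfl
    rw [this]
    exact hNpos.ne'
  have : Fintype (𝓞 K ⧸ I) := Fintype.ofFinite _
  set B : ℕ := ⌊R⌋₊ with hB
  let g : (Module.Free.ChooseBasisIndex ℤ (𝓞 K) → Fin (B + 1)) → 𝓞 K ⧸ I := fun f =>
    Ideal.Quotient.mk I (∑ i, ((f i : ℕ) : ℤ) • RingOfIntegers.basis K i)
  have hlt : Fintype.card (𝓞 K ⧸ I)
      < Fintype.card (Module.Free.ChooseBasisIndex ℤ (𝓞 K) → Fin (B + 1)) := by
    rw [Fintype.card_fun, Fintype.card_fin, cc_card K]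
    have h1 : (Fintype.card (𝓞 K ⧸ I) : ℝ) = Ideal.absNorm I := by
      rw [Fintype.card_eq_nat_card]
      rfl
    have h2 : (Fintype.card (𝓞 K ⧸ I) : ℝ) < (((B + 1) ^ Module.finrank ℚ K : ℕ) : ℝ) := by
      rw [h1, ← hN]
      push_cast
      apply pow_lt_pow_left₀ (Nat.lt_floor_add_one R) hR
      exact (Module.finrank_pos (R := ℚ) (M := K)).ne'
    exact_mod_cast h2
  obtain ⟨f, f', hne, heq⟩ := Fintype.exists_ne_map_eq_of_card_lt g hlt
  set α : 𝓞 K := ∑ i, (((f i : ℕ) : ℤ) - ((f' i : ℕ) : ℤ)) • RingOfIntegers.basis K i with hα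
  have hrepr : ∀ i, (RingOfIntegers.basis K).repr α i = ((f i : ℕ) : ℤ) - ((f' i : ℕ) : ℤ) := by
    intro i
    rw [hα, Module.Basis.repr_sum_self]
  refine ⟨α, ?_, ?_, ?_⟩
  · have h3 : α = (∑ i, ((f i : ℕ) : ℤ) • RingOfIntegers.basis K i)
        - ∑ i, ((f' i : ℕ) : ℤ) • RingOfIntegers.basis K i := by
      rw [hα, ← Finset.sum_sub_distrib]
      simp_rw [sub_smul]
    rw [h3]
    exact (Ideal.Quotient.eq).1 heq
  · intro h0
    apply hne
    ext i
    have h4 := hrepr i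
    rw [h0] at h4
    simp only [map_zero, Finsupp.coe_zero, Pi.zero_apply] at h4
    omega
  · intro i
    rw [hrepr i]
    have h5 : (f i : ℕ) ≤ B := Nat.lt_succ_iff.1 (f i).2
    have h6 : (f' i : ℕ) ≤ B := Nat.lt_succ_iff.1 (f' i).2
    have h7 : (B : ℝ) ≤ R := Nat.floor_le hR
    have h5' : ((f i : ℕ) : ℝ) ≤ B := by exact_mod_cast h5
    have h6' : ((f' i : ℕ) : ℝ) ≤ B := by exact_mod_cast h6
    have h8 : (0:ℝ) ≤ ((f i : ℕ) : ℝ) := Nat.cast_nonneg _
    have h9 : (0:ℝ) ≤ ((f' i : ℕ) : ℝ) := Nat.cast_nonneg _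
    push_cast
    rw [abs_le]
    constructor <;> linarith

/-- constant of the multiplication table -/
noncomputable def ccC1 : ℝ := 1 + ∑ k, ∑ i, ∑ j,
  |(((RingOfIntegers.basis K).repr (RingOfIntegers.basis K k * RingOfIntegers.basis K i) j : ℤ) : ℝ)|

theorem ccC1_pos : 0 < ccC1 K := by
  unfold ccC1
  have : 0 ≤ ∑ k, ∑ i, ∑ j,
    |(((RingOfIntegers.basis K).repr (RingOfIntegers.basis K k * RingOfIntegers.basis K i) j : ℤ) : ℝ)| :=
    Finset.sum_nonneg fun _ _ => Finset.sum_nonneg fun _ _ => Finset.sum_nonneg fun _ _ => abs_nonneg _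
  linarith

theorem cc_coef (α : 𝓞 K) (R : ℝ) (hα : ∀ i, |(((RingOfIntegers.basis K).repr α i : ℤ) : ℝ)| ≤ R)
    (i j : Module.Free.ChooseBasisIndex ℤ (𝓞 K)) :
    |(((RingOfIntegers.basis K).repr (α * RingOfIntegers.basis K i) j : ℤ) : ℝ)| ≤ ccC1 K * R := by
  classical
  set b := RingOfIntegers.basis K with hb
  have hR : 0 ≤ R := (abs_nonneg _).trans (hα i)
  have h1 : α * b i = ∑ k, (b.repr α k) • (b k * b i) := by
    conv_lhs => rw [← b.sum_repr α]
    rw [Finset.sum_mul]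
    simp_rw [smul_mul_assoc]
  rw [h1, map_sum, Finset.sum_apply']
  simp_rw [map_smul, Finsupp.smul_apply, smul_eq_mul]
  push_cast
  calc |∑ k, ((b.repr α k : ℤ) : ℝ) * ((b.repr (b k * b i) j : ℤ) : ℝ)|
      ≤ ∑ k, |((b.repr α k : ℤ) : ℝ) * ((b.repr (b k * b i) j : ℤ) : ℝ)| :=
        Finset.abs_sum_le_sum_abs _ _
    _ ≤ ∑ k, R * |((b.repr (b k * b i) j : ℤ) : ℝ)| := by
        apply Finset.sum_le_sum
        intro k _
        rw [abs_mul]
        exact mul_le_mul_of_nonneg_right (hα k) (abs_nonneg _)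
    _ = (∑ k, |((b.repr (b k * b i) j : ℤ) : ℝ)|) * R := by
        rw [← Finset.mul_sum, mul_comm]
    _ ≤ ccC1 K * R := by
        apply mul_le_mul_of_nonneg_right _ hR
        unfold ccC1
        have h2 : ∑ k, |((b.repr (b k * b i) j : ℤ) : ℝ)|
            ≤ ∑ k, ∑ i, ∑ j, |((b.repr (b k * b i) j : ℤ) : ℝ)| := by
          apply Finset.sum_le_sum
          intro k _
          refine le_trans ?_ (Finset.single_le_sum (f := fun i => ∑ j, |((b.repr (b k * b i) j : ℤ) : ℝ)|)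
            (fun _ _ => Finset.sum_nonneg fun _ _ => abs_nonneg _) (Finset.mem_univ i))
          exact Finset.single_le_sum (f := fun j => |((b.repr (b k * b i) j : ℤ) : ℝ)|)
            (fun _ _ => abs_nonneg _) (Finset.mem_univ j)
        linarith

private theorem cc_map_sum {A : Type} [AddCommGroup A] {ι : Type} (ψ : AddChar A ℂ)
    (s : Finset ι) (f : ι → A) : ψ (∑ j ∈ s, f j) = ∏ j ∈ s, ψ (f j) := by
  classical
  induction s using Finset.induction_on with
  | empty => simp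
  | insert a s ha ih => rw [Finset.sum_insert ha, Finset.prod_insert ha, AddChar.map_add_eq_mul, ih]

/-- a character with small frequencies is trivial -/
theorem cc_small (I : Ideal (𝓞 K)) (hI : I ≠ ⊥) (R : ℝ) (hR : 0 < R)
    (hN : R ^ Module.finrank ℚ K = Ideal.absNorm I) (ψ : AddChar (𝓞 K ⧸ I) ℂ)
    (u : Module.Free.ChooseBasisIndex ℤ (𝓞 K) → ℝ)
    (hu : ∀ i, ψ (Ideal.Quotient.mk I (RingOfIntegers.basis K i))
      = Complex.exp (2 * Real.pi * Complex.I * u i))
    (hs : ∀ i, |u i| * (Module.finrank ℚ K * ccC1 K * R) < 1) : ψ = 1 := by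
  classical
  set b := RingOfIntegers.basis K with hb
  obtain ⟨α, hαI, hα0, hα⟩ := cc_pigeon K I hI R hR.le hN
  have hC1 := ccC1_pos K
  have hn : 0 < Module.finrank ℚ K := Module.finrank_pos
  have hne : Nonempty (Module.Free.ChooseBasisIndex ℤ (𝓞 K)) := by
    rw [← Fintype.card_pos_iff, cc_card K]
    exact hn
  let T : 𝓞 K → ℝ := fun x => ∑ j, ((b.repr x j : ℤ) : ℝ) * u j
  have hTψ : ∀ x, ψ (Ideal.Quotient.mk I x) = Complex.exp (2 * Real.pi * Complex.I * (T x : ℝ)) := by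
    intro x
    conv_lhs => rw [← b.sum_repr x]
    rw [map_sum, cc_map_sum]
    have h1 : ∀ j, ψ (Ideal.Quotient.mk I (b.repr x j • b j))
        = Complex.exp (((b.repr x j : ℤ) : ℂ) * (2 * Real.pi * Complex.I * u j)) := by
      intro j
      rw [map_zsmul, AddChar.map_zsmul_eq_zpow, hu j, Complex.exp_int_mul]
    simp_rw [h1]
    rw [← Complex.exp_sum]
    congr 1
    simp only [T]
    push_cast
    rw [Finset.mul_sum]
    apply Finset.sum_congr rfl
    intro j _
    ring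
  have hTadd : ∀ x y, T (x + y) = T x + T y := by
    intro x y
    simp only [T, map_add, Finsupp.add_apply]
    push_cast
    simp_rw [add_mul]
    exact Finset.sum_add_distrib
  let TA : 𝓞 K →+ ℝ := AddMonoidHom.mk' T hTadd
  have hTA : ∀ x, TA x = T x := fun x => rfl
  -- T vanishes on α * b i
  have h0 : ∀ i, T (α * b i) = 0 := by
    intro i
    have h1 : ψ (Ideal.Quotient.mk I (α * b i)) = 1 := by
      have : Ideal.Quotient.mk I (α * b i) = 0 :=
        Ideal.Quotient.eq_zero_iff_mem.2 (I.mul_mem_right _ hαI)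
      rw [this, AddChar.map_zero_eq_one]
    rw [hTψ, Complex.exp_eq_one_iff] at h1
    obtain ⟨m, hm⟩ := h1
    have h2 : T (α * b i) = (m : ℝ) := by
      have h3 : (2 * Real.pi * Complex.I : ℂ) ≠ 0 := Complex.two_pi_I_ne_zero
      have h4 : ((T (α * b i) : ℝ) : ℂ) = ((m : ℝ) : ℂ) := by
        apply mul_left_cancel₀ h3
        rw [hm]
        push_cast
        ring
      exact_mod_cast h4
    have h5 : |T (α * b i)| < 1 := by
      have h6 : |T (α * b i)| ≤ ∑ j, (ccC1 K * R) * |u j| := by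
        refine (Finset.abs_sum_le_sum_abs _ _).trans ?_
        apply Finset.sum_le_sum
        intro j _
        rw [abs_mul]
        exact mul_le_mul_of_nonneg_right (cc_coef K α R hα i j) (abs_nonneg _)
      refine h6.trans_lt ?_
      have hnR : (0:ℝ) < Module.finrank ℚ K := by exact_mod_cast hn
      have h7 : ∀ j, (ccC1 K * R) * |u j| < 1 / (Module.finrank ℚ K : ℝ) := by
        intro j
        rw [lt_div_iff₀ hnR]
        have := hs j
        linarith [this]
      calc ∑ j, (ccC1 K * R) * |u j|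
          < ∑ j : Module.Free.ChooseBasisIndex ℤ (𝓞 K), 1 / (Module.finrank ℚ K : ℝ) :=
            Finset.sum_lt_sum_of_nonempty Finset.univ_nonempty fun j _ => h7 j
        _ = 1 := by
            rw [Finset.sum_const, Finset.card_univ, cc_card K, nsmul_eq_mul]
            field_simp
    rw [h2] at h5 ⊢
    have h8 : |m| < 1 := by exact_mod_cast h5
    have h9 : m = 0 := Int.abs_lt_one_iff.1 h8
    rw [h9]
    simp
  have h1 : ∀ x, T (α * x) = 0 := by
    intro x
    have h2 : TA (α * x) = 0 := by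
      conv_lhs => rw [← b.sum_repr x, Finset.mul_sum]
      rw [map_sum]
      apply Finset.sum_eq_zero
      intro j _
      rw [mul_smul_comm, map_zsmul, hTA, h0 j, smul_zero]
    exact h2
  -- T vanishes
  have h2 : ∀ x, T x = 0 := by
    intro x
    set m : ℕ := Ideal.absNorm (Ideal.span {α}) with hm
    have hm0 : m ≠ 0 := by
      rw [hm, Ne, Ideal.absNorm_eq_zero_iff, Ideal.span_singleton_eq_bot]
      exact hα0
    have hmem : ((m : ℕ) : 𝓞 K) ∈ Ideal.span {α} := Ideal.absNorm_mem _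
    obtain ⟨β, hβ⟩ := Ideal.mem_span_singleton'.1 hmem
    have h3 : TA (m • x) = 0 := by
      rw [hTA, nsmul_eq_mul, ← hβ]
      have : β * α * x = α * (β * x) := by ring
      rw [this]
      exact h1 _
    rw [map_nsmul, hTA, nsmul_eq_mul] at h3
    have hm1 : (m : ℝ) ≠ 0 := by exact_mod_cast hm0
    exact (mul_eq_zero.1 h3).resolve_left hm1
  rw [AddChar.eq_one_iff]
  intro y
  obtain ⟨x, rfl⟩ := Ideal.Quotient.mk_surjective y
  rw [hTψ, h2 x]
  simp

end CharCountAux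

theorem char_count (K : Type) [Field K] [NumberField K] : ∃ C : ℝ, 0 ≤ C ∧
    ∀ (I : Ideal (𝓞 K)), I ≠ ⊥ → ∀ r : ℝ, 0 < r →
      {ψ : AddChar (𝓞 K ⧸ I) ℂ | ψ ≠ 1 ∧
        ∀ i, ‖1 - ψ (Ideal.Quotient.mk I (RingOfIntegers.basis K i))‖ ≤ r}.Finite ∧
      ({ψ : AddChar (𝓞 K ⧸ I) ℂ | ψ ≠ 1 ∧
        ∀ i, ‖1 - ψ (Ideal.Quotient.mk I (RingOfIntegers.basis K i))‖ ≤ r}.ncard : ℝ) ≤
        C * Ideal.absNorm I * r ^ Module.finrank ℚ K := by
  classical
  have hC1 := ccC1_pos K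
  have hn : 0 < Module.finrank ℚ K := Module.finrank_pos
  have hnR : (0:ℝ) < Module.finrank ℚ K := by exact_mod_cast hn
  refine ⟨(Module.finrank ℚ K * ccC1 K) ^ Module.finrank ℚ K, by positivity, ?_⟩
  intro I hI r hr
  have hNpos : 0 < Ideal.absNorm I := Nat.pos_of_ne_zero (by
    rw [Ne, Ideal.absNorm_eq_zero_iff]; exact hI)
  have hfin : Finite (𝓞 K ⧸ I) := by
    apply Nat.finite_of_card_ne_zero
    have : Nat.card (𝓞 K ⧸ I) = Ideal.absNorm I := rfl
    rw [this]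
    exact hNpos.ne'
  have hfinA : Finite (AddChar (𝓞 K ⧸ I) ℂ) := inferInstance
  refine ⟨Set.toFinite _, ?_⟩
  set S := {ψ : AddChar (𝓞 K ⧸ I) ℂ | ψ ≠ 1 ∧
        ∀ i, ‖1 - ψ (Ideal.Quotient.mk I (RingOfIntegers.basis K i))‖ ≤ r} with hS
  set R : ℝ := (Ideal.absNorm I : ℝ) ^ ((1:ℝ) / Module.finrank ℚ K) with hRdef
  have hNR : (0:ℝ) < Ideal.absNorm I := by exact_mod_cast hNpos
  have hR : 0 < R := Real.rpow_pos_of_pos hNR _
  have hRN : R ^ Module.finrank ℚ K = Ideal.absNorm I := by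
    rw [hRdef, ← Real.rpow_natCast, ← Real.rpow_mul hNR.le]
    rw [one_div, inv_mul_cancel₀ hnR.ne', Real.rpow_one]
  set D : ℝ := Module.finrank ℚ K * ccC1 K * R with hD
  have hDpos : 0 < D := by positivity
  -- frequencies
  let t : AddChar (𝓞 K ⧸ I) ℂ → Module.Free.ChooseBasisIndex ℤ (𝓞 K) → ℝ := fun ψ i =>
    (ψ (Ideal.Quotient.mk I (RingOfIntegers.basis K i))).arg / (2 * Real.pi)
  have hpi := Real.pi_pos
  have ht : ∀ ψ i, ψ (Ideal.Quotient.mk I (RingOfIntegers.basis K i))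
      = Complex.exp (2 * Real.pi * Complex.I * t ψ i) := by
    intro ψ i
    have h1 : ‖ψ (Ideal.Quotient.mk I (RingOfIntegers.basis K i))‖ = 1 := ψ.norm_apply _
    have h2 := Complex.norm_mul_exp_arg_mul_I (ψ (Ideal.Quotient.mk I (RingOfIntegers.basis K i)))
    rw [h1, Complex.ofReal_one, one_mul] at h2
    conv_lhs => rw [← h2]
    simp only [t]
    congr 1
    push_cast
    field_simp
  have hts : ∀ ψ i, ‖1 - ψ (Ideal.Quotient.mk I (RingOfIntegers.basis K i))‖ ≤ r →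
      |t ψ i| ≤ r / 4 := by
    intro ψ i h
    have h1 : ‖ψ (Ideal.Quotient.mk I (RingOfIntegers.basis K i))‖ = 1 := ψ.norm_apply _
    have hne : ψ (Ideal.Quotient.mk I (RingOfIntegers.basis K i)) ≠ 0 := by
      rw [← norm_ne_zero_iff, h1]
      exact one_ne_zero
    have h2 := Complex.angle_le_mul_norm_sub (x := 1)
      (y := ψ (Ideal.Quotient.mk I (RingOfIntegers.basis K i))) (by simp) h1
    rw [Complex.angle_one_left hne] at h2
    simp only [t]
    rw [abs_div, abs_of_pos (by positivity : (0:ℝ) < 2 * Real.pi), div_le_iff₀ (by positivity)]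
    nlinarith
  by_cases hcase : r / 4 * D < 1
  · have hempty : S = ∅ := by
      rw [Set.eq_empty_iff_forall_notMem]
      rintro ψ ⟨hψ1, hψ2⟩
      apply hψ1
      apply cc_small K I hI R hR hRN ψ (t ψ) (ht ψ)
      intro i
      have h1 := hts ψ i (hψ2 i)
      exact (mul_le_mul_of_nonneg_right h1 hDpos.le).trans_lt hcase
    rw [hempty, Set.ncard_empty, Nat.cast_zero]
    positivity
  · push Not at hcase
    let Φ : AddChar (𝓞 K ⧸ I) ℂ → (Module.Free.ChooseBasisIndex ℤ (𝓞 K) → ℤ) := fun ψ i =>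
      ⌊t ψ i * D⌋
    set B := Fintype.piFinset (fun _ : Module.Free.ChooseBasisIndex ℤ (𝓞 K) =>
      Finset.Icc ⌊-(r / 4 * D)⌋ ⌊r / 4 * D⌋) with hB
    have hmaps : ∀ ψ ∈ S, Φ ψ ∈ (B : Set (Module.Free.ChooseBasisIndex ℤ (𝓞 K) → ℤ)) := by
      rintro ψ ⟨_, hψ2⟩
      rw [hB, Finset.mem_coe, Fintype.mem_piFinset]
      intro i
      rw [Finset.mem_Icc]
      have h1 := hts ψ i (hψ2 i)
      rw [abs_le] at h1
      constructor
      · apply Int.floor_le_floor
        nlinarith [h1.1]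
      · apply Int.floor_le_floor
        exact mul_le_mul_of_nonneg_right h1.2 hDpos.le
    have hinj : Set.InjOn Φ S := by
      intro ψ _ ψ' _ hΦ
      have h1 : ψ * ψ'⁻¹ = 1 := by
        apply cc_small K I hI R hR hRN (ψ * ψ'⁻¹) (fun i => t ψ i - t ψ' i)
        · intro i
          rw [AddChar.mul_apply, AddChar.inv_apply', ht ψ i, ht ψ' i, ← Complex.exp_neg,
            ← Complex.exp_add]
          congr 1
          push_cast
          ring
        · intro i
          have h2 : ⌊t ψ i * D⌋ = ⌊t ψ' i * D⌋ := congrFun hΦ i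
          have h3 := Int.abs_sub_lt_one_of_floor_eq_floor h2
          rw [← sub_mul, abs_mul, abs_of_pos hDpos] at h3
          exact h3
      exact mul_inv_eq_one.1 h1
    have hcard := Set.ncard_le_ncard_of_injOn Φ hmaps hinj (Finset.finite_toSet B)
    rw [Set.ncard_coe_finset] at hcard
    have h1 : (S.ncard : ℝ) ≤ (B.card : ℝ) := by exact_mod_cast hcard
    refine h1.trans ?_
    rw [hB, Fintype.card_piFinset, Finset.prod_const, Finset.card_univ, cc_card K, Int.card_Icc]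
    set ρ : ℝ := r / 4 * D with hρ
    have h2 : (((⌊ρ⌋ + 1 - ⌊-ρ⌋).toNat : ℕ) : ℝ) ≤ 4 * ρ := by
      have h3 : (⌊ρ⌋ : ℝ) ≤ ρ := Int.floor_le ρ
      have h4 : -ρ < ⌊-ρ⌋ + 1 := Int.lt_floor_add_one _
      have h5 : ((⌊ρ⌋ + 1 - ⌊-ρ⌋ : ℤ) : ℝ) ≤ 4 * ρ := by
        push_cast
        linarith
      have h6 : (0:ℤ) ≤ ⌊ρ⌋ + 1 - ⌊-ρ⌋ := by
        have h7 : ⌊-ρ⌋ ≤ ⌊ρ⌋ := Int.floor_le_floor (by linarith)
        omega
      have h8 : (((⌊ρ⌋ + 1 - ⌊-ρ⌋).toNat : ℕ) : ℝ) = ((⌊ρ⌋ + 1 - ⌊-ρ⌋ : ℤ) : ℝ) := by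
        have := Int.toNat_of_nonneg h6
        exact_mod_cast this
      rw [h8]
      exact h5
    push_cast
    calc (((⌊ρ⌋ + 1 - ⌊-ρ⌋).toNat : ℕ) : ℝ) ^ Module.finrank ℚ K
        ≤ (4 * ρ) ^ Module.finrank ℚ K := pow_le_pow_left₀ (Nat.cast_nonneg _) h2 _
      _ = (Module.finrank ℚ K * ccC1 K) ^ Module.finrank ℚ K * Ideal.absNorm I
          * r ^ Module.finrank ℚ K := by
          rw [← hRN, ← mul_pow, ← mul_pow]
          congr 1
          rw [hρ, hD]
          ring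

end Pool.Agent.HWR
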