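import Mathlib

/-!
# HWR, definitions

Quadratic descent for Hasse-Weil L-functions.  All modules of the project import this file.
-/

namespace Pool.Agent.HWR

open NumberField IsDedekindDomain

section Basic

variable (K : Type) [Field K] [NumberField K]

/-- The finite place `v` of `K` lies over no element of `T`. -/
def Away (T : Finset ℕ) (v : HeightOneSpectrum (𝓞 K)) : Prop :=
  ∀ p ∈ T, ((p : ℕ) : 𝓞 K) ∉ v.asIdeal

variable {K}

/-- The norm of a finite place. -/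
noncomputable def nrm (v : HeightOneSpectrum (𝓞 K)) : ℕ := Ideal.absNorm v.asIdeal

/-- The Euler factor of degree two `(1 - a(q) q^(-s) + q^(1-2s))⁻¹`. -/
noncomputable def efac (a : ℕ → ℝ) (q : ℕ) (s : ℂ) : ℂ :=
  (1 - (a q : ℂ) * (q : ℂ) ^ (-s) + (q : ℂ) ^ (1 - 2 * s))⁻¹

variable (K)

/-- Euler product over the finite places of `K` away from `T`. -/
noncomputable def LT (a : ℕ → ℝ) (T : Finset ℕ) (s : ℂ) : ℂ :=
  ∏' v : {v : HeightOneSpectrum (𝓞 K) // Away K T v}, efac a (nrm v.1) s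

end Basic

/-- A finite product of Euler factors of degree one. -/
noncomputable def finEuler (L : List (ℂ × ℕ)) (s : ℂ) : ℂ :=
  (L.map fun x => (1 - x.1 * (x.2 : ℂ) ^ (-s))⁻¹).prod

/-- Finite order in vertical strips. -/
def FinOrd (F : ℂ → ℂ) : Prop :=
  ∀ a b : ℝ, ∃ A C : ℝ, ∀ s : ℂ, a ≤ s.re → s.re ≤ b →
    ‖F s‖ ≤ Real.exp (C * (1 + |s.im|) ^ A)

/-- `(2 pi)^(-s) Gamma(s)`. -/
noncomputable def gam1 (s : ℂ) : ℂ := (2 * Real.pi : ℂ) ^ (-s) * Complex.Gamma s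

section Ext

variable (K : Type) [Field K] [NumberField K] (K' : Type) [Field K'] [NumberField K'] [Algebra K K']

/-- The finite place `v` of `K` has exactly two places above it in `K'`. -/
def Splits (v : HeightOneSpectrum (𝓞 K)) : Prop :=
  (v.asIdeal.primesOver (𝓞 K')).ncard = 2

/-- Strong Hasse-Weil statement for a quadratic extension `K'` of `K` (completed function entire,
of finite order in strips, with the expected functional equation). -/
def Nice (a : ℕ → ℝ) (T : Finset ℕ) (Q : ℝ) (L : List (ℂ × ℕ)) : Prop :=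
  ∃ Lam : ℂ → ℂ, Differentiable ℂ Lam ∧ FinOrd Lam ∧
    (∀ s : ℂ, Lam (2 - s) = (-1) ^ Module.finrank ℚ K * Lam s) ∧
    ∀ s : ℂ, 3 / 2 < s.re →
      Lam s = ((Q * (NumberField.discr K' : ℝ) ^ 2 : ℝ) : ℂ) ^ (s / 2) *
        gam1 s ^ Module.finrank ℚ K' * (finEuler L s ^ 2 * LT K' a T s)

end Ext

/-! ### Elements, quadratic symbol -/

section Elem

variable {K : Type} [Field K] [NumberField K]

open Classical in
/-- The quadratic symbol: `0` if the order of `δ` at `v` is odd, `1` if it is even and `δ` is a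
square to first order at `v`, `-1` otherwise. -/
noncomputable def uu (v : HeightOneSpectrum (𝓞 K)) (δ : 𝓞 K) : ℂ :=
  if ∃ j : ℕ, δ ∈ v.asIdeal ^ (2 * j) ∧ δ ∉ v.asIdeal ^ (2 * j + 1) then
    (if ∃ j : ℕ, δ ∈ v.asIdeal ^ (2 * j) ∧ δ ∉ v.asIdeal ^ (2 * j + 1) ∧
        ∃ x : 𝓞 K, δ - x ^ 2 ∈ v.asIdeal ^ (2 * j + 1) then 1 else -1)
  else 0

/-- order of `δ` at `v` (`0` for `δ = 0`). -/
noncomputable def ord (v : HeightOneSpectrum (𝓞 K)) (δ : 𝓞 K) : ℕ :=
  sSup {k : ℕ | δ ∈ v.asIdeal ^ k}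

/-- `N v ^ (4 (1 - s))`. -/
noncomputable def z4 (q : ℕ) (s : ℂ) : ℂ := (q : ℂ) ^ (4 * (1 - s))

/-- The correction factor `T_δ(s)`: sum of `N 𝔞 ^ (4 (1 - s))` over the ideals with
`𝔞 ^ 2 ∣ δ`, as an Euler product. -/
noncomputable def TT (δ : 𝓞 K) (s : ℂ) : ℂ :=
  ∏ᶠ v : HeightOneSpectrum (𝓞 K), ∑ k ∈ Finset.range (ord v δ / 2 + 1), z4 (nrm v) s ^ k

end Elem

/-! ### Local quantities -/

noncomputable def F1 (a : ℕ → ℝ) (q : ℕ) (s : ℂ) : ℂ := efac a q s ^ 2
noncomputable def Fm (a : ℕ → ℝ) (q : ℕ) (s : ℂ) : ℂ := efac a (q ^ 2) s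

/-- local factor of the L-function of `K(√δ)` over the place `v` of norm `q`, as a function of
the symbol `u = 1, -1, 0`. -/
noncomputable def FF (a : ℕ → ℝ) (q : ℕ) (u : ℂ) (s : ℂ) : ℂ :=
  if u = 1 then F1 a q s else if u = -1 then Fm a q s else efac a q s

noncomputable def bet (a : ℕ → ℝ) (q : ℕ) (s : ℂ) : ℂ :=
  (F1 a q s - Fm a q s) / (2 * efac a q s)
noncomputable def gamm (a : ℕ → ℝ) (q : ℕ) (s : ℂ) : ℂ :=
  ((F1 a q s + Fm a q s) / 2 - efac a q s) / efac a q s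

/-- local factor of the correction times the L-function, divided by the Euler factor of `K`. -/
noncomputable def loc {K : Type} [Field K] [NumberField K] (a : ℕ → ℝ)
    (v : HeightOneSpectrum (𝓞 K)) (δ : 𝓞 K) (s : ℂ) : ℂ :=
  (1 + bet a (nrm v) s * uu v δ + gamm a (nrm v) s * uu v δ ^ 2) *
    ∑ k ∈ Finset.range (ord v δ / 2 + 1), z4 (nrm v) s ^ k

/-- mean value of `loc`. -/
noncomputable def mloc (a : ℕ → ℝ) (q : ℕ) (s : ℂ) : ℂ :=
  (1 + gamm a q s / (1 + (q : ℂ)⁻¹)) / (1 - (q : ℂ) ^ (2 - 4 * s))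

/-! ### Lattice -/

section Lattice

variable (K : Type) [Field K] [NumberField K]

/-- index set of the integral basis -/
abbrev Idx : Type := Module.Free.ChooseBasisIndex ℤ (𝓞 K)

variable {K}

/-- integral coordinates -/
noncomputable def crd (δ : 𝓞 K) : Idx K → ℤ := (RingOfIntegers.basis K).equivFun δ

theorem crd_bijective : Function.Bijective (crd : 𝓞 K → Idx K → ℤ) :=
  (RingOfIntegers.basis K).equivFun.bijective

theorem crd_add (x y : 𝓞 K) : crd (x + y) = crd x + crd y := by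
  simp [crd]

theorem crd_basis (i : Idx K) : crd (RingOfIntegers.basis K i) = Pi.single i 1 := by
  classical
  ext j
  unfold crd
  rw [Module.Basis.equivFun_self]
  by_cases h : i = j
  · subst h; simp
  · simp [h]

theorem sum_crd (δ : 𝓞 K) : ∑ i, crd δ i • RingOfIntegers.basis K i = δ := by
  unfold crd
  exact (RingOfIntegers.basis K).sum_equivFun δ

/-- coordinates divided by `X` -/
noncomputable def crdR (X : ℝ) (δ : 𝓞 K) : Idx K → ℝ := fun i => (crd δ i : ℝ) / X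

/-- linear extension of an embedding to `K ⊗ ℝ` in coordinates -/
noncomputable def emb (σ : K →+* ℂ) (y : Idx K → ℝ) : ℂ :=
  ∑ i, (y i : ℂ) * σ ((RingOfIntegers.basis K i : 𝓞 K) : K)

/-- absolute value of the norm form -/
noncomputable def NN (y : Idx K → ℝ) : ℝ := ∏ σ : K →+* ℂ, ‖emb σ y‖

/-- smooth weights supported near the point `-1` -/
structure IsWeight (W : (Idx K → ℝ) → ℝ) : Prop where
  smooth : ∀ k : ℕ, ContDiff ℝ k W
  nonneg : ∀ y, 0 ≤ W y
  cpt : HasCompactSupport W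
  pos : 0 < W (fun i => (crd (-1 : 𝓞 K) i : ℝ))
  near : ∀ y ∈ tsupport W, ∀ σ : K →+* ℂ, ‖emb σ y + 1‖ ≤ 1 / 2

/-- The weight twisted by a complex power of the norm form. -/
noncomputable def Phi (W : (Idx K → ℝ) → ℝ) (z : ℂ) (y : Idx K → ℝ) : ℂ :=
  (W y : ℂ) * ((NN y : ℝ) : ℂ) ^ z

/-- total weight -/
noncomputable def Tot (W : (Idx K → ℝ) → ℝ) (z : ℂ) (X : ℝ) : ℂ :=
  ∑' δ : 𝓞 K, Phi W z (crdR X δ)

end Lattice

/-! ### The arithmetic family -/

section Family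

/-- Data of the family: an auxiliary place `q` away from `T` and an element `δ1` which is `1`
modulo `8 ∏ p` and a nonresidue modulo `q`. -/
structure Dat (K : Type) [Field K] [NumberField K] (T : Finset ℕ) where
  q : HeightOneSpectrum (𝓞 K)
  δ1 : 𝓞 K
  hq : Away K T q
  one : δ1 - 1 ∈ Ideal.span {(((8 * ∏ p ∈ T, p : ℕ)) : 𝓞 K)}
  nonres : ∀ x : 𝓞 K, δ1 - x ^ 2 ∉ q.asIdeal

variable {K : Type} [Field K] [NumberField K] {T : Finset ℕ}

/-- The modulus of the family. -/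
noncomputable def Dat.I0 (D : Dat K T) : Ideal (𝓞 K) :=
  Ideal.span {(((8 * ∏ p ∈ T, p : ℕ)) : 𝓞 K)} * D.q.asIdeal

/-- Places away from `T` and different from the auxiliary place. -/
abbrev Dat.P (D : Dat K T) : Type :=
  {v : HeightOneSpectrum (𝓞 K) // Away K T v ∧ v ≠ D.q}

open Classical in
/-- the local conditions: `δ ≡ δ1` modulo `I0`, order at least `c v` for `v` in `s`, and for `v`
in `l` (a subset of `s`) order exactly `c v`, weighted by the quadratic symbol. -/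
noncomputable def hh (I0 : Ideal (𝓞 K)) (δ1 : 𝓞 K) (s l : Finset (HeightOneSpectrum (𝓞 K)))
    (c : HeightOneSpectrum (𝓞 K) → ℕ) (δ : 𝓞 K) : ℂ :=
  (if δ - δ1 ∈ I0 then 1 else 0) * (∏ v ∈ s, if δ ∈ v.asIdeal ^ c v then 1 else 0) *
    ∏ v ∈ l, (if δ ∈ v.asIdeal ^ (c v + 1) then 0 else uu v δ)

/-- the period ideal of `hh`. -/
noncomputable def JJ (I0 : Ideal (𝓞 K)) (s l : Finset (HeightOneSpectrum (𝓞 K)))
    (c : HeightOneSpectrum (𝓞 K) → ℕ) : Ideal (𝓞 K) :=
  I0 * (∏ v ∈ s, v.asIdeal ^ c v) * ∏ v ∈ l, v.asIdeal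

end Family

end Pool.Agent.HWR
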