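import Pool.Agent.HWR.Defs

/-!
# HWR-P1: iterated differences of the weights

Joint smoothness of `(z, y) ↦ Phi W z y`, mean value inequality for iterated differences, number of
lattice points in a box.
-/

namespace Pool.Agent.HWR

open NumberField IsDedekindDomain Filter Topology

namespace DiffAux

/-- iterated forward differences are bounded by derivatives. -/
theorem fwd_bound {E F : Type} [NormedAddCommGroup E] [NormedSpace ℝ E] [NormedAddCommGroup F]
    [NormedSpace ℝ F] (s : Set E) (hs : Convex ℝ s) (v : E) (hv : ∀ x ∈ s, x + v ∈ s) (k : ℕ) :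
    ∀ (f : E → F) (A : ℝ), ContDiff ℝ k f → (∀ x ∈ s, ‖iteratedFDeriv ℝ k f x‖ ≤ A) →
      ∀ x ∈ s, ‖(fwdDiff v)^[k] f x‖ ≤ A * ‖v‖ ^ k := by
  induction k with
  | zero =>
    intro f A _ hA x hx
    have := hA x hx
    rw [norm_iteratedFDeriv_zero] at this
    simpa using this
  | succ k ih =>
    intro f A hf hA x hx
    rw [Function.iterate_succ_apply]
    have hfk : ContDiff ℝ k f := hf.of_le (by exact_mod_cast Nat.le_succ k)
    have hsh : ContDiff ℝ k (fun x => f (x + v)) := hfk.comp (contDiff_id.add contDiff_const)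
    have h1 : ContDiff ℝ k (fwdDiff v f) := hsh.sub hfk
    have h2 : ∀ y ∈ s, ‖iteratedFDeriv ℝ k (fwdDiff v f) y‖ ≤ A * ‖v‖ := by
      intro y hy
      have e1 : iteratedFDeriv ℝ k (fwdDiff v f) y =
          iteratedFDeriv ℝ k f (y + v) - iteratedFDeriv ℝ k f y := by
        have e2 : fwdDiff v f = (fun x => f (x + v)) - f := rfl
        rw [e2, iteratedFDeriv_sub_apply hsh.contDiffAt hfk.contDiffAt,
          iteratedFDeriv_comp_add_right]
      rw [e1]
      have e3 := hs.norm_image_sub_le_of_norm_fderiv_le (𝕜 := ℝ) (f := iteratedFDeriv ℝ k f)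
        (C := A) (x := y) (y := y + v)
        (fun x _ => (hf.differentiable_iteratedFDeriv (by exact_mod_cast Nat.lt_succ_self k)) x)
        (fun x hx => by rw [norm_fderiv_iteratedFDeriv]; exact hA x hx) hy (hv y hy)
      rwa [add_sub_cancel_left] at e3
    have h3 := ih (fwdDiff v f) (A * ‖v‖) h1 h2 x hx
    calc _ ≤ A * ‖v‖ * ‖v‖ ^ k := h3
      _ = A * ‖v‖ ^ (k + 1) := by ring

variable {K : Type} [Field K] [NumberField K] {W : (Idx K → ℝ) → ℝ} (hW : IsWeight W)

theorem card_idx (K : Type) [Field K] [NumberField K] :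
    Fintype.card (Idx K) = Module.finrank ℚ K := by
  rw [← RingOfIntegers.rank]
  exact (Module.finrank_eq_card_basis (RingOfIntegers.basis K)).symm

theorem emb_contDiff (σ : K →+* ℂ) (n : WithTop ℕ∞) :
    ContDiff ℝ n (fun p : ℂ × (Idx K → ℝ) => emb σ p.2) := by
  unfold emb
  refine ContDiff.sum (fun i _ => ?_)
  refine ContDiff.mul ?_ contDiff_const
  have h1 : ContDiff ℝ n (fun p : ℂ × (Idx K → ℝ) => p.2 i) := by fun_prop
  exact Complex.ofRealCLM.contDiff.comp h1

include hW in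
theorem joint_smooth (k : ℕ) : ContDiff ℝ k (fun p : ℂ × (Idx K → ℝ) => Phi W p.1 p.2) := by
  rw [contDiff_iff_contDiffAt]
  rintro ⟨z, y⟩
  by_cases hy : y ∈ tsupport W
  · have hne : ∀ σ : K →+* ℂ, emb σ y ≠ 0 := by
      intro σ h
      have := hW.near y hy σ
      rw [h, zero_add, norm_one] at this
      norm_num at this
    have hNN : ContDiffAt ℝ k (fun p : ℂ × (Idx K → ℝ) => NN p.2) (z, y) := by
      unfold NN
      refine contDiffAt_prod (fun σ _ => ?_)
      exact (emb_contDiff σ k).contDiffAt.norm ℝ (hne σ)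
    have hNN0 : NN y ≠ 0 := by
      unfold NN
      rw [Finset.prod_ne_zero_iff]
      intro σ _
      exact norm_ne_zero_iff.2 (hne σ)
    have hev : (fun p : ℂ × (Idx K → ℝ) => Phi W p.1 p.2) =ᶠ[𝓝 (z, y)]
        fun p => (W p.2 : ℂ) * Complex.exp ((Real.log (NN p.2) : ℂ) * p.1) := by
      have h1 : ∀ᶠ p : ℂ × (Idx K → ℝ) in 𝓝 (z, y), NN p.2 ≠ 0 :=
        hNN.continuousAt.eventually_ne hNN0
      filter_upwards [h1] with p hp
      have h2 : 0 ≤ NN p.2 := Finset.prod_nonneg (fun σ _ => norm_nonneg _)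
      unfold Phi
      rw [Complex.cpow_def_of_ne_zero (by exact_mod_cast hp), Complex.ofReal_log h2]
    refine ContDiffAt.congr_of_eventuallyEq ?_ hev
    have hWc : ContDiffAt ℝ k (fun p : ℂ × (Idx K → ℝ) => (W p.2 : ℂ)) (z, y) := by
      have h1 : ContDiff ℝ k (fun p : ℂ × (Idx K → ℝ) => W p.2) := (hW.smooth k).comp contDiff_snd
      exact (Complex.ofRealCLM.contDiff.comp h1).contDiffAt
    have hlog : ContDiffAt ℝ k (fun p : ℂ × (Idx K → ℝ) => (Real.log (NN p.2) : ℂ)) (z, y) := by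
      have h1 : ContDiffAt ℝ k (fun p : ℂ × (Idx K → ℝ) => Real.log (NN p.2)) (z, y) :=
        hNN.log hNN0
      exact Complex.ofRealCLM.contDiff.contDiffAt.comp (z, y) h1
    exact hWc.mul ((hlog.mul contDiffAt_fst).cexp)
  · have hev : (fun p : ℂ × (Idx K → ℝ) => Phi W p.1 p.2) =ᶠ[𝓝 (z, y)] fun _ => 0 := by
      have h1 : W =ᶠ[𝓝 y] 0 := notMem_tsupport_iff_eventuallyEq.1 hy
      have h2 : ∀ᶠ p : ℂ × (Idx K → ℝ) in 𝓝 (z, y), W p.2 = 0 :=
        (continuous_snd.tendsto (z, y)).eventually h1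
      filter_upwards [h2] with p hp
      simp [Phi, hp]
    exact contDiffAt_const.congr_of_eventuallyEq hev

include hW in
theorem deriv_bound (k : ℕ) (R : ℝ) : ∃ A : ℝ, 0 ≤ A ∧ ∀ z : ℂ, ‖z‖ ≤ R → ∀ y : Idx K → ℝ,
    ‖iteratedFDeriv ℝ k (fun p : ℂ × (Idx K → ℝ) => Phi W p.1 p.2) (z, y)‖ ≤ A := by
  have hK : IsCompact ((Metric.closedBall (0 : ℂ) R) ×ˢ (tsupport W)) :=
    (isCompact_closedBall 0 R).prod hW.cpt.isCompact
  have hcont : Continuous (iteratedFDeriv ℝ k (fun p : ℂ × (Idx K → ℝ) => Phi W p.1 p.2)) :=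
    (joint_smooth hW k).continuous_iteratedFDeriv le_rfl
  obtain ⟨A, hA⟩ := hK.exists_bound_of_continuousOn hcont.continuousOn
  refine ⟨max A 0, le_max_right _ _, fun z hz y => ?_⟩
  by_cases hy : y ∈ tsupport W
  · exact (hA (z, y) ⟨mem_closedBall_zero_iff.2 hz, hy⟩).trans (le_max_left _ _)
  · have hev : (fun p : ℂ × (Idx K → ℝ) => Phi W p.1 p.2) =ᶠ[𝓝 (z, y)] fun _ => 0 := by
      have h1 : W =ᶠ[𝓝 y] 0 := notMem_tsupport_iff_eventuallyEq.1 hy
      have h2 : ∀ᶠ p : ℂ × (Idx K → ℝ) in 𝓝 (z, y), W p.2 = 0 :=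
        (continuous_snd.tendsto (z, y)).eventually h1
      filter_upwards [h2] with p hp
      simp [Phi, hp]
    have h3 := (Filter.EventuallyEq.iteratedFDeriv (𝕜 := ℝ) hev k).eq_of_nhds
    rw [h3]
    have h4 : iteratedFDeriv ℝ k (fun _ : ℂ × (Idx K → ℝ) => (0 : ℂ)) = 0 := by
      exact iteratedFDeriv_fun_zero
    rw [h4]
    simp

end DiffAux

open DiffAux

open Classical in
theorem diff_bound {K : Type} [Field K] [NumberField K] {W : (Idx K → ℝ) → ℝ} (hW : IsWeight W)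
    (k : ℕ) (R : ℝ) : ∃ C : ℝ, 0 ≤ C ∧ ∀ z : ℂ, ‖z‖ ≤ R → ∀ X : ℝ, 1 ≤ X → ∀ i : Idx K,
      Set.Finite {m : Idx K → ℤ | Phi W z (fun j => (m j : ℝ) / X) ≠ 0} ∧
      ∑' m : Idx K → ℤ, ‖(fwdDiff (Pi.single i (1 : ℤ)))^[k]
        (fun m : Idx K → ℤ => Phi W z (fun j => (m j : ℝ) / X)) m‖ ≤
        C * (X ^ Module.finrank ℚ K / X ^ k) := by
  obtain ⟨A, hA0, hA⟩ := deriv_bound hW k R
  obtain ⟨B, hB0, hB⟩ : ∃ B : ℝ, 0 ≤ B ∧ ∀ y : Idx K → ℝ, W y ≠ 0 → ∀ j, |y j| ≤ B := by
    obtain ⟨B, hB⟩ := hW.cpt.isCompact.isBounded.subset_closedBall 0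
    refine ⟨max B 0, le_max_right _ _, fun y hy j => ?_⟩
    have h1 := hB (subset_tsupport W hy)
    rw [mem_closedBall_zero_iff] at h1
    exact ((norm_le_pi_norm y j).trans h1).trans (le_max_left _ _)
  refine ⟨(2 * B + 2 * k + 1) ^ Module.finrank ℚ K * A, by positivity, fun z hz X hX i => ?_⟩
  have hX0 : 0 < X := by linarith
  have hPW : ∀ y : Idx K → ℝ, Phi W z y ≠ 0 → W y ≠ 0 := by
    intro y hy h
    apply hy
    simp [Phi, h]
  set φ : (Idx K → ℤ) → ℂ := fun m => Phi W z (fun j => (m j : ℝ) / X) with hφ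
  obtain ⟨M, hM⟩ : ∃ M : ℕ, M = ⌊B * X + k⌋₊ := ⟨_, rfl⟩
  have hbox : ∀ m : Idx K → ℤ, (fwdDiff (Pi.single i (1 : ℤ)))^[k] φ m ≠ 0 →
      m ∈ Finset.Icc (fun _ : Idx K => -(M : ℤ)) (fun _ => (M : ℤ)) := by
    intro m hm
    rw [fwdDiff_iter_eq_sum_shift] at hm
    obtain ⟨l, hl, hl0⟩ := Finset.exists_ne_zero_of_sum_ne_zero hm
    have h1 : φ (m + l • (Pi.single i (1 : ℤ))) ≠ 0 := by
      intro h
      apply hl0
      rw [h, smul_zero]
    have h2 := hB _ (hPW _ h1)
    have hlk : l ≤ k := by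
      have := Finset.mem_range.1 hl
      omega
    have h3 : ∀ j, |(m j : ℝ)| ≤ B * X + k := by
      intro j
      have h4 := h2 j
      rw [abs_div, abs_of_pos hX0, div_le_iff₀ hX0] at h4
      have h5 : (m + l • (Pi.single i (1 : ℤ) : Idx K → ℤ)) j =
          m j + l * (Pi.single i (1 : ℤ) : Idx K → ℤ) j := by
        simp
      rw [h5] at h4
      push_cast at h4
      have h6 : |(l : ℝ) * (((Pi.single i (1 : ℤ) : Idx K → ℤ) j : ℤ) : ℝ)| ≤ k := by
        by_cases hj : j = i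
        · subst hj
          simp only [Pi.single_eq_same, Int.cast_one, mul_one]
          rw [abs_of_nonneg (by positivity)]
          exact_mod_cast hlk
        · rw [Pi.single_eq_of_ne hj]
          simp
      have h7 : |(m j : ℝ)| ≤ |(m j : ℝ) + (l : ℝ) * (((Pi.single i (1 : ℤ) : Idx K → ℤ) j : ℤ) : ℝ)| +
          |(l : ℝ) * (((Pi.single i (1 : ℤ) : Idx K → ℤ) j : ℤ) : ℝ)| := by
        have := abs_sub ((m j : ℝ) + (l : ℝ) * (((Pi.single i (1 : ℤ) : Idx K → ℤ) j : ℤ) : ℝ))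
          ((l : ℝ) * (((Pi.single i (1 : ℤ) : Idx K → ℤ) j : ℤ) : ℝ))
        simpa using this
      linarith
    have h4 : ∀ j, |m j| ≤ (M : ℤ) := by
      intro j
      have h5 : ((m j).natAbs : ℝ) ≤ B * X + k := by
        have := h3 j
        rwa [Nat.cast_natAbs, Int.cast_abs]
      have h6 : (m j).natAbs ≤ M := by
        rw [hM]
        exact Nat.le_floor h5
      rw [Int.abs_eq_natAbs]
      exact_mod_cast h6
    rw [Finset.mem_Icc]
    exact ⟨fun j => (abs_le.1 (h4 j)).1, fun j => (abs_le.1 (h4 j)).2⟩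
  have hcard : (((Finset.Icc (fun _ : Idx K => -(M : ℤ)) (fun _ => (M : ℤ))).card : ℕ) : ℝ) ≤
      ((2 * B + 2 * k + 1) * X) ^ Module.finrank ℚ K := by
    rw [Pi.card_Icc]
    simp only [Int.card_Icc]
    rw [Finset.prod_const, Finset.card_univ, card_idx K]
    have e1 : ((M : ℤ) + 1 - -(M : ℤ)).toNat = 2 * M + 1 := by omega
    rw [e1]
    push_cast
    refine pow_le_pow_left₀ (by positivity) ?_ _
    have h1 : (M : ℝ) ≤ B * X + k := by
      rw [hM]
      exact Nat.floor_le (by positivity)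
    have h2 : (k : ℝ) ≤ k * X := by
      have : (0 : ℝ) ≤ k := by positivity
      nlinarith
    nlinarith
  refine ⟨?_, ?_⟩
  · -- the support is finite
    refine (Finset.finite_toSet (Finset.Icc (fun _ : Idx K => -(⌊B * X⌋₊ : ℤ))
      (fun _ => (⌊B * X⌋₊ : ℤ)))).subset (fun m hm => ?_)
    have h2 := hB _ (hPW _ hm)
    have h4 : ∀ j, |m j| ≤ (⌊B * X⌋₊ : ℤ) := by
      intro j
      have h3 := h2 j
      rw [abs_div, abs_of_pos hX0, div_le_iff₀ hX0] at h3
      have h5 : ((m j).natAbs : ℝ) ≤ B * X := by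
        rwa [Nat.cast_natAbs, Int.cast_abs]
      have h6 : (m j).natAbs ≤ ⌊B * X⌋₊ := Nat.le_floor h5
      rw [Int.abs_eq_natAbs]
      exact_mod_cast h6
    rw [Finset.mem_coe, Finset.mem_Icc]
    exact ⟨fun j => (abs_le.1 (h4 j)).1, fun j => (abs_le.1 (h4 j)).2⟩
  · have hpt : ∀ m : Idx K → ℤ, ‖(fwdDiff (Pi.single i (1 : ℤ)))^[k] φ m‖ ≤ A * (1 / X) ^ k := by
      intro m
      set v : ℂ × (Idx K → ℝ) := (0, Pi.single i (1 / X)) with hv
      have hvn : ‖v‖ = 1 / X := by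
        rw [hv, Prod.norm_mk, norm_zero]
        have : ‖(Pi.single i (1 / X) : Idx K → ℝ)‖ = 1 / X := by
          rw [Pi.norm_single, Real.norm_of_nonneg (by positivity)]
        rw [this]
        exact max_eq_right (by positivity)
      have h1 := fwd_bound ((Metric.closedBall (0 : ℂ) R) ×ˢ (Set.univ : Set (Idx K → ℝ)))
        ((convex_closedBall 0 R).prod convex_univ) v
        (by
          rintro ⟨a, b⟩ ⟨ha, _⟩
          refine ⟨?_, Set.mem_univ _⟩
          simpa [hv] using ha)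
        k (fun p : ℂ × (Idx K → ℝ) => Phi W p.1 p.2) A (joint_smooth hW k)
        (by
          rintro ⟨a, b⟩ ⟨ha, _⟩
          exact hA a (mem_closedBall_zero_iff.1 ha) b)
        (z, fun j => (m j : ℝ) / X) ⟨mem_closedBall_zero_iff.2 hz, Set.mem_univ _⟩
      rw [hvn] at h1
      refine le_trans (le_of_eq ?_) h1
      congr 1
      rw [fwdDiff_iter_eq_sum_shift, fwdDiff_iter_eq_sum_shift]
      refine Finset.sum_congr rfl (fun l _ => ?_)
      congr 1
      show Phi W z _ = Phi W _ _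
      have e1 : ((z, fun j => (m j : ℝ) / X) + l • v : ℂ × (Idx K → ℝ)) =
          (z, fun j => ((m + l • (Pi.single i (1 : ℤ) : Idx K → ℤ)) j : ℝ) / X) := by
        rw [hv]
        refine Prod.ext ?_ ?_
        · simp
        · funext j
          by_cases hj : j = i
          · subst hj
            simp
            ring
          · simp [Pi.single_eq_of_ne hj]
      rw [e1]
    rw [tsum_eq_sum (s := Finset.Icc (fun _ : Idx K => -(M : ℤ)) (fun _ => (M : ℤ)))]
    · calc _ ≤ ∑ m ∈ Finset.Icc (fun _ : Idx K => -(M : ℤ)) (fun _ => (M : ℤ)), A * (1 / X) ^ k :=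
            Finset.sum_le_sum (fun m _ => hpt m)
        _ = ((Finset.Icc (fun _ : Idx K => -(M : ℤ)) (fun _ => (M : ℤ))).card : ℝ) *
            (A * (1 / X) ^ k) := by rw [Finset.sum_const, nsmul_eq_mul]
        _ ≤ ((2 * B + 2 * k + 1) * X) ^ Module.finrank ℚ K * (A * (1 / X) ^ k) :=
            mul_le_mul_of_nonneg_right hcard (by positivity)
        _ = _ := by
            rw [mul_pow, one_div_pow]
            ring
    · intro m hm
      by_contra h
      apply hm
      apply hbox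
      intro h0
      apply h
      rw [h0, norm_zero]

end Pool.Agent.HWR
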