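import Pool.Agent.HWR.SplitT

/-!
# HWR-D5: the discriminant of `K(√δ)`

PLAN. Let `𝔇 = differentIdeal (𝓞 K) (𝓞 K')`.  Mathlib:
`NumberField.absNorm_differentIdeal : absNorm (differentIdeal ℤ (𝓞 K)) = (discr K).natAbs`
(file `NumberTheory/NumberField/Discriminant/Different`), transitivity
`differentIdeal_eq_differentIdeal_mul_differentIdeal` (or similar name), and
`absNorm (I.map ...) = absNorm I ^ 2` for ideals `I` of `𝓞 K` (`Ideal.absNorm_algebraMap`,
`Ideal.relNorm`..).  So `|discr K'| = |discr K|^2 * absNorm 𝔇` and one needs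
`absNorm 𝔇 = ∏_{ord v δ odd} N v`.
Local orders of `𝔇` at a prime `w ∣ v`:
* `ord v δ` even or `2 ∈ v`: `v` is unramified in `K'` (`type_split`, `type_inert`, `split_two`
  with `quad_types`; residue fields are finite, so separable), so `w ∤ 𝔇`
  (`not_dvd_differentIdeal_iff`).
* `ord v δ = 2j+1`: then `2 ∉ v` (as `δ ≡ 1` mod `8`), `v = w^2`; `w ∣ 𝔇`
  (`dvd_differentIdeal_iff` or `pow_sub_one_dvd_differentIdeal`) and `w^2 ∤ 𝔇`: choose
  `c ∈ K` such that `θ1 = c θ ∈ 𝓞 K'` and `w(θ1) = 1` (`δ1 = c^2 δ ∈ 𝓞 K` of order `1` at `v`: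
  `c = m / π^j`), then `𝔇 ∣ 2 θ1` (`aeval_derivative_mem_differentIdeal`, minpoly `X^2 - δ1`), and
  `w(2 θ1) = 1`.
So `𝔇 = ∏_{v : ord odd} w_v` and `N w_v = N v`.
The finiteness of `{v : ord v δ ≠ 0}` (for the `finprod`): `δ ≠ 0`.
-/

namespace Pool.Agent.HWR

open NumberField IsDedekindDomain Module

set_option linter.unusedSectionVars false

attribute [local instance] FractionRing.liftAlgebra

section aux

variable {K : Type} [Field K] [NumberField K] {K' : Type} [Field K'] [NumberField K']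
    [Algebra K K']

private lemma finrank_ring (hdeg : Module.finrank K K' = 2) :
    Module.finrank (𝓞 K) (𝓞 K') = 2 := by
  rw [← hdeg, IsFractionRing.finrank_eq (𝓞 K) K (𝓞 K') K']

private lemma absNorm_map (hdeg : Module.finrank K K' = 2) (v : HeightOneSpectrum (𝓞 K)) :
    Ideal.absNorm (v.asIdeal.map (algebraMap (𝓞 K) (𝓞 K'))) = nrm v ^ 2 := by
  rw [Ideal.absNorm_algebraMap, finrank_ring hdeg, nrm]

private lemma nrm_pos (v : HeightOneSpectrum (𝓞 K)) : 0 < nrm v := by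
  unfold nrm
  rw [Nat.pos_iff_ne_zero, Ideal.absNorm_ne_zero_iff]
  exact Ring.HasFiniteQuotients.finiteQuotient v.ne_bot

private lemma map_le {v : HeightOneSpectrum (𝓞 K)} {P : Ideal (𝓞 K')}
    (hP : P ∈ v.asIdeal.primesOver (𝓞 K')) :
    P ∣ v.asIdeal.map (algebraMap (𝓞 K) (𝓞 K')) := by
  obtain ⟨h1, h2⟩ := hP
  rw [Ideal.dvd_iff_le, Ideal.map_le_iff_le_comap]
  exact h2.over.le

private lemma max_of_over {v : HeightOneSpectrum (𝓞 K)} {P : Ideal (𝓞 K')}
    (hP : P ∈ v.asIdeal.primesOver (𝓞 K')) : P.IsMaximal := by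
  obtain ⟨h1, h2⟩ := hP
  have : v.asIdeal.IsMaximal := v.isMaximal
  exact Ideal.IsMaximal.of_liesOver_isMaximal P v.asIdeal

/-- places which split are unramified -/
private lemma split_not_dvd (hdeg : Module.finrank K K' = 2) (v : HeightOneSpectrum (𝓞 K))
    (hs : Splits K K' v) {P : Ideal (𝓞 K')} (hP : P ∈ v.asIdeal.primesOver (𝓞 K')) :
    ¬ P ∣ differentIdeal (𝓞 K) (𝓞 K') := by
  have hnorm : ∀ w ∈ v.asIdeal.primesOver (𝓞 K'), Ideal.absNorm w = nrm v := by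
    rcases quad_types K K' hdeg v with h | ⟨w, hw, _⟩
    · exact h.2
    · exfalso
      unfold Splits at hs
      rw [hw, Set.ncard_singleton] at hs
      omega
  obtain ⟨Q, hQ, hne⟩ : ∃ Q ∈ v.asIdeal.primesOver (𝓞 K'), P ≠ Q := by
    unfold Splits at hs
    obtain ⟨x, y, hxy, he⟩ := Set.ncard_eq_two.1 hs
    rw [he] at hP ⊢
    rcases hP with rfl | hP
    · exact ⟨y, by simp, hxy⟩
    · rw [Set.mem_singleton_iff] at hP
      subst hP
      exact ⟨x, by simp, hxy.symm⟩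
  have hPm := max_of_over hP
  have hQm := max_of_over hQ
  have hvm : v.asIdeal.IsMaximal := v.isMaximal
  have hc : IsCoprime P Q := Ideal.isCoprime_of_isMaximal hne
  obtain ⟨J, hJ⟩ := hc.mul_dvd (map_le hP) (map_le hQ)
  have hn := absNorm_map hdeg v
  rw [hJ, map_mul, map_mul, hnorm P hP, hnorm Q hQ, ← pow_two] at hn
  have hJ1 : Ideal.absNorm J = 1 := by
    have := nrm_pos v
    exact Nat.eq_of_mul_eq_mul_left (pow_pos this 2) (by rw [hn, mul_one])
  have hJ2 : J = ⊤ := Ideal.absNorm_eq_one_iff.1 hJ1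
  have hfin : Finite (𝓞 K ⧸ v.asIdeal) := Ring.HasFiniteQuotients.finiteQuotient v.ne_bot
  refine not_dvd_differentIdeal_of_isCoprime (𝓞 K) (p := v.asIdeal) P Q hc ?_
  rw [hJ, hJ2, Ideal.mul_top]

/-- places not above two: the full preimage does not divide the different -/
private lemma map_not_dvd (hdeg : Module.finrank K K' = 2) (v : HeightOneSpectrum (𝓞 K))
    (h2 : (2 : 𝓞 K) ∉ v.asIdeal) :
    ¬ v.asIdeal.map (algebraMap (𝓞 K) (𝓞 K')) ∣ differentIdeal (𝓞 K) (𝓞 K') := by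
  refine not_dvd_differentIdeal_of_intTrace_not_mem (𝓞 K) (p := v.asIdeal) _ ⊤
    (Ideal.mul_top _) 1 trivial ?_
  have h : Algebra.intTrace (𝓞 K) (𝓞 K') 1 = 2 := by
    apply FaithfulSMul.algebraMap_injective (𝓞 K) K
    rw [Algebra.algebraMap_intTrace (A := 𝓞 K) (K := K) (L := K') (B := 𝓞 K')]
    have h1 : algebraMap (𝓞 K') K' 1 = algebraMap K K' 1 := by simp
    rw [h1, Algebra.trace_algebraMap, hdeg]
    simp
    exact (map_ofNat _ 2).symm
  rwa [h]

/-- places where the order of `δ` is even are unramified -/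
private lemma even_not_dvd (hdeg : Module.finrank K K' = 2) {δ : 𝓞 K} {θ : 𝓞 K'}
    (hθ : θ ^ 2 = algebraMap (𝓞 K) (𝓞 K') δ) (hδ : δ ≠ 0)
    (hns : ∀ x : K, x ^ 2 ≠ (δ : K)) (h8 : δ - 1 ∈ Ideal.span {(8 : 𝓞 K)})
    (v : HeightOneSpectrum (𝓞 K)) (hv : ¬ Odd (ord v δ)) {P : Ideal (𝓞 K')}
    (hP : P ∈ v.asIdeal.primesOver (𝓞 K')) :
    ¬ P ∣ differentIdeal (𝓞 K) (𝓞 K') := by
  by_cases h2 : (2 : 𝓞 K) ∈ v.asIdeal
  · exact split_not_dvd hdeg v (split_two K K' hdeg δ θ hθ hδ hns v h2 h8) hP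
  · have hu : uu v δ = 1 ∨ uu v δ = -1 := by
      rw [Nat.not_odd_iff_even] at hv
      obtain ⟨j, hj⟩ := hv
      have hex : ∃ j : ℕ, δ ∈ v.asIdeal ^ (2 * j) ∧ δ ∉ v.asIdeal ^ (2 * j + 1) := by
        refine ⟨j, ?_, ?_⟩
        · rw [ord_iff hδ]
          omega
        · rw [ord_iff hδ]
          omega
      unfold uu
      rw [if_pos hex]
      split_ifs
      · exact Or.inl rfl
      · exact Or.inr rfl
    rcases hu with hu | hu
    · exact split_not_dvd hdeg v (type_split K K' hdeg δ θ hθ hδ hns v h2 hu) hP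
    · obtain ⟨w, hw, hm, _⟩ := type_inert K K' hdeg δ θ hθ hδ hns v h2 hu
      rw [hw, Set.mem_singleton_iff] at hP
      rw [hP, ← hm]
      exact map_not_dvd hdeg v h2

/-- the prime above a place -/
private lemma exists_w (hdeg : Module.finrank K K' = 2) {δ : 𝓞 K} {θ : 𝓞 K'}
    (hθ : θ ^ 2 = algebraMap (𝓞 K) (𝓞 K') δ) (hδ : δ ≠ 0)
    (hns : ∀ x : K, x ^ 2 ≠ (δ : K)) (h8 : δ - 1 ∈ Ideal.span {(8 : 𝓞 K)}) :
    ∃ w : HeightOneSpectrum (𝓞 K) → Ideal (𝓞 K'), ∀ v, Odd (ord v δ) →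
      v.asIdeal.primesOver (𝓞 K') = {w v} ∧ Ideal.absNorm (w v) = nrm v ∧
      w v ∣ differentIdeal (𝓞 K) (𝓞 K') ∧ ¬ w v ^ 2 ∣ differentIdeal (𝓞 K) (𝓞 K') := by
  have h : ∀ v : HeightOneSpectrum (𝓞 K), ∃ w : Ideal (𝓞 K'), Odd (ord v δ) →
      v.asIdeal.primesOver (𝓞 K') = {w} ∧ Ideal.absNorm w = nrm v ∧
      w ∣ differentIdeal (𝓞 K) (𝓞 K') ∧ ¬ w ^ 2 ∣ differentIdeal (𝓞 K) (𝓞 K') := by
    intro v
    by_cases hv : Odd (ord v δ)
    · obtain ⟨w, h1, h2, h3⟩ := type_ram K K' hdeg δ θ hθ hδ hns v hv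
      have hvm : v.asIdeal.IsMaximal := v.isMaximal
      have h2v : (2 : 𝓞 K) ∉ v.asIdeal := by
        intro hc
        have hδv : δ ∈ v.asIdeal := by
          have : δ ∈ v.asIdeal ^ 1 := by
            rw [ord_iff hδ]
            exact hv.pos
          rwa [pow_one] at this
        have h8v : δ - 1 ∈ v.asIdeal := by
          refine (Ideal.span_singleton_le_iff_mem _).2 ?_ h8
          have : (8 : 𝓞 K) = 2 * 4 := by norm_num
          rw [this]
          exact Ideal.mul_mem_right _ _ hc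
        apply v.isPrime.ne_top
        rw [Ideal.eq_top_iff_one]
        have := v.asIdeal.sub_mem hδv h8v
        simpa using this
      refine ⟨w, fun _ => ⟨h1, h3, ?_, ?_⟩⟩
      · have := pow_sub_one_dvd_differentIdeal (𝓞 K) (p := v.asIdeal) w 2 v.ne_bot
          (by rw [h2])
        simpa using this
      · rw [← h2]
        exact map_not_dvd hdeg v h2v
    · exact ⟨⊥, fun h => absurd h hv⟩
  choose w hw using h
  exact ⟨w, hw⟩

end aux

open Classical in
theorem discr_ext (K : Type) [Field K] [NumberField K] (K' : Type) [Field K'] [NumberField K']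
    [Algebra K K'] (hdeg : Module.finrank K K' = 2) (δ : 𝓞 K) (θ : 𝓞 K')
    (hθ : θ ^ 2 = algebraMap (𝓞 K) (𝓞 K') δ) (hδ : δ ≠ 0)
    (hns : ∀ x : K, x ^ 2 ≠ (δ : K)) (h8 : δ - 1 ∈ Ideal.span {(8 : 𝓞 K)}) :
    (NumberField.discr K').natAbs = (NumberField.discr K).natAbs ^ 2 *
      ∏ᶠ v : HeightOneSpectrum (𝓞 K), (if Odd (ord v δ) then nrm v else 1) := by
  obtain ⟨w, hw⟩ := exists_w hdeg hθ hδ hns h8
  have hfin : {v : HeightOneSpectrum (𝓞 K) | Odd (ord v δ)}.Finite :=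
    (ord_finite hδ).subset fun v hv => by
      have : Odd (ord v δ) := hv
      show ord v δ ≠ 0
      have := this.pos
      omega
  set S := hfin.toFinset with hS
  have hmem : ∀ v, v ∈ S ↔ Odd (ord v δ) := fun v => by simp [hS]
  have hprod : ∏ᶠ v : HeightOneSpectrum (𝓞 K), (if Odd (ord v δ) then nrm v else 1) =
      ∏ v ∈ S, nrm v := by
    rw [finprod_eq_prod_of_mulSupport_subset (s := S)]
    · exact Finset.prod_congr rfl fun v hv => if_pos ((hmem v).1 hv)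
    · intro v hv
      rw [Function.mem_mulSupport] at hv
      rw [Finset.mem_coe, hmem]
      by_contra hc
      exact hv (if_neg hc)
  have hmax : ∀ v ∈ S, (w v).IsMaximal := fun v hv =>
    max_of_over (v := v) (by rw [(hw v ((hmem v).1 hv)).1]; exact Set.mem_singleton _)
  have hwv : ∀ v ∈ S, (w v).comap (algebraMap (𝓞 K) (𝓞 K')) = v.asIdeal := fun v hv => by
    have : w v ∈ v.asIdeal.primesOver (𝓞 K') := by
      rw [(hw v ((hmem v).1 hv)).1]
      exact Set.mem_singleton _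
    exact this.2.over.symm
  have hdvd : ∏ v ∈ S, w v ∣ differentIdeal (𝓞 K) (𝓞 K') := by
    refine Finset.prod_dvd_of_coprime ?_ fun v hv => (hw v ((hmem v).1 hv)).2.2.1
    intro v hv v' hv' hne
    have h1 := hmax v hv
    have h2 := hmax v' hv'
    refine Ideal.isCoprime_of_isMaximal fun he => hne ?_
    apply HeightOneSpectrum.ext
    rw [← hwv v hv, ← hwv v' hv', he]
  obtain ⟨J, hJ⟩ := hdvd
  have hJ1 : J = ⊤ := by
    by_contra hne
    obtain ⟨P, hPm, hPJ⟩ := Ideal.exists_le_maximal J hne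
    have hPd : P ∣ differentIdeal (𝓞 K) (𝓞 K') := by
      rw [hJ]
      exact (Ideal.dvd_iff_le.2 hPJ).mul_left _
    have hPb : P ≠ ⊥ := by
      rintro rfl
      rw [← Ideal.zero_eq_bot, zero_dvd_iff] at hPd
      exact differentIdeal_ne_bot hPd
    have hpm : (P.comap (algebraMap (𝓞 K) (𝓞 K'))).IsMaximal :=
      Ideal.isMaximal_comap_of_isIntegral_of_isMaximal P
    have hpb : P.comap (algebraMap (𝓞 K) (𝓞 K')) ≠ ⊥ := Ideal.under_ne_bot (𝓞 K) hPb
    let v : HeightOneSpectrum (𝓞 K) := ⟨P.comap (algebraMap (𝓞 K) (𝓞 K')), hpm.isPrime, hpb⟩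
    have hPv : P ∈ v.asIdeal.primesOver (𝓞 K') := ⟨hPm.isPrime, ⟨rfl⟩⟩
    by_cases hv : Odd (ord v δ)
    · obtain ⟨h1, h2, h3, h4⟩ := hw v hv
      rw [h1, Set.mem_singleton_iff] at hPv
      apply h4
      rw [hJ, pow_two]
      refine mul_dvd_mul (Finset.dvd_prod_of_mem w ((hmem v).2 hv)) ?_
      rw [← hPv]
      exact Ideal.dvd_iff_le.2 hPJ
    · exact even_not_dvd hdeg hθ hδ hns h8 v hv hPv hPd
  have hmain := natAbs_discr_eq_absNorm_differentIdeal_mul_natAbs_discr_pow K (𝓞 K) K' (𝓞 K')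
  rw [hmain, hdeg, hprod, hJ, hJ1, Ideal.mul_top, map_prod, mul_comm]
  congr 1
  exact Finset.prod_congr rfl fun v hv => (hw v ((hmem v).1 hv)).2.1

end Pool.Agent.HWR
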