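import Pool.Agent.HWR.GaussA

/-!
# HWR-P5c: Gauss sums

Setting: `I0 ≠ 0` an ideal, finite sets `l ⊆ s` of places with `I0` not contained in any `v ∈ s`
(so `I0` is coprime to the places in `s`), `2 ∉ v` and `c v` even for `v ∈ l`.
Notation: `𝔠 = ∏_{v ∈ s} v^(c v)`, `𝔩 = ∏_{v ∈ l} v`, `J = JJ = I0 𝔠 𝔩`, `h = hh I0 δ1 s l c`.
The function `h` is periodic mod `J`, supported on the coset `{x ∈ 𝔠, x ≡ δ1 mod I0}`, which (CRT,
`I0` and `𝔠` coprime) is `δ' + 𝔠 I0` for some `δ' ∈ 𝔠`.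

`gauss_bound` (any `ψ`): let `ψ0` be `ψ` on `𝔠 I0` and for `b ∈ 𝓞 K`
`G(b) = ∑_{y ∈ 𝔠 I0 / J} h (δ' + y) ψ0 (b y)`; `|∑_x h ψ| = |G(1)|`.
(i) If `b ∉ v` for all `v ∈ l` then `|G(b)| = |G(1)|`: choose `a ≡ 1` mod `I0`, `a ≡ b` mod `𝔩`,
(and `a ∉ v` for `v ∈ s \ l`, not needed if one works with the coset as above and only needs
`a (δ'+y) ∈ 𝔠`); `ψ0 (b y) = ψ0 (a y)`; substitute `y' = (a-1) δ' + a y`, i.e.
`a (δ' + y) = δ' + y'`; `h (δ' + y') = χ(a) h (δ' + y)`, `χ(a) = ∏_{v ∈ l} uu v a = ±1`.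
[If some `v ∈ s \ l` contains `a` this is still fine: `h` only requires `x ∈ 𝔠` there.]
(ii) Parseval: `∑_{b mod 𝔩} |G(b)|^2 = ∑_{y,y'} h(δ'+y) conj h(δ'+y') ∑_b ψ0 (b (y - y'))`; the
inner sum is `N 𝔩` if `ψ0 (b (y-y')) = 1` for all `b`, otherwise `0`.
(iii) If `ψ0` is primitive (`ψ0 (b y) = 1` for all `b` implies `y ∈ J`) then (ii) is
`N 𝔩 ∑ |h|^2 ≤ N 𝔩 ^ 2`, and by (i) it is `≥ φ(𝔩) |G(1)|^2`, `φ(𝔩) = ∏ (N v - 1) ≥ N 𝔩 / 2^#l`.
So `|G(1)|^2 ≤ 2^#l N 𝔩 ≤ ∏ (2 √N v)^2`.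
(iv) If `ψ0` is not primitive, the ideal `A = {b : ψ0 (b y) = 1 ∀ y ∈ 𝔠 I0}` contains `𝔩` properly,
hence `A ⊄ v0` for some `v0 ∈ l` (`𝔩` is the product = intersection of the `v ∈ l`). Choose `a`
with `a - 1 ∈ A`, `a ≡ 1` mod `I0` and mod `v` (`v ∈ l`, `v ≠ v0`), `uu v0 a = -1`; as in (i)
(`ψ0 (a y) = ψ0 (y)`) one gets `G(1) = χ(a) ψ0(-(a-1)δ') G(1)` with `(a-1)δ' ∈ 𝔠 (I0 ∩ A)`,
`ψ0((a-1) δ') = 1` [use that `(a-1) δ'` lies in `A · 𝔠 I0`-type products: choose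
`a - 1 ∈ A * I0 * ∏_{v≠v0} v`, then `(a-1) δ' ∈ A 𝔠 I0` and `ψ0 = 1` there], so `G(1) = 0`.

(An induction over the places of `l` with CRT for one prime at a time is also possible; only the
statements matter.)
-/

namespace Pool.Agent.HWR

open NumberField IsDedekindDomain

variable {K : Type} [Field K] [NumberField K]

/-! ### ideals -/

private theorem coprime_v {v w : HeightOneSpectrum (𝓞 K)} (h : v ≠ w) :
    IsCoprime v.asIdeal w.asIdeal := by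
  have := v.isMaximal
  have := w.isMaximal
  exact Ideal.isCoprime_of_isMaximal fun h' => h (HeightOneSpectrum.ext h')

private theorem coprime_of_not_le {I : Ideal (𝓞 K)} {v : HeightOneSpectrum (𝓞 K)}
    (h : ¬ I ≤ v.asIdeal) : IsCoprime I v.asIdeal := by
  rw [Ideal.isCoprime_iff_sup_eq]
  by_contra hne
  have hm := v.isMaximal
  have h1 : v.asIdeal ≤ I ⊔ v.asIdeal := le_sup_right
  have h2 : v.asIdeal = I ⊔ v.asIdeal := hm.eq_of_le hne h1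
  exact h (by rw [h2]; exact le_sup_left)

/-- from membership modulo every `v` to membership modulo the product -/
private theorem mem_mul_prod {C : Ideal (𝓞 K)} (hC : C ≠ ⊥) (l : Finset (HeightOneSpectrum (𝓞 K)))
    {w : 𝓞 K} (hw : w ∈ C) (h : ∀ v ∈ l, w ∈ C * v.asIdeal) : w ∈ C * ∏ v ∈ l, v.asIdeal := by
  rw [← Ideal.dvd_span_singleton] at hw ⊢
  obtain ⟨X, hX⟩ := hw
  rw [hX]
  refine mul_dvd_mul_left C ?_
  refine Finset.prod_dvd_of_coprime (fun v _ w _ hne => coprime_v hne) fun v hv => ?_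
  have h1 := h v hv
  rw [← Ideal.dvd_span_singleton, hX] at h1
  exact (mul_dvd_mul_iff_left (by simpa using hC)).mp h1

private theorem mem_mul_of_mul {C : Ideal (𝓞 K)} (hC : C ≠ ⊥) {v : HeightOneSpectrum (𝓞 K)}
    {a w : 𝓞 K} (ha : a ∉ v.asIdeal) (hw : w ∈ C) (h : a * w ∈ C * v.asIdeal) :
    w ∈ C * v.asIdeal := by
  rw [← Ideal.dvd_span_singleton] at hw h ⊢
  obtain ⟨X, hX⟩ := hw
  rw [← Ideal.span_singleton_mul_span_singleton, hX, mul_left_comm,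
    mul_dvd_mul_iff_left (by simpa using hC)] at h
  rw [hX]
  refine mul_dvd_mul_left C ?_
  rcases v.prime.dvd_or_dvd h with h1 | h1
  · exact absurd (Ideal.dvd_span_singleton.mp h1) ha
  · exact h1

/-- `w ∈ C`, `a w ∈ C 𝔩`, `a` prime to `𝔩` -/
private theorem mem_J_of_mul {C : Ideal (𝓞 K)} (hC : C ≠ ⊥) (l : Finset (HeightOneSpectrum (𝓞 K)))
    {a w : 𝓞 K} (ha : ∀ v ∈ l, a ∉ v.asIdeal) (hw : w ∈ C) (h : a * w ∈ C * ∏ v ∈ l, v.asIdeal) :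
    w ∈ C * ∏ v ∈ l, v.asIdeal := by
  classical
  refine mem_mul_prod hC l hw fun v hv => mem_mul_of_mul hC (ha v hv) hw ?_
  refine Ideal.mul_mono_right ?_ h
  exact Ideal.le_of_dvd (Finset.dvd_prod_of_mem _ hv)

/-- simplicity of `D / D v` -/
private theorem span_sup {D : Ideal (𝓞 K)} (hD : D ≠ ⊥) {v : HeightOneSpectrum (𝓞 K)} {u : 𝓞 K}
    (hu : u ∈ D) (hu2 : u ∉ D * v.asIdeal) : Ideal.span {u} ⊔ D * v.asIdeal = D := by
  have hle : Ideal.span {u} ⊔ D * v.asIdeal ≤ D :=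
    sup_le ((Ideal.span_singleton_le_iff_mem _).mpr hu) Ideal.mul_le_left
  obtain ⟨X, hX⟩ := Ideal.dvd_iff_le.mpr hle
  have h1 : D * v.asIdeal ≤ D * X := by rw [← hX]; exact le_sup_right
  have h2 : v.asIdeal ≤ X := by
    have h3 := Ideal.dvd_iff_le.mpr h1
    exact Ideal.dvd_iff_le.mp ((mul_dvd_mul_iff_left (by simpa using hD)).mp h3)
  have hm := v.isMaximal
  rcases eq_or_ne X ⊤ with h4 | h4
  · rw [hX, h4, Ideal.mul_top]
  · exfalso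
    have h5 : v.asIdeal = X := hm.eq_of_le h4 h2
    apply hu2
    rw [h5, ← hX]
    exact Ideal.mem_sup_left (Ideal.mem_span_singleton_self u)

private theorem crt {I J : Ideal (𝓞 K)} (h : IsCoprime I J) (x y : 𝓞 K) :
    ∃ a : 𝓞 K, a - x ∈ I ∧ a - y ∈ J := by
  rw [Ideal.isCoprime_iff_exists] at h
  obtain ⟨i, hi, j, hj, hij⟩ := h
  refine ⟨i * y + j * x, ?_, ?_⟩
  · have : i * y + j * x - x = i * (y - x) := by linear_combination x * hij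
    rw [this]
    exact Ideal.mul_mem_right _ _ hi
  · have : i * y + j * x - y = j * (x - y) := by linear_combination y * hij
    rw [this]
    exact Ideal.mul_mem_right _ _ hj


/-! ### the support of `hh` -/

section

variable (I0 : Ideal (𝓞 K)) (δ1 : 𝓞 K) (s l : Finset (HeightOneSpectrum (𝓞 K)))
  (c : HeightOneSpectrum (𝓞 K) → ℕ)

private def Sup' (x : 𝓞 K) : Prop := x - δ1 ∈ I0 ∧ ∀ v ∈ s, x ∈ v.asIdeal ^ c v

private noncomputable def CC : Ideal (𝓞 K) := I0 * ∏ v ∈ s, v.asIdeal ^ c v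

variable {I0 δ1 s l c}

private theorem CC_ne (hI0 : I0 ≠ ⊥) : CC I0 s c ≠ ⊥ := by
  unfold CC
  have h1 : ∏ v ∈ s, v.asIdeal ^ c v ≠ ⊥ := by
    rw [← Ideal.zero_eq_bot, Finset.prod_ne_zero_iff]
    intro v _
    exact pow_ne_zero _ (by simpa using v.ne_bot)
  intro h
  rcases Ideal.mul_eq_bot.mp h with h2 | h2
  · exact hI0 h2
  · exact h1 h2

private theorem JJ_eq : JJ I0 s l c = CC I0 s c * ∏ v ∈ l, v.asIdeal := rfl

private theorem hh_of_not {x : 𝓞 K} (hx : ¬ Sup' I0 δ1 s c x) : hh I0 δ1 s l c x = 0 := by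
  classical
  unfold hh
  by_cases h1 : x - δ1 ∈ I0
  · have h2 : ¬ ∀ v ∈ s, x ∈ v.asIdeal ^ c v := fun h => hx ⟨h1, h⟩
    push Not at h2
    obtain ⟨v, hv, hxv⟩ := h2
    have h3 : (∏ v ∈ s, if x ∈ v.asIdeal ^ c v then (1 : ℂ) else 0) = 0 :=
      Finset.prod_eq_zero hv (if_neg hxv)
    rw [h3]; ring
  · rw [if_neg h1]; ring

private theorem uu_norm (v : HeightOneSpectrum (𝓞 K)) (x : 𝓞 K) : ‖uu v x‖ ≤ 1 := by
  rcases uu_cases v x with h | h | h <;> rw [h] <;> simp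

private theorem hh_norm (x : 𝓞 K) : ‖hh I0 δ1 s l c x‖ ≤ 1 := by
  classical
  unfold hh
  rw [norm_mul, norm_mul, _root_.norm_prod, _root_.norm_prod]
  have h1 : ‖(if x - δ1 ∈ I0 then (1 : ℂ) else 0)‖ ≤ 1 := by split_ifs <;> simp
  have h2 : ∏ v ∈ s, ‖(if x ∈ v.asIdeal ^ c v then (1 : ℂ) else 0)‖ ≤ 1 :=
    Finset.prod_le_one (fun _ _ => norm_nonneg _) fun v _ => by split_ifs <;> simp
  have h3 : ∏ v ∈ l, ‖(if x ∈ v.asIdeal ^ (c v + 1) then (0 : ℂ) else uu v x)‖ ≤ 1 :=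
    Finset.prod_le_one (fun _ _ => norm_nonneg _) fun v _ => by
      split_ifs
      · simp
      · exact uu_norm v x
  exact mul_le_one₀ (mul_le_one₀ h1 (Finset.prod_nonneg fun _ _ => norm_nonneg _) h2)
    (Finset.prod_nonneg fun _ _ => norm_nonneg _) h3

private theorem sup_mul {x a : 𝓞 K} (hx : Sup' I0 δ1 s c x) (ha : a - 1 ∈ I0) :
    Sup' I0 δ1 s c (a * x) := by
  refine ⟨?_, fun v hv => Ideal.mul_mem_left _ _ (hx.2 v hv)⟩
  have : a * x - δ1 = (a - 1) * x + (x - δ1) := by ring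
  rw [this]
  exact Ideal.add_mem _ (Ideal.mul_mem_right _ _ ha) hx.1

private theorem hh_mul (h2 : ∀ v ∈ l, (2 : 𝓞 K) ∉ v.asIdeal) {x a : 𝓞 K} (hx : Sup' I0 δ1 s c x)
    (ha : a - 1 ∈ I0) (ha2 : ∀ v ∈ l, a ∉ v.asIdeal) :
    hh I0 δ1 s l c (a * x) = (∏ v ∈ l, uu v a) * hh I0 δ1 s l c x := by
  classical
  have hax := sup_mul hx ha
  unfold hh
  rw [if_pos hax.1, if_pos hx.1]
  have e1 : (∏ v ∈ s, if a * x ∈ v.asIdeal ^ c v then (1 : ℂ) else 0) = 1 :=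
    Finset.prod_eq_one fun v hv => if_pos (hax.2 v hv)
  have e2 : (∏ v ∈ s, if x ∈ v.asIdeal ^ c v then (1 : ℂ) else 0) = 1 :=
    Finset.prod_eq_one fun v hv => if_pos (hx.2 v hv)
  rw [e1, e2, one_mul, one_mul, one_mul, ← Finset.prod_mul_distrib]
  refine Finset.prod_congr rfl fun v hv => ?_
  by_cases h : x ∈ v.asIdeal ^ (c v + 1)
  · rw [if_pos h, if_pos (Ideal.mul_mem_left _ _ h), mul_zero]
  · rw [if_neg h, if_neg (fun h' => h (mem_pow_of_mul v (ha2 v hv) h')), uu_mul v (h2 v hv) (ha2 v hv)]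

private theorem sup_sub (hs : ∀ v ∈ s, ¬ I0 ≤ v.asIdeal) {x y : 𝓞 K} (hx : Sup' I0 δ1 s c x)
    (hy : Sup' I0 δ1 s c y) : x - y ∈ CC I0 s c := by
  unfold CC
  rw [← Ideal.dvd_span_singleton]
  have h1 : x - y ∈ I0 := by
    have : x - y = (x - δ1) - (y - δ1) := by ring
    rw [this]
    exact Ideal.sub_mem _ hx.1 hy.1
  refine IsCoprime.mul_dvd (IsCoprime.prod_right fun v hv => (coprime_of_not_le (hs v hv)).pow_right)
    (Ideal.dvd_span_singleton.mpr h1) ?_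
  refine Finset.prod_dvd_of_coprime (fun v _ w _ hne => (coprime_v hne).pow) fun v hv => ?_
  rw [Ideal.dvd_span_singleton]
  exact Ideal.sub_mem _ (hx.2 v hv) (hy.2 v hv)

private theorem CC_le {v : HeightOneSpectrum (𝓞 K)} (hv : v ∈ s) : CC I0 s c ≤ v.asIdeal ^ c v := by
  classical
  unfold CC
  have h1 : ∏ v ∈ s, v.asIdeal ^ c v ≤ v.asIdeal ^ c v :=
    Ideal.le_of_dvd (Finset.dvd_prod_of_mem (fun v : HeightOneSpectrum (𝓞 K) => v.asIdeal ^ c v) hv)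
  exact le_trans (Ideal.mul_le_right (I := I0)) h1

private theorem sup_congr {x y : 𝓞 K} (hx : Sup' I0 δ1 s c x) (h : x - y ∈ CC I0 s c) :
    Sup' I0 δ1 s c y := by
  refine ⟨?_, fun v hv => ?_⟩
  · have e : y - δ1 = (x - δ1) - (x - y) := by ring
    rw [e]
    exact Ideal.sub_mem _ hx.1 (Ideal.mul_le_left (J := ∏ v ∈ s, v.asIdeal ^ c v) h)
  · have e : y = x - (x - y) := by ring
    rw [e]
    exact Ideal.sub_mem _ (hx.2 v hv) (CC_le hv h)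

private theorem mul_mem_CC {x z : 𝓞 K}
    (hx : ∀ v ∈ s, x ∈ v.asIdeal ^ c v) {B : Ideal (𝓞 K)} (hz : z ∈ I0 * B) : z * x ∈ CC I0 s c * B := by
  have h1 : x ∈ ∏ v ∈ s, v.asIdeal ^ c v := by
    rw [← Ideal.dvd_span_singleton]
    refine Finset.prod_dvd_of_coprime (fun v _ w _ hne => (coprime_v hne).pow) fun v hv => ?_
    rw [Ideal.dvd_span_singleton]
    exact hx v hv
  have h2 := Ideal.mul_mem_mul hz h1
  unfold CC
  have e : I0 * (∏ v ∈ s, v.asIdeal ^ c v) * B = I0 * B * ∏ v ∈ s, v.asIdeal ^ c v := by ring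
  rw [e]
  exact h2

end


/-! ### sums over classes -/

section

variable {I0 : Ideal (𝓞 K)} {δ1 : 𝓞 K} {s l : Finset (HeightOneSpectrum (𝓞 K))}
  {c : HeightOneSpectrum (𝓞 K) → ℕ}

private theorem hh_mk (hl : l ⊆ s) (x : 𝓞 K) :
    hh I0 δ1 s l c (Quotient.out (Ideal.Quotient.mk (JJ I0 s l c) x)) = hh I0 δ1 s l c x := by
  apply hh_congr I0 δ1 s l hl c
  rw [← Ideal.Quotient.eq, Ideal.Quotient.mk_out]

private theorem JJ_le : JJ I0 s l c ≤ CC I0 s c := by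
  rw [JJ_eq]; exact Ideal.mul_le_left

/-- the support as a finite set of classes -/
private noncomputable def Q0 (I0 : Ideal (𝓞 K)) (δ1 : 𝓞 K) (s l : Finset (HeightOneSpectrum (𝓞 K)))
    (c : HeightOneSpectrum (𝓞 K) → ℕ) [Fintype (𝓞 K ⧸ JJ I0 s l c)] :
    Finset (𝓞 K ⧸ JJ I0 s l c) :=
  open Classical in Finset.univ.filter fun x => Sup' I0 δ1 s c (Quotient.out x)

variable [Fintype (𝓞 K ⧸ JJ I0 s l c)]

private theorem mem_Q0 (x : 𝓞 K) :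
    Ideal.Quotient.mk (JJ I0 s l c) x ∈ Q0 I0 δ1 s l c ↔ Sup' I0 δ1 s c x := by
  classical
  unfold Q0
  rw [Finset.mem_filter]
  have h : Quotient.out (Ideal.Quotient.mk (JJ I0 s l c) x) - x ∈ CC I0 s c := by
    apply JJ_le (l := l)
    rw [← Ideal.Quotient.eq, Ideal.Quotient.mk_out]
  constructor
  · rintro ⟨-, h1⟩
    exact sup_congr h1 h
  · intro h1
    refine ⟨Finset.mem_univ _, sup_congr h1 ?_⟩
    have := Ideal.neg_mem_iff _ |>.mpr h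
    simpa using this

private theorem sum_Q0 (g : (𝓞 K ⧸ JJ I0 s l c) → ℂ) :
    ∑ x : 𝓞 K ⧸ JJ I0 s l c, hh I0 δ1 s l c (Quotient.out x) * g x =
      ∑ x ∈ Q0 I0 δ1 s l c, hh I0 δ1 s l c (Quotient.out x) * g x := by
  classical
  symm
  refine Finset.sum_subset (Finset.subset_univ _) fun x _ hx => ?_
  have h : ¬ Sup' I0 δ1 s c (Quotient.out x) := by
    intro h
    apply hx
    unfold Q0
    exact Finset.mem_filter.mpr ⟨Finset.mem_univ _, h⟩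
  rw [hh_of_not h, zero_mul]

open Classical in
private theorem image_Q0 (hI0 : I0 ≠ ⊥) (hs : ∀ v ∈ s, ¬ I0 ≤ v.asIdeal) {a : 𝓞 K}
    (ha : a - 1 ∈ I0) (ha2 : ∀ v ∈ l, a ∉ v.asIdeal) :
    Set.InjOn (fun x => Ideal.Quotient.mk (JJ I0 s l c) a * x) (Q0 I0 δ1 s l c : Set _) ∧
    (Q0 I0 δ1 s l c).image (fun x => Ideal.Quotient.mk (JJ I0 s l c) a * x) = Q0 I0 δ1 s l c := by
  have hinj : Set.InjOn (fun x => Ideal.Quotient.mk (JJ I0 s l c) a * x)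
      (Q0 I0 δ1 s l c : Set _) := by
    intro x hx y hy hxy
    obtain ⟨x, rfl⟩ := Ideal.Quotient.mk_surjective x
    obtain ⟨y, rfl⟩ := Ideal.Quotient.mk_surjective y
    have hx' := (mem_Q0 x).mp (Finset.mem_coe.mp hx)
    have hy' := (mem_Q0 y).mp (Finset.mem_coe.mp hy)
    change Ideal.Quotient.mk _ a * Ideal.Quotient.mk _ x =
      Ideal.Quotient.mk _ a * Ideal.Quotient.mk _ y at hxy
    rw [← map_mul, ← map_mul, Ideal.Quotient.eq, ← mul_sub] at hxy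
    rw [Ideal.Quotient.eq, JJ_eq]
    exact mem_J_of_mul (CC_ne hI0) l ha2 (sup_sub hs hx' hy') hxy
  refine ⟨hinj, Finset.eq_of_subset_of_card_le ?_ ?_⟩
  · intro x hx
    obtain ⟨y, hy, rfl⟩ := Finset.mem_image.mp hx
    obtain ⟨y, rfl⟩ := Ideal.Quotient.mk_surjective y
    rw [← map_mul, mem_Q0]
    exact sup_mul ((mem_Q0 y).mp hy) ha
  · rw [Finset.card_image_of_injOn hinj]

private theorem twist (hI0 : I0 ≠ ⊥) (hl : l ⊆ s) (hs : ∀ v ∈ s, ¬ I0 ≤ v.asIdeal)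
    (h2 : ∀ v ∈ l, (2 : 𝓞 K) ∉ v.asIdeal) {a : 𝓞 K} (ha : a - 1 ∈ I0)
    (ha2 : ∀ v ∈ l, a ∉ v.asIdeal) (g : (𝓞 K ⧸ JJ I0 s l c) → ℂ) :
    ∑ x ∈ Q0 I0 δ1 s l c, hh I0 δ1 s l c (Quotient.out x) * g x =
      (∏ v ∈ l, uu v a) * ∑ x ∈ Q0 I0 δ1 s l c, hh I0 δ1 s l c (Quotient.out x) *
        g (Ideal.Quotient.mk (JJ I0 s l c) a * x) := by
  classical
  obtain ⟨hinj, himg⟩ := image_Q0 (c := c) (δ1 := δ1) hI0 hs ha ha2
  conv_lhs => rw [← himg]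
  rw [Finset.sum_image hinj, Finset.mul_sum]
  refine Finset.sum_congr rfl fun x hx => ?_
  obtain ⟨x, rfl⟩ := Ideal.Quotient.mk_surjective x
  have hx' := (mem_Q0 x).mp hx
  rw [← map_mul, hh_mk hl, hh_mk hl, hh_mul h2 hx' ha ha2, mul_assoc]

private theorem ext_v {v : HeightOneSpectrum (𝓞 K)} {a b : 𝓞 K} (h : a - b ∈ v.asIdeal)
    (hb : b ∉ v.asIdeal) : a ∉ v.asIdeal := by
  intro ha
  apply hb
  have : b = a - (a - b) := by ring
  rw [this]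
  exact Ideal.sub_mem _ ha h

/-- the non primitive case -/
private theorem nonprim (hI0 : I0 ≠ ⊥) (hl : l ⊆ s) (hs : ∀ v ∈ s, ¬ I0 ≤ v.asIdeal)
    (h2 : ∀ v ∈ l, (2 : 𝓞 K) ∉ v.asIdeal) (ψ : AddChar (𝓞 K ⧸ JJ I0 s l c) ℂ) {w : 𝓞 K}
    (hw : w ∈ CC I0 s c) (hw2 : w ∉ JJ I0 s l c)
    (hψ : ∀ b : 𝓞 K, ψ (Ideal.Quotient.mk _ (b * w)) = 1) :
    ∑ x ∈ Q0 I0 δ1 s l c, hh I0 δ1 s l c (Quotient.out x) * ψ x = 0 := by
  classical
  -- a place `v0` with `w ∉ C v0`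
  obtain ⟨v0, hv0, hwv⟩ : ∃ v0 ∈ l, w ∉ CC I0 s c * v0.asIdeal := by
    by_contra hcon
    push Not at hcon
    apply hw2
    rw [JJ_eq]
    exact mem_mul_prod (CC_ne hI0) l hw hcon
  obtain ⟨B, hB⟩ : ∃ B : Ideal (𝓞 K), B = ∏ v ∈ l.erase v0, v.asIdeal := ⟨_, rfl⟩
  have hBne : B ≠ ⊥ := by
    rw [hB, ← Ideal.zero_eq_bot, Finset.prod_ne_zero_iff]
    intro v _
    simpa using v.ne_bot
  have hBcop : IsCoprime B v0.asIdeal := by
    rw [hB]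
    exact IsCoprime.prod_left fun v hv => coprime_v (Finset.ne_of_mem_erase hv)
  have hIB : IsCoprime (I0 * B) v0.asIdeal :=
    IsCoprime.mul_left (coprime_of_not_le (hs v0 (hl hv0))) hBcop
  have hDne : CC I0 s c * B ≠ ⊥ := by
    intro h
    rcases Ideal.mul_eq_bot.mp h with h3 | h3
    · exact CC_ne hI0 h3
    · exact hBne h3
  have hDJ : CC I0 s c * B * v0.asIdeal = JJ I0 s l c := by
    rw [JJ_eq, hB, mul_assoc, Finset.prod_erase_mul l _ hv0]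
  -- `z ∈ B`, `z ∉ v0`
  obtain ⟨z, hz1, hz2⟩ := crt hBcop (0 : 𝓞 K) 1
  rw [sub_zero] at hz1
  have hz3 : z ∉ v0.asIdeal := ext_v hz2 (by
    intro h; exact v0.isPrime.ne_top ((Ideal.eq_top_iff_one _).mpr h))
  have hu : z * w ∈ CC I0 s c * B := by
    have h3 := Ideal.mul_mem_mul hw hz1
    rwa [mul_comm w z] at h3
  have hu2 : z * w ∉ CC I0 s c * B * v0.asIdeal := by
    intro h
    apply hwv
    refine mem_mul_of_mul (CC_ne hI0) hz3 hw ?_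
    refine Ideal.mul_mono_left (Ideal.mul_le_left) h
  have hspan := span_sup hDne hu hu2
  -- `ψ` is trivial on `D`
  have htriv : ∀ y ∈ CC I0 s c * B, ψ (Ideal.Quotient.mk _ y) = 1 := by
    intro y hy
    rw [← hspan, Submodule.mem_sup] at hy
    obtain ⟨y1, hy1, y2, hy2, rfl⟩ := hy
    obtain ⟨t, rfl⟩ := Ideal.mem_span_singleton'.mp hy1
    rw [hDJ] at hy2
    rw [map_add, Ideal.Quotient.eq_zero_iff_mem.mpr hy2, add_zero, ← mul_assoc]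
    exact hψ _
  -- the element `a`
  obtain ⟨a0, ha0, ha0'⟩ := exists_nonres v0 (h2 v0 hv0)
  obtain ⟨a, ha1, ha2⟩ := crt hIB (1 : 𝓞 K) a0
  have hav0 : a ∉ v0.asIdeal := ext_v ha2 ha0
  have haI : a - 1 ∈ I0 := Ideal.mul_le_left (J := B) ha1
  have haB : ∀ v ∈ l.erase v0, a - 1 ∈ v.asIdeal := by
    intro v hv
    have h3 : a - 1 ∈ B := Ideal.mul_le_right (I := I0) ha1
    rw [hB] at h3
    exact Ideal.le_of_dvd (Finset.dvd_prod_of_mem (fun v : HeightOneSpectrum (𝓞 K) => v.asIdeal) hv) h3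
  have hav : ∀ v ∈ l, a ∉ v.asIdeal := by
    intro v hv
    by_cases h : v = v0
    · rw [h]; exact hav0
    · exact ext_v (haB v (Finset.mem_erase.mpr ⟨h, hv⟩)) (by
        intro h1; exact v.isPrime.ne_top ((Ideal.eq_top_iff_one _).mpr h1))
  have hchi : ∏ v ∈ l, uu v a = -1 := by
    rw [← Finset.mul_prod_erase l _ hv0, Finset.prod_eq_one fun v hv => uu_of_one_sub_mem v (haB v hv),
      mul_one, ← ha0']
    refine (uu_congr v0 (c := 0) (by simpa using ha0) ?_).symm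
    have : a0 - a = -(a - a0) := by ring
    rw [this, zero_add, pow_one]
    exact (Ideal.neg_mem_iff _).mpr ha2
  have key := twist (c := c) (δ1 := δ1) hI0 hl hs h2 haI hav (fun x => ψ x)
  rw [hchi] at key
  have e : ∑ x ∈ Q0 I0 δ1 s l c, hh I0 δ1 s l c (Quotient.out x) *
      ψ (Ideal.Quotient.mk (JJ I0 s l c) a * x) =
      ∑ x ∈ Q0 I0 δ1 s l c, hh I0 δ1 s l c (Quotient.out x) * ψ x := by
    refine Finset.sum_congr rfl fun x hx => ?_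
    obtain ⟨x, rfl⟩ := Ideal.Quotient.mk_surjective x
    have hx' := (mem_Q0 x).mp hx
    have e1 : Ideal.Quotient.mk (JJ I0 s l c) a * Ideal.Quotient.mk (JJ I0 s l c) x =
        Ideal.Quotient.mk (JJ I0 s l c) x + Ideal.Quotient.mk (JJ I0 s l c) ((a - 1) * x) := by
      rw [← map_mul, ← map_add]; congr 1; ring
    rw [e1, AddChar.map_add_eq_mul, htriv _ (mul_mem_CC hx'.2 ha1), mul_one]
  rw [e] at key
  have h3 : (2 : ℂ) * ∑ x ∈ Q0 I0 δ1 s l c, hh I0 δ1 s l c (Quotient.out x) * ψ x = 0 := by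
    linear_combination key
  simpa using h3

end


/-! ### counting -/

private noncomputable def LL (l : Finset (HeightOneSpectrum (𝓞 K))) : Ideal (𝓞 K) :=
  ∏ v ∈ l, v.asIdeal

private theorem LL_ne (l : Finset (HeightOneSpectrum (𝓞 K))) : LL l ≠ ⊥ := by
  unfold LL
  rw [← Ideal.zero_eq_bot, Finset.prod_ne_zero_iff]
  intro v _
  simpa using v.ne_bot

private theorem LL_norm (l : Finset (HeightOneSpectrum (𝓞 K))) :
    Nat.card (𝓞 K ⧸ LL l) = ∏ v ∈ l, nrm v := by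
  have h : Nat.card (𝓞 K ⧸ LL l) = Ideal.absNorm (LL l) := rfl
  rw [h]
  unfold LL nrm
  rw [map_prod]

private theorem nrm_two (v : HeightOneSpectrum (𝓞 K)) : 2 ≤ nrm v := by
  have h0 : nrm v ≠ 0 := by
    unfold nrm
    rw [Ne, Ideal.absNorm_eq_zero_iff]
    exact v.ne_bot
  have h1 : nrm v ≠ 1 := by
    unfold nrm
    rw [Ne, Ideal.absNorm_eq_one_iff]
    exact v.isPrime.ne_top
  omega

open Classical in
private theorem card_units (l : Finset (HeightOneSpectrum (𝓞 K))) [Fintype (𝓞 K ⧸ LL l)] :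
    (Finset.univ.filter fun b : 𝓞 K ⧸ LL l => ∀ v ∈ l, Quotient.out b ∉ v.asIdeal).card =
      ∏ v ∈ l, (nrm v - 1) := by
  have hfin : ∀ v : l, Fintype (𝓞 K ⧸ (v : HeightOneSpectrum (𝓞 K)).asIdeal ^ 1) := fun v => by
    have := Ideal.finiteQuotientOfFreeOfNeBot ((v : HeightOneSpectrum (𝓞 K)).asIdeal ^ 1)
      (by rw [pow_one]; exact v.1.ne_bot)
    exact Fintype.ofFinite _
  let f := IsDedekindDomain.quotientEquivPiOfFinsetProdEq (s := l) (LL l)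
    (fun v : HeightOneSpectrum (𝓞 K) => v.asIdeal) (fun _ => 1) (fun v _ => v.prime)
    (fun v _ w _ h h' => h (HeightOneSpectrum.ext h')) (by unfold LL; simp)
  have h1 : (Finset.univ.filter fun b : 𝓞 K ⧸ LL l => ∀ v ∈ l, Quotient.out b ∉ v.asIdeal).card =
      (Fintype.piFinset fun v : l => Finset.univ.filter
        fun y : 𝓞 K ⧸ (v : HeightOneSpectrum (𝓞 K)).asIdeal ^ 1 => y ≠ 0).card := by
    refine Finset.card_equiv f.toEquiv fun b => ?_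
    rw [Finset.mem_filter, Fintype.mem_piFinset]
    have h2 : ∀ v : l, f b v = Ideal.Quotient.mk _ (Quotient.out b) := by
      intro v
      conv_lhs => rw [← Ideal.Quotient.mk_out b]
      rfl
    have h3 : ∀ v : l, (f.toEquiv b v ≠ 0 ↔ Quotient.out b ∉ v.1.asIdeal) := by
      intro v
      change f b v ≠ 0 ↔ _
      rw [h2, Ne, Ideal.Quotient.eq_zero_iff_mem, pow_one]
    constructor
    · rintro ⟨-, h⟩ v
      rw [Finset.mem_filter]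
      exact ⟨Finset.mem_univ _, (h3 v).mpr (h v.1 v.2)⟩
    · intro h
      refine ⟨Finset.mem_univ _, fun v hv => ?_⟩
      have h4 := h ⟨v, hv⟩
      rw [Finset.mem_filter] at h4
      exact (h3 ⟨v, hv⟩).mp h4.2
  rw [h1, Fintype.card_piFinset, ← Finset.prod_coe_sort l]
  refine Finset.prod_congr rfl fun v _ => ?_
  rw [Finset.filter_ne', Finset.card_erase_of_mem (Finset.mem_univ _), Finset.card_univ,
    ← Nat.card_eq_fintype_card]
  congr 1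
  change Ideal.absNorm (v.1.asIdeal ^ 1) = _
  rw [pow_one]; rfl

section

variable {I0 : Ideal (𝓞 K)} {δ1 : 𝓞 K} {s l : Finset (HeightOneSpectrum (𝓞 K))}
  {c : HeightOneSpectrum (𝓞 K) → ℕ} [Fintype (𝓞 K ⧸ JJ I0 s l c)]

private theorem card_Q0 (hI0 : I0 ≠ ⊥) (hs : ∀ v ∈ s, ¬ I0 ≤ v.asIdeal) :
    (Q0 I0 δ1 s l c).card ≤ ∏ v ∈ l, nrm v := by
  classical
  rcases Finset.eq_empty_or_nonempty (Q0 I0 δ1 s l c) with h | ⟨d, hd⟩
  · rw [h]; simp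
  · obtain ⟨d, rfl⟩ := Ideal.Quotient.mk_surjective d
    have hd' := (mem_Q0 d).mp hd
    have hCJ : JJ I0 s l c ≤ CC I0 s c := JJ_le
    have h1 : Nat.card ((CC I0 s c).map (Ideal.Quotient.mk (JJ I0 s l c))) = ∏ v ∈ l, nrm v := by
      have h2 := Submodule.card_eq_card_quotient_mul_card
        ((CC I0 s c).map (Ideal.Quotient.mk (JJ I0 s l c)))
      have h3 : Nat.card ((𝓞 K ⧸ JJ I0 s l c) ⧸ (CC I0 s c).map (Ideal.Quotient.mk (JJ I0 s l c))) =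
          Ideal.absNorm (CC I0 s c) :=
        Nat.card_congr (DoubleQuot.quotQuotEquivQuotOfLE hCJ).toEquiv
      have h4 : Nat.card (𝓞 K ⧸ JJ I0 s l c) = Ideal.absNorm (CC I0 s c) * ∏ v ∈ l, nrm v := by
        change Ideal.absNorm (JJ I0 s l c) = _
        rw [JJ_eq, map_mul, map_prod]
        rfl
      rw [h3, h4, mul_comm] at h2
      have h5 : Ideal.absNorm (CC I0 s c) ≠ 0 := by
        rw [Ne, Ideal.absNorm_eq_zero_iff]; exact CC_ne hI0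
      exact (Nat.eq_of_mul_eq_mul_right (Nat.pos_of_ne_zero h5) h2).symm
    rw [← h1]
    have hf : ∀ x : {x // x ∈ Q0 I0 δ1 s l c}, (x : 𝓞 K ⧸ JJ I0 s l c) - Ideal.Quotient.mk _ d ∈
        (CC I0 s c).map (Ideal.Quotient.mk (JJ I0 s l c)) := by
      rintro ⟨x, hx⟩
      obtain ⟨x, rfl⟩ := Ideal.Quotient.mk_surjective x
      rw [← map_sub]
      exact Ideal.mem_map_of_mem _ (sup_sub hs ((mem_Q0 x).mp hx) hd')
    have h6 := Nat.card_le_card_of_injective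
      (fun x : {x // x ∈ Q0 I0 δ1 s l c} =>
        (⟨(x : 𝓞 K ⧸ JJ I0 s l c) - Ideal.Quotient.mk (JJ I0 s l c) d, hf x⟩ :
          (CC I0 s c).map (Ideal.Quotient.mk (JJ I0 s l c))))
      (by
        intro x y hxy
        have h7 : (x : 𝓞 K ⧸ JJ I0 s l c) - Ideal.Quotient.mk _ d =
            (y : 𝓞 K ⧸ JJ I0 s l c) - Ideal.Quotient.mk _ d := congrArg Subtype.val hxy
        exact Subtype.ext (sub_left_injective h7))
    rw [Nat.card_eq_fintype_card, Fintype.card_coe] at h6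
    exact h6


/-- the twisted sums -/
private noncomputable def GG (I0 : Ideal (𝓞 K)) (δ1 : 𝓞 K) (s l : Finset (HeightOneSpectrum (𝓞 K)))
    (c : HeightOneSpectrum (𝓞 K) → ℕ) [Fintype (𝓞 K ⧸ JJ I0 s l c)]
    (ψ : AddChar (𝓞 K ⧸ JJ I0 s l c) ℂ) (d b : 𝓞 K) : ℂ :=
  ∑ x ∈ Q0 I0 δ1 s l c, hh I0 δ1 s l c (Quotient.out x) *
    ψ (Ideal.Quotient.mk _ b * (x - Ideal.Quotient.mk _ d))

private theorem LC_mem {b w : 𝓞 K} (hb : b ∈ LL l) (hw : w ∈ CC I0 s c) : b * w ∈ JJ I0 s l c := by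
  have h := Ideal.mul_mem_mul hw hb
  rwa [mul_comm w b] at h

private theorem GG_congr (hs : ∀ v ∈ s, ¬ I0 ≤ v.asIdeal) (ψ : AddChar (𝓞 K ⧸ JJ I0 s l c) ℂ)
    {d b b' : 𝓞 K} (hd : Sup' I0 δ1 s c d) (h : b - b' ∈ LL l) :
    GG I0 δ1 s l c ψ d b = GG I0 δ1 s l c ψ d b' := by
  unfold GG
  refine Finset.sum_congr rfl fun x hx => ?_
  obtain ⟨x, rfl⟩ := Ideal.Quotient.mk_surjective x
  have hx' := (mem_Q0 x).mp hx
  congr 2
  rw [← map_sub, ← map_mul, ← map_mul, Ideal.Quotient.eq, ← sub_mul]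
  exact LC_mem h (sup_sub hs hx' hd)

private theorem norm_uu_prod {a : 𝓞 K} (ha : ∀ v ∈ l, a ∉ v.asIdeal) : ‖∏ v ∈ l, uu v a‖ = 1 := by
  rw [_root_.norm_prod]
  refine Finset.prod_eq_one fun v hv => ?_
  rcases uu_unit v (ha v hv) with h | h <;> rw [h] <;> simp

private theorem GG_unit (hI0 : I0 ≠ ⊥) (hl : l ⊆ s) (hs : ∀ v ∈ s, ¬ I0 ≤ v.asIdeal)
    (h2 : ∀ v ∈ l, (2 : 𝓞 K) ∉ v.asIdeal) (ψ : AddChar (𝓞 K ⧸ JJ I0 s l c) ℂ)
    {d b : 𝓞 K} (hd : Sup' I0 δ1 s c d) (hb : ∀ v ∈ l, b ∉ v.asIdeal) :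
    ‖GG I0 δ1 s l c ψ d b‖ =
      ‖∑ x ∈ Q0 I0 δ1 s l c, hh I0 δ1 s l c (Quotient.out x) * ψ x‖ := by
  have hcop : IsCoprime I0 (LL l) := by
    unfold LL
    exact IsCoprime.prod_right fun v hv => coprime_of_not_le (hs v (hl hv))
  obtain ⟨a, ha1, ha2⟩ := crt hcop 1 b
  have ha : ∀ v ∈ l, a ∉ v.asIdeal := fun v hv => ext_v (by
    unfold LL at ha2
    exact Ideal.le_of_dvd
      (Finset.dvd_prod_of_mem (fun v : HeightOneSpectrum (𝓞 K) => v.asIdeal) hv) ha2) (hb v hv)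
  rw [← GG_congr hs ψ hd ha2]
  have key := twist (c := c) (δ1 := δ1) hI0 hl hs h2 ha1 ha (fun x => ψ x)
  rw [key, norm_mul, norm_uu_prod ha, one_mul]
  have e : GG I0 δ1 s l c ψ d a = (∑ x ∈ Q0 I0 δ1 s l c, hh I0 δ1 s l c (Quotient.out x) *
      ψ (Ideal.Quotient.mk (JJ I0 s l c) a * x)) * ψ (-(Ideal.Quotient.mk _ a * Ideal.Quotient.mk _ d)) := by
    unfold GG
    rw [Finset.sum_mul]
    refine Finset.sum_congr rfl fun x _ => ?_
    rw [mul_assoc, ← AddChar.map_add_eq_mul, mul_sub, sub_eq_add_neg]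
  rw [e, norm_mul, AddChar.norm_apply, mul_one]

private theorem sum_char (ψ : AddChar (𝓞 K ⧸ JJ I0 s l c) ℂ) [Fintype (𝓞 K ⧸ LL l)]
    (hP : ∀ w ∈ CC I0 s c, (∀ b : 𝓞 K, ψ (Ideal.Quotient.mk _ (b * w)) = 1) → w ∈ JJ I0 s l c)
    {w : 𝓞 K} (hw : w ∈ CC I0 s c) (hw2 : w ∉ JJ I0 s l c) :
    ∑ b : 𝓞 K ⧸ LL l, ψ (Ideal.Quotient.mk _ (Quotient.out b * w)) = 0 := by
  obtain ⟨b0, hb0⟩ : ∃ b0 : 𝓞 K, ψ (Ideal.Quotient.mk _ (b0 * w)) ≠ 1 := by
    by_contra hcon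
    push Not at hcon
    exact hw2 (hP w hw hcon)
  have h1 : ∑ b : 𝓞 K ⧸ LL l, ψ (Ideal.Quotient.mk _ (Quotient.out b * w)) =
      ∑ b : 𝓞 K ⧸ LL l, ψ (Ideal.Quotient.mk _ (Quotient.out (b + Ideal.Quotient.mk _ b0) * w)) :=
    (Equiv.sum_comp (Equiv.addRight (Ideal.Quotient.mk (LL l) b0))
      (fun b : 𝓞 K ⧸ LL l => ψ (Ideal.Quotient.mk _ (Quotient.out b * w)))).symm
  have h3 : ∀ b : 𝓞 K ⧸ LL l, ψ (Ideal.Quotient.mk (JJ I0 s l c)
      (Quotient.out (b + Ideal.Quotient.mk _ b0) * w)) =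
      ψ (Ideal.Quotient.mk _ (b0 * w)) * ψ (Ideal.Quotient.mk _ (Quotient.out b * w)) := by
    intro b
    rw [← AddChar.map_add_eq_mul]
    congr 1
    rw [← map_add, Ideal.Quotient.eq, ← add_mul, ← sub_mul]
    refine LC_mem ?_ hw
    rw [← Ideal.Quotient.eq, Ideal.Quotient.mk_out, map_add, Ideal.Quotient.mk_out, add_comm]
  simp_rw [h3] at h1
  rw [← Finset.mul_sum] at h1
  by_contra hne
  exact hb0 (mul_right_cancel₀ hne (by rw [one_mul]; exact h1.symm))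

private theorem parseval (hs : ∀ v ∈ s, ¬ I0 ≤ v.asIdeal) (ψ : AddChar (𝓞 K ⧸ JJ I0 s l c) ℂ)
    [Fintype (𝓞 K ⧸ LL l)]
    (hP : ∀ w ∈ CC I0 s c, (∀ b : 𝓞 K, ψ (Ideal.Quotient.mk _ (b * w)) = 1) → w ∈ JJ I0 s l c)
    {d : 𝓞 K} :
    ∑ b : 𝓞 K ⧸ LL l, ‖GG I0 δ1 s l c ψ d (Quotient.out b)‖ ^ 2 ≤
      (Nat.card (𝓞 K ⧸ LL l) : ℝ) * (Q0 I0 δ1 s l c).card := by
  classical
  have e1 : ((∑ b : 𝓞 K ⧸ LL l, ‖GG I0 δ1 s l c ψ d (Quotient.out b)‖ ^ 2 : ℝ) : ℂ) =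
      ∑ x ∈ Q0 I0 δ1 s l c, (Nat.card (𝓞 K ⧸ LL l) : ℂ) *
        (hh I0 δ1 s l c (Quotient.out x) * (starRingEnd ℂ) (hh I0 δ1 s l c (Quotient.out x))) := by
    push_cast
    have e2 : ∀ b : 𝓞 K ⧸ LL l, ((‖GG I0 δ1 s l c ψ d (Quotient.out b)‖ : ℝ) : ℂ) ^ 2 =
        ∑ x ∈ Q0 I0 δ1 s l c, ∑ y ∈ Q0 I0 δ1 s l c,
          hh I0 δ1 s l c (Quotient.out x) * (starRingEnd ℂ) (hh I0 δ1 s l c (Quotient.out y)) *
            ψ (Ideal.Quotient.mk _ (Quotient.out b) * (x - y)) := by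
      intro b
      rw [← Complex.mul_conj']
      unfold GG
      rw [map_sum, Finset.sum_mul_sum]
      refine Finset.sum_congr rfl fun x _ => Finset.sum_congr rfl fun y _ => ?_
      rw [map_mul (starRingEnd ℂ), ← AddChar.map_neg_eq_conj]
      have e3 : Ideal.Quotient.mk (JJ I0 s l c) (Quotient.out b) * (x - y) =
          Ideal.Quotient.mk _ (Quotient.out b) * (x - Ideal.Quotient.mk _ d) +
          -(Ideal.Quotient.mk _ (Quotient.out b) * (y - Ideal.Quotient.mk _ d)) := by ring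
      rw [e3, AddChar.map_add_eq_mul]
      ring
    simp_rw [e2]
    rw [Finset.sum_comm]
    refine Finset.sum_congr rfl fun x hx => ?_
    rw [Finset.sum_comm]
    rw [Finset.sum_eq_single x]
    · have e4 : ∀ b : 𝓞 K ⧸ LL l,
          hh I0 δ1 s l c (Quotient.out x) * (starRingEnd ℂ) (hh I0 δ1 s l c (Quotient.out x)) *
            ψ (Ideal.Quotient.mk (JJ I0 s l c) (Quotient.out b) * (x - x)) =
          hh I0 δ1 s l c (Quotient.out x) * (starRingEnd ℂ) (hh I0 δ1 s l c (Quotient.out x)) := by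
        intro b
        rw [sub_self, mul_zero, AddChar.map_zero_eq_one, mul_one]
      simp_rw [e4]
      rw [Finset.sum_const, Finset.card_univ, nsmul_eq_mul, Nat.card_eq_fintype_card]
    · intro y hy hyx
      rw [← Finset.mul_sum]
      obtain ⟨x, rfl⟩ := Ideal.Quotient.mk_surjective x
      obtain ⟨y, rfl⟩ := Ideal.Quotient.mk_surjective y
      have hw := sup_sub hs ((mem_Q0 x).mp hx) ((mem_Q0 y).mp hy)
      have hw2 : x - y ∉ JJ I0 s l c := by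
        intro h
        exact hyx (Ideal.Quotient.eq.mpr h).symm
      have h5 := sum_char ψ hP hw hw2
      simp_rw [← map_sub, ← map_mul]
      rw [h5, mul_zero]
    · intro h; exact absurd hx h
  have e5 : ∑ b : 𝓞 K ⧸ LL l, ‖GG I0 δ1 s l c ψ d (Quotient.out b)‖ ^ 2 =
      ‖((∑ b : 𝓞 K ⧸ LL l, ‖GG I0 δ1 s l c ψ d (Quotient.out b)‖ ^ 2 : ℝ) : ℂ)‖ := by
    rw [Complex.norm_real, Real.norm_of_nonneg (Finset.sum_nonneg fun _ _ => by positivity)]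
  rw [e5, e1, mul_comm, ← nsmul_eq_mul]
  refine Finset.sum_le_card_nsmul _ _ _ ?_ |> (norm_sum_le _ _).trans
  intro x _
  rw [norm_mul, norm_mul, Complex.norm_natCast, RCLike.norm_conj]
  have h6 := hh_norm (I0 := I0) (δ1 := δ1) (s := s) (l := l) (c := c) (Quotient.out x)
  have h7 : ‖hh I0 δ1 s l c (Quotient.out x)‖ * ‖hh I0 δ1 s l c (Quotient.out x)‖ ≤ 1 :=
    mul_le_one₀ h6 (norm_nonneg _) h6
  calc (Nat.card (𝓞 K ⧸ LL l) : ℝ) * _ ≤ (Nat.card (𝓞 K ⧸ LL l) : ℝ) * 1 :=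
        mul_le_mul_of_nonneg_left h7 (Nat.cast_nonneg _)
    _ = _ := mul_one _

end

variable {I0 : Ideal (𝓞 K)} (hI0 : I0 ≠ ⊥) (δ1 : 𝓞 K)
  {s l : Finset (HeightOneSpectrum (𝓞 K))} (hl : l ⊆ s)
  (hs : ∀ v ∈ s, ¬ I0 ≤ v.asIdeal) (h2 : ∀ v ∈ l, (2 : 𝓞 K) ∉ v.asIdeal)
  (c : HeightOneSpectrum (𝓞 K) → ℕ) (hc : ∀ v ∈ l, Even (c v))
include hI0 hl hs h2 hc

theorem gauss_bound [Fintype (𝓞 K ⧸ JJ I0 s l c)] (ψ : AddChar (𝓞 K ⧸ JJ I0 s l c) ℂ) :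
    ‖∑ x : 𝓞 K ⧸ JJ I0 s l c, hh I0 δ1 s l c (Quotient.out x) * ψ x‖ ≤
      ∏ v ∈ l, (2 * Real.sqrt (nrm v)) := by
  classical
  have hpos : 0 ≤ ∏ v ∈ l, (2 * Real.sqrt (nrm v)) := Finset.prod_nonneg fun _ _ => by positivity
  rw [sum_Q0]
  by_cases hP : ∀ w ∈ CC I0 s c, (∀ b : 𝓞 K, ψ (Ideal.Quotient.mk _ (b * w)) = 1) → w ∈ JJ I0 s l c
  · rcases Finset.eq_empty_or_nonempty (Q0 I0 δ1 s l c) with h | ⟨d, hd⟩
    · rw [h]; simpa using hpos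
    · obtain ⟨d, rfl⟩ := Ideal.Quotient.mk_surjective d
      have hd' := (mem_Q0 d).mp hd
      have hfin : Finite (𝓞 K ⧸ LL l) := Ideal.finiteQuotientOfFreeOfNeBot _ (LL_ne l)
      let _ : Fintype (𝓞 K ⧸ LL l) := Fintype.ofFinite _
      obtain ⟨A, hA⟩ : ∃ A, A = ‖∑ x ∈ Q0 I0 δ1 s l c, hh I0 δ1 s l c (Quotient.out x) * ψ x‖ :=
        ⟨_, rfl⟩
      rw [← hA]
      have hA0 : 0 ≤ A := by rw [hA]; exact norm_nonneg _
      have h3 : (∏ v ∈ l, ((nrm v : ℝ) - 1)) * A ^ 2 ≤ (∏ v ∈ l, (nrm v : ℝ)) * ∏ v ∈ l, (nrm v : ℝ) := by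
        have h4 := parseval (δ1 := δ1) (d := d) hs ψ hP
        have h5 : ((Finset.univ.filter fun b : 𝓞 K ⧸ LL l => ∀ v ∈ l, Quotient.out b ∉ v.asIdeal).card : ℝ)
            * A ^ 2 ≤ ∑ b : 𝓞 K ⧸ LL l, ‖GG I0 δ1 s l c ψ d (Quotient.out b)‖ ^ 2 := by
          rw [← nsmul_eq_mul]
          refine le_trans ?_ (Finset.sum_le_sum_of_subset_of_nonneg (Finset.filter_subset
            (fun b : 𝓞 K ⧸ LL l => ∀ v ∈ l, Quotient.out b ∉ v.asIdeal) Finset.univ)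
            (fun _ _ _ => by positivity))
          refine Finset.card_nsmul_le_sum _ _ _ fun b hb => ?_
          rw [GG_unit hI0 hl hs h2 ψ hd' (Finset.mem_filter.mp hb).2, ← hA]
        rw [card_units, LL_norm] at *
        have h6 : ((∏ v ∈ l, (nrm v - 1) : ℕ) : ℝ) = ∏ v ∈ l, ((nrm v : ℝ) - 1) := by
          push_cast
          refine Finset.prod_congr rfl fun v _ => ?_
          rw [Nat.cast_sub (by have := nrm_two v; omega)]
          simp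
        rw [h6] at h5
        have h7 : ((Q0 I0 δ1 s l c).card : ℝ) ≤ ∏ v ∈ l, (nrm v : ℝ) := by
          exact_mod_cast card_Q0 (c := c) (δ1 := δ1) hI0 hs
        refine h5.trans (h4.trans ?_)
        push_cast
        exact mul_le_mul_of_nonneg_left h7 (Finset.prod_nonneg fun _ _ => Nat.cast_nonneg _)
      have hge : ∀ v : HeightOneSpectrum (𝓞 K), (2 : ℝ) ≤ nrm v := fun v => by exact_mod_cast nrm_two v
      have h8 : (∏ v ∈ l, (nrm v : ℝ)) * ∏ v ∈ l, (nrm v : ℝ) ≤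
          (∏ v ∈ l, ((nrm v : ℝ) - 1)) * (∏ v ∈ l, (2 * Real.sqrt (nrm v))) ^ 2 := by
        rw [← Finset.prod_mul_distrib, ← Finset.prod_pow, ← Finset.prod_mul_distrib]
        refine Finset.prod_le_prod (fun v _ => by positivity) fun v _ => ?_
        rw [mul_pow, Real.sq_sqrt (Nat.cast_nonneg _)]
        nlinarith [hge v]
      have h9 : 0 < ∏ v ∈ l, ((nrm v : ℝ) - 1) := Finset.prod_pos fun v _ => by linarith [hge v]
      have h10 : A ^ 2 ≤ (∏ v ∈ l, (2 * Real.sqrt (nrm v))) ^ 2 :=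
        le_of_mul_le_mul_left (h3.trans h8) h9
      exact le_of_sq_le_sq h10 hpos
  · push Not at hP
    obtain ⟨w, hw, hψ, hw2⟩ := hP
    rw [nonprim hI0 hl hs h2 ψ hw hw2 hψ, norm_zero]
    exact hpos

end Pool.Agent.HWR
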