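import Pool.Agent.HWR.Symbol
import Pool.Agent.HWR.NormA

/-!
# HWR-P5b: sums of hh over classes

Setting: `I0 ≠ 0` an ideal, finite sets `l ⊆ s` of places with `I0` not contained in any `v ∈ s`
(so `I0` is coprime to the places in `s`), `2 ∉ v` and `c v` even for `v ∈ l`.
Notation: `𝔠 = ∏_{v ∈ s} v^(c v)`, `𝔩 = ∏_{v ∈ l} v`, `J = JJ = I0 𝔠 𝔩`, `h = hh I0 δ1 s l c`.
The function `h` is periodic mod `J`, supported on the coset `{x ∈ 𝔠, x ≡ δ1 mod I0}`, which (CRT,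
`I0` and `𝔠` coprime) is `δ' + 𝔠 I0` for some `δ' ∈ 𝔠`.

`sum_empty` (`l = ∅`, `J = I0 𝔠`): the coset is one class mod `J`, `h = 1` there; so
`∑ h = 1` and `|∑ h ψ| = 1`.

`sum_zero` (`l ≠ ∅`): pick `v0 ∈ l` and `a ∈ 𝓞 K` with `a ≡ 1` mod `I0`, `a ≡ 1` mod `v` for
`v ∈ s`, `v ≠ v0`, `uu v0 a = -1` (CRT + `exists_nonres`, `uu_congr`).  Then `a` is a unit modulo
`J`, and `h (a x) = (∏_{v ∈ l} uu v a) h x = - h x`.  So `∑ h = 0`.

-/

namespace Pool.Agent.HWR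

open NumberField IsDedekindDomain

private theorem ga_coprime {R : Type} [CommRing R] (I v : Ideal R) (hv : v.IsMaximal)
    (h : ¬ I ≤ v) : IsCoprime I v := by
  rw [Ideal.isCoprime_iff_sup_eq]
  refine hv.1.2 _ (lt_of_le_of_ne le_sup_right (fun heq => h ?_))
  rw [heq]
  exact le_sup_left

variable {K : Type} [Field K] [NumberField K] {I0 : Ideal (𝓞 K)} (hI0 : I0 ≠ ⊥) (δ1 : 𝓞 K)
  {s l : Finset (HeightOneSpectrum (𝓞 K))} (hl : l ⊆ s)
  (hs : ∀ v ∈ s, ¬ I0 ≤ v.asIdeal) (h2 : ∀ v ∈ l, (2 : 𝓞 K) ∉ v.asIdeal)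
  (c : HeightOneSpectrum (𝓞 K) → ℕ) (hc : ∀ v ∈ l, Even (c v))

private theorem ga_coprime_ne (v w : HeightOneSpectrum (𝓞 K)) (h : v ≠ w) :
    IsCoprime v.asIdeal w.asIdeal := by
  rw [Ideal.isCoprime_iff_sup_eq]
  exact v.isMaximal.coprime_of_ne w.isMaximal (fun h' => h (HeightOneSpectrum.ext h'))

private theorem ga_mem_prod (s : Finset (HeightOneSpectrum (𝓞 K)))
    (c : HeightOneSpectrum (𝓞 K) → ℕ) (x : 𝓞 K) :
    x ∈ ∏ v ∈ s, v.asIdeal ^ c v ↔ ∀ v ∈ s, x ∈ v.asIdeal ^ c v := by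
  rw [← IsDedekindDomain.inf_pow_eq_prod_of_prime s (fun v => v.asIdeal) c
    (fun v _ => v.prime) (fun v _ w _ h h' => h (HeightOneSpectrum.ext h'))]
  simp

private theorem ga_mul_mem (v : HeightOneSpectrum (𝓞 K)) {a : 𝓞 K} (ha : a ∉ v.asIdeal) (n : ℕ)
    (x : 𝓞 K) : a * x ∈ v.asIdeal ^ n ↔ x ∈ v.asIdeal ^ n := by
  constructor
  · intro h
    rcases Ideal.IsPrime.mul_mem_pow v.asIdeal h with h | h
    · exact absurd h ha
    · exact h
  · intro h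
    exact Ideal.mul_mem_left _ _ h

private theorem ga_mem_prod1 (s : Finset (HeightOneSpectrum (𝓞 K))) (x : 𝓞 K)
    (h : x ∈ ∏ v ∈ s, v.asIdeal) : ∀ v ∈ s, x ∈ v.asIdeal := by
  intro v hv
  have h1 : ∏ v ∈ s, v.asIdeal = ∏ v ∈ s, v.asIdeal ^ 1 :=
    Finset.prod_congr rfl (fun v _ => (pow_one _).symm)
  rw [h1] at h
  have h2 := (ga_mem_prod s (fun _ => 1) x).1 h v hv
  exact (pow_one v.asIdeal) ▸ h2

private theorem ga_exists (s : Finset (HeightOneSpectrum (𝓞 K))) (v0 : HeightOneSpectrum (𝓞 K))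
    (hs0 : ¬ I0 ≤ v0.asIdeal) (b : 𝓞 K) (hb : b ∉ v0.asIdeal) :
    ∃ a : 𝓞 K, a - 1 ∈ I0 ∧ b - a ∈ v0.asIdeal ∧ (∀ v ∈ s, v ≠ v0 → a - 1 ∈ v.asIdeal) ∧
      ∀ v ∈ s, a ∉ v.asIdeal := by
  classical
  have hcopm : IsCoprime (I0 * ∏ v ∈ s.erase v0, v.asIdeal) v0.asIdeal := by
    refine IsCoprime.mul_left (ga_coprime I0 v0.asIdeal v0.isMaximal hs0) ?_
    exact IsCoprime.prod_left (fun v hv => ga_coprime_ne v v0 (Finset.ne_of_mem_erase hv))
  obtain ⟨i, hi, j, hj, hij⟩ := Ideal.isCoprime_iff_exists.1 hcopm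
  have ha1 : (j + b * i) - 1 ∈ I0 * ∏ v ∈ s.erase v0, v.asIdeal := by
    have : (j + b * i) - 1 = (b - 1) * i := by
      linear_combination hij
    rw [this]
    exact Ideal.mul_mem_left _ _ hi
  have hab : b - (j + b * i) ∈ v0.asIdeal := by
    have : b - (j + b * i) = (b - 1) * j := by
      linear_combination (-b) * hij
    rw [this]
    exact Ideal.mul_mem_left _ _ hj
  generalize j + b * i = a at ha1 hab
  have haI : a - 1 ∈ I0 := (Ideal.mul_le_inf ha1).1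
  have h1 : a - 1 ∈ ∏ v ∈ s.erase v0, v.asIdeal := (Ideal.mul_le_inf ha1).2
  have hav : ∀ v ∈ s, v ≠ v0 → a - 1 ∈ v.asIdeal := by
    intro v hv hne
    exact ga_mem_prod1 _ _ h1 v (Finset.mem_erase.2 ⟨hne, hv⟩)
  refine ⟨a, haI, hab, hav, ?_⟩
  intro v hv hmem
  by_cases hne : v = v0
  · subst hne
    apply hb
    have : b = (b - a) + a := by ring
    rw [this]
    exact Ideal.add_mem _ hab hmem
  · have h1 := hav v hv hne
    apply v.isPrime.ne_top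
    rw [Ideal.eq_top_iff_one]
    have : (1 : 𝓞 K) = a - (a - 1) := by ring
    rw [this]
    exact Ideal.sub_mem _ hmem h1

private theorem ga_twist {v0 : HeightOneSpectrum (𝓞 K)} (hv0 : v0 ∈ l) (hl : l ⊆ s)
    (h2 : ∀ v ∈ l, (2 : 𝓞 K) ∉ v.asIdeal) {a : 𝓞 K} (haI : a - 1 ∈ I0)
    (hnot : ∀ v ∈ s, a ∉ v.asIdeal) (hu0 : uu v0 a = -1) (hu1 : ∀ v ∈ l, v ≠ v0 → uu v a = 1)
    (x : 𝓞 K) : hh I0 δ1 s l c (a * x) = - hh I0 δ1 s l c x := by
  classical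
  have e1 : (a * x - δ1 ∈ I0) ↔ (x - δ1 ∈ I0) := by
    have : x - δ1 = (a * x - δ1) - (a - 1) * x := by ring
    rw [this]
    exact (Submodule.sub_mem_iff_left _ (Ideal.mul_mem_right _ _ haI)).symm
  have e2 : (∏ v ∈ s, if a * x ∈ v.asIdeal ^ c v then (1 : ℂ) else 0) =
      ∏ v ∈ s, if x ∈ v.asIdeal ^ c v then (1 : ℂ) else 0 := by
    refine Finset.prod_congr rfl (fun v hv => ?_)
    simp only [ga_mul_mem v (hnot v hv)]
  have e3 : (∏ v ∈ l, if a * x ∈ v.asIdeal ^ (c v + 1) then (0 : ℂ) else uu v (a * x)) =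
      (∏ v ∈ l, uu v a) *
      ∏ v ∈ l, if x ∈ v.asIdeal ^ (c v + 1) then (0 : ℂ) else uu v x := by
    rw [← Finset.prod_mul_distrib]
    refine Finset.prod_congr rfl (fun v hv => ?_)
    simp only [ga_mul_mem v (hnot v (hl hv))]
    by_cases hx : x ∈ v.asIdeal ^ (c v + 1)
    · simp [hx]
    · simp only [hx, if_false]
      exact uu_mul v (h2 v hv) (hnot v (hl hv))
  have e4 : ∏ v ∈ l, uu v a = -1 := by
    rw [← Finset.mul_prod_erase l _ hv0, hu0,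
      Finset.prod_congr rfl (fun v hv => hu1 v (Finset.mem_of_mem_erase hv)
        (Finset.ne_of_mem_erase hv))]
    simp
  unfold hh
  simp only [e1]
  rw [e2, e3, e4]
  ring

private theorem ga_unit (hl : l ⊆ s) {a : 𝓞 K} (haI : a - 1 ∈ I0)
    (hnot : ∀ v ∈ s, a ∉ v.asIdeal) : IsUnit (Ideal.Quotient.mk (JJ I0 s l c) a) := by
  have hcopJ : IsCoprime (Ideal.span {a}) (JJ I0 s l c) := by
    unfold JJ
    have hcv : ∀ v ∈ s, IsCoprime (Ideal.span {a}) v.asIdeal := fun v hv =>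
      ga_coprime _ v.asIdeal v.isMaximal (by
        rw [Ideal.span_singleton_le_iff_mem]
        exact hnot v hv)
    refine IsCoprime.mul_right (IsCoprime.mul_right ?_ ?_) ?_
    · rw [Ideal.isCoprime_iff_exists]
      exact ⟨a, Ideal.mem_span_singleton_self a, 1 - a, by
        have : (1 : 𝓞 K) - a = -(a - 1) := by ring
        rw [this]
        exact (Submodule.neg_mem_iff _).2 haI, by ring⟩
    · exact IsCoprime.prod_right (fun v hv => (hcv v hv).pow_right)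
    · exact IsCoprime.prod_right (fun v hv => hcv v (hl hv))
  obtain ⟨i', hi', j', hj', hij'⟩ := Ideal.isCoprime_iff_exists.1 hcopJ
  obtain ⟨b', rfl⟩ := Ideal.mem_span_singleton'.1 hi'
  refine IsUnit.of_mul_eq_one (Ideal.Quotient.mk _ b') ?_
  rw [← map_mul, ← map_one (Ideal.Quotient.mk _), Ideal.Quotient.eq]
  have : a * b' - 1 = -j' := by
    linear_combination hij'
  rw [this]
  exact (Submodule.neg_mem_iff _).2 hj'

private theorem ga_perm {R : Type} [CommRing R] (J : Ideal R) [Fintype (R ⧸ J)] (f : R → ℂ)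
    (hf : ∀ x y, x - y ∈ J → f x = f y) (a : R) (hu : IsUnit (Ideal.Quotient.mk J a))
    (htw : ∀ x, f (a * x) = - f x) : ∑ x : R ⧸ J, f (Quotient.out x) = 0 := by
  obtain ⟨u, hu⟩ := hu
  have hperm : ∑ x : R ⧸ J, f (Quotient.out ((u : R ⧸ J) * x))
      = ∑ x : R ⧸ J, f (Quotient.out x) :=
    Equiv.sum_comp (Units.mulLeft u) (fun x => f (Quotient.out x))
  have e : ∀ y : R ⧸ J, Ideal.Quotient.mk J (Quotient.out y) = y :=
    fun y => Quotient.out_eq' y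
  have hval : ∀ x : R ⧸ J, f (Quotient.out ((u : R ⧸ J) * x)) = - f (Quotient.out x) := by
    intro x
    rw [← htw]
    refine hf _ _ ?_
    rw [← Ideal.Quotient.eq, map_mul, e, e, hu]
  have hfin : ∑ x : R ⧸ J, f (Quotient.out x) = - ∑ x : R ⧸ J, f (Quotient.out x) := by
    rw [← Finset.sum_neg_distrib]
    refine hperm.symm.trans ?_
    exact Finset.sum_congr rfl (fun x _ => hval x)
  have h2S := add_eq_zero_iff_eq_neg.2 hfin
  rw [← two_mul] at h2S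
  exact (mul_eq_zero.1 h2S).resolve_left two_ne_zero

include hI0 hl hs h2 hc

theorem JJ_ne_bot : JJ I0 s l c ≠ ⊥ := by
  unfold JJ
  refine mul_ne_zero (mul_ne_zero hI0 ?_) ?_
  · exact Finset.prod_ne_zero_iff.2 (fun v _ => pow_ne_zero _ v.ne_bot)
  · exact Finset.prod_ne_zero_iff.2 (fun v _ => v.ne_bot)

theorem absNorm_JJ : Ideal.absNorm (JJ I0 s l c) =
    Ideal.absNorm I0 * (∏ v ∈ s, nrm v ^ c v) * ∏ v ∈ l, nrm v := by
  unfold JJ nrm
  simp only [map_mul, map_prod, map_pow]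

theorem sum_empty [Fintype (𝓞 K ⧸ JJ I0 s l c)] (he : l = ∅) :
    ∑ x : 𝓞 K ⧸ JJ I0 s l c, hh I0 δ1 s l c (Quotient.out x) = 1 := by
  classical
  have hcop : IsCoprime I0 (∏ v ∈ s, v.asIdeal ^ c v) :=
    IsCoprime.prod_right (fun v hv => (ga_coprime I0 v.asIdeal v.isMaximal (hs v hv)).pow_right)
  obtain ⟨i, hi, j, hj, hij⟩ := Ideal.isCoprime_iff_exists.1 hcop
  have hJ : JJ I0 s l c = I0 * ∏ v ∈ s, v.asIdeal ^ c v := by
    unfold JJ
    rw [he, Finset.prod_empty, mul_one]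
  have hJ' : ∀ x, x ∈ JJ I0 s l c ↔ x ∈ I0 ∧ x ∈ ∏ v ∈ s, v.asIdeal ^ c v := by
    intro x
    rw [hJ, Ideal.mul_eq_inf_of_isCoprime hcop]
    exact Iff.rfl
  have hval : ∀ x : 𝓞 K, hh I0 δ1 s l c x =
      if x - j * δ1 ∈ JJ I0 s l c then 1 else 0 := by
    intro x
    have hprodl : (∏ v ∈ l, (if x ∈ v.asIdeal ^ (c v + 1) then (0 : ℂ) else uu v x)) = 1 := by
      rw [he]
      exact Finset.prod_empty
    unfold hh
    rw [hprodl, mul_one]
    have hprod : (∏ v ∈ s, if x ∈ v.asIdeal ^ c v then (1 : ℂ) else 0) =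
        if x ∈ ∏ v ∈ s, v.asIdeal ^ c v then 1 else 0 := by
      rw [Finset.prod_ite_zero]
      simp [ga_mem_prod]
    rw [hprod]
    have h1 : x - δ1 ∈ I0 ↔ x - j * δ1 ∈ I0 := by
      have : x - δ1 = (x - j * δ1) - i * δ1 := by
        linear_combination δ1 * hij
      rw [this]
      exact (Submodule.sub_mem_iff_left _ (Ideal.mul_mem_right _ _ hi))
    have h2 : x ∈ ∏ v ∈ s, v.asIdeal ^ c v ↔ x - j * δ1 ∈ ∏ v ∈ s, v.asIdeal ^ c v := by
      exact (Submodule.sub_mem_iff_left _ (Ideal.mul_mem_right _ _ hj)).symm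
    rw [hJ']
    simp only [h1, h2]
    by_cases hA : x - j * δ1 ∈ I0 <;> by_cases hB : x - j * δ1 ∈ ∏ v ∈ s, v.asIdeal ^ c v <;>
      simp [hA, hB]
  rw [Finset.sum_congr rfl (fun x _ => hval _)]
  have hiff : ∀ x : 𝓞 K ⧸ JJ I0 s l c, (Quotient.out x - j * δ1 ∈ JJ I0 s l c) ↔
      x = Ideal.Quotient.mk _ (j * δ1) := by
    intro x
    rw [← Ideal.Quotient.eq]
    have : Ideal.Quotient.mk (JJ I0 s l c) (Quotient.out x) = x := Quotient.out_eq' x
    rw [this]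
  simp only [hiff]
  rw [Finset.sum_ite_eq' Finset.univ]
  simp

theorem sum_zero [Fintype (𝓞 K ⧸ JJ I0 s l c)] (he : l ≠ ∅) :
    ∑ x : 𝓞 K ⧸ JJ I0 s l c, hh I0 δ1 s l c (Quotient.out x) = 0 := by
  obtain ⟨v0, hv0⟩ := Finset.nonempty_iff_ne_empty.2 he
  obtain ⟨b, hb, hub⟩ := exists_nonres v0 (h2 v0 hv0)
  obtain ⟨a, haI, hab, hav, hnot⟩ := ga_exists s v0 (hs v0 (hl hv0)) b hb
  have hu0 : uu v0 a = -1 := by
    rw [← hub]
    symm
    exact uu_congr v0 (c := 0) (by simpa using hb) (by simpa using hab)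
  have hu1 : ∀ v ∈ l, v ≠ v0 → uu v a = 1 := fun v hv hne =>
    uu_of_one_sub_mem v (hav v (hl hv) hne)
  exact ga_perm (JJ I0 s l c) (hh I0 δ1 s l c) (fun x y h => hh_congr I0 δ1 s l hl c x y h) a
    (ga_unit c hl haI hnot) (ga_twist δ1 c hv0 hl h2 haI hnot hu0 hu1)

end Pool.Agent.HWR
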