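import Mathlib

/-!
# HWR-HB, definitions for Manin's elementary proof of Hasse's bound

`k` a finite field of odd characteristic with `q` elements, `A B : k`, `4A^3+27B^2 ≠ 0`,
`lam = t^3 + A t + B ∈ k[t]`.  We work with rational functions of `t`.  A point of the twisted curve
`lam y^2 = x^3 + A x + B` over `k(t)` is a pair `(x, y)` or the zero point.  To use Mathlib's group
law we use the isomorphic curve `Y^2 = X^3 + A lam^2 X + B lam^3`, `X = lam x`, `Y = lam^2 y`.
-/

namespace Pool.Agent.HWR.Hasse

open Polynomial

variable {k : Type} [Field k]

/-- `t^3 + A t + B` -/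
noncomputable def lam (A B : k) : k[X] := X ^ 3 + C A * X + C B

/-- the curve `Y^2 = X^3 + A lam^2 X + B lam^3` over `k(t)` -/
noncomputable def curve (A B : k) : WeierstrassCurve.Affine (RatFunc k) :=
  { a₁ := 0, a₂ := 0, a₃ := 0
    a₄ := RatFunc.C A * algebraMap k[X] (RatFunc k) (lam A B) ^ 2
    a₆ := RatFunc.C B * algebraMap k[X] (RatFunc k) (lam A B) ^ 3 }

/-- the `x`-coordinate on the twisted curve of a point (`0` for the zero point) -/
noncomputable def xc (A B : k) : (curve A B).Point → RatFunc k
  | .zero => 0
  | .some X _ _ => X / algebraMap k[X] (RatFunc k) (lam A B)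

open Classical in
/-- Manin's degree: `0` for the zero point, else the degree of the numerator of `x`. -/
noncomputable def dg (A B : k) (P : (curve A B).Point) : ℤ :=
  if P = 0 then 0 else ((xc A B P).num.natDegree : ℤ)

/-- a point is `big` if it is zero or its `x`-coordinate has numerator of larger degree than
the denominator -/
def Big (A B : k) (P : (curve A B).Point) : Prop :=
  P = 0 ∨ (xc A B P).denom.natDegree < (xc A B P).num.natDegree

end Pool.Agent.HWR.Hasse
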