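import Pool.Agent.HWR.HassePtsA

/-!
# HWR-HB1b: addition formulas

PLAN. `xc_add`: `P = (X, Y)`, `x = X / lam`, `y = Y / lam^2`, `lam y^2 = x^3 + A x + B`; if `x ≠ t` the
slope of `P, Q` is `(Y - lam^2)/(X - lam t) = lam (y-1)/(x-t)`, so
`x(P+Q) = lam ((y-1)/(x-t))^2 - x - t`, and `x(P-Q) = lam ((y+1)/(x-t))^2 - x - t`
(`Point.add_some`, `addX`, `slope_of_X_ne`; `-Q = (t, -1)`).
Sum: `(2 lam (y^2+1) - 2 (x+t)(x-t)^2)/(x-t)^2`, `lam y^2 = x^3+Ax+B`, `lam = t^3+At+B`: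
numerator `2((x+t)(A + x t) + 2 B)`.  Product: field_simp/ring with the same relations:
`((x t - A)^2 - 4 B (x + t)) / (x - t)^2`.
`xc_two`: `x(2Q) = ((t^2 - A)^2 - 8 B t) / (4 lam)` (slope of the tangent at `Q`: in the variables
`x, y`: `(3 t^2 + A)/(2 lam)`; `x(2Q) = lam slope^2 - 2 t`).
`eq_of_xc`: `P ≠ 0` with `x(P) = t` is `Q` or `-Q`.
-/

namespace Pool.Agent.HWR.Hasse

open Polynomial

section Aux

variable {k : Type} [Field k]

private theorem lam_ne' (A B : k) : lam A B ≠ 0 := by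
  intro h
  have h1 : (lam A B).natDegree = 3 := by
    unfold lam
    compute_degree!
  rw [h] at h1
  simp at h1

private theorem L_ne (A B : k) : algebraMap k[X] (RatFunc k) (lam A B) ≠ 0 := by
  rw [Ne, map_eq_zero_iff _ (RatFunc.algebraMap_injective k)]
  exact lam_ne' A B

private theorem L_eq (A B : k) : algebraMap k[X] (RatFunc k) (lam A B) =
    RatFunc.X ^ 3 + RatFunc.C A * RatFunc.X + RatFunc.C B := by
  unfold lam
  simp only [map_add, map_mul, map_pow, RatFunc.algebraMap_X, RatFunc.algebraMap_C]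

private theorem xc_some {A B : k} {x y : RatFunc k} (h : (curve A B).Nonsingular x y) :
    xc A B (.some x y h) = x / algebraMap k[X] (RatFunc k) (lam A B) := rfl

private theorem eqn {A B : k} {x y : RatFunc k} (h : (curve A B).Nonsingular x y) :
    y ^ 2 = x ^ 3 + RatFunc.C A * algebraMap k[X] (RatFunc k) (lam A B) ^ 2 * x +
      RatFunc.C B * algebraMap k[X] (RatFunc k) (lam A B) ^ 3 := by
  have h1 := ((curve A B).equation_iff x y).1 h.1
  simp only [curve] at h1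
  linear_combination h1

private theorem negY_eq {A B : k} (x y : RatFunc k) : (curve A B).negY x y = -y := by
  simp [WeierstrassCurve.Affine.negY, curve]

private theorem addX_eq {A B : k} (x y l : RatFunc k) : (curve A B).addX x y l = l ^ 2 - x - y := by
  simp [WeierstrassCurve.Affine.addX, curve]

open Classical in
/-- addition of points with different abscissas -/
private theorem add_ne {A B : k} {x₁ y₁ x₂ y₂ : RatFunc k} (h₁ : (curve A B).Nonsingular x₁ y₁)
    (h₂ : (curve A B).Nonsingular x₂ y₂) (hx : x₁ ≠ x₂) :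
    (WeierstrassCurve.Affine.Point.some x₁ y₁ h₁ : (curve A B).Point) +
      WeierstrassCurve.Affine.Point.some x₂ y₂ h₂ ≠ 0 ∧
    xc A B (WeierstrassCurve.Affine.Point.some x₁ y₁ h₁ + WeierstrassCurve.Affine.Point.some x₂ y₂ h₂) =
      (((y₁ - y₂) / (x₁ - x₂)) ^ 2 - x₁ - x₂) / algebraMap k[X] (RatFunc k) (lam A B) := by
  rw [WeierstrassCurve.Affine.Point.add_of_X_ne hx]
  refine ⟨WeierstrassCurve.Affine.Point.some_ne_zero _, ?_⟩
  rw [xc_some, addX_eq, WeierstrassCurve.Affine.slope_of_X_ne hx]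

end Aux


variable {k : Type} [Field k] [Fintype k] (h2 : (2 : k) ≠ 0) (A B : k)
  (hD : 4 * A ^ 3 + 27 * B ^ 2 ≠ 0)

private theorem two_ne (h2 : (2 : k) ≠ 0) : (2 : RatFunc k) ≠ 0 := by
  have h : RatFunc.C (2 : k) ≠ 0 := by
    rw [Ne, map_eq_zero_iff _ (RatFunc.C_injective)]
    exact h2
  rwa [map_ofNat] at h

/-- `Q` as an explicit point -/
private theorem Q_def : Qpt h2 A B hD = .some (algebraMap k[X] (RatFunc k) (lam A B) * RatFunc.X)
    (algebraMap k[X] (RatFunc k) (lam A B) ^ 2) (exists_Q h2 A B hD).1 := rfl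

private theorem negQ_def : ∃ h : (curve A B).Nonsingular
    (algebraMap k[X] (RatFunc k) (lam A B) * RatFunc.X)
    (-(algebraMap k[X] (RatFunc k) (lam A B) ^ 2)), -Qpt h2 A B hD = .some _ _ h := by
  have h0 := (WeierstrassCurve.Affine.nonsingular_neg (W' := curve A B)
    (algebraMap k[X] (RatFunc k) (lam A B) * RatFunc.X)
    (algebraMap k[X] (RatFunc k) (lam A B) ^ 2)).mpr (exists_Q h2 A B hD).1
  have h1 : (curve A B).Nonsingular (algebraMap k[X] (RatFunc k) (lam A B) * RatFunc.X)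
    (-(algebraMap k[X] (RatFunc k) (lam A B) ^ 2)) := by
    rw [← negY_eq (A := A) (B := B) (algebraMap k[X] (RatFunc k) (lam A B) * RatFunc.X)]
    exact h0
  refine ⟨h1, ?_⟩
  rw [Q_def, WeierstrassCurve.Affine.Point.neg_some]
  congr 1
  exact negY_eq _ _

open Classical in
theorem xc_add (P : (curve A B).Point) (hP : P ≠ 0) (hx : xc A B P ≠ RatFunc.X) :
    P + Qpt h2 A B hD ≠ 0 ∧ P - Qpt h2 A B hD ≠ 0 ∧
    xc A B (P + Qpt h2 A B hD) + xc A B (P - Qpt h2 A B hD) =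
      2 * ((xc A B P + RatFunc.X) * (RatFunc.C A + xc A B P * RatFunc.X) + 2 * RatFunc.C B) /
        (xc A B P - RatFunc.X) ^ 2 ∧
    xc A B (P + Qpt h2 A B hD) * xc A B (P - Qpt h2 A B hD) =
      ((xc A B P * RatFunc.X - RatFunc.C A) ^ 2 - 4 * RatFunc.C B * (xc A B P + RatFunc.X)) /
        (xc A B P - RatFunc.X) ^ 2 := by
  obtain - | ⟨x1, y1, h1⟩ := P
  · exact absurd rfl hP
  obtain ⟨hn, hnQ⟩ := negQ_def h2 A B hD
  rw [sub_eq_add_neg, hnQ, Q_def]
  rw [xc_some] at hx ⊢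
  have hL0 := L_ne A B
  have hL := L_eq A B
  have hE0 := eqn h1
  set L := algebraMap k[X] (RatFunc k) (lam A B) with hLd
  set T : RatFunc k := RatFunc.X with hT
  set a := RatFunc.C A with ha
  set b := RatFunc.C B with hb
  have hne : x1 ≠ L * T := by
    intro h
    apply hx
    rw [h, mul_div_cancel_left₀ _ hL0]
  obtain ⟨p1, p2⟩ := add_ne h1 (exists_Q h2 A B hD).1 hne
  obtain ⟨m1, m2⟩ := add_ne h1 hn hne
  refine ⟨p1, m1, ?_⟩
  rw [p2, m2]
  -- change of variables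
  obtain ⟨x, hxx⟩ : ∃ x, x1 = L * x := ⟨x1 / L, by field_simp⟩
  obtain ⟨y, hyy⟩ : ∃ y, y1 = L ^ 2 * y := ⟨y1 / L ^ 2, by field_simp⟩
  subst hxx hyy
  have hxL : L * x / L = x := mul_div_cancel_left₀ _ hL0
  rw [hxL] at hx ⊢
  have hu : x - T ≠ 0 := sub_ne_zero.2 hx
  have hE : L * y ^ 2 = x ^ 3 + a * x + b := by
    have h3 : L ^ 3 * (L * y ^ 2) = L ^ 3 * (x ^ 3 + a * x + b) := by linear_combination hE0
    exact mul_left_cancel₀ (pow_ne_zero 3 hL0) h3
  have e1 : (((L ^ 2 * y - L ^ 2) / (L * x - L * T)) ^ 2 - L * x - L * T) / L =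
      (L * (y - 1) ^ 2 - (x + T) * (x - T) ^ 2) / (x - T) ^ 2 := by
    have h3 : L * x - L * T = L * (x - T) := by ring
    rw [h3]
    field_simp
    ring
  have e2 : (((L ^ 2 * y - -L ^ 2) / (L * x - L * T)) ^ 2 - L * x - L * T) / L =
      (L * (y + 1) ^ 2 - (x + T) * (x - T) ^ 2) / (x - T) ^ 2 := by
    have h3 : L * x - L * T = L * (x - T) := by ring
    rw [h3]
    field_simp
    ring
  rw [e1, e2]
  constructor
  · rw [← add_div]
    congr 1
    have h3 : L * (y - 1) ^ 2 - (x + T) * (x - T) ^ 2 + (L * (y + 1) ^ 2 - (x + T) * (x - T) ^ 2) =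
        2 * (L * y ^ 2) + 2 * L - 2 * (x + T) * (x - T) ^ 2 := by ring
    rw [h3, hE]
    linear_combination 2 * hL
  · rw [div_mul_div_comm, div_eq_div_iff (mul_ne_zero (pow_ne_zero 2 hu) (pow_ne_zero 2 hu))
      (pow_ne_zero 2 hu)]
    have h3 : (L * (y - 1) ^ 2 - (x + T) * (x - T) ^ 2) * (L * (y + 1) ^ 2 - (x + T) * (x - T) ^ 2) =
        (L * y ^ 2 - L) ^ 2 - (x + T) * (x - T) ^ 2 * (2 * (L * y ^ 2) + 2 * L) +
          (x + T) ^ 2 * (x - T) ^ 4 := by ring
    have h4 : (x ^ 3 + a * x + b - L) ^ 2 - (x + T) * (x - T) ^ 2 *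
        (2 * (x ^ 3 + a * x + b) + 2 * L) + (x + T) ^ 2 * (x - T) ^ 4 =
        (x - T) ^ 2 * ((x * T - a) ^ 2 - 4 * b * (x + T)) := by
      rw [hL]; ring
    rw [h3, hE, h4]
    ring

open Classical in
theorem xc_two : Qpt h2 A B hD + Qpt h2 A B hD ≠ 0 ∧
    xc A B (Qpt h2 A B hD + Qpt h2 A B hD) =
      ((RatFunc.X ^ 2 - RatFunc.C A) ^ 2 - 8 * RatFunc.C B * RatFunc.X) /
        (4 * algebraMap k[X] (RatFunc k) (lam A B)) := by
  have h20 := two_ne h2
  have h40 : (4 : RatFunc k) ≠ 0 := by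
    have : (4 : RatFunc k) = 2 * 2 := by norm_num
    rw [this]
    exact mul_ne_zero h20 h20
  rw [Q_def]
  have hL0 := L_ne A B
  have hL := L_eq A B
  have hy : algebraMap k[X] (RatFunc k) (lam A B) ^ 2 ≠
      (curve A B).negY (algebraMap k[X] (RatFunc k) (lam A B) * RatFunc.X)
        (algebraMap k[X] (RatFunc k) (lam A B) ^ 2) := by
    rw [negY_eq]
    intro h
    have h3 : 2 * algebraMap k[X] (RatFunc k) (lam A B) ^ 2 = 0 := by linear_combination h
    exact mul_ne_zero h20 (pow_ne_zero 2 hL0) h3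
  rw [WeierstrassCurve.Affine.Point.add_self_of_Y_ne hy]
  refine ⟨WeierstrassCurve.Affine.Point.some_ne_zero _, ?_⟩
  rw [xc_some, addX_eq, WeierstrassCurve.Affine.slope_of_Y_ne rfl hy, negY_eq]
  have c1 : (curve A B).a₁ = 0 := rfl
  have c2 : (curve A B).a₂ = 0 := rfl
  have c4 : (curve A B).a₄ = RatFunc.C A * algebraMap k[X] (RatFunc k) (lam A B) ^ 2 := rfl
  rw [c1, c2, c4]
  set L := algebraMap k[X] (RatFunc k) (lam A B) with hLd
  set T : RatFunc k := RatFunc.X with hT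
  set a := RatFunc.C A with ha
  set b := RatFunc.C B with hb
  have e1 : (3 * (L * T) ^ 2 + 2 * 0 * (L * T) + a * L ^ 2 - 0 * L ^ 2) / (L ^ 2 - -L ^ 2) =
      (3 * T ^ 2 + a) / 2 := by
    rw [div_eq_div_iff _ h20]
    · ring
    · have : L ^ 2 - -L ^ 2 = 2 * L ^ 2 := by ring
      rw [this]
      exact mul_ne_zero h20 (pow_ne_zero 2 hL0)
  rw [e1, div_eq_div_iff hL0 (mul_ne_zero h40 hL0)]
  have e2 : ((3 * T ^ 2 + a) / 2) ^ 2 * 4 = (3 * T ^ 2 + a) ^ 2 := by
    field_simp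
    norm_num
  have e3 : (((3 * T ^ 2 + a) / 2) ^ 2 - L * T - L * T) * (4 * L) =
      (((3 * T ^ 2 + a) / 2) ^ 2 * 4 - 8 * L * T) * L := by ring
  rw [e3, e2]
  congr 1
  rw [hL]
  ring

open Classical in
theorem eq_of_xc (P : (curve A B).Point) (hP : P ≠ 0) (hx : xc A B P = RatFunc.X) :
    P = Qpt h2 A B hD ∨ P = -Qpt h2 A B hD := by
  obtain - | ⟨x1, y1, h1⟩ := P
  · exact absurd rfl hP
  have hL0 := L_ne A B
  rw [xc_some, div_eq_iff hL0] at hx
  rw [Q_def]
  apply WeierstrassCurve.Affine.Point.X_eq_iff.1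
  rw [hx, mul_comm]

open Classical in
theorem xc_neg (P : (curve A B).Point) : xc A B (-P) = xc A B P := by
  obtain - | ⟨x1, y1, h1⟩ := P
  · rfl
  · rfl

open Classical in
/-- the `x`-coordinate of `P0 - Q` -/
theorem xc_P0_sub_Q : (P0pt h2 A B hD - Qpt h2 A B hD ≠ 0 ∧
    xc A B (P0pt h2 A B hD - Qpt h2 A B hD) =
      (algebraMap k[X] (RatFunc k) (lam A B) *
        (algebraMap k[X] (RatFunc k) (lam A B) ^ ((Fintype.card k - 1) / 2) + 1) ^ 2 -
        (RatFunc.X ^ Fintype.card k + RatFunc.X) * (RatFunc.X ^ Fintype.card k - RatFunc.X) ^ 2) /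
        (RatFunc.X ^ Fintype.card k - RatFunc.X) ^ 2) := by
  obtain ⟨hn, hnQ⟩ := negQ_def h2 A B hD
  have hL0 := L_ne A B
  have hXne : (RatFunc.X : RatFunc k) ^ Fintype.card k - RatFunc.X ≠ 0 := by
    have h3 := FiniteField.X_pow_card_sub_X_ne_zero k (Fintype.one_lt_card (α := k))
    have h4 : algebraMap k[X] (RatFunc k) (X ^ Fintype.card k - X) ≠ 0 := by
      rw [Ne, map_eq_zero_iff _ (RatFunc.algebraMap_injective k)]
      exact h3
    simpa only [map_sub, map_pow, RatFunc.algebraMap_X] using h4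
  have hne : algebraMap k[X] (RatFunc k) (lam A B) * RatFunc.X ^ Fintype.card k ≠
      algebraMap k[X] (RatFunc k) (lam A B) * RatFunc.X := by
    intro h
    apply hXne
    rw [sub_eq_zero]
    exact mul_left_cancel₀ hL0 h
  rw [sub_eq_add_neg, hnQ]
  obtain ⟨m1, m2⟩ := add_ne (exists_P0 h2 A B hD).1 hn hne
  refine ⟨m1, m2.trans ?_⟩
  set L := algebraMap k[X] (RatFunc k) (lam A B) with hLd
  set T : RatFunc k := RatFunc.X with hT
  set S : RatFunc k := T ^ Fintype.card k with hS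
  set M : RatFunc k := L ^ ((Fintype.card k - 1) / 2) with hM
  have h3 : L * S - L * T = L * (S - T) := by ring
  rw [h3]
  field_simp
  ring

end Pool.Agent.HWR.Hasse
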