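import Pool.Agent.HWR.HasseDef

/-!
# HWR-HB1a: the points `Q = (t, 1)`, `P0 = (t^q, lam^((q-1)/2))`

Discriminant of `curve A B` is `-16 (4 A^3 + 27 B^2) lam^6 ≠ 0`, so every solution of the
equation is nonsingular.
`Q`: `X = lam t`, `Y = lam^2`: `lam^4 = lam^3 t^3 + A lam^3 t + B lam^3`.
`P0`: `X = lam t^q`, `Y = lam^2 lam^((q-1)/2)`: `Y^2 = lam^4 lam^(q-1) = lam^3 lam^q` and
`lam^q = t^(3q) + A t^q + B` (Frobenius).
-/

namespace Pool.Agent.HWR.Hasse

open Polynomial

variable {k : Type} [Field k] [Fintype k] (h2 : (2 : k) ≠ 0) (A B : k)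
  (hD : 4 * A ^ 3 + 27 * B ^ 2 ≠ 0)

/-- the variable as a rational function -/
noncomputable abbrev tt : RatFunc k := RatFunc.X

omit [Fintype k] in
theorem lam_ne_zero : lam A B ≠ 0 := by
  intro h
  have h1 := congrArg (fun p => Polynomial.coeff p 3) h
  simp [lam] at h1

omit [Fintype k] in
theorem alg_lam_ne_zero : algebraMap k[X] (RatFunc k) (lam A B) ≠ 0 := by
  intro h
  exact lam_ne_zero A B ((injective_iff_map_eq_zero _).1 (RatFunc.algebraMap_injective k) _ h)

omit [Fintype k] in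
theorem alg_lam : algebraMap k[X] (RatFunc k) (lam A B) =
    RatFunc.X ^ 3 + RatFunc.C A * RatFunc.X + RatFunc.C B := by
  simp [lam, RatFunc.algebraMap_X, RatFunc.algebraMap_C]

omit [Fintype k] in
theorem curve_disc : (curve A B).Δ =
    -16 * RatFunc.C (4 * A ^ 3 + 27 * B ^ 2) * algebraMap k[X] (RatFunc k) (lam A B) ^ 6 := by
  have h : RatFunc.C (4 * A ^ 3 + 27 * B ^ 2) =
      4 * RatFunc.C A ^ 3 + 27 * RatFunc.C B ^ 2 := by
    rw [map_add, map_mul, map_mul, map_pow, map_pow, map_ofNat, map_ofNat]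
  rw [h]
  simp only [WeierstrassCurve.Δ, WeierstrassCurve.b₂, WeierstrassCurve.b₄, WeierstrassCurve.b₆,
    WeierstrassCurve.b₈, curve]
  ring

include h2 in
omit [Fintype k] in
theorem two_ne_zero' : (2 : RatFunc k) ≠ 0 := by
  have h : (2 : RatFunc k) = RatFunc.C (2 : k) := (map_ofNat _ 2).symm
  rw [h]
  intro h0
  exact h2 ((injective_iff_map_eq_zero _).1 (RatFunc.C_injective) _ h0)

include h2 hD in
omit [Fintype k] in
theorem curve_disc_ne : (curve A B).Δ ≠ 0 := by
  rw [curve_disc]
  have h : (-16 : RatFunc k) = -(2 ^ 4) := by norm_num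
  have hC : RatFunc.C (4 * A ^ 3 + 27 * B ^ 2) ≠ 0 := by
    intro h0
    exact hD ((injective_iff_map_eq_zero _).1 (RatFunc.C_injective) _ h0)
  rw [h]
  exact mul_ne_zero (mul_ne_zero (neg_ne_zero.2 (pow_ne_zero _ (two_ne_zero' h2))) hC)
    (pow_ne_zero _ (alg_lam_ne_zero A B))

include h2 hD in
omit [Fintype k] in
theorem exists_Q' : (curve A B).Nonsingular
    (algebraMap k[X] (RatFunc k) (lam A B) * RatFunc.X)
    (algebraMap k[X] (RatFunc k) (lam A B) ^ 2) := by
  rw [← WeierstrassCurve.Affine.equation_iff_nonsingular_of_Δ_ne_zero (curve_disc_ne h2 A B hD),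
    WeierstrassCurve.Affine.equation_iff]
  simp only [curve]
  set l := algebraMap k[X] (RatFunc k) (lam A B) with hl
  have h := alg_lam A B
  rw [← hl] at h
  linear_combination l ^ 3 * h

include h2 hD in
theorem exists_Q : ∃ h : (curve A B).Nonsingular
    (algebraMap k[X] (RatFunc k) (lam A B) * RatFunc.X)
    (algebraMap k[X] (RatFunc k) (lam A B) ^ 2), True :=
  ⟨exists_Q' h2 A B hD, trivial⟩

/-- `Q = (t, 1)` -/
noncomputable def Qpt : (curve A B).Point :=
  .some (algebraMap k[X] (RatFunc k) (lam A B) * RatFunc.X)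
    (algebraMap k[X] (RatFunc k) (lam A B) ^ 2) (exists_Q h2 A B hD).1

theorem lam_pow_card : lam A B ^ Fintype.card k =
    X ^ (3 * Fintype.card k) + C A * X ^ Fintype.card k + C B := by
  rw [← FiniteField.expand_card]
  simp only [lam, map_add, map_mul, map_pow, expand_X, expand_C, ← pow_mul]
  rw [mul_comm (Fintype.card k) 3]

theorem alg_lam_pow_card : algebraMap k[X] (RatFunc k) (lam A B) ^ Fintype.card k =
    (RatFunc.X ^ Fintype.card k) ^ 3 + RatFunc.C A * RatFunc.X ^ Fintype.card k +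
      RatFunc.C B := by
  rw [← map_pow, lam_pow_card]
  simp only [map_add, map_mul, map_pow, RatFunc.algebraMap_X, RatFunc.algebraMap_C, ← pow_mul]
  rw [mul_comm (Fintype.card k) 3]

include h2 in
theorem two_mul_half : 2 * ((Fintype.card k - 1) / 2) + 1 = Fintype.card k := by
  have hodd : Fintype.card k % 2 = 1 := by
    have hch : ringChar k ≠ 2 := by
      intro h
      have : CharP k 2 := by rw [← h]; exact ringChar.charP k
      exact h2 (CharP.cast_eq_zero k 2)
    exact FiniteField.odd_card_of_char_ne_two hch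
  have hpos : 0 < Fintype.card k := Fintype.card_pos
  omega

include h2 hD in
theorem exists_P0' : (curve A B).Nonsingular
    (algebraMap k[X] (RatFunc k) (lam A B) * RatFunc.X ^ Fintype.card k)
    (algebraMap k[X] (RatFunc k) (lam A B) ^ 2 *
      algebraMap k[X] (RatFunc k) (lam A B) ^ ((Fintype.card k - 1) / 2)) := by
  rw [← WeierstrassCurve.Affine.equation_iff_nonsingular_of_Δ_ne_zero (curve_disc_ne h2 A B hD),
    WeierstrassCurve.Affine.equation_iff]
  simp only [curve]
  have h := alg_lam_pow_card A B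
  have hh := two_mul_half h2
  set l := algebraMap k[X] (RatFunc k) (lam A B) with hl
  have h3 : l * (l ^ ((Fintype.card k - 1) / 2)) ^ 2 = l ^ Fintype.card k := by
    conv_rhs => rw [← hh]
    rw [← pow_mul, pow_succ, mul_comm 2]
    ring
  rw [h] at h3
  linear_combination l ^ 3 * h3

include h2 hD in
theorem exists_P0 : ∃ h : (curve A B).Nonsingular
    (algebraMap k[X] (RatFunc k) (lam A B) * RatFunc.X ^ Fintype.card k)
    (algebraMap k[X] (RatFunc k) (lam A B) ^ 2 *
      algebraMap k[X] (RatFunc k) (lam A B) ^ ((Fintype.card k - 1) / 2)), True :=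
  ⟨exists_P0' h2 A B hD, trivial⟩

/-- `P0 = (t^q, lam^((q-1)/2))` -/
noncomputable def P0pt : (curve A B).Point :=
  .some (algebraMap k[X] (RatFunc k) (lam A B) * RatFunc.X ^ Fintype.card k)
    (algebraMap k[X] (RatFunc k) (lam A B) ^ 2 *
      algebraMap k[X] (RatFunc k) (lam A B) ^ ((Fintype.card k - 1) / 2))
    (exists_P0 h2 A B hD).1

end Pool.Agent.HWR.Hasse
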