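import Pool.Agent.HWR.HassePts

/-!
# HWR-HB3: Manin's basic identity

`dg(P+Q) + dg(P-Q) = 2 dg P + 2` for `Big` points `P`; `P + Q` and `P - Q` are `Big`.
PLAN. Cases `P = 0` (`±Q`: `x = t`, degree 1, `1+1 = 0+2`), `P = ±Q` (`0` and `±2Q`,
`x(2Q) = ((t^2-A)^2 - 8Bt)/(4 lam)` in lowest terms by
`(3t^2+4A)((t^2-A)^2 - 8Bt) - (3t^3-5At-27B) lam = 4A^3+27B^2`; degree of the numerator is 4,
`4 + 0 = 2*1 + 2`; `Big`: 4 > 3).
General case: `x(P) = f/g` in lowest terms (`num`, `denom`), `d = deg f > deg g`, `x(P) ≠ t`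
(`eq_of_xc`).  Put `a1 = (f - g t)^2`, `b1 = 2((f + g t)(A g + f t) + 2 B g^2)`,
`c1 = (f t - A g)^2 - 4 B g (f + g t)` (polynomials).  `xc_add`: `x+ + x- = b1/a1`,
`x+ x- = c1/a1`.
(1) `gcd(a1, b1, c1) = 1`: a prime `π` dividing all of them divides `f - g t`, so `π ∤ g`, and
modulo `π`: `c1 ≡ g^2 ((t^2-A)^2 - 8Bt)`, `b1 ≡ 4 g^2 lam`; char ≠ 2, so `π` divides `lam` and
`(t^2-A)^2 - 8Bt`, contradicting the identity above.
(2) Write `x(P+Q) = f1 / g1`, `x(P-Q) = f2 / g2` in lowest terms; by Gauss's lemma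
`(g1 X - f1)(g2 X - f2) = g1 g2 X^2 - (f1 g2 + f2 g1) X + f1 f2` is primitive, and it is
proportional to `a1 X^2 - b1 X + c1`, which is primitive by (1); so they agree up to a unit of
`k[t]` (elementary: `a1 f1 f2 = c1 g1 g2`, `a1 (f1 g2 + f2 g1) = b1 g1 g2` and both triples have
gcd 1, hence `a1` and `g1 g2` are associated, then so are `c1` and `f1 f2`).
(3) Degrees: `deg c1 = 2d + 2` (leading term `(f t)^2`; `deg (A g) < d`, `deg(g(f+gt)) ≤ 2d`),
so `deg f1 + deg f2 = 2 d + 2`.
(4) `Big`: `deg a1 ≤ 2d`, `deg b1 ≤ 2d+1`.  Let `x1 = x(P+Q)`, `x2 = x(P-Q)`, degree = num minus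
denom.  If `deg x1 ≤ 0` and `deg x2 ≤ 0` then `deg c1 ≤ deg a1`, contradiction; if
`deg x1 ≤ 0 < deg x2` then `deg(x1 + x2) = deg x2`, so `deg c1 - deg b1 = deg x1 ≤ 0`,
contradiction; symmetric.  (`x1, x2 ≠ 0` since `c1 ≠ 0`.)
`dg_pos`: a nonzero `Big` point has `dg ≥ 1`.
-/

namespace Pool.Agent.HWR.Hasse

open Polynomial

section Alg

variable {k : Type} [Field k]

/-- Bezout for three polynomials without common prime factor -/
private theorem bez3 (a b c : k[X]) (ha : a ≠ 0)
    (h : ∀ p : k[X], Irreducible p → p ∣ a → p ∣ b → p ∣ c → False) :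
    ∃ u v w : k[X], u * a + v * b + w * c = 1 := by
  classical
  set d := EuclideanDomain.gcd (EuclideanDomain.gcd a b) c with hd
  have h1 : d ∣ EuclideanDomain.gcd a b := EuclideanDomain.gcd_dvd_left _ _
  have h2 : d ∣ c := EuclideanDomain.gcd_dvd_right _ _
  have h3 : d ∣ a := h1.trans (EuclideanDomain.gcd_dvd_left _ _)
  have h4 : d ∣ b := h1.trans (EuclideanDomain.gcd_dvd_right _ _)
  have hd0 : d ≠ 0 := by
    intro h0
    rw [h0] at h3
    exact ha (zero_dvd_iff.1 h3)
  have hu : IsUnit d := by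
    by_contra hu
    obtain ⟨p, hp, hpd⟩ := WfDvdMonoid.exists_irreducible_factor hu hd0
    exact h p hp (hpd.trans h3) (hpd.trans h4) (hpd.trans h2)
  obtain ⟨e, he⟩ := hu.exists_left_inv
  have e1 := EuclideanDomain.gcd_eq_gcd_ab (EuclideanDomain.gcd a b) c
  have e2 := EuclideanDomain.gcd_eq_gcd_ab a b
  rw [← hd] at e1
  refine ⟨e * (EuclideanDomain.gcdA (EuclideanDomain.gcd a b) c * EuclideanDomain.gcdA a b),
    e * (EuclideanDomain.gcdA (EuclideanDomain.gcd a b) c * EuclideanDomain.gcdB a b),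
    e * EuclideanDomain.gcdB (EuclideanDomain.gcd a b) c, ?_⟩
  rw [← he, e1]
  nth_rewrite 4 [e2]
  ring

private theorem dvd_of_bez {a b c a' b' c' : k[X]} {u v w : k[X]} (h : u * a + v * b + w * c = 1)
    (h1 : a * b' = b * a') (h2 : a * c' = c * a') : a ∣ a' := by
  refine ⟨u * a' + v * b' + w * c', ?_⟩
  calc a' = (u * a + v * b + w * c) * a' := by rw [h, one_mul]
    _ = u * a * a' + v * (b * a') + w * (c * a') := by ring
    _ = _ := by rw [← h1, ← h2]; ring

/-- numerator and denominator of a reduced fraction -/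
private theorem deg_of_reduced {x : RatFunc k} {a b : k[X]} (hb : b ≠ 0) (hab : IsCoprime a b)
    (hx : x = algebraMap k[X] (RatFunc k) a / algebraMap k[X] (RatFunc k) b) :
    x.num.natDegree = a.natDegree ∧ x.denom.natDegree = b.natDegree := by
  have hinj : Function.Injective (algebraMap k[X] (RatFunc k)) := RatFunc.algebraMap_injective k
  have hb' : algebraMap k[X] (RatFunc k) b ≠ 0 := by
    rwa [Ne, map_eq_zero_iff _ hinj]
  have hd' : algebraMap k[X] (RatFunc k) x.denom ≠ 0 := by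
    rw [Ne, map_eq_zero_iff _ hinj]; exact RatFunc.denom_ne_zero x
  have e : x.num * b = a * x.denom := by
    apply hinj
    rw [map_mul, map_mul, ← div_eq_div_iff hd' hb', RatFunc.num_div_denom, hx]
  have hc := RatFunc.isCoprime_num_denom x
  have d1 : x.denom ∣ b := by
    have : x.denom ∣ x.num * b := by rw [e]; exact dvd_mul_left _ _
    exact hc.symm.dvd_of_dvd_mul_left this
  have d2 : b ∣ x.denom := by
    have : b ∣ a * x.denom := by rw [← e]; exact dvd_mul_left _ _
    exact hab.symm.dvd_of_dvd_mul_left this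
  have n1 : x.num ∣ a := by
    have : x.num ∣ a * x.denom := by rw [← e]; exact dvd_mul_right _ _
    exact hc.dvd_of_dvd_mul_right this
  have n2 : a ∣ x.num := by
    have : a ∣ x.num * b := by rw [e]; exact dvd_mul_right _ _
    exact hab.dvd_of_dvd_mul_right this
  exact ⟨natDegree_eq_of_degree_eq (degree_eq_degree_of_associated (associated_of_dvd_dvd n1 n2)),
    natDegree_eq_of_degree_eq (degree_eq_degree_of_associated (associated_of_dvd_dvd d1 d2))⟩

end Alg

section Alg2

variable {k : Type} [Field k]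

/-- the numerator of `x(2Q)` -/
private noncomputable def nn2 (A B : k) : k[X] := (X ^ 2 - C A) ^ 2 - 8 * C B * X

private theorem key_id (A B : k) : (3 * X ^ 2 + 4 * C A) * nn2 A B -
    (3 * X ^ 3 - 5 * C A * X - 27 * C B) * lam A B = C (4 * A ^ 3 + 27 * B ^ 2) := by
  unfold nn2 lam
  simp only [map_add, map_mul, map_pow, map_ofNat]
  ring

private noncomputable def pa (f g : k[X]) : k[X] := (f - g * X) ^ 2
private noncomputable def pb (A B : k) (f g : k[X]) : k[X] :=
  2 * ((f + g * X) * (C A * g + f * X) + 2 * C B * g ^ 2)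
private noncomputable def pc (A B : k) (f g : k[X]) : k[X] :=
  (f * X - C A * g) ^ 2 - 4 * C B * g * (f + g * X)

private theorem not_dvd_unit {p : k[X]} (hp : Irreducible p) {c : k} (hc : c ≠ 0)
    (h : p ∣ C c) : False :=
  hp.not_isUnit (isUnit_of_dvd_unit h (isUnit_C.2 (isUnit_iff_ne_zero.2 hc)))

private theorem pabc_coprime (h2 : (2 : k) ≠ 0) (A B : k) (hD : 4 * A ^ 3 + 27 * B ^ 2 ≠ 0)
    {f g : k[X]} (hfg : IsCoprime f g) (p : k[X]) (hp : Irreducible p) (ha : p ∣ pa f g)
    (hb : p ∣ pb A B f g) (hc : p ∣ pc A B f g) : False := by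
  have hP : Prime p := hp.prime
  have hu : p ∣ f - g * X := hP.dvd_of_dvd_pow ha
  have hg : ¬ p ∣ g := by
    intro hg
    have hf : p ∣ f := by
      have h1 := dvd_add hu (Dvd.dvd.mul_right hg X)
      rwa [sub_add_cancel] at h1
    exact hp.not_isUnit (hfg.isUnit_of_dvd' hf hg)
  have h1 : p ∣ g ^ 2 * nn2 A B := by
    have e : g ^ 2 * nn2 A B = pc A B f g - (f - g * X) *
        ((f - g * X) * X ^ 2 + 2 * X * g * (X ^ 2 - C A) - 4 * C B * g) := by
      unfold pc nn2; ring
    rw [e]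
    exact dvd_sub hc (Dvd.dvd.mul_right hu _)
  have h3 : p ∣ C (4 : k) * (g ^ 2 * lam A B) := by
    have e : C (4 : k) * (g ^ 2 * lam A B) = pb A B f g - (f - g * X) *
        (2 * (C A * g + (f - g * X) * X + g * X ^ 2 + 2 * g * X ^ 2)) := by
      unfold pb lam
      rw [map_ofNat]
      ring
    rw [e]
    exact dvd_sub hb (Dvd.dvd.mul_right hu _)
  have h4 : (4 : k) ≠ 0 := by
    have : (4 : k) = 2 * 2 := by norm_num
    rw [this]
    exact mul_ne_zero h2 h2
  have h5 : p ∣ nn2 A B := (hP.dvd_or_dvd h1).resolve_left fun h => hg (hP.dvd_of_dvd_pow h)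
  have h6 : p ∣ lam A B := by
    have h7 := (hP.dvd_or_dvd h3).resolve_left fun h => not_dvd_unit hp h4 h
    exact (hP.dvd_or_dvd h7).resolve_left fun h => hg (hP.dvd_of_dvd_pow h)
  refine not_dvd_unit hp hD ?_
  rw [← key_id A B]
  exact dvd_sub (Dvd.dvd.mul_left h5 _) (Dvd.dvd.mul_left h6 _)

private theorem natDegree_C_mul_le' (c : k) (g : k[X]) : (C c * g).natDegree ≤ g.natDegree := by
  refine natDegree_mul_le.trans ?_
  rw [natDegree_C, zero_add]

private theorem pc_degree (A B : k) {f g : k[X]} (hd : g.natDegree < f.natDegree) :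
    (pc A B f g).natDegree = 2 * f.natDegree + 2 ∧ (pa f g).natDegree ≤ 2 * f.natDegree ∧
      (pb A B f g).natDegree ≤ 2 * f.natDegree + 1 := by
  have hf0 : f ≠ 0 := by
    rintro rfl
    simp at hd
  have hgX : (g * X).natDegree ≤ f.natDegree := by
    refine natDegree_mul_le.trans ?_
    rw [natDegree_X]; omega
  have hfX : (f * X).natDegree = f.natDegree + 1 := natDegree_mul_X hf0
  have hAg : (C A * g).natDegree ≤ g.natDegree := natDegree_C_mul_le' A g
  refine ⟨?_, ?_, ?_⟩
  · have h1 : (f * X - C A * g).natDegree = f.natDegree + 1 := by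
      rw [natDegree_sub_eq_left_of_natDegree_lt, hfX]
      rw [hfX]; omega
    have h3 : ((f * X - C A * g) ^ 2).natDegree = 2 * f.natDegree + 2 := by
      rw [natDegree_pow, h1]; ring
    have h4 : (4 * C B * g * (f + g * X)).natDegree ≤ g.natDegree + f.natDegree := by
      refine natDegree_mul_le.trans (add_le_add ?_ ?_)
      · have e : 4 * C B * g = C (4 * B) * g := by rw [map_mul, map_ofNat]
        rw [e]
        exact natDegree_C_mul_le' _ g
      · exact (natDegree_add_le _ _).trans (max_le le_rfl hgX)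
    unfold pc
    rw [natDegree_sub_eq_left_of_natDegree_lt, h3]
    rw [h3]; omega
  · unfold pa
    refine natDegree_pow_le.trans ?_
    have : (f - g * X).natDegree ≤ f.natDegree := (natDegree_sub_le _ _).trans (max_le le_rfl hgX)
    omega
  · unfold pb
    have e : (2 : k[X]) = C 2 := by rw [map_ofNat]
    refine natDegree_mul_le.trans ?_
    have h0 : (2 : k[X]).natDegree = 0 := by rw [e, natDegree_C]
    rw [h0, zero_add]
    refine (natDegree_add_le _ _).trans (max_le ?_ ?_)
    · refine natDegree_mul_le.trans ?_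
      have h1 : (f + g * X).natDegree ≤ f.natDegree := (natDegree_add_le _ _).trans (max_le le_rfl hgX)
      have h3 : (C A * g + f * X).natDegree ≤ f.natDegree + 1 :=
        (natDegree_add_le _ _).trans (max_le (by omega) hfX.le)
      omega
    · have e2 : 2 * C B * g ^ 2 = C (2 * B) * g ^ 2 := by rw [map_mul, map_ofNat]
      rw [e2]
      refine (natDegree_C_mul_le' _ _).trans (natDegree_pow_le.trans ?_)
      omega

private theorem natDegree_unit_mul {e p : k[X]} (he : IsUnit e) : (e * p).natDegree = p.natDegree := by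
  have : Associated (e * p) p := associated_unit_mul_left p e he
  exact natDegree_eq_of_degree_eq (degree_eq_degree_of_associated this)

private theorem poly_split {f1 g1 f2 g2 a b c : k[X]} (h1 : IsCoprime f1 g1) (h2 : IsCoprime f2 g2)
    (hg1 : g1 ≠ 0) (hg2 : g2 ≠ 0) (ha : a ≠ 0) (hc : c ≠ 0)
    (hbez : ∃ u v w : k[X], u * a + v * b + w * c = 1)
    (e1 : a * (f1 * g2 + f2 * g1) = b * (g1 * g2)) (e2 : a * (f1 * f2) = c * (g1 * g2))
    (hca : a.natDegree < c.natDegree) (hcb : b.natDegree < c.natDegree) :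
    f1.natDegree + f2.natDegree = c.natDegree ∧ g1.natDegree < f1.natDegree ∧
      g2.natDegree < f2.natDegree := by
  obtain ⟨u, v, w, huvw⟩ := hbez
  have hg12 : g1 * g2 ≠ 0 := mul_ne_zero hg1 hg2
  have hbez' : ∃ u v w : k[X], u * (g1 * g2) + v * (f1 * g2 + f2 * g1) + w * (f1 * f2) = 1 := by
    refine bez3 _ _ _ hg12 ?_
    intro p hp k1 k2 k3
    have hP : Prime p := hp.prime
    rcases hP.dvd_or_dvd k1 with hh | hh
    · have hf1 : ¬ p ∣ f1 := fun hf => hp.not_isUnit (h1.isUnit_of_dvd' hf hh)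
      have hf2 : p ∣ f2 := (hP.dvd_or_dvd k3).resolve_left hf1
      have k4 : p ∣ f1 * g2 := by
        have := dvd_sub k2 (Dvd.dvd.mul_left hh f2)
        rwa [add_sub_cancel_right] at this
      have k5 : p ∣ g2 := (hP.dvd_or_dvd k4).resolve_left hf1
      exact hp.not_isUnit (h2.isUnit_of_dvd' hf2 k5)
    · have hf2 : ¬ p ∣ f2 := fun hf => hp.not_isUnit (h2.isUnit_of_dvd' hf hh)
      have hf1 : p ∣ f1 := (hP.dvd_or_dvd k3).resolve_right hf2
      have k4 : p ∣ f2 * g1 := by
        have := dvd_sub k2 (Dvd.dvd.mul_left hh f1)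
        rwa [add_sub_cancel_left] at this
      have k5 : p ∣ g1 := (hP.dvd_or_dvd k4).resolve_left hf2
      exact hp.not_isUnit (h1.isUnit_of_dvd' hf1 k5)
  obtain ⟨u', v', w', huvw'⟩ := hbez'
  have d1 : a ∣ g1 * g2 := dvd_of_bez huvw e1 e2
  have d2 : g1 * g2 ∣ a := dvd_of_bez huvw' (by rw [mul_comm, ← e1]; ring) (by rw [mul_comm, ← e2]; ring)
  obtain ⟨e, he⟩ := associated_of_dvd_dvd d2 d1
  have hue : IsUnit (e : k[X]) := e.isUnit
  have ec : c = (e : k[X]) * (f1 * f2) := by
    apply mul_right_cancel₀ hg12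
    rw [← e2, ← he]; ring
  have eb : b = (e : k[X]) * (f1 * g2 + f2 * g1) := by
    apply mul_right_cancel₀ hg12
    rw [← e1, ← he]; ring
  have ea : a = (e : k[X]) * (g1 * g2) := by rw [← he]; ring
  have hff : f1 * f2 ≠ 0 := by
    rintro h0
    rw [h0, mul_zero] at ec
    exact hc ec
  have hf1 : f1 ≠ 0 := left_ne_zero_of_mul hff
  have hf2 : f2 ≠ 0 := right_ne_zero_of_mul hff
  have nc : c.natDegree = f1.natDegree + f2.natDegree := by
    rw [ec, natDegree_unit_mul hue, natDegree_mul hf1 hf2]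
  have na : a.natDegree = g1.natDegree + g2.natDegree := by
    rw [ea, natDegree_unit_mul hue, natDegree_mul hg1 hg2]
  have nb : b.natDegree = (f1 * g2 + f2 * g1).natDegree := by
    rw [eb, natDegree_unit_mul hue]
  have n12 : (f1 * g2).natDegree = f1.natDegree + g2.natDegree := natDegree_mul hf1 hg2
  have n21 : (f2 * g1).natDegree = f2.natDegree + g1.natDegree := natDegree_mul hf2 hg1
  refine ⟨nc.symm, ?_, ?_⟩
  · by_contra hcon
    push Not at hcon
    have hlt : (f1 * g2).natDegree < (f2 * g1).natDegree := by rw [n12, n21]; omega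
    rw [natDegree_add_eq_right_of_natDegree_lt hlt, n21] at nb
    omega
  · by_contra hcon
    push Not at hcon
    have hlt : (f2 * g1).natDegree < (f1 * g2).natDegree := by rw [n12, n21]; omega
    rw [natDegree_add_eq_left_of_natDegree_lt hlt, n12] at nb
    omega

end Alg2

variable {k : Type} [Field k] [Fintype k] (h2 : (2 : k) ≠ 0) (A B : k)
  (hD : 4 * A ^ 3 + 27 * B ^ 2 ≠ 0)

theorem dg_pos {P : (curve A B).Point} (hP : Big A B P) (h0 : P ≠ 0) : 1 ≤ dg A B P := by
  rcases hP with hP | hP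
  · exact absurd hP h0
  · unfold dg
    rw [if_neg h0]
    have : 1 ≤ (xc A B P).num.natDegree := by omega
    exact_mod_cast this

theorem dg_nonneg (P : (curve A B).Point) : 0 ≤ dg A B P := by
  unfold dg
  split_ifs
  · exact le_rfl
  · positivity

theorem dg_zero : dg A B (0 : (curve A B).Point) = 0 := by
  unfold dg
  rw [if_pos rfl]

private theorem lam_degree (A B : k) : (lam A B).natDegree = 3 := by
  unfold lam
  compute_degree!

private theorem lam_ne (A B : k) : lam A B ≠ 0 := by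
  intro h
  have := lam_degree A B
  rw [h] at this
  simp at this

private theorem nn2_degree (A B : k) : (nn2 A B).natDegree = 4 := by
  have h1 : ((X : k[X]) ^ 2 - C A).natDegree = 2 := by compute_degree!
  have h3 : (((X : k[X]) ^ 2 - C A) ^ 2).natDegree = 4 := by rw [natDegree_pow, h1]
  unfold nn2
  rw [natDegree_sub_eq_left_of_natDegree_lt, h3]
  rw [h3]
  have e : 8 * C B * X = C (8 * B) * (X : k[X]) := by rw [map_mul, map_ofNat]
  rw [e]
  refine lt_of_le_of_lt (natDegree_C_mul_le' _ _) ?_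
  rw [natDegree_X]
  norm_num

private theorem xc_Q : xc A B (Qpt h2 A B hD) = RatFunc.X := by
  have hinj : Function.Injective (algebraMap k[X] (RatFunc k)) := RatFunc.algebraMap_injective k
  have h0 : algebraMap k[X] (RatFunc k) (lam A B) ≠ 0 := by
    rw [Ne, map_eq_zero_iff _ hinj]; exact lam_ne A B
  change (algebraMap k[X] (RatFunc k) (lam A B) * RatFunc.X) / algebraMap k[X] (RatFunc k) (lam A B) = _
  rw [mul_div_cancel_left₀ _ h0]

private theorem Q_ne : Qpt h2 A B hD ≠ 0 := by
  intro h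
  cases h

private theorem X_deg : (RatFunc.X : RatFunc k).num.natDegree = 1 ∧
    (RatFunc.X : RatFunc k).denom.natDegree = 0 := by
  rw [RatFunc.num_X, RatFunc.denom_X]
  simp

private theorem big_dg_of_X {P : (curve A B).Point} (h0 : P ≠ 0) (hx : xc A B P = RatFunc.X) :
    Big A B P ∧ dg A B P = 1 := by
  constructor
  · right
    rw [hx, X_deg.1, X_deg.2]
    norm_num
  · unfold dg
    rw [if_neg h0, hx, X_deg.1]
    rfl

open Classical in
private theorem big_dg_two : Big A B (Qpt h2 A B hD + Qpt h2 A B hD) ∧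
    dg A B (Qpt h2 A B hD + Qpt h2 A B hD) = 4 := by
  obtain ⟨h0, hx⟩ := xc_two h2 A B hD
  have h4 : (4 : k) ≠ 0 := by
    have : (4 : k) = 2 * 2 := by norm_num
    rw [this]
    exact mul_ne_zero h2 h2
  have hcop : IsCoprime (nn2 A B) (C 4 * lam A B) := by
    have hu : IsUnit (C (4 * A ^ 3 + 27 * B ^ 2)) := isUnit_C.2 (isUnit_iff_ne_zero.2 hD)
    obtain ⟨e, he⟩ := hu.exists_left_inv
    have hc1 : IsCoprime (nn2 A B) (lam A B) := by
      refine ⟨e * (3 * X ^ 2 + 4 * C A), -(e * (3 * X ^ 3 - 5 * C A * X - 27 * C B)), ?_⟩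
      rw [← he, ← key_id A B]
      ring
    have hu4 : IsUnit (C (4 : k)) := isUnit_C.2 (isUnit_iff_ne_zero.2 h4)
    exact (isCoprime_mul_unit_left_right hu4 _ _).2 hc1
  have hne : C (4 : k) * lam A B ≠ 0 := mul_ne_zero (by rwa [Ne, C_eq_zero]) (lam_ne A B)
  have hx' : xc A B (Qpt h2 A B hD + Qpt h2 A B hD) =
      algebraMap k[X] (RatFunc k) (nn2 A B) / algebraMap k[X] (RatFunc k) (C 4 * lam A B) := by
    rw [hx]
    unfold nn2
    simp only [map_sub, map_mul, map_pow, map_ofNat, RatFunc.algebraMap_X, RatFunc.algebraMap_C]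
  obtain ⟨n1, n2⟩ := deg_of_reduced hne hcop hx'
  rw [nn2_degree] at n1
  have n3 : (C (4 : k) * lam A B).natDegree = 3 := by
    rw [natDegree_C_mul h4, lam_degree]
  rw [n3] at n2
  constructor
  · right; rw [n1, n2]; norm_num
  · unfold dg
    rw [if_neg h0, n1]
    rfl

open Classical in
private theorem big_neg {P : (curve A B).Point} (h : Big A B P) : Big A B (-P) := by
  rcases h with h | h
  · left; rw [h, neg_zero]
  · right; rw [xc_neg]; exact h

open Classical in
private theorem dg_neg (P : (curve A B).Point) : dg A B (-P) = dg A B P := by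
  unfold dg
  rw [xc_neg]
  simp only [neg_eq_zero]

open Classical in
theorem manin_step {P : (curve A B).Point} (hP : Big A B P) :
    Big A B (P + Qpt h2 A B hD) ∧ Big A B (P - Qpt h2 A B hD) ∧
    dg A B (P + Qpt h2 A B hD) + dg A B (P - Qpt h2 A B hD) = 2 * dg A B P + 2 := by
  have hQ := big_dg_of_X A B (Q_ne h2 A B hD) (xc_Q h2 A B hD)
  have hQ2 := big_dg_two h2 A B hD
  by_cases h0 : P = 0
  · subst h0
    rw [zero_add, zero_sub]
    refine ⟨hQ.1, big_neg A B hQ.1, ?_⟩
    rw [dg_neg, hQ.2, dg_zero]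
    norm_num
  by_cases hx : xc A B P = RatFunc.X
  · rcases eq_of_xc h2 A B hD P h0 hx with h | h
    · subst h
      rw [sub_self]
      refine ⟨hQ2.1, Or.inl rfl, ?_⟩
      rw [hQ2.2, hQ.2, dg_zero]
      norm_num
    · subst h
      rw [neg_add_cancel, ← neg_add']
      refine ⟨Or.inl rfl, big_neg A B hQ2.1, ?_⟩
      rw [dg_neg, dg_neg, hQ2.2, hQ.2, dg_zero]
      norm_num
  obtain ⟨hp0, hm0, hsum, hprod⟩ := xc_add h2 A B hD P h0 hx
  have hdeg : (xc A B P).denom.natDegree < (xc A B P).num.natDegree := hP.resolve_left h0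
  have hinj : Function.Injective (algebraMap k[X] (RatFunc k)) := RatFunc.algebraMap_injective k
  have mapne : ∀ {p : k[X]}, p ≠ 0 → algebraMap k[X] (RatFunc k) p ≠ 0 := by
    intro p hp
    rwa [Ne, map_eq_zero_iff _ hinj]
  set f := (xc A B P).num with hf
  set g := (xc A B P).denom with hg
  have hg0 : g ≠ 0 := RatFunc.denom_ne_zero _
  have hxP : xc A B P = algebraMap k[X] (RatFunc k) f / algebraMap k[X] (RatFunc k) g :=
    (RatFunc.num_div_denom _).symm
  have hfg : IsCoprime f g := RatFunc.isCoprime_num_denom _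
  have hu0 : f - g * X ≠ 0 := by
    intro h
    apply hx
    rw [sub_eq_zero] at h
    rw [hxP, h, map_mul, RatFunc.algebraMap_X, mul_div_cancel_left₀ _ (mapne hg0)]
  have hpa0 : pa f g ≠ 0 := pow_ne_zero 2 hu0
  obtain ⟨dc, da, db⟩ := pc_degree A B hdeg
  have hpc0 : pc A B f g ≠ 0 := by
    intro h
    rw [h] at dc
    simp at dc
  set f1 := (xc A B (P + Qpt h2 A B hD)).num with hf1
  set g1 := (xc A B (P + Qpt h2 A B hD)).denom with hg1
  set f2 := (xc A B (P - Qpt h2 A B hD)).num with hf2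
  set g2 := (xc A B (P - Qpt h2 A B hD)).denom with hg2
  have hg10 : g1 ≠ 0 := RatFunc.denom_ne_zero _
  have hg20 : g2 ≠ 0 := RatFunc.denom_ne_zero _
  have hx1 : xc A B (P + Qpt h2 A B hD) =
      algebraMap k[X] (RatFunc k) f1 / algebraMap k[X] (RatFunc k) g1 :=
    (RatFunc.num_div_denom _).symm
  have hx2 : xc A B (P - Qpt h2 A B hD) =
      algebraMap k[X] (RatFunc k) f2 / algebraMap k[X] (RatFunc k) g2 :=
    (RatFunc.num_div_denom _).symm
  have G0 := mapne hg0
  have G1 := mapne hg10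
  have G2 := mapne hg20
  have U0 := mapne hu0
  rw [map_sub, map_mul, RatFunc.algebraMap_X] at U0
  have e1 : pa f g * (f1 * g2 + f2 * g1) = pb A B f g * (g1 * g2) := by
    apply hinj
    rw [hx1, hx2, hxP] at hsum
    have h3 : algebraMap k[X] (RatFunc k) f / algebraMap k[X] (RatFunc k) g - RatFunc.X =
        (algebraMap k[X] (RatFunc k) f - algebraMap k[X] (RatFunc k) g * RatFunc.X) /
          algebraMap k[X] (RatFunc k) g := by field_simp
    rw [h3] at hsum
    unfold pa pb
    simp only [map_sub, map_mul, map_pow, map_add, map_ofNat, RatFunc.algebraMap_X,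
      RatFunc.algebraMap_C]
    field_simp at hsum
    linear_combination hsum
  have e2 : pa f g * (f1 * f2) = pc A B f g * (g1 * g2) := by
    apply hinj
    rw [hx1, hx2, hxP] at hprod
    have h3 : algebraMap k[X] (RatFunc k) f / algebraMap k[X] (RatFunc k) g - RatFunc.X =
        (algebraMap k[X] (RatFunc k) f - algebraMap k[X] (RatFunc k) g * RatFunc.X) /
          algebraMap k[X] (RatFunc k) g := by field_simp
    rw [h3] at hprod
    unfold pa pc
    simp only [map_sub, map_mul, map_pow, map_add, map_ofNat, RatFunc.algebraMap_X,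
      RatFunc.algebraMap_C]
    field_simp at hprod
    linear_combination hprod
  obtain ⟨s1, s2, s3⟩ := poly_split (RatFunc.isCoprime_num_denom _) (RatFunc.isCoprime_num_denom _)
    hg10 hg20 hpa0 hpc0 (bez3 _ _ _ hpa0 (pabc_coprime h2 A B hD hfg)) e1 e2 (by omega) (by omega)
  refine ⟨Or.inr s2, Or.inr s3, ?_⟩
  unfold dg
  rw [if_neg hp0, if_neg hm0, if_neg h0, ← hf1, ← hf2, ← hf]
  have : f1.natDegree + f2.natDegree = 2 * f.natDegree + 2 := by rw [s1, dc]
  exact_mod_cast this

end Pool.Agent.HWR.Hasse
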