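import Pool.Agent.HWR.SplitT
import Pool.Agent.HWR.LTExtA
import Pool.Agent.HWR.DatExists
import Pool.Agent.HWR.Symbol

/-!
# HWR-D7b: the Euler product over `K' = K(√δ)` in terms of the symbol

`LT_quad` PLAN. By `type_split`/`type_inert`/`type_ram` and `quad_types` the inner product of
`LT_ext` at `v` is `FF a (nrm v) (uu v δ) s` (`uu = 0` iff `ord v δ` odd, for `δ ≠ 0`: `uu_sq`,
`uu_cases`), at `v = D.q` it is `Fm a (nrm q) s` since `uu q δ = -1` (order `0` and no `x` with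
`δ - x^2 ∈ q`, `Dat.nonres'`).  `δ` is not a square in `K`: a square root would be integral,
contradicting `Dat.nonres'`; `2 ∉ v` for `v` away from `T` (`Dat.two_not_mem`).  Then split off the
factor `v = D.q` from the infinite product over the places away from `T` (multipliable:
`FF_eq`, `efac_sub_one`, `bet_le`, `gamm_le`, `summable_nrm`, `nrm_ge`).
`LT_self`: same for `K` itself.
-/

namespace Pool.Agent.HWR

open NumberField IsDedekindDomain

theorem Dat.not_square {K : Type} [Field K] [NumberField K] {T : Finset ℕ} (D : Dat K T)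
    {δ : 𝓞 K} (hδ : δ - D.δ1 ∈ D.I0) (x : K) : x ^ 2 ≠ (δ : K) := by
  intro h
  have hx : IsIntegral ℤ x := by
    refine IsIntegral.of_pow (n := 2) (by norm_num) ?_
    rw [h]
    exact RingOfIntegers.isIntegral_coe δ
  obtain ⟨y, hy⟩ : ∃ y : 𝓞 K, algebraMap (𝓞 K) K y = x := ⟨⟨x, hx⟩, rfl⟩
  have h1 : δ - y ^ 2 = 0 := by
    rw [← RingOfIntegers.coe_eq_zero_iff (K := K), map_sub, map_pow, hy, h]
    exact sub_self _
  exact D.nonres' hδ y (by rw [h1]; exact Ideal.zero_mem _)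

private theorem split_q {K : Type} [Field K] [NumberField K] {T : Finset ℕ} (D : Dat K T)
    (G : HeightOneSpectrum (𝓞 K) → ℂ)
    (hG : Summable fun v : {v : HeightOneSpectrum (𝓞 K) // Away K T v} => ‖G v.1 - 1‖) :
    ∏' v : {v : HeightOneSpectrum (𝓞 K) // Away K T v}, G v.1 = G D.q * ∏' v : D.P, G v.1 := by
  set f : {v : HeightOneSpectrum (𝓞 K) // Away K T v} → ℂ := fun v => G v.1 with hf
  set q0 : {v : HeightOneSpectrum (𝓞 K) // Away K T v} := ⟨D.q, D.hq⟩ with hq0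
  have h1 : Multipliable (f ∘ ((↑) : ({q0} : Set _) → _)) :=
    multipliable_of_hasFiniteMulSupport (Set.toFinite _)
  have h2 : Multipliable (f ∘ ((↑) : ((({q0} : Set _)ᶜ : Set _)) → _)) := by
    have h3 : Summable fun v : ((({q0} : Set {v : HeightOneSpectrum (𝓞 K) // Away K T v})ᶜ : Set _)) =>
        ‖G v.1.1 - 1‖ := hG.comp_injective Subtype.val_injective
    have h4 := multipliable_one_add_of_summable h3
    refine h4.congr fun v => ?_
    simp [f]
  have h5 := Multipliable.tprod_mul_tprod_compl h1 h2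
  change ∏' v, f v = _
  rw [← h5, tprod_singleton]
  congr 1
  let e : D.P ≃ ((({q0} : Set {v : HeightOneSpectrum (𝓞 K) // Away K T v})ᶜ : Set _)) :=
    { toFun := fun v => ⟨⟨v.1, v.2.1⟩, fun h => v.2.2 (congrArg Subtype.val h)⟩
      invFun := fun v => ⟨v.1.1, v.1.2, fun h => v.2 (Subtype.ext h)⟩
      left_inv := fun v => rfl
      right_inv := fun v => rfl }
  rw [← e.tprod_eq]
  rfl

private theorem y_le {q : ℕ} (hq : 101 ≤ q) {x : ℝ} (hx : x ≤ 0) : (q : ℝ) ^ x ≤ 1 :=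
  Real.rpow_le_one_of_one_le_of_nonpos (by exact_mod_cast (by omega : 1 ≤ q)) hx

private theorem FF_sub_one {a : ℕ → ℝ} (ha : ∀ q : ℕ, |a q| ≤ 2 * Real.sqrt q) {q : ℕ} (hq : 101 ≤ q)
    {s : ℂ} (hs : 1 ≤ s.re) (u : ℂ) : ‖FF a q u s - 1‖ ≤ 15 * (q : ℝ) ^ (1 / 2 - s.re) := by
  have hy0 : 0 ≤ (q : ℝ) ^ (1 / 2 - s.re) := by positivity
  have hy1 : (q : ℝ) ^ (1 / 2 - s.re) ≤ 1 := y_le hq (by linarith)
  have h1 := efac_sub_one ha hq hs
  have h2 := Fm_sub_one ha hq hs
  unfold FF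
  split_ifs
  · unfold F1
    have h3 : ‖efac a q s + 1‖ ≤ 5 := by
      calc ‖efac a q s + 1‖ = ‖(efac a q s - 1) + 2‖ := by ring_nf
        _ ≤ ‖efac a q s - 1‖ + ‖(2 : ℂ)‖ := norm_add_le _ _
        _ ≤ 3 * (q : ℝ) ^ (1 / 2 - s.re) + 2 := by
            refine add_le_add h1 ?_
            norm_num
        _ ≤ 5 := by linarith
    calc ‖efac a q s ^ 2 - 1‖ = ‖efac a q s - 1‖ * ‖efac a q s + 1‖ := by
          rw [← norm_mul]; ring_nf
      _ ≤ (3 * (q : ℝ) ^ (1 / 2 - s.re)) * 5 := mul_le_mul h1 h3 (norm_nonneg _) (by positivity)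
      _ = 15 * (q : ℝ) ^ (1 / 2 - s.re) := by ring
  · have h3 : (q : ℝ) ^ (1 - 2 * s.re) ≤ (q : ℝ) ^ (1 / 2 - s.re) :=
      Real.rpow_le_rpow_of_exponent_le (by exact_mod_cast (by omega : 1 ≤ q)) (by linarith)
    linarith
  · linarith

private theorem summable_away (K : Type) [Field K] [NumberField K] {T : Finset ℕ}
    {s : ℂ} (hs : 3 / 2 < s.re) :
    Summable fun v : {v : HeightOneSpectrum (𝓞 K) // Away K T v} =>
      15 * (nrm v.1 : ℝ) ^ (1 / 2 - s.re) := by
  have h2 := ((summable_nrm K (x := s.re - 1 / 2) (by linarith)).comp_injective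
    (Subtype.val_injective (p := fun w => Away K T w))).mul_left 15
  refine h2.congr fun v => ?_
  have h4 : (1 / 2 - s.re : ℝ) = -(s.re - 1 / 2) := by ring
  rw [h4]
  rfl

private theorem uu_q {K : Type} [Field K] [NumberField K] {T : Finset ℕ} (D : Dat K T)
    {δ : 𝓞 K} (hδ : δ - D.δ1 ∈ D.I0) : uu D.q δ = -1 := by
  have h0 : δ ∉ D.q.asIdeal := by
    have := D.nonres' hδ 0
    rwa [zero_pow two_ne_zero, sub_zero] at this
  unfold uu
  rw [if_pos ⟨0, by simp, by simpa using h0⟩, if_neg]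
  rintro ⟨j, h1, -, x, h3⟩
  rcases Nat.eq_zero_or_pos j with hj | hj
  · subst hj
    exact D.nonres' hδ x (by simpa using h3)
  · exact h0 (Ideal.pow_le_self (by omega) h1)

theorem LT_quad (K : Type) [Field K] [NumberField K] (K' : Type) [Field K'] [NumberField K']
    [Algebra K K'] (hdeg : Module.finrank K K' = 2)
    {a : ℕ → ℝ} (ha : ∀ q : ℕ, |a q| ≤ 2 * Real.sqrt q) {T : Finset ℕ}
    (hT : ∀ p : ℕ, p.Prime → p < 101 → p ∈ T) (hTp : ∀ p ∈ T, p.Prime) (D : Dat K T)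
    (δ : 𝓞 K) (θ : 𝓞 K') (hθ : θ ^ 2 = algebraMap (𝓞 K) (𝓞 K') δ) (hδ0 : δ ≠ 0)
    (hδ : δ - D.δ1 ∈ D.I0) {s : ℂ} (hs : 3 / 2 < s.re) :
    LT K' a T s = Fm a (nrm D.q) s * ∏' v : D.P, FF a (nrm v.1) (uu v.1 δ) s := by
  have h2T : 2 ∈ T := hT 2 Nat.prime_two (by norm_num)
  have hns : ∀ x : K, x ^ 2 ≠ (δ : K) := D.not_square hδ
  have hloc : ∀ v : {v : HeightOneSpectrum (𝓞 K) // Away K T v},
      ∏ᶠ w ∈ v.1.asIdeal.primesOver (𝓞 K'), efac a (Ideal.absNorm w) s =
        FF a (nrm v.1) (uu v.1 δ) s := by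
    intro v
    have h2v : (2 : 𝓞 K) ∉ v.1.asIdeal := Dat.two_not_mem h2T v.1 v.2
    rcases uu_cases v.1 δ with hu | hu | hu
    · have hsp := type_split K K' hdeg δ θ hθ hδ0 hns v.1 h2v hu
      have hty := quad_types K K' hdeg v.1
      have hw : ∀ w ∈ v.1.asIdeal.primesOver (𝓞 K'), Ideal.absNorm w = nrm v.1 := by
        rcases hty with h | ⟨w, hw, -⟩
        · exact h.2
        · exfalso
          unfold Splits at hsp
          rw [hw, Set.ncard_singleton] at hsp
          norm_num at hsp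
      obtain ⟨x, y, hxy, hS⟩ := Set.ncard_eq_two.mp hsp
      have hx : Ideal.absNorm x = nrm v.1 := hw x (by rw [hS]; simp)
      have hy : Ideal.absNorm y = nrm v.1 := hw y (by rw [hS]; simp)
      rw [hS, finprod_mem_pair hxy, hx, hy]
      unfold FF F1
      rw [if_pos hu, sq]
    · obtain ⟨w, hw, -, hn⟩ := type_inert K K' hdeg δ θ hθ hδ0 hns v.1 h2v hu
      rw [hw, finprod_mem_singleton, hn]
      unfold FF Fm
      rw [if_neg (by rw [hu]; norm_num), if_pos hu]
    · have hodd : Odd (ord v.1 δ) := by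
        have h1 := uu_sq v.1 hδ0
        rw [hu] at h1
        by_contra hcon
        rw [Nat.not_odd_iff_even] at hcon
        rw [if_pos hcon] at h1
        norm_num at h1
      obtain ⟨w, hw, -, hn⟩ := type_ram K K' hdeg δ θ hθ hδ0 hns v.1 hodd
      rw [hw, finprod_mem_singleton, hn]
      unfold FF
      rw [if_neg (by rw [hu]; norm_num), if_neg (by rw [hu]; norm_num)]
  rw [LT_ext K K' ha T hT hs, tprod_congr hloc,
    split_q D (fun v => FF a (nrm v) (uu v δ) s)]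
  · congr 1
    rw [uu_q D hδ]
    unfold FF
    rw [if_neg (by norm_num), if_pos rfl]
  · refine Summable.of_nonneg_of_le (fun _ => norm_nonneg _) (fun v => ?_) (summable_away K hs)
    exact FF_sub_one ha (nrm_ge K T hT v.1 v.2) (by linarith) _

/-- the Euler product over `K` itself: split off the auxiliary place. -/
theorem LT_self (K : Type) [Field K] [NumberField K]
    {a : ℕ → ℝ} (ha : ∀ q : ℕ, |a q| ≤ 2 * Real.sqrt q) {T : Finset ℕ}
    (hT : ∀ p : ℕ, p.Prime → p < 101 → p ∈ T) (D : Dat K T) {s : ℂ} (hs : 3 / 2 < s.re) :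
    LT K a T s = efac a (nrm D.q) s * ∏' v : D.P, efac a (nrm v.1) s := by
  unfold LT
  rw [split_q D (fun v => efac a (nrm v) s)]
  refine Summable.of_nonneg_of_le (fun _ => norm_nonneg _) (fun v => ?_) (summable_away K hs)
  have h1 := efac_sub_one ha (nrm_ge K T hT v.1 v.2) (by linarith : 1 ≤ s.re)
  have hy0 : 0 ≤ (nrm v.1 : ℝ) ^ (1 / 2 - s.re) := by positivity
  linarith

end Pool.Agent.HWR
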