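import Pool.Agent.HWR.Defs

/-!
# HWR-P2: summation by parts against an additive character

PLAN. For finitely supported `φ : (ι → ℤ) → ℂ` and `ψ : (ι → ℤ) → ℂ` with
`ψ (m + m') = ψ m * ψ m'`, `‖ψ m‖ = 1`: translating the summation variable,
`∑ (Δ_i φ) m ψ m = ∑ φ (m + e_i) ψ m - ∑ φ m ψ m = (ψ (-e_i) - 1) ∑ φ m ψ m`, and
`‖ψ (-e_i) - 1‖ = ‖1 - ψ (e_i)‖`.  Iterate `k` times (`Δ_i φ` is again finitely supported).
-/

namespace Pool.Agent.HWR

open Classical in
theorem sum_by_parts {ι : Type} [Fintype ι] (φ : (ι → ℤ) → ℂ) (hφ : (Function.support φ).Finite)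
    (ψ : (ι → ℤ) → ℂ) (hψ : ∀ m m', ψ (m + m') = ψ m * ψ m') (hψ1 : ∀ m, ‖ψ m‖ = 1)
    (i : ι) (k : ℕ) :
    ‖1 - ψ (Pi.single i (1 : ℤ))‖ ^ k * ‖∑' m, φ m * ψ m‖ ≤
      ∑' m, ‖(fwdDiff (Pi.single i (1 : ℤ)))^[k] φ m‖ := by
  set e : ι → ℤ := Pi.single i (1 : ℤ) with he
  have h0 : ψ 0 = 1 := by
    have h1 := hψ 0 0
    rw [add_zero] at h1
    have h2 : ψ 0 ≠ 0 := fun h => by
      have := hψ1 0
      rw [h, norm_zero] at this
      exact zero_ne_one this
    have h3 : ψ 0 * (ψ 0 - 1) = 0 := by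
      rw [mul_sub, mul_one, ← h1, sub_self]
    rcases mul_eq_zero.mp h3 with h | h
    · exact absurd h h2
    · exact sub_eq_zero.mp h
  have hne : ‖ψ (-e) - 1‖ = ‖1 - ψ e‖ := by
    have h1 : ψ (-e) * ψ e = 1 := by rw [← hψ, neg_add_cancel, h0]
    have h2 : ψ (-e) - 1 = ψ (-e) * (1 - ψ e) := by rw [mul_sub, mul_one, h1]
    rw [h2, norm_mul, hψ1, one_mul]
  have hstep : ∀ φ : (ι → ℤ) → ℂ, (Function.support φ).Finite →
      (Function.support (fwdDiff e φ)).Finite ∧
      ∑' m, fwdDiff e φ m * ψ m = (ψ (-e) - 1) * ∑' m, φ m * ψ m := by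
    intro φ hφ
    have hsh : (Function.support fun m => φ (m + e)).Finite := by
      have h1 : (Function.support fun m => φ (m + e)) = (fun m => m + e) ⁻¹' Function.support φ := rfl
      rw [h1]
      exact hφ.preimage (fun x _ y _ h => add_right_cancel h)
    have hs0 : Summable (fun m => φ m * ψ m) := by
      apply summable_of_finite_support
      refine hφ.subset fun m hm => ?_
      intro h
      exact hm (by simp only [h, zero_mul])
    have hs1 : Summable (fun m => φ (m + e) * ψ m) := by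
      apply summable_of_finite_support
      refine hsh.subset fun m hm => ?_
      intro h
      exact hm (by simp only [h, zero_mul])
    constructor
    · refine (hsh.union hφ).subset fun m hm => ?_
      by_contra hcon
      rw [Set.mem_union, not_or] at hcon
      have h1 : φ (m + e) = 0 := by
        by_contra h; exact hcon.1 h
      have h2 : φ m = 0 := by
        by_contra h; exact hcon.2 h
      exact hm (by simp only [fwdDiff, h1, h2, sub_zero])
    · have h1 : ∀ m, fwdDiff e φ m * ψ m = φ (m + e) * ψ m - φ m * ψ m := fun m => by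
        simp only [fwdDiff, sub_mul]
      rw [tsum_congr h1, hs1.tsum_sub hs0, sub_mul, one_mul]
      congr 1
      have h2 : ∀ m, φ (m + e) * ψ m = ψ (-e) * (φ (m + e) * ψ (m + e)) := fun m => by
        have h3 : ψ m = ψ (-e) * ψ (m + e) := by
          rw [← hψ]; congr 1; abel
        rw [h3]; ring
      rw [tsum_congr h2, tsum_mul_left]
      congr 1
      exact (Equiv.addRight e).tsum_eq (fun m => φ m * ψ m)
  have hiter : ∀ k : ℕ, (Function.support ((fwdDiff e)^[k] φ)).Finite ∧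
      ‖∑' m, (fwdDiff e)^[k] φ m * ψ m‖ = ‖1 - ψ e‖ ^ k * ‖∑' m, φ m * ψ m‖ := by
    intro k
    induction k with
    | zero => exact ⟨hφ, by simp⟩
    | succ k ih =>
      obtain ⟨h1, h2⟩ := hstep _ ih.1
      rw [Function.iterate_succ_apply']
      refine ⟨h1, ?_⟩
      rw [h2, norm_mul, hne, ih.2, pow_succ]
      ring
  obtain ⟨h1, h2⟩ := hiter k
  rw [← h2]
  have h3 : ∀ m, ‖(fwdDiff e)^[k] φ m * ψ m‖ = ‖(fwdDiff e)^[k] φ m‖ := fun m => by
    rw [norm_mul, hψ1, mul_one]
  have h4 : Summable fun m => ‖(fwdDiff e)^[k] φ m * ψ m‖ := by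
    apply summable_of_finite_support
    refine h1.subset fun m hm => ?_
    intro h
    exact hm (by simp only [h, zero_mul, norm_zero])
  calc ‖∑' m, (fwdDiff e)^[k] φ m * ψ m‖ ≤ ∑' m, ‖(fwdDiff e)^[k] φ m * ψ m‖ :=
        norm_tsum_le_tsum_norm h4
    _ = ∑' m, ‖(fwdDiff e)^[k] φ m‖ := tsum_congr h3

end Pool.Agent.HWR
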