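import Pool.Agent.HWR.WeightA

/-!
# HWR-P0b: sums of the weights

`exists_sum_bound` PLAN. `‖Phi W z y‖ = W y * NN y ^ (Re z)` where `NN y ∈ [2^(-n), (3/2)^n]` on
the support (`NN_bounds`), so it is `≤ C` there and `0` outside a box `[-B, B]^ι`.  Number of `δ`
with `crd δ / X` in the box: at most `(2 B X + 1)^n ≤ (2B+1)^n X^n` (`crd_bijective`,
`Fintype.card (Idx K) = finrank ℚ K`: `RingOfIntegers.rank`, `Module.finrank_eq_card_chooseBasisIndex`).
`supp_finite`, `summable_norm_Phi`: same box (for any `X > 0`).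
`lower` PLAN. `W ≥ c > 0` on a box `∏ [x0_i - r, x0_i + r]`, `x0 = crd (-1)` (continuity); it
contains at least `(2 r X - 1)^n ≥ (r X)^n` points `crd δ / X` for `X ≥ 1/r`; `Phi W 0 = W ≥ 0`.
-/

namespace Pool.Agent.HWR

open NumberField IsDedekindDomain

section wbaux

variable {K : Type} [Field K] [NumberField K]

theorem wb_card_Idx : Fintype.card (Idx K) = Module.finrank ℚ K := by
  rw [← Module.finrank_eq_card_chooseBasisIndex, RingOfIntegers.rank]

/-- coordinates as an equivalence -/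
noncomputable def wb_e : 𝓞 K ≃ (Idx K → ℤ) := Equiv.ofBijective crd crd_bijective

/-- integral points scaled -/
noncomputable def wb_pt (X : ℝ) (m : Idx K → ℤ) : Idx K → ℝ := fun i => (m i : ℝ) / X

theorem wb_crdR (X : ℝ) (δ : 𝓞 K) : crdR X δ = wb_pt X (wb_e δ) := rfl

theorem wb_mem_box {B X : ℝ} (hX : 0 < X) (m : Idx K → ℤ) (h : ∀ i, |wb_pt X m i| ≤ B) :
    m ∈ Finset.Icc (fun _ : Idx K => -⌊B * X⌋) (fun _ => ⌊B * X⌋) := by
  rw [Finset.mem_Icc]
  have h1 : ∀ i, |(m i : ℝ)| ≤ B * X := fun i => by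
    have := h i
    unfold wb_pt at this
    rw [abs_div, abs_of_pos hX, div_le_iff₀ hX] at this
    exact this
  constructor
  · intro i
    show -⌊B * X⌋ ≤ m i
    have : -(m i) ≤ ⌊B * X⌋ := by
      rw [Int.le_floor]; push_cast; exact (neg_le_abs _).trans (h1 i)
    linarith
  · intro i
    show m i ≤ ⌊B * X⌋
    rw [Int.le_floor]; exact (le_abs_self _).trans (h1 i)

theorem wb_card_box {B X : ℝ} (hB : 0 ≤ B) (hX : 1 ≤ X) :
    ((Finset.Icc (fun _ : Idx K => -⌊B * X⌋) (fun _ => ⌊B * X⌋)).card : ℝ) ≤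
      (2 * B + 1) ^ Module.finrank ℚ K * X ^ Module.finrank ℚ K := by
  have h0 : 0 ≤ B * X := by positivity
  have h1 : (0:ℤ) ≤ ⌊B * X⌋ := Int.floor_nonneg.2 h0
  rw [Pi.card_Icc]
  simp only [Int.card_Icc, Finset.prod_const, Finset.card_univ, wb_card_Idx]
  push_cast
  rw [← mul_pow]
  refine pow_le_pow_left₀ (by positivity) ?_ _
  have h2 : (((⌊B * X⌋ + 1 - -⌊B * X⌋).toNat : ℕ) : ℝ) = 2 * (⌊B * X⌋ : ℝ) + 1 := by
    have : ((⌊B * X⌋ + 1 - -⌊B * X⌋).toNat : ℤ) = ⌊B * X⌋ + 1 - -⌊B * X⌋ :=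
      Int.toNat_of_nonneg (by linarith)
    have h3 : (((⌊B * X⌋ + 1 - -⌊B * X⌋).toNat : ℤ) : ℝ) = ((⌊B * X⌋ + 1 - -⌊B * X⌋ : ℤ) : ℝ) := by
      rw [this]
    push_cast at h3
    rw [h3]; ring
  rw [h2]
  have h3 := Int.floor_le (B * X)
  nlinarith

end wbaux

variable {K : Type} [Field K] [NumberField K] {W : (Idx K → ℝ) → ℝ} (hW : IsWeight W)
include hW

theorem wb_box : ∃ B : ℝ, 0 ≤ B ∧ ∀ y, W y ≠ 0 → ∀ i, |y i| ≤ B := by
  obtain ⟨R, hR⟩ := (Metric.isBounded_iff_subset_closedBall (0 : Idx K → ℝ)).1 hW.cpt.isBounded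
  refine ⟨max R 0, le_max_right _ _, fun y hy i => ?_⟩
  have h1 : y ∈ tsupport W := subset_closure hy
  have h2 := hR h1
  rw [mem_closedBall_zero_iff] at h2
  exact ((norm_le_pi_norm y i).trans h2).trans (le_max_left _ _)

theorem wb_bdd : ∃ M : ℝ, 0 ≤ M ∧ ∀ y, W y ≤ M := by
  have hc : Continuous W := (hW.smooth 0).continuous
  obtain ⟨M, hM⟩ := hW.cpt.exists_bound_of_continuous hc
  refine ⟨M, (norm_nonneg _).trans (hM 0), fun y => (le_abs_self _).trans (hM y)⟩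

theorem wb_fin {X : ℝ} (hX : 0 < X) : {m : Idx K → ℤ | W (wb_pt X m) ≠ 0}.Finite := by
  obtain ⟨B, hB, hb⟩ := wb_box hW
  refine (Finset.finite_toSet (Finset.Icc (fun _ : Idx K => -⌊B * X⌋) (fun _ => ⌊B * X⌋))).subset ?_
  intro m hm
  exact wb_mem_box hX m (hb _ hm)

theorem supp_finite {X : ℝ} (hX : 0 < X) : {δ : 𝓞 K | W (crdR X δ) ≠ 0}.Finite := by
  have h := (wb_fin hW hX).preimage (f := wb_e) (wb_e.injective.injOn)
  exact h

omit hW in
theorem wb_Phi_zero {z : ℂ} {y : Idx K → ℝ} (h : W y = 0) : Phi W z y = 0 := by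
  simp [Phi, h]

theorem summable_norm_Phi (z : ℂ) {X : ℝ} (hX : 0 < X) :
    Summable fun δ : 𝓞 K => ‖Phi W z (crdR X δ)‖ := by
  refine summable_of_finite_support ((supp_finite hW hX).subset ?_)
  intro δ hδ
  simp only [Function.mem_support, ne_eq, norm_eq_zero] at hδ
  exact fun h => hδ (wb_Phi_zero h)

theorem exists_sum_bound (x : ℝ) : ∃ C : ℝ, 0 ≤ C ∧ ∀ z : ℂ, |z.re| ≤ x → ∀ X : ℝ, 1 ≤ X →
    ∑' δ : 𝓞 K, ‖Phi W z (crdR X δ)‖ ≤ C * X ^ Module.finrank ℚ K := by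
  obtain ⟨B, hB, hb⟩ := wb_box hW
  obtain ⟨M, hM0, hM⟩ := wb_bdd hW
  set d := Module.finrank ℚ K with hd
  set A : ℝ := ((2:ℝ) ^ d) ^ |x| with hA
  have hA0 : 0 ≤ A := by positivity
  refine ⟨M * A * (2 * B + 1) ^ d, by positivity, fun z hz X hX => ?_⟩
  have hX0 : 0 < X := by linarith
  have hpt : ∀ y : Idx K → ℝ, ‖Phi W z y‖ ≤ M * A := by
    intro y
    by_cases hy : W y = 0
    · rw [wb_Phi_zero hy, norm_zero]; positivity
    · obtain ⟨h1, h2⟩ := NN_bounds hW hy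
      have hpos : 0 < NN y := lt_of_lt_of_le (by positivity) h1
      rw [Phi, norm_mul, Complex.norm_real, Real.norm_of_nonneg (hW.nonneg y),
        Complex.norm_cpow_eq_rpow_re_of_pos hpos]
      refine mul_le_mul (hM y) ?_ (by positivity) hM0
      have hx : |z.re| ≤ |x| := hz.trans (le_abs_self x)
      have h2d : (1:ℝ) ≤ 2 ^ d := one_le_pow₀ (by norm_num)
      have h3 : NN y ≤ 2 ^ d := h2.trans (pow_le_pow_left₀ (by norm_num) (by norm_num) _)
      have h4 : (2 ^ d)⁻¹ ≤ NN y := by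
        refine le_trans (le_of_eq ?_) h1
        rw [one_div, inv_pow]
      rcases le_or_gt 0 z.re with h5 | h5
      · calc NN y ^ z.re ≤ (2 ^ d) ^ z.re := Real.rpow_le_rpow hpos.le h3 h5
          _ ≤ A := Real.rpow_le_rpow_of_exponent_le h2d ((le_abs_self _).trans hx)
      · calc NN y ^ z.re = (NN y)⁻¹ ^ (-z.re) := by
              rw [Real.inv_rpow hpos.le, Real.rpow_neg hpos.le, inv_inv]
          _ ≤ (2 ^ d) ^ (-z.re) := by
              refine Real.rpow_le_rpow (by positivity) ?_ (by linarith)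
              rw [inv_le_comm₀ hpos (by positivity)]
              exact h4
          _ ≤ A := Real.rpow_le_rpow_of_exponent_le h2d ((neg_le_abs _).trans hx)
  have e1 : ∑' δ : 𝓞 K, ‖Phi W z (crdR X δ)‖ = ∑' m : Idx K → ℤ, ‖Phi W z (wb_pt X m)‖ :=
    wb_e.tsum_eq (fun m => ‖Phi W z (wb_pt X m)‖)
  rw [e1, tsum_eq_sum (s := Finset.Icc (fun _ : Idx K => -⌊B * X⌋) (fun _ => ⌊B * X⌋))]
  · refine (Finset.sum_le_card_nsmul _ _ (M * A) fun m _ => hpt _).trans ?_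
    rw [nsmul_eq_mul]
    have h := wb_card_box (K := K) hB hX
    calc _ ≤ ((2 * B + 1) ^ d * X ^ d) * (M * A) := mul_le_mul_of_nonneg_right h (by positivity)
      _ = _ := by ring
  · intro m hm
    have : W (wb_pt X m) = 0 := by
      by_contra h
      exact hm (wb_mem_box hX0 m (hb _ h))
    rw [wb_Phi_zero this, norm_zero]

theorem lower : ∃ c : ℝ, 0 < c ∧ ∃ X0 : ℝ, ∀ X : ℝ, X0 ≤ X →
    c * X ^ Module.finrank ℚ K ≤ ‖Tot W 0 X‖ := by
  have hc : Continuous W := (hW.smooth 0).continuous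
  set x0 : Idx K → ℝ := fun i => (crd (-1 : 𝓞 K) i : ℝ) with hx0
  set c0 : ℝ := W x0 / 2 with hc0
  have hc0p : 0 < c0 := by have := hW.pos; positivity
  have hnb : ∀ᶠ y in nhds x0, c0 < W y :=
    hc.continuousAt.eventually_const_lt (by rw [hc0]; have := hW.pos; linarith)
  obtain ⟨r, hr, hball⟩ := Metric.nhds_basis_closedBall.eventually_iff.1 hnb
  have hbox : ∀ y : Idx K → ℝ, (∀ i, |y i - x0 i| ≤ r) → c0 ≤ W y := by
    intro y hy
    refine (hball ?_).le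
    rw [mem_closedBall_iff_norm]
    exact (pi_norm_le_iff_of_nonneg hr.le).2 hy
  refine ⟨c0 * r ^ Module.finrank ℚ K, by positivity, 1 / r, fun X hX => ?_⟩
  have hX0 : 0 < X := lt_of_lt_of_le (by positivity) hX
  have hrX : 1 ≤ r * X := by
    rw [div_le_iff₀ hr] at hX; linarith
  have hsum : Summable fun m : Idx K → ℤ => W (wb_pt X m) :=
    summable_of_finite_support (wb_fin hW hX0)
  have e1 : Tot W 0 X = ((∑' m : Idx K → ℤ, W (wb_pt X m) : ℝ) : ℂ) := by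
    have h : ∀ δ : 𝓞 K, Phi W 0 (crdR X δ) = ((W (wb_pt X (wb_e δ)) : ℝ) : ℂ) := fun δ => by
      rw [Phi, Complex.cpow_zero, mul_one, wb_crdR]
    rw [Tot, tsum_congr h, Complex.ofReal_tsum]
    exact wb_e.tsum_eq (fun m => ((W (wb_pt X m) : ℝ) : ℂ))
  rw [e1, Complex.norm_real, Real.norm_of_nonneg (tsum_nonneg fun m => hW.nonneg _)]
  set S : Finset (Idx K → ℤ) := Finset.Icc (fun i => ⌈X * (x0 i - r)⌉) (fun i => ⌊X * (x0 i + r)⌋)
    with hS
  have h1 : c0 * (S.card : ℝ) ≤ ∑ m ∈ S, W (wb_pt X m) := by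
    rw [mul_comm, ← nsmul_eq_mul]
    refine Finset.card_nsmul_le_sum _ _ _ fun m hm => ?_
    rw [hS, Finset.mem_Icc] at hm
    refine hbox _ fun i => ?_
    have ha : X * (x0 i - r) ≤ m i := Int.ceil_le.1 (hm.1 i)
    have hb : (m i : ℝ) ≤ X * (x0 i + r) := Int.le_floor.1 (hm.2 i)
    unfold wb_pt
    rw [abs_le]
    constructor
    · have : x0 i - r ≤ (m i : ℝ) / X := by rw [le_div_iff₀ hX0]; linarith
      linarith
    · have : (m i : ℝ) / X ≤ x0 i + r := by rw [div_le_iff₀ hX0]; linarith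
      linarith
  have h2 : ∑ m ∈ S, W (wb_pt X m) ≤ ∑' m : Idx K → ℤ, W (wb_pt X m) :=
    hsum.sum_le_tsum S fun m _ => hW.nonneg _
  have h3 : (r * X) ^ Module.finrank ℚ K ≤ (S.card : ℝ) := by
    rw [hS, Pi.card_Icc]
    push_cast
    rw [← wb_card_Idx, ← Finset.card_univ, ← Finset.prod_const]
    refine Finset.prod_le_prod (fun i _ => by positivity) fun i _ => ?_
    rw [Int.card_Icc]
    have h4 := Int.lt_floor_add_one (X * (x0 i + r))
    have h5 := Int.ceil_lt_add_one (X * (x0 i - r))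
    have h6 : ((⌊X * (x0 i + r)⌋ + 1 - ⌈X * (x0 i - r)⌉ : ℤ) : ℝ) ≤
        (((⌊X * (x0 i + r)⌋ + 1 - ⌈X * (x0 i - r)⌉).toNat : ℤ) : ℝ) := by
      exact_mod_cast Int.self_le_toNat _
    push_cast at h6
    refine le_trans ?_ h6
    nlinarith
  calc c0 * r ^ Module.finrank ℚ K * X ^ Module.finrank ℚ K = c0 * (r * X) ^ Module.finrank ℚ K := by
        rw [mul_pow]; ring
    _ ≤ c0 * (S.card : ℝ) := mul_le_mul_of_nonneg_left h3 hc0p.le
    _ ≤ _ := h1.trans h2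

end Pool.Agent.HWR
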