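import Pool.Agent.HWR.Diffs
import Pool.Agent.HWR.SumParts
import Pool.Agent.HWR.CharCount
import Pool.Agent.HWR.Weight

/-!
# HWR-P4: smooth sums of periodic functions over `𝓞 K`

THEOREM `lat`. `|∑_δ Φ(δ/X) H(δ) - N(I)⁻¹ (∑_{x mod I} H(x)) ∑_δ Φ(δ/X)| ≤ C M` if `H` is
periodic mod `I` and `|∑_{x mod I} H(x) ψ(x)| ≤ M` for all characters `ψ ≠ 1` of `𝓞 K / I`.
The constant depends on `W`, `R` only.

Fourier inversion on `𝓞 K / I`, summation by parts, dyadic count of the characters.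
-/

namespace Pool.Agent.HWR

open NumberField IsDedekindDomain

namespace LatAux

/-- `min (t, 1/t) ≤ Φ (2 t) - Φ t` for `Φ t = 6 t / (1 + t)`. -/
theorem min_le_pot (t : ℝ) (ht : 0 < t) :
    min t (1 / t) ≤ 6 * (2 * t) / (1 + 2 * t) - 6 * t / (1 + t) := by
  have h1 : 6 * (2 * t) / (1 + 2 * t) - 6 * t / (1 + t) = 6 * t / ((1 + 2 * t) * (1 + t)) := by
    field_simp
    ring
  rw [h1]
  rcases le_total t 1 with h | h
  · refine (min_le_left _ _).trans ?_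
    rw [le_div_iff₀ (by positivity)]
    nlinarith [mul_pos ht ht, mul_nonneg ht.le (sub_nonneg.2 h)]
  · refine (min_le_right _ _).trans ?_
    rw [div_le_div_iff₀ ht (by positivity)]
    nlinarith [mul_nonneg (sub_nonneg.2 h) (sub_nonneg.2 h)]

theorem sum_min (X : ℝ) (hX : 0 < X) (J : ℕ) :
    ∑ j ∈ Finset.range J, min ((2 : ℝ) ^ j / X) (X / 2 ^ j) ≤ 6 := by
  have h : ∀ J : ℕ, ∑ j ∈ Finset.range J, min ((2 : ℝ) ^ j / X) (X / 2 ^ j) ≤
      6 * ((2 : ℝ) ^ J / X) / (1 + (2 : ℝ) ^ J / X) := by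
    intro J
    induction J with
    | zero =>
      simp only [Finset.range_zero, Finset.sum_empty, pow_zero]
      positivity
    | succ J ih =>
      rw [Finset.sum_range_succ]
      have h1 := min_le_pot ((2 : ℝ) ^ J / X) (by positivity)
      have h2 : (2 : ℝ) ^ (J + 1) / X = 2 * ((2 : ℝ) ^ J / X) := by ring
      have h3 : (1 : ℝ) / ((2 : ℝ) ^ J / X) = X / 2 ^ J := by
        rw [one_div_div]
      rw [h3] at h1
      rw [h2]
      linarith
  refine (h J).trans ?_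
  rw [div_le_iff₀ (by positivity)]
  have : (0 : ℝ) ≤ (2 : ℝ) ^ J / X := by positivity
  linarith

/-- the dyadic estimate. -/
theorem dyadic (n : ℕ) (hn : 1 ≤ n) (X : ℝ) (hX : 1 ≤ X) (j : ℕ) :
    min (X ^ n) ((2 : ℝ) ^ (j * (n + 1)) / X) * ((2 : ℝ) / 2 ^ j) ^ n ≤
      2 ^ n * min ((2 : ℝ) ^ j / X) (X / 2 ^ j) := by
  have hX0 : 0 < X := by linarith
  obtain ⟨m, rfl⟩ : ∃ m, n = m + 1 := ⟨n - 1, by omega⟩
  have hp : (0 : ℝ) < (2 : ℝ) ^ j := by positivity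
  rw [div_pow]
  rcases le_total X ((2 : ℝ) ^ j) with h | h
  · have h1 : min ((2 : ℝ) ^ j / X) (X / 2 ^ j) = X / 2 ^ j := by
      apply min_eq_right
      rw [div_le_div_iff₀ hp hX0]
      nlinarith
    rw [h1]
    have h2 : min (X ^ (m + 1)) ((2 : ℝ) ^ (j * (m + 1 + 1)) / X) ≤ X * ((2 : ℝ) ^ j) ^ m := by
      refine (min_le_left _ _).trans ?_
      rw [pow_succ']
      exact mul_le_mul_of_nonneg_left (pow_le_pow_left₀ hX0.le h m) hX0.le
    calc _ ≤ X * ((2 : ℝ) ^ j) ^ m * (2 ^ (m + 1) / ((2 : ℝ) ^ j) ^ (m + 1)) :=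
          mul_le_mul_of_nonneg_right h2 (by positivity)
      _ = _ := by
          rw [pow_succ ((2 : ℝ) ^ j) m]
          field_simp
  · have h1 : min ((2 : ℝ) ^ j / X) (X / 2 ^ j) = (2 : ℝ) ^ j / X := by
      apply min_eq_left
      rw [div_le_div_iff₀ hX0 hp]
      nlinarith
    rw [h1]
    have h2 : min (X ^ (m + 1)) ((2 : ℝ) ^ (j * (m + 1 + 1)) / X)
        ≤ (2 : ℝ) ^ (j * (m + 1 + 1)) / X := min_le_right _ _
    calc _ ≤ (2 : ℝ) ^ (j * (m + 1 + 1)) / X * (2 ^ (m + 1) / ((2 : ℝ) ^ j) ^ (m + 1)) :=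
          mul_le_mul_of_nonneg_right h2 (by positivity)
      _ = _ := by
          rw [pow_mul, pow_succ ((2 : ℝ) ^ j) (m + 1)]
          field_simp

theorem fourier_inv {G : Type} [AddCommGroup G] [Fintype G] (h : G → ℂ) (x : G) :
    (Fintype.card G : ℂ) * h x = ∑ ψ : AddChar G ℂ, (∑ y, h y * ψ y) * ψ (-x) := by
  classical
  have h1 : ∀ ψ : AddChar G ℂ, (∑ y, h y * ψ y) * ψ (-x) = ∑ y, h y * ψ (y - x) := by
    intro ψ
    rw [Finset.sum_mul]
    refine Finset.sum_congr rfl (fun y _ => ?_)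
    rw [sub_eq_add_neg, AddChar.map_add_eq_mul, mul_assoc]
  simp only [h1]
  rw [Finset.sum_comm]
  have h2 : ∀ y : G, ∑ ψ : AddChar G ℂ, h y * ψ (y - x) =
      if y = x then (Fintype.card G : ℂ) * h x else 0 := by
    intro y
    rw [← Finset.mul_sum, AddChar.sum_apply_eq_ite]
    by_cases hy : y = x
    · subst hy; simp [mul_comm]
    · simp [hy, sub_eq_zero]
  simp only [h2]
  simp

theorem norm_char {G : Type} [AddCommGroup G] [Finite G] (ψ : AddChar G ℂ) (x : G) : ‖ψ x‖ = 1 := by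
  exact ψ.norm_apply x

end LatAux

open LatAux

variable {K : Type} [Field K] [NumberField K] {W : (Idx K → ℝ) → ℝ} (hW : IsWeight W)
include hW

theorem LatAux.char_sum (R : ℝ) : ∃ C : ℝ, 0 ≤ C ∧ ∀ (I : Ideal (𝓞 K)), I ≠ ⊥ →
    ∀ [Fintype (𝓞 K ⧸ I)] (ψ : AddChar (𝓞 K ⧸ I) ℂ), 
      ∀ z : ℂ, ‖z‖ ≤ R → ∀ X : ℝ, 1 ≤ X →
        ‖∑' δ : 𝓞 K, Phi W z (crdR X δ) * ψ (Ideal.Quotient.mk I (-δ))‖ ≤
            C * X ^ Module.finrank ℚ K ∧
        ∀ i, ‖1 - ψ (Ideal.Quotient.mk I (RingOfIntegers.basis K i))‖ ^ (Module.finrank ℚ K + 1) *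
          ‖∑' δ : 𝓞 K, Phi W z (crdR X δ) * ψ (Ideal.Quotient.mk I (-δ))‖ ≤ C / X := by
  classical
  obtain ⟨C0, hC0, h0⟩ := diff_bound hW 0 R
  obtain ⟨C1, hC1, h1⟩ := diff_bound hW (Module.finrank ℚ K + 1) R
  refine ⟨C0 + C1, by positivity, fun I hI _ ψ z hz X hX => ?_⟩
  have hX0 : 0 < X := by linarith
  haveI : Nonempty (Idx K) := (RingOfIntegers.basis K).index_nonempty
  obtain ⟨χ, hχ⟩ : ∃ χ : (Idx K → ℤ) → ℂ,
      χ = fun m => ψ (Ideal.Quotient.mk I (-(∑ i, m i • RingOfIntegers.basis K i))) := ⟨_, rfl⟩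
  have hχadd : ∀ m m', χ (m + m') = χ m * χ m' := by
    intro m m'
    rw [hχ]
    simp only
    rw [← AddChar.map_add_eq_mul, ← map_add]
    congr 2
    simp only [Pi.add_apply, add_smul, Finset.sum_add_distrib]
    ring
  have hχ1 : ∀ m, ‖χ m‖ = 1 := by
    intro m
    rw [hχ]
    exact norm_char _ _
  have hχi : ∀ i, ‖1 - χ (Pi.single i (1 : ℤ))‖ =
      ‖1 - ψ (Ideal.Quotient.mk I (RingOfIntegers.basis K i))‖ := by
    intro i
    have e1 : ∑ j, (Pi.single i (1 : ℤ) : Idx K → ℤ) j • RingOfIntegers.basis K j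
        = RingOfIntegers.basis K i := by
      rw [Finset.sum_eq_single i]
      · simp
      · intro j _ hj
        simp [Pi.single_eq_of_ne hj]
      · simp
    have e2 : χ (Pi.single i (1 : ℤ)) = (ψ (Ideal.Quotient.mk I (RingOfIntegers.basis K i)))⁻¹ := by
      rw [hχ]
      simp only
      rw [e1, map_neg, AddChar.map_neg_eq_inv]
    rw [e2]
    set u := ψ (Ideal.Quotient.mk I (RingOfIntegers.basis K i)) with hu
    have hu1 : ‖u‖ = 1 := norm_char _ _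
    have hu0 : u ≠ 0 := by
      intro h
      rw [h] at hu1
      simp at hu1
    have e3 : 1 - u⁻¹ = -(u⁻¹ * (1 - u)) := by
      field_simp
      ring
    rw [e3, norm_neg, norm_mul, norm_inv, hu1]
    simp
  have hS : ∑' δ : 𝓞 K, Phi W z (crdR X δ) * ψ (Ideal.Quotient.mk I (-δ)) =
      ∑' m : Idx K → ℤ, Phi W z (fun j => (m j : ℝ) / X) * χ m := by
    rw [← (Equiv.ofBijective _ (crd_bijective (K := K))).tsum_eq]
    refine tsum_congr (fun δ => ?_)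
    show _ = Phi W z (fun j => ((crd δ) j : ℝ) / X) * χ (crd δ)
    rw [hχ]
    simp only
    rw [sum_crd]
    rfl
  have hk : ∀ (k : ℕ) (i : Idx K),
      ‖1 - ψ (Ideal.Quotient.mk I (RingOfIntegers.basis K i))‖ ^ k *
        ‖∑' δ : 𝓞 K, Phi W z (crdR X δ) * ψ (Ideal.Quotient.mk I (-δ))‖ ≤
        ∑' m : Idx K → ℤ, ‖(fwdDiff (Pi.single i (1 : ℤ)))^[k]
          (fun m : Idx K → ℤ => Phi W z (fun j => (m j : ℝ) / X)) m‖ := by
    intro k i
    rw [hS, ← hχi i]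
    exact sum_by_parts _ (h0 z hz X hX i).1 χ hχadd hχ1 i k
  refine ⟨?_, fun i => ?_⟩
  · have i : Idx K := Classical.arbitrary _
    have h2 := hk 0 i
    have h3 := (h0 z hz X hX i).2
    rw [pow_zero, one_mul] at h2
    have h4 : C0 * (X ^ Module.finrank ℚ K / X ^ 0) ≤ (C0 + C1) * X ^ Module.finrank ℚ K := by
      rw [pow_zero, div_one]
      have : 0 ≤ X ^ Module.finrank ℚ K := by positivity
      nlinarith
    exact h2.trans (h3.trans h4)
  · have h2 := hk (Module.finrank ℚ K + 1) i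
    have h3 := (h1 z hz X hX i).2
    have h4 : C1 * (X ^ Module.finrank ℚ K / X ^ (Module.finrank ℚ K + 1)) ≤ (C0 + C1) / X := by
      have e : X ^ Module.finrank ℚ K / X ^ (Module.finrank ℚ K + 1) = 1 / X := by
        rw [pow_succ]
        field_simp
      rw [e, mul_one_div]
      gcongr
      linarith
    exact h2.trans (h3.trans h4)

open Classical in
theorem LatAux.key_sum (R : ℝ) : ∃ C : ℝ, 0 ≤ C ∧ ∀ (I : Ideal (𝓞 K)), I ≠ ⊥ →
    ∀ [Fintype (𝓞 K ⧸ I)], ∀ z : ℂ, ‖z‖ ≤ R → ∀ X : ℝ, 1 ≤ X →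
      ∑ ψ ∈ Finset.univ.filter (fun ψ : AddChar (𝓞 K ⧸ I) ℂ => ψ ≠ 1),
        ‖∑' δ : 𝓞 K, Phi W z (crdR X δ) * ψ (Ideal.Quotient.mk I (-δ))‖ ≤
          C * Ideal.absNorm I := by
  obtain ⟨C1, hC1, h1⟩ := LatAux.char_sum hW R
  obtain ⟨Cc, hCc, hc⟩ := char_count K
  set n := Module.finrank ℚ K with hn
  have hn1 : 1 ≤ n := Module.finrank_pos
  refine ⟨C1 * Cc * 2 ^ n * 6, by positivity, fun I hI _ z hz X hX => ?_⟩
  have hX0 : 0 < X := by linarith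
  set S : AddChar (𝓞 K ⧸ I) ℂ → ℝ :=
    fun ψ => ‖∑' δ : 𝓞 K, Phi W z (crdR X δ) * ψ (Ideal.Quotient.mk I (-δ))‖ with hS
  let P : AddChar (𝓞 K ⧸ I) ℂ → ℝ → Prop := fun ψ r =>
    ∀ i, ‖1 - ψ (Ideal.Quotient.mk I (RingOfIntegers.basis K i))‖ ≤ r
  let c : ℕ → ℝ := fun j => min (X ^ n) ((2 : ℝ) ^ (j * (n + 1)) / X)
  have hc0 : ∀ j, 0 ≤ c j := fun j => le_min (by positivity) (by positivity)
  -- every nontrivial character has a scale
  have hex : ∀ ψ : AddChar (𝓞 K ⧸ I) ℂ, ψ ≠ 1 → ∃ j : ℕ, ¬ P ψ (1 / 2 ^ j) := by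
    intro ψ hψ
    by_contra hcon
    push Not at hcon
    apply hψ
    have h2 : ∀ i, ψ (Ideal.Quotient.mk I (RingOfIntegers.basis K i)) = 1 := by
      intro i
      by_contra h3
      have h4 : 0 < ‖1 - ψ (Ideal.Quotient.mk I (RingOfIntegers.basis K i))‖ := by
        rw [norm_pos_iff, sub_ne_zero]
        exact Ne.symm h3
      obtain ⟨j, hj⟩ := exists_pow_lt_of_lt_one h4 (by norm_num : (1 / 2 : ℝ) < 1)
      have h5 := hcon j i
      rw [one_div_pow] at hj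
      linarith
    ext x
    obtain ⟨δ, rfl⟩ := Ideal.Quotient.mk_surjective x
    rw [← sum_crd δ, map_sum]
    have h3 : ∀ s : Finset (Idx K), ψ (∑ i ∈ s, Ideal.Quotient.mk I
        (crd δ i • RingOfIntegers.basis K i)) = 1 := by
      intro s
      induction s using Finset.induction_on with
      | empty => simp
      | insert a s ha ih =>
        rw [Finset.sum_insert ha, AddChar.map_add_eq_mul, ih, mul_one, map_zsmul,
          AddChar.map_zsmul_eq_zpow, h2, one_zpow]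
    rw [h3]
    simp
  have hscale : ∀ ψ : AddChar (𝓞 K ⧸ I) ℂ, ψ ≠ 1 → ∃ j : ℕ, P ψ (2 / 2 ^ j) ∧ S ψ ≤ C1 * c j := by
    intro ψ hψ
    have hj := Nat.find_spec (hex ψ hψ)
    have hmin := fun m => Nat.find_min (hex ψ hψ) (m := m)
    set j := Nat.find (hex ψ hψ) with hjdef
    refine ⟨j, ?_, ?_⟩
    · intro i
      rcases Nat.eq_zero_or_pos j with h0 | h0
      · rw [h0, pow_zero, div_one]
        have h2 : ‖ψ (Ideal.Quotient.mk I (RingOfIntegers.basis K i))‖ = 1 := norm_char _ _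
        calc _ ≤ ‖(1 : ℂ)‖ + ‖ψ (Ideal.Quotient.mk I (RingOfIntegers.basis K i))‖ := norm_sub_le _ _
          _ = 2 := by rw [h2, norm_one]; norm_num
      · obtain ⟨k, hk⟩ : ∃ k, j = k + 1 := ⟨j - 1, by omega⟩
        have h2 := hmin k (by omega)
        rw [not_not] at h2
        have h3 := h2 i
        rw [hk, pow_succ]
        have h4 : (2 : ℝ) / (2 ^ k * 2) = 1 / 2 ^ k := by field_simp
        rw [h4]
        exact h3
    · obtain ⟨i, hi⟩ : ∃ i, 1 / 2 ^ j <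
          ‖1 - ψ (Ideal.Quotient.mk I (RingOfIntegers.basis K i))‖ := by
        by_contra hcon
        push Not at hcon
        exact hj hcon
      obtain ⟨ha, hb⟩ := h1 I hI ψ z hz X hX
      have hb' := hb i
      show S ψ ≤ C1 * min (X ^ n) ((2 : ℝ) ^ (j * (n + 1)) / X)
      rw [mul_min_of_nonneg _ _ hC1]
      refine le_min ha ?_
      have h5 : (1 / 2 ^ j : ℝ) ^ (n + 1) * S ψ ≤ C1 / X := by
        refine le_trans ?_ hb'
        exact mul_le_mul_of_nonneg_right (pow_le_pow_left₀ (by positivity) hi.le _) (norm_nonneg _)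
      have h6 : (1 / 2 ^ j : ℝ) ^ (n + 1) = 1 / 2 ^ (j * (n + 1)) := by
        rw [one_div_pow, pow_mul]
      rw [h6] at h5
      have h7 : (0 : ℝ) < 2 ^ (j * (n + 1)) := by positivity
      calc S ψ = 2 ^ (j * (n + 1)) * (1 / 2 ^ (j * (n + 1)) * S ψ) := by field_simp
        _ ≤ 2 ^ (j * (n + 1)) * (C1 / X) := mul_le_mul_of_nonneg_left h5 h7.le
        _ = C1 * (2 ^ (j * (n + 1)) / X) := by ring
  choose! jj hjP hjS using hscale
  set Ψ := Finset.univ.filter (fun ψ : AddChar (𝓞 K ⧸ I) ℂ => ψ ≠ 1) with hΨ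
  set J := Ψ.sup jj + 1 with hJ
  have hterm : ∀ ψ ∈ Ψ, S ψ ≤ ∑ j ∈ Finset.range J, if P ψ (2 / 2 ^ j) then C1 * c j else 0 := by
    intro ψ hψ
    have hψ1 : ψ ≠ 1 := (Finset.mem_filter.1 hψ).2
    have hmem : jj ψ ∈ Finset.range J := by
      rw [Finset.mem_range, hJ]
      exact Nat.lt_succ_of_le (Finset.le_sup hψ)
    have h2 := Finset.single_le_sum (f := fun j => if P ψ (2 / 2 ^ j) then C1 * c j else 0)
      (s := Finset.range J) (fun j _ => by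
        split_ifs
        · exact mul_nonneg hC1 (hc0 j)
        · exact le_rfl) hmem
    simp only [if_pos (hjP ψ hψ1)] at h2
    exact (hjS ψ hψ1).trans h2
  have hcard : ∀ j : ℕ, ((Ψ.filter (fun ψ => P ψ (2 / 2 ^ j))).card : ℝ) ≤
      Cc * Ideal.absNorm I * (2 / 2 ^ j) ^ n := by
    intro j
    obtain ⟨hfin, hcnt⟩ := hc I hI (2 / 2 ^ j) (by positivity)
    refine le_trans ?_ hcnt
    have h3 : ((Ψ.filter (fun ψ => P ψ (2 / 2 ^ j)) : Finset (AddChar (𝓞 K ⧸ I) ℂ)) :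
        Set (AddChar (𝓞 K ⧸ I) ℂ)) = {ψ : AddChar (𝓞 K ⧸ I) ℂ | ψ ≠ 1 ∧
        ∀ i, ‖1 - ψ (Ideal.Quotient.mk I (RingOfIntegers.basis K i))‖ ≤ 2 / 2 ^ j} := by
      ext ψ
      simp [hΨ, P]
    rw [← h3, Set.ncard_coe_finset]
  calc ∑ ψ ∈ Ψ, S ψ ≤ ∑ ψ ∈ Ψ, ∑ j ∈ Finset.range J,
        (if P ψ (2 / 2 ^ j) then C1 * c j else 0) := Finset.sum_le_sum hterm
    _ = ∑ j ∈ Finset.range J, C1 * c j * ((Ψ.filter (fun ψ => P ψ (2 / 2 ^ j))).card : ℝ) := by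
        rw [Finset.sum_comm]
        refine Finset.sum_congr rfl (fun j _ => ?_)
        rw [← Finset.sum_filter, Finset.sum_const, nsmul_eq_mul, mul_comm]
    _ ≤ ∑ j ∈ Finset.range J, C1 * c j * (Cc * Ideal.absNorm I * (2 / 2 ^ j) ^ n) := by
        refine Finset.sum_le_sum (fun j _ => ?_)
        exact mul_le_mul_of_nonneg_left (hcard j) (mul_nonneg hC1 (hc0 j))
    _ = ∑ j ∈ Finset.range J, (C1 * Cc * Ideal.absNorm I) * (c j * (2 / 2 ^ j) ^ n) := by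
        refine Finset.sum_congr rfl (fun j _ => ?_)
        ring
    _ ≤ ∑ j ∈ Finset.range J, (C1 * Cc * Ideal.absNorm I) *
          (2 ^ n * min ((2 : ℝ) ^ j / X) (X / 2 ^ j)) := by
        refine Finset.sum_le_sum (fun j _ => ?_)
        exact mul_le_mul_of_nonneg_left (dyadic n hn1 X hX j) (by positivity)
    _ = (C1 * Cc * Ideal.absNorm I * 2 ^ n) *
          ∑ j ∈ Finset.range J, min ((2 : ℝ) ^ j / X) (X / 2 ^ j) := by
        rw [Finset.mul_sum]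
        refine Finset.sum_congr rfl (fun j _ => ?_)
        ring
    _ ≤ (C1 * Cc * Ideal.absNorm I * 2 ^ n) * 6 :=
        mul_le_mul_of_nonneg_left (sum_min X hX0 J) (by positivity)
    _ = C1 * Cc * 2 ^ n * 6 * Ideal.absNorm I := by ring

theorem lat (R : ℝ) : ∃ C : ℝ, 0 ≤ C ∧ ∀ (I : Ideal (𝓞 K)), I ≠ ⊥ →
    ∀ [Fintype (𝓞 K ⧸ I)] (H : 𝓞 K → ℂ) (M : ℝ), 0 ≤ M →
      (∀ x y : 𝓞 K, x - y ∈ I → H x = H y) →
      (∀ ψ : AddChar (𝓞 K ⧸ I) ℂ, ψ ≠ 1 →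
        ‖∑ x : 𝓞 K ⧸ I, H (Quotient.out x) * ψ x‖ ≤ M) →
      ∀ z : ℂ, ‖z‖ ≤ R → ∀ X : ℝ, 1 ≤ X →
        ‖∑' δ : 𝓞 K, Phi W z (crdR X δ) * H δ -
          (∑ x : 𝓞 K ⧸ I, H (Quotient.out x)) / (Ideal.absNorm I : ℂ) * Tot W z X‖ ≤ C * M := by
  classical
  obtain ⟨C, hC, hkey⟩ := LatAux.key_sum hW R
  refine ⟨C, hC, fun I hI _ H M hM hper hbd z hz X hX => ?_⟩
  have hX0 : 0 < X := by linarith
  have hcard : (Fintype.card (𝓞 K ⧸ I) : ℂ) = (Ideal.absNorm I : ℂ) := by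
    rw [Ideal.absNorm_apply, Submodule.cardQuot_apply, Nat.card_eq_fintype_card]
  have hN0 : (0 : ℝ) < (Ideal.absNorm I : ℝ) := by
    have : Ideal.absNorm I ≠ 0 := by
      rwa [Ne, Ideal.absNorm_eq_zero_iff]
    positivity
  have hN0' : (Ideal.absNorm I : ℂ) ≠ 0 := by
    have : Ideal.absNorm I ≠ 0 := by
      rwa [Ne, Ideal.absNorm_eq_zero_iff]
    exact_mod_cast this
  set F := (supp_finite hW hX0).toFinset with hF
  have hF0 : ∀ δ, δ ∉ F → Phi W z (crdR X δ) = 0 := by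
    intro δ hδ
    have : W (crdR X δ) = 0 := by
      by_contra h
      exact hδ ((supp_finite hW hX0).mem_toFinset.2 h)
    simp [Phi, this]
  obtain ⟨h, hh⟩ : ∃ h : 𝓞 K ⧸ I → ℂ, h = fun x => H (Quotient.out x) := ⟨_, rfl⟩
  have hH : ∀ δ, H δ = h (Ideal.Quotient.mk I δ) := by
    intro δ
    rw [hh]
    apply hper
    rw [← Ideal.Quotient.eq, Ideal.Quotient.mk_out]
  have hT : ∀ ψ : AddChar (𝓞 K ⧸ I) ℂ,
      ∑' δ : 𝓞 K, Phi W z (crdR X δ) * ψ (Ideal.Quotient.mk I (-δ)) =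
      ∑ δ ∈ F, Phi W z (crdR X δ) * ψ (Ideal.Quotient.mk I (-δ)) := by
    intro ψ
    refine tsum_eq_sum (fun δ hδ => ?_)
    rw [hF0 δ hδ, zero_mul]
  have hTot : Tot W z X = ∑ δ ∈ F, Phi W z (crdR X δ) :=
    tsum_eq_sum (fun δ hδ => hF0 δ hδ)
  have hmain : (Ideal.absNorm I : ℂ) * ∑' δ : 𝓞 K, Phi W z (crdR X δ) * H δ =
      ∑ ψ : AddChar (𝓞 K ⧸ I) ℂ, (∑ y, h y * ψ y) *
        ∑' δ : 𝓞 K, Phi W z (crdR X δ) * ψ (Ideal.Quotient.mk I (-δ)) := by
    rw [tsum_eq_sum (s := F) (fun δ hδ => by rw [hF0 δ hδ, zero_mul])]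
    simp only [hT]
    simp only [Finset.mul_sum]
    rw [Finset.sum_comm]
    refine Finset.sum_congr rfl (fun δ _ => ?_)
    have h2 := fourier_inv h (Ideal.Quotient.mk I δ)
    rw [hcard] at h2
    rw [hH, mul_left_comm, h2, Finset.mul_sum]
    refine Finset.sum_congr rfl (fun ψ _ => ?_)
    rw [map_neg (Ideal.Quotient.mk I)]
    ring
  have hsplit : ∑ ψ : AddChar (𝓞 K ⧸ I) ℂ, (∑ y, h y * ψ y) *
        ∑' δ : 𝓞 K, Phi W z (crdR X δ) * ψ (Ideal.Quotient.mk I (-δ)) =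
      (∑ y, h y) * Tot W z X +
      ∑ ψ ∈ Finset.univ.filter (fun ψ : AddChar (𝓞 K ⧸ I) ℂ => ψ ≠ 1), (∑ y, h y * ψ y) *
        ∑' δ : 𝓞 K, Phi W z (crdR X δ) * ψ (Ideal.Quotient.mk I (-δ)) := by
    rw [← Finset.sum_filter_add_sum_filter_not Finset.univ
      (fun ψ : AddChar (𝓞 K ⧸ I) ℂ => ψ = 1)]
    congr 1
    have : Finset.univ.filter (fun ψ : AddChar (𝓞 K ⧸ I) ℂ => ψ = 1) = {1} := by
      ext ψ; simp
    rw [this, Finset.sum_singleton]
    simp [Tot]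
  have hdiff : ∑' δ : 𝓞 K, Phi W z (crdR X δ) * H δ -
      (∑ x : 𝓞 K ⧸ I, H (Quotient.out x)) / (Ideal.absNorm I : ℂ) * Tot W z X =
      (Ideal.absNorm I : ℂ)⁻¹ *
      ∑ ψ ∈ Finset.univ.filter (fun ψ : AddChar (𝓞 K ⧸ I) ℂ => ψ ≠ 1), (∑ y, h y * ψ y) *
        ∑' δ : 𝓞 K, Phi W z (crdR X δ) * ψ (Ideal.Quotient.mk I (-δ)) := by
    rw [hsplit] at hmain
    have e1 : ∑' δ : 𝓞 K, Phi W z (crdR X δ) * H δ = (Ideal.absNorm I : ℂ)⁻¹ *
        ((Ideal.absNorm I : ℂ) * ∑' δ : 𝓞 K, Phi W z (crdR X δ) * H δ) := by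
      field_simp
    rw [e1, hmain, hh]
    field_simp
    ring
  rw [hdiff, norm_mul, norm_inv, Complex.norm_natCast]
  have h3 : ‖∑ ψ ∈ Finset.univ.filter (fun ψ : AddChar (𝓞 K ⧸ I) ℂ => ψ ≠ 1), (∑ y, h y * ψ y) *
        ∑' δ : 𝓞 K, Phi W z (crdR X δ) * ψ (Ideal.Quotient.mk I (-δ))‖ ≤
      M * (C * Ideal.absNorm I) := by
    refine (norm_sum_le _ _).trans ?_
    calc _ ≤ ∑ ψ ∈ Finset.univ.filter (fun ψ : AddChar (𝓞 K ⧸ I) ℂ => ψ ≠ 1),
          M * ‖∑' δ : 𝓞 K, Phi W z (crdR X δ) * ψ (Ideal.Quotient.mk I (-δ))‖ := by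
            refine Finset.sum_le_sum (fun ψ hψ => ?_)
            rw [norm_mul]
            refine mul_le_mul_of_nonneg_right ?_ (norm_nonneg _)
            have := hbd ψ (Finset.mem_filter.1 hψ).2
            rw [hh]
            exact this
      _ = M * ∑ ψ ∈ Finset.univ.filter (fun ψ : AddChar (𝓞 K ⧸ I) ℂ => ψ ≠ 1),
          ‖∑' δ : 𝓞 K, Phi W z (crdR X δ) * ψ (Ideal.Quotient.mk I (-δ))‖ := by
            rw [Finset.mul_sum]
      _ ≤ M * (C * Ideal.absNorm I) := mul_le_mul_of_nonneg_left (hkey I hI z hz X hX) hM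
  calc _ ≤ (Ideal.absNorm I : ℝ)⁻¹ * (M * (C * Ideal.absNorm I)) :=
        mul_le_mul_of_nonneg_left h3 (by positivity)
    _ = C * M := by field_simp

theorem tot_double (R : ℝ) : ∃ C : ℝ, 0 ≤ C ∧ ∀ z : ℂ, ‖z‖ ≤ R → ∀ X : ℝ, 1 ≤ X →
    ‖Tot W z (2 * X) - 2 ^ Module.finrank ℚ K * Tot W z X‖ ≤ C := by
  classical
  obtain ⟨C, hC, hlat⟩ := lat hW R
  refine ⟨2 ^ Module.finrank ℚ K * C, by positivity, fun z hz X hX => ?_⟩
  set I : Ideal (𝓞 K) := Ideal.span {2} with hI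
  have hI0 : I ≠ ⊥ := by
    rw [hI, Ne, Ideal.span_singleton_eq_bot]
    norm_num
  have hNI : Ideal.absNorm I = 2 ^ Module.finrank ℚ K := by
    rw [hI, Ideal.absNorm_span_singleton]
    have h1 : (2 : 𝓞 K) = algebraMap ℤ (𝓞 K) 2 := by simp
    rw [h1, Algebra.norm_algebraMap, RingOfIntegers.rank]
    simp
  haveI : Finite (𝓞 K ⧸ I) := Ideal.finiteQuotientOfFreeOfNeBot I hI0
  letI : Fintype (𝓞 K ⧸ I) := Fintype.ofFinite _
  have hout : ∀ x : 𝓞 K ⧸ I, Quotient.out x ∈ I ↔ x = 0 := by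
    intro x
    rw [← Ideal.Quotient.eq_zero_iff_mem, Ideal.Quotient.mk_out]
  have h1 := hlat I hI0 (fun δ => if δ ∈ I then 1 else 0) 1 zero_le_one
    (fun x y hxy => by
      have : x ∈ I ↔ y ∈ I := by
        constructor
        · intro hx
          have := I.sub_mem hx hxy
          simpa using this
        · intro hy
          have := I.add_mem hxy hy
          simpa using this
      simp only [this])
    (fun ψ _ => by
      simp only [hout]
      simp)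
    z hz (2 * X) (by linarith)
  have h2 : ∑ x : 𝓞 K ⧸ I, (if Quotient.out x ∈ I then (1 : ℂ) else 0) = 1 := by
    simp only [hout]
    simp
  have h3 : ∑' δ : 𝓞 K, Phi W z (crdR (2 * X) δ) * (if δ ∈ I then (1 : ℂ) else 0) = Tot W z X := by
    have hinj : Function.Injective (fun δ : 𝓞 K => 2 * δ) := by
      intro a b hab
      exact mul_left_cancel₀ (by norm_num : (2 : 𝓞 K) ≠ 0) hab
    have hsupp : Function.support (fun δ : 𝓞 K =>
        Phi W z (crdR (2 * X) δ) * (if δ ∈ I then (1 : ℂ) else 0)) ⊆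
        Set.range (fun δ : 𝓞 K => 2 * δ) := by
      intro δ hδ
      by_contra hcon
      apply hδ
      have : δ ∉ I := by
        intro h
        rw [hI, Ideal.mem_span_singleton] at h
        obtain ⟨e, he⟩ := h
        exact hcon ⟨e, he.symm⟩
      simp [this]
    rw [← hinj.tsum_eq hsupp]
    refine tsum_congr (fun δ => ?_)
    have h4 : 2 * δ ∈ I := by
      rw [hI, Ideal.mem_span_singleton]
      exact dvd_mul_right _ _
    rw [if_pos h4, mul_one]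
    congr 1
    ext i
    unfold crdR
    have h5 : crd (2 * δ) i = 2 * crd δ i := by
      rw [two_mul, crd_add]
      simp [two_mul]
    rw [h5]
    push_cast
    rw [mul_div_mul_left _ _ (by norm_num : (2 : ℝ) ≠ 0)]
  rw [h3, h2, hNI] at h1
  rw [mul_one] at h1
  have h6 : Tot W z (2 * X) - 2 ^ Module.finrank ℚ K * Tot W z X =
      -((2 : ℂ) ^ Module.finrank ℚ K * (Tot W z X - 1 / ((2 ^ Module.finrank ℚ K : ℕ) : ℂ) *
        Tot W z (2 * X))) := by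
    push_cast
    field_simp
    ring
  rw [h6, norm_neg, norm_mul, norm_pow, Complex.norm_ofNat]
  exact mul_le_mul_of_nonneg_left h1 (by positivity)

end Pool.Agent.HWR
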