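import Pool.Agent.HWR.Lat
import Pool.Agent.HWR.Gauss

/-!
# HWR-P7: smooth sums of `hh`

Case A, `N 𝔠 ≤ (3/2)^n X^n`: `lat` with `I = JJ`, `H = hh`, the Gauss bound.  Case B, `N 𝔠 > (3/2)^n X^n`:
the sum over `δ` is `0`, and the main term is small.
-/

namespace Pool.Agent.HWR

open NumberField IsDedekindDomain

open Classical in
theorem LatAux.vanish {K : Type} [Field K] [NumberField K] {W : (Idx K → ℝ) → ℝ} (hW : IsWeight W)
    (I0 : Ideal (𝓞 K)) (δ1 : 𝓞 K) (s l : Finset (HeightOneSpectrum (𝓞 K)))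
    (c : HeightOneSpectrum (𝓞 K) → ℕ) (z : ℂ) (X : ℝ) (hX : 0 < X)
    (hbig : (3 / 2 : ℝ) ^ Module.finrank ℚ K * X ^ Module.finrank ℚ K <
      ∏ v ∈ s, (nrm v : ℝ) ^ c v) (δ : 𝓞 K) :
    Phi W z (crdR X δ) * hh I0 δ1 s l c δ = 0 := by
  by_contra hne
  have h1 : Phi W z (crdR X δ) ≠ 0 := left_ne_zero_of_mul hne
  have h2 : hh I0 δ1 s l c δ ≠ 0 := right_ne_zero_of_mul hne
  have hWn : W (crdR X δ) ≠ 0 := by
    intro h
    apply h1
    simp [Phi, h]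
  have hδ0 : δ ≠ 0 := ne_zero_of_ne hW hX hWn
  have hmem : ∀ v ∈ s, δ ∈ v.asIdeal ^ c v := by
    intro v hv
    by_contra hcon
    apply h2
    unfold hh
    have : ∏ v ∈ s, (if δ ∈ v.asIdeal ^ c v then (1 : ℂ) else 0) = 0 :=
      Finset.prod_eq_zero hv (if_neg hcon)
    rw [this]
    ring
  have hprod : δ ∈ ∏ v ∈ s, v.asIdeal ^ c v := by
    rw [← IsDedekindDomain.inf_prime_pow_eq_prod s (fun v => v.asIdeal) c
      (fun v _ => v.prime) (fun v _ w _ hvw h => hvw (HeightOneSpectrum.ext h))]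
    rw [Finset.inf_eq_iInf]
    simp only [Submodule.mem_iInf]
    exact hmem
  have hdvd : Ideal.absNorm (∏ v ∈ s, v.asIdeal ^ c v) ∣ Ideal.absNorm (Ideal.span {δ}) :=
    Ideal.absNorm_dvd_absNorm_of_le ((Ideal.span_singleton_le_iff_mem _).2 hprod)
  rw [Ideal.absNorm_span_singleton, map_prod] at hdvd
  simp only [map_pow] at hdvd
  have hN0 : (Algebra.norm ℤ δ).natAbs ≠ 0 := by
    rw [Int.natAbs_ne_zero]
    exact Algebra.norm_ne_zero_iff.2 hδ0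
  have hle : ∏ v ∈ s, Ideal.absNorm v.asIdeal ^ c v ≤ (Algebra.norm ℤ δ).natAbs :=
    Nat.le_of_dvd (Nat.pos_of_ne_zero hN0) hdvd
  have hle' : ∏ v ∈ s, (nrm v : ℝ) ^ c v ≤ ((Algebra.norm ℤ δ).natAbs : ℝ) := by
    have : ((∏ v ∈ s, Ideal.absNorm v.asIdeal ^ c v : ℕ) : ℝ) ≤ ((Algebra.norm ℤ δ).natAbs : ℝ) := by
      exact_mod_cast hle
    rw [Nat.cast_prod] at this
    simp only [Nat.cast_pow] at this
    exact this
  have hNN := (NN_bounds hW hWn).2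
  rw [NN_crdR hX, div_le_iff₀ (by positivity)] at hNN
  linarith

open Classical in
theorem latc {K : Type} [Field K] [NumberField K] {W : (Idx K → ℝ) → ℝ} (hW : IsWeight W)
    {I0 : Ideal (𝓞 K)} (hI0 : I0 ≠ ⊥) (δ1 : 𝓞 K) {ε : ℝ} (hε : 0 < ε)
    (hε1 : ε ≤ 1) (R : ℝ) :
    ∃ C : ℝ, 0 ≤ C ∧ ∀ (s l : Finset (HeightOneSpectrum (𝓞 K))), l ⊆ s →
      (∀ v ∈ s, ¬ I0 ≤ v.asIdeal) → (∀ v ∈ l, (2 : 𝓞 K) ∉ v.asIdeal) →
      ∀ c : HeightOneSpectrum (𝓞 K) → ℕ, (∀ v ∈ l, Even (c v)) →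
      ∀ z : ℂ, ‖z‖ ≤ R → ∀ X : ℝ, 1 ≤ X →
        ‖∑' δ : 𝓞 K, Phi W z (crdR X δ) * hh I0 δ1 s l c δ -
          (if l = ∅ then
            Tot W z X / ((Ideal.absNorm I0 : ℂ) * ∏ v ∈ s, (nrm v : ℂ) ^ c v) else 0)‖ ≤
        C * (∏ v ∈ l, (2 * Real.sqrt (nrm v))) *
          (X ^ Module.finrank ℚ K / ∏ v ∈ s, (nrm v : ℝ) ^ c v) ^ ε := by
  obtain ⟨C1, hC1, hlat⟩ := lat hW R
  obtain ⟨C2, hC2, hsb⟩ := exists_sum_bound hW R
  set n := Module.finrank ℚ K with hn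
  refine ⟨(C1 + C2) * (3 / 2) ^ n, by positivity, fun s l hl hs h2 c hc z hz X hX => ?_⟩
  have hX0 : 0 < X := by linarith
  have hnrm : ∀ v : HeightOneSpectrum (𝓞 K), (0 : ℝ) < (nrm v : ℝ) := by
    intro v
    have h : nrm v ≠ 0 := by
      unfold nrm
      rw [Ne, Ideal.absNorm_eq_zero_iff]
      exact v.ne_bot
    positivity
  obtain ⟨Nc, hNc⟩ : ∃ Nc : ℝ, Nc = ∏ v ∈ s, (nrm v : ℝ) ^ c v := ⟨_, rfl⟩
  have hNc0 : 0 < Nc := by
    rw [hNc]; exact Finset.prod_pos (fun v _ => pow_pos (hnrm v) _)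
  obtain ⟨M, hM⟩ : ∃ M : ℝ, M = ∏ v ∈ l, (2 * Real.sqrt (nrm v)) := ⟨_, rfl⟩
  have hM0 : 0 ≤ M := by
    rw [hM]; exact Finset.prod_nonneg (fun v _ => by positivity)
  obtain ⟨q, hq⟩ : ∃ q : ℝ, q = X ^ n / Nc := ⟨_, rfl⟩
  have hq0 : 0 < q := by rw [hq]; positivity
  rw [← hNc, ← hM, ← hq]
  have hI0' : (1 : ℝ) ≤ (Ideal.absNorm I0 : ℝ) := by
    have : Ideal.absNorm I0 ≠ 0 := by rwa [Ne, Ideal.absNorm_eq_zero_iff]
    exact_mod_cast Nat.one_le_iff_ne_zero.2 this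
  have hp32 : (1 : ℝ) ≤ (3 / 2 : ℝ) ^ n := one_le_pow₀ (by norm_num)
  by_cases hcase : Nc ≤ (3 / 2 : ℝ) ^ n * X ^ n
  · -- case A
    have hone : 1 ≤ (3 / 2 : ℝ) ^ n * q ^ ε := by
      have h1 : (2 / 3 : ℝ) ^ n ≤ q := by
        rw [hq, le_div_iff₀ hNc0]
        calc (2 / 3 : ℝ) ^ n * Nc ≤ (2 / 3 : ℝ) ^ n * ((3 / 2 : ℝ) ^ n * X ^ n) :=
              mul_le_mul_of_nonneg_left hcase (by positivity)
          _ = X ^ n := by
              rw [← mul_assoc, ← mul_pow]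
              norm_num
      have h2 : (2 / 3 : ℝ) ^ n ≤ q ^ ε := by
        calc (2 / 3 : ℝ) ^ n = ((2 / 3 : ℝ) ^ n) ^ (1 : ℝ) := (Real.rpow_one _).symm
          _ ≤ ((2 / 3 : ℝ) ^ n) ^ ε :=
              Real.rpow_le_rpow_of_exponent_ge (by positivity)
                (pow_le_one₀ (by norm_num) (by norm_num)) hε1
          _ ≤ q ^ ε := Real.rpow_le_rpow (by positivity) h1 hε.le
      calc (1 : ℝ) = (3 / 2 : ℝ) ^ n * (2 / 3 : ℝ) ^ n := by
            rw [← mul_pow]; norm_num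
        _ ≤ _ := mul_le_mul_of_nonneg_left h2 (by positivity)
    have hJ := JJ_ne_bot hI0 hl hs h2 c hc
    haveI : Finite (𝓞 K ⧸ JJ I0 s l c) := Ideal.finiteQuotientOfFreeOfNeBot _ hJ
    letI : Fintype (𝓞 K ⧸ JJ I0 s l c) := Fintype.ofFinite _
    have h3 := hlat (JJ I0 s l c) hJ (hh I0 δ1 s l c) M hM0
      (fun x y hxy => hh_congr I0 δ1 s l hl c x y hxy)
      (fun ψ _ => by rw [hM]; exact gauss_bound hI0 δ1 hl hs h2 c hc ψ) z hz X hX
    have h4 : (∑ x : 𝓞 K ⧸ JJ I0 s l c, hh I0 δ1 s l c (Quotient.out x)) /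
        (Ideal.absNorm (JJ I0 s l c) : ℂ) * Tot W z X =
        (if l = ∅ then
            Tot W z X / ((Ideal.absNorm I0 : ℂ) * ∏ v ∈ s, (nrm v : ℂ) ^ c v) else 0) := by
      by_cases he : l = ∅
      · rw [if_pos he, sum_empty hI0 δ1 hl hs h2 c hc he, absNorm_JJ hI0 hl hs h2 c hc]
        have e1 : ∏ v ∈ l, nrm v = 1 := by rw [he]; simp
        rw [e1, mul_one]
        push_cast
        ring
      · rw [if_neg he, sum_zero hI0 δ1 hl hs h2 c hc he]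
        simp
    rw [h4] at h3
    refine h3.trans ?_
    clear h3 h4
    have h5 : C1 * M ≤ (C1 + C2) * M := mul_le_mul_of_nonneg_right (by linarith) hM0
    calc C1 * M ≤ (C1 + C2) * M := h5
      _ = (C1 + C2) * M * 1 := by ring
      _ ≤ (C1 + C2) * M * ((3 / 2 : ℝ) ^ n * q ^ ε) :=
          mul_le_mul_of_nonneg_left hone (mul_nonneg (add_nonneg hC1 hC2) hM0)
      _ = (C1 + C2) * (3 / 2) ^ n * M * q ^ ε := by ring
  · -- case B
    push Not at hcase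
    have h3 : ∑' δ : 𝓞 K, Phi W z (crdR X δ) * hh I0 δ1 s l c δ = 0 := by
      rw [tsum_congr (fun δ => LatAux.vanish hW I0 δ1 s l c z X hX0 (by rw [← hNc]; exact hcase) δ)]
      exact tsum_zero
    rw [h3, zero_sub, norm_neg]
    by_cases he : l = ∅
    · rw [if_pos he]
      have hM1 : M = 1 := by rw [hM, he]; simp
      have hq1 : q ≤ 1 := by
        rw [hq, div_le_one hNc0]
        have : X ^ n ≤ (3 / 2 : ℝ) ^ n * X ^ n := by
          have : 0 ≤ X ^ n := by positivity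
          nlinarith
        linarith
      have hqε : q ≤ q ^ ε := by
        calc q = q ^ (1 : ℝ) := (Real.rpow_one _).symm
          _ ≤ q ^ ε := Real.rpow_le_rpow_of_exponent_ge hq0 hq1 hε1
      have hT : ‖Tot W z X‖ ≤ C2 * X ^ n := by
        refine (norm_tsum_le_tsum_norm (summable_norm_Phi hW z hX0)).trans ?_
        exact hsb z ((Complex.abs_re_le_norm z).trans hz) X hX
      have hD : ‖((Ideal.absNorm I0 : ℂ) * ∏ v ∈ s, (nrm v : ℂ) ^ c v)‖ =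
          (Ideal.absNorm I0 : ℝ) * Nc := by
        rw [norm_mul, Complex.norm_natCast, _root_.norm_prod]
        congr 1
        rw [hNc]
        refine Finset.prod_congr rfl (fun v _ => ?_)
        rw [norm_pow, Complex.norm_natCast]
      rw [norm_div, hD, hM1, mul_one]
      calc ‖Tot W z X‖ / ((Ideal.absNorm I0 : ℝ) * Nc) ≤ (C2 * X ^ n) / ((Ideal.absNorm I0 : ℝ) * Nc) := by
            gcongr
        _ ≤ (C2 * X ^ n) / Nc := by
            apply div_le_div_of_nonneg_left (by positivity) hNc0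
            nlinarith
        _ = C2 * q := by rw [hq]; ring
        _ ≤ C2 * q ^ ε := mul_le_mul_of_nonneg_left hqε hC2
        _ ≤ (C1 + C2) * (3 / 2) ^ n * q ^ ε := by
            refine mul_le_mul_of_nonneg_right ?_ (by positivity)
            nlinarith
    · rw [if_neg he, norm_zero]
      positivity

end Pool.Agent.HWR
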