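import Pool.Agent.HWR.MainAux

/-!
# HWR-MAIN, part 2 (owner helper86): the members of the family
-/

namespace Pool.Agent.HWR

open NumberField IsDedekindDomain Filter Topology

section Fam

variable {K : Type} [Field K] [NumberField K]

/-- the condition on elements of the family -/
def InFam {T : Finset ℕ} (D : Dat K T) (δ : 𝓞 K) : Prop :=
  δ ≠ 0 ∧ δ - D.δ1 ∈ D.I0 ∧ ∀ σ : K →+* ℂ, ComplexEmbedding.IsReal σ → (σ (δ : K)).re < 0

/-- what we know about a member of the family -/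
def GoodPsi (a : ℕ → ℝ) {T : Finset ℕ} (D : Dat K T) (Q' : ℝ) (L : List (ℂ × ℕ)) (δ : 𝓞 K)
    (Ψ : ℂ → ℂ) : Prop :=
  Differentiable ℂ Ψ ∧ FinOrd Ψ ∧
      (∀ s : ℂ, Ψ s = (-1) ^ Module.finrank ℚ K *
        ((Q' * ((Algebra.norm ℤ δ).natAbs : ℝ) ^ 2 : ℝ) : ℂ) ^ (1 - s) * Ψ (2 - s)) ∧
      ∀ s : ℂ, 3 / 2 < s.re → Ψ s =
        gam1 s ^ (2 * Module.finrank ℚ K) * (finEuler L s ^ 2 * Fm a (nrm D.q) s *
          (∏' v : D.P, efac a (nrm v.1) s)) * ∏' v : D.P, loc a v.1 δ s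

/-- the common factor -/
noncomputable def pref (a : ℕ → ℝ) {T : Finset ℕ} (D : Dat K T) (L : List (ℂ × ℕ)) (s : ℂ) : ℂ :=
  gam1 s ^ (2 * Module.finrank ℚ K) * (finEuler L s ^ 2 * Fm a (nrm D.q) s *
          (∏' v : D.P, efac a (nrm v.1) s))

variable {a : ℕ → ℝ} (ha : ∀ q : ℕ, |a q| ≤ 2 * Real.sqrt q) {T : Finset ℕ}
    (hT : ∀ p : ℕ, p.Prime → p < 101 → p ∈ T) (D : Dat K T)
    {L : List (ℂ × ℕ)} (hL : ∀ x ∈ L, 2 ≤ x.2 ∧ ‖x.1‖ ≤ x.2)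
include ha hT hL

theorem pref_line {b : ℝ} (hb : 3 / 2 < b) :
    ∃ C : ℝ, 0 ≤ C ∧ ∀ s : ℂ, s.re = b → ‖pref a D L s‖ ≤ C := by
  obtain ⟨C1, h1⟩ := gam1_line (b := b) (by linarith)
  obtain ⟨C2, h2⟩ := finEuler_line hL (b := b) (by linarith)
  obtain ⟨C3, h3⟩ := bdd_tprod_efac ha (fun v : D.P => nrm_ge K T hT v.1 v.2.1)
    (fun x hx => summable_P D hx) hb
  refine ⟨|C1| ^ (2 * Module.finrank ℚ K) * (|C2| ^ 2 * 4 * |C3|), by positivity, fun s hs => ?_⟩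
  unfold pref
  have hq := nrm_ge K T hT D.q D.hq
  have e4 : ‖Fm a (nrm D.q) s‖ ≤ 4 := by
    have h := Fm_sub_one ha hq (s := s) (by rw [hs]; linarith)
    have h5 : (nrm D.q : ℝ) ^ (1 - 2 * s.re) ≤ 1 := by
      apply Real.rpow_le_one_of_one_le_of_nonpos
      · have : (101 : ℝ) ≤ nrm D.q := by exact_mod_cast hq
        linarith
      · rw [hs]; linarith
    calc ‖Fm a (nrm D.q) s‖ = ‖(Fm a (nrm D.q) s - 1) + 1‖ := by ring_nf
      _ ≤ ‖Fm a (nrm D.q) s - 1‖ + ‖(1 : ℂ)‖ := norm_add_le _ _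
      _ ≤ 3 * 1 + 1 := by rw [norm_one]; linarith
      _ = 4 := by norm_num
  rw [norm_mul, norm_mul, norm_mul, norm_pow, norm_pow]
  have g1 := (h1 s hs).trans (le_abs_self C1)
  have g2 := (h2 s hs).trans (le_abs_self C2)
  have g3 := (h3 s hs).trans (le_abs_self C3)
  gcongr

omit hL in
theorem pref_ne {s : ℂ} (hs : 3 / 2 < s.re) (hL' : finEuler L s ≠ 0) :
    gam1 s ^ (2 * Module.finrank ℚ K) * (finEuler L s ^ 2 * Fm a (nrm D.q) s) ≠ 0 := by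
  have hq := nrm_ge K T hT D.q D.hq
  exact mul_ne_zero (pow_ne_zero _ (gam1_ne (by linarith)))
    (mul_ne_zero (pow_ne_zero _ hL') (Fm_ne ha hq (by linarith)))

/-- uniform bound on vertical lines to the right -/
theorem psi_line (Q' : ℝ) {b : ℝ} (hb : 3 / 2 < b) :
    ∃ C : ℝ, 0 ≤ C ∧ ∀ (δ : 𝓞 K) (Ψ : ℂ → ℂ), δ ≠ 0 → GoodPsi a D Q' L δ Ψ → ∀ s : ℂ, s.re = b →
      ‖Ψ s‖ ≤ C := by
  obtain ⟨C1, hC1, h1⟩ := pref_line ha hT D hL hb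
  obtain ⟨C2, h2⟩ := loc_bdd ha hT D hb
  refine ⟨C1 * |C2|, by positivity, fun δ Ψ hδ hΨ s hs => ?_⟩
  rw [hΨ.2.2.2 s (by rw [hs]; exact hb)]
  have := h1 s hs
  unfold pref at this
  rw [norm_mul]
  have g2 := (h2 δ hδ s hs).trans (le_abs_self C2)
  gcongr

/-- each member is bounded in vertical strips -/
theorem psi_strip {Q' : ℝ} (hQ' : 0 < Q') {δ : 𝓞 K} (hδ : δ ≠ 0) {Ψ : ℂ → ℂ}
    (hΨ : GoodPsi a D Q' L δ Ψ) (x y : ℝ) :
    ∃ M : ℝ, ∀ s : ℂ, x ≤ s.re → s.re ≤ y → ‖Ψ s‖ ≤ M := by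
  obtain ⟨h1, h2, h3, h4⟩ := hΨ
  set b : ℝ := max 2 (max (2 - x) y) with hb
  have hb2 : 2 ≤ b := le_max_left _ _
  have hbx : 2 - b ≤ x := by
    have : 2 - x ≤ b := (le_max_left _ _).trans (le_max_right _ _)
    linarith
  have hby : y ≤ b := (le_max_right _ _).trans (le_max_right _ _)
  obtain ⟨C, hC, hline⟩ := psi_line ha hT D hL Q' (b := b) (by linarith)
  set Nn : ℝ := Q' * ((Algebra.norm ℤ δ).natAbs : ℝ) ^ 2 with hNn
  have hNpos : 0 < Nn := by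
    have : (Algebra.norm ℤ δ).natAbs ≠ 0 := by
      rw [Int.natAbs_ne_zero]
      exact Algebra.norm_ne_zero_iff.2 hδ
    have h' : (0 : ℝ) < ((Algebra.norm ℤ δ).natAbs : ℝ) := by
      exact_mod_cast Nat.pos_of_ne_zero this
    positivity
  refine ⟨max C (Nn ^ (b - 1) * C), ?_⟩
  have key := bounded_of_edges h1 (a := 2 - b) (b := b) (by linarith) (h2 (2 - b) b)
    (M := max C (Nn ^ (b - 1) * C)) ?_ ?_
  · intro s hs1 hs2
    exact key s (by linarith) (by linarith)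
  · intro s hs
    refine le_trans ?_ (le_max_right _ _)
    rw [h3 s, norm_mul, norm_mul]
    have e1 : ‖((-1 : ℂ)) ^ Module.finrank ℚ K‖ = 1 := by simp
    have e2 : ‖((Nn : ℝ) : ℂ) ^ (1 - s)‖ = Nn ^ (b - 1) := by
      rw [Complex.norm_cpow_eq_rpow_re_of_pos hNpos]
      congr 1
      simp [hs]; ring
    have e3 : ‖Ψ (2 - s)‖ ≤ C := hline δ Ψ hδ ⟨h1, h2, h3, h4⟩ (2 - s) (by simp [hs])
    rw [e1, e2, one_mul]
    gcongr
  · intro s hs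
    exact (hline δ Ψ hδ ⟨h1, h2, h3, h4⟩ s hs).trans (le_max_left _ _)

end Fam

end Pool.Agent.HWR
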