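import Pool.Agent.HWR.MainFam

/-!
# HWR-MAIN, part 3 (owner helper86): the sums over the family
-/

namespace Pool.Agent.HWR

open NumberField IsDedekindDomain Filter Topology

section Sums

variable {K : Type} [Field K] [NumberField K]

open Classical in
/-- the sums over the family -/
noncomputable def SS (W : (Idx K → ℝ) → ℝ) {T : Finset ℕ} (D : Dat K T) (Psi : 𝓞 K → ℂ → ℂ)
    (j : ℕ) (z s : ℂ) : ℂ :=
  ∑' δ : 𝓞 K, Phi W z (crdR ((2 : ℝ) ^ j) δ) * ((if δ - D.δ1 ∈ D.I0 then 1 else 0) * Psi δ s)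

/-- normalised total weight -/
noncomputable def cc (W : (Idx K → ℝ) → ℝ) {T : Finset ℕ} (D : Dat K T) (j : ℕ) (z : ℂ) : ℂ :=
  Tot W z ((2 : ℝ) ^ j) / ((Ideal.absNorm D.I0 : ℂ) * (2 : ℂ) ^ (Module.finrank ℚ K * j))

variable {W : (Idx K → ℝ) → ℝ} (hW : IsWeight W)
  {a : ℕ → ℝ} (ha : ∀ q : ℕ, |a q| ≤ 2 * Real.sqrt q) {T : Finset ℕ}
    (hT : ∀ p : ℕ, p.Prime → p < 101 → p ∈ T) (hTp : ∀ p ∈ T, p.Prime) (D : Dat K T)
    {L : List (ℂ × ℕ)} (hL : ∀ x ∈ L, 2 ≤ x.2 ∧ ‖x.1‖ ≤ x.2) {Q' : ℝ} (hQ' : 0 < Q')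
    {Psi : 𝓞 K → ℂ → ℂ} (hPsi : ∀ δ, InFam D δ → GoodPsi a D Q' L δ (Psi δ))

theorem Phi_eq_zero {z : ℂ} {y : Idx K → ℝ} (h : W y = 0) : Phi W z y = 0 := by
  simp [Phi, h]

theorem absNorm_I0_pos (hTp : ∀ p ∈ T, p.Prime) : (0 : ℝ) < Ideal.absNorm D.I0 := by
  have h := D.I0_ne_bot hTp
  exact_mod_cast Nat.pos_of_ne_zero (by rwa [Ne, Ideal.absNorm_eq_zero_iff])

include hW in
theorem inFam_of {X : ℝ} (hX : 0 < X) {δ : 𝓞 K} (h : W (crdR X δ) ≠ 0)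
    (hδ : δ - D.δ1 ∈ D.I0) : InFam D δ :=
  ⟨ne_zero_of_ne hW hX h, hδ, fun σ _ => neg_of_ne hW hX h σ⟩

open Classical in
include hW in
theorem SS_eq_sum (j : ℕ) (z s : ℂ) :
    SS W D Psi j z s = ∑ δ ∈ (supp_finite hW (X := (2 : ℝ) ^ j) (by positivity)).toFinset,
      Phi W z (crdR ((2 : ℝ) ^ j) δ) * ((if δ - D.δ1 ∈ D.I0 then 1 else 0) * Psi δ s) := by
  unfold SS
  refine tsum_eq_sum fun δ hδ => ?_
  have : W (crdR ((2 : ℝ) ^ j) δ) = 0 := by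
    by_contra h
    exact hδ (by simpa using h)
  rw [Phi_eq_zero this, zero_mul]

include hW hPsi in
theorem SS_diff (j : ℕ) : Differentiable ℂ (SS W D Psi j 0) := by
  classical
  have e : SS W D Psi j 0 = fun s =>
      ∑ δ ∈ (supp_finite hW (X := (2 : ℝ) ^ j) (by positivity)).toFinset,
      Phi W 0 (crdR ((2 : ℝ) ^ j) δ) * ((if δ - D.δ1 ∈ D.I0 then 1 else 0) * Psi δ s) := by
    funext s; exact SS_eq_sum hW D j 0 s
  rw [e]
  refine Differentiable.fun_sum fun δ hδ => ?_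
  have hδ' : W (crdR ((2 : ℝ) ^ j) δ) ≠ 0 := by simpa using hδ
  by_cases hm : δ - D.δ1 ∈ D.I0
  · simp only [hm, if_true, one_mul]
    exact (hPsi δ (inFam_of hW D (by positivity) hδ' hm)).1.const_mul _
  · simp only [hm, if_false, zero_mul, mul_zero]
    exact differentiable_const _

include hW ha hT hL hQ' hPsi in
theorem SS_strip (j : ℕ) (x y : ℝ) :
    ∃ M : ℝ, ∀ s : ℂ, x ≤ s.re → s.re ≤ y → ‖SS W D Psi j 0 s‖ ≤ M := by
  classical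
  set F := (supp_finite hW (X := (2 : ℝ) ^ j) (by positivity)).toFinset with hF
  have h1 : ∀ δ : 𝓞 K, ∃ M : ℝ, δ ∈ F → ∀ s : ℂ, x ≤ s.re → s.re ≤ y →
      ‖Phi W 0 (crdR ((2 : ℝ) ^ j) δ) * ((if δ - D.δ1 ∈ D.I0 then 1 else 0) * Psi δ s)‖ ≤ M := by
    intro δ
    by_cases hδ : δ ∈ F
    · have hδ' : W (crdR ((2 : ℝ) ^ j) δ) ≠ 0 := by simpa [hF] using hδ
      by_cases hm : δ - D.δ1 ∈ D.I0
      · have hfam := inFam_of hW D (by positivity) hδ' hm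
        obtain ⟨M, hM⟩ := psi_strip ha hT D hL hQ' hfam.1 (hPsi δ hfam) x y
        refine ⟨‖Phi W 0 (crdR ((2 : ℝ) ^ j) δ)‖ * M, fun _ s h1 h2 => ?_⟩
        simp only [hm, if_true, one_mul]
        rw [norm_mul]
        have := hM s h1 h2
        gcongr
      · exact ⟨0, fun _ s _ _ => by simp [hm]⟩
    · exact ⟨0, fun h => absurd h hδ⟩
  choose M hM using h1
  refine ⟨∑ δ ∈ F, M δ, fun s hs1 hs2 => ?_⟩
  rw [SS_eq_sum hW D j 0 s]
  exact (norm_sum_le _ _).trans (Finset.sum_le_sum fun δ hδ => hM δ hδ s hs1 hs2)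

include hW hPsi in
theorem SS_fe (j : ℕ) (s : ℂ) (hQ' : 0 < Q') : SS W D Psi j 0 s =
      ((-1 : ℂ) ^ Module.finrank ℚ K) * (Q' : ℂ) ^ (1 - s) *
        (2 : ℂ) ^ (2 * (Module.finrank ℚ K : ℂ) * (j : ℂ) * (1 - s)) *
        SS W D Psi j (2 * (1 - s)) (2 - s) := by
  classical
  rw [SS_eq_sum hW D j 0 s, SS_eq_sum hW D j _ (2 - s), Finset.mul_sum]
  refine Finset.sum_congr rfl fun δ hδ => ?_
  have hδ' : W (crdR ((2 : ℝ) ^ j) δ) ≠ 0 := by simpa using hδ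
  by_cases hm : δ - D.δ1 ∈ D.I0
  · simp only [hm, if_true, one_mul]
    have hfam := inFam_of hW D (by positivity) hδ' hm
    obtain ⟨-, -, h3, -⟩ := hPsi δ hfam
    rw [h3 s]
    have hX : (0 : ℝ) < (2 : ℝ) ^ j := by positivity
    set n := Module.finrank ℚ K with hn
    set Nd : ℝ := ((Algebra.norm ℤ δ).natAbs : ℝ) with hNd
    have hNN := NN_crdR (δ := δ) hX
    rw [← hn, ← hNd] at hNN
    have hNdpos : 0 < Nd := by
      have : (Algebra.norm ℤ δ).natAbs ≠ 0 := by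
        rw [Int.natAbs_ne_zero]
        exact Algebra.norm_ne_zero_iff.2 hfam.1
      rw [hNd]
      exact_mod_cast Nat.pos_of_ne_zero this
    have hNNpos : 0 < NN (crdR ((2 : ℝ) ^ j) δ) := by rw [hNN]; positivity
    have e0 : Q' * Nd ^ 2 = Q' * (((2 : ℝ) ^ (n * j)) ^ 2 * (NN (crdR ((2 : ℝ) ^ j) δ)) ^ 2) := by
      rw [hNN, ← pow_mul (2 : ℝ) j n, mul_comm j n]
      field_simp
    have e1 : ((Q' * Nd ^ 2 : ℝ) : ℂ) ^ (1 - s) = (Q' : ℂ) ^ (1 - s) *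
        ((2 : ℂ) ^ (2 * (n : ℂ) * (j : ℂ) * (1 - s)) *
          ((NN (crdR ((2 : ℝ) ^ j) δ) : ℝ) : ℂ) ^ (2 * (1 - s))) := by
      rw [e0, Complex.ofReal_mul, Complex.mul_cpow_ofReal_nonneg hQ'.le (by positivity),
        Complex.ofReal_mul, Complex.mul_cpow_ofReal_nonneg (by positivity) (by positivity)]
      congr 2
      · rw [ofReal_pow_cpow (by positivity) 2, ofReal_pow_cpow (by norm_num) (n * j), ← pow_mul]
        have := Complex.cpow_nat_mul ((2 : ℝ) : ℂ) (n * j * 2) (1 - s)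
        rw [← this]
        push_cast
        congr 1
        ring
      · rw [ofReal_pow_cpow hNNpos.le 2]
        have := Complex.cpow_nat_mul ((NN (crdR ((2 : ℝ) ^ j) δ) : ℝ) : ℂ) 2 (1 - s)
        rw [← this]
        norm_num
    rw [e1]
    unfold Phi
    rw [Complex.cpow_zero]
    ring
  · simp only [hm, if_false, zero_mul, mul_zero]

include hW ha hT hL hPsi in
theorem SS_triv {b : ℝ} (hb : 3 / 2 < b) (x : ℝ) :
    ∃ C : ℝ, ∀ (j : ℕ) (z s : ℂ), z.re = x → s.re = b →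
      ‖SS W D Psi j z s‖ ≤ C * (2 : ℝ) ^ ((Module.finrank ℚ K : ℝ) * (j : ℝ)) := by
  classical
  obtain ⟨C1, hC1, h1⟩ := psi_line ha hT D hL Q' hb
  obtain ⟨C2, hC2, h2⟩ := exists_sum_bound hW |x|
  refine ⟨C2 * C1, fun j z s hz hs => ?_⟩
  have hX : (0 : ℝ) < (2 : ℝ) ^ j := by positivity
  have hX1 : (1 : ℝ) ≤ (2 : ℝ) ^ j := one_le_pow₀ (by norm_num)
  rw [SS_eq_sum hW D j z s]
  have h3 : ∀ δ ∈ (supp_finite hW (X := (2 : ℝ) ^ j) (by positivity)).toFinset,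
      ‖Phi W z (crdR ((2 : ℝ) ^ j) δ) * ((if δ - D.δ1 ∈ D.I0 then 1 else 0) * Psi δ s)‖ ≤
        ‖Phi W z (crdR ((2 : ℝ) ^ j) δ)‖ * C1 := by
    intro δ hδ
    have hδ' : W (crdR ((2 : ℝ) ^ j) δ) ≠ 0 := by simpa using hδ
    rw [norm_mul]
    by_cases hm : δ - D.δ1 ∈ D.I0
    · have hfam := inFam_of hW D (by positivity) hδ' hm
      simp only [hm, if_true, one_mul]
      have := h1 δ (Psi δ) hfam.1 (hPsi δ hfam) s hs
      gcongr
    · simp only [hm, if_false, zero_mul, norm_zero, mul_zero]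
      positivity
  calc ‖∑ δ ∈ (supp_finite hW (X := (2 : ℝ) ^ j) (by positivity)).toFinset,
      Phi W z (crdR ((2 : ℝ) ^ j) δ) * ((if δ - D.δ1 ∈ D.I0 then 1 else 0) * Psi δ s)‖
      ≤ ∑ δ ∈ (supp_finite hW (X := (2 : ℝ) ^ j) (by positivity)).toFinset,
        ‖Phi W z (crdR ((2 : ℝ) ^ j) δ)‖ * C1 :=
        (norm_sum_le _ _).trans (Finset.sum_le_sum h3)
    _ = (∑ δ ∈ (supp_finite hW (X := (2 : ℝ) ^ j) (by positivity)).toFinset,
        ‖Phi W z (crdR ((2 : ℝ) ^ j) δ)‖) * C1 := by rw [Finset.sum_mul]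
    _ ≤ (∑' δ : 𝓞 K, ‖Phi W z (crdR ((2 : ℝ) ^ j) δ)‖) * C1 := by
        gcongr
        exact (summable_norm_Phi hW z hX).sum_le_tsum _ (fun _ _ => norm_nonneg _)
    _ ≤ (C2 * ((2 : ℝ) ^ j) ^ Module.finrank ℚ K) * C1 := by
        gcongr
        exact h2 z (by rw [hz]) _ hX1
    _ = C2 * C1 * (2 : ℝ) ^ ((Module.finrank ℚ K : ℝ) * (j : ℝ)) := by
        rw [← pow_mul, mul_comm j]
        have : ((2 : ℝ) ^ ((Module.finrank ℚ K : ℝ) * (j : ℝ))) =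
            (2 : ℝ) ^ (Module.finrank ℚ K * j) := by
          rw [← Nat.cast_mul, Real.rpow_natCast]
        rw [this]; ring

include hW ha hT hTp hL hPsi in
theorem SS_ra {b : ℝ} (hb : 2 < b) {ε : ℝ} (hε : 0 < ε) (R : ℝ) :
    ∃ C : ℝ, ∀ (j : ℕ) (z s : ℂ), ‖z‖ ≤ R → s.re = b →
      ‖SS W D Psi j z s - cc W D j z * (2 : ℂ) ^ (Module.finrank ℚ K * j) *
        (pref a D L s * ∏' v : D.P, mloc a (nrm v.1) s)‖ ≤ C * (2 : ℝ) ^ (ε * (j : ℝ)) := by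
  classical
  set n := Module.finrank ℚ K with hn
  have hn1 : 1 ≤ n := Module.finrank_pos
  have hnR : (1 : ℝ) ≤ n := by exact_mod_cast hn1
  set ε' : ℝ := min (ε / n) 1 with hε'
  have hε'0 : 0 < ε' := lt_min (by positivity) one_pos
  obtain ⟨C1, hC1, h1⟩ := pref_line ha hT D hL (b := b) (by linarith)
  obtain ⟨C2, hC2, h2⟩ := ra_full hW ha hT hTp D hb hε'0 (min_le_right _ _) R
  refine ⟨C1 * C2, fun j z s hz hs => ?_⟩
  have hX1 : (1 : ℝ) ≤ (2 : ℝ) ^ j := one_le_pow₀ (by norm_num)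
  have hX : (0 : ℝ) < (2 : ℝ) ^ j := by positivity
  have hI := absNorm_I0_pos D hTp
  have hIc : (Ideal.absNorm D.I0 : ℂ) ≠ 0 := by exact_mod_cast hI.ne'
  have h2c : (2 : ℂ) ^ (n * j) ≠ 0 := pow_ne_zero _ (by norm_num)
  have e1 : SS W D Psi j z s = pref a D L s * ∑' δ : 𝓞 K, Phi W z (crdR ((2 : ℝ) ^ j) δ) *
          ((if δ - D.δ1 ∈ D.I0 then 1 else 0) * ∏' v : D.P, loc a v.1 δ s) := by
    unfold SS
    rw [← tsum_mul_left]
    refine tsum_congr fun δ => ?_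
    by_cases hW0 : W (crdR ((2 : ℝ) ^ j) δ) = 0
    · rw [Phi_eq_zero hW0]; ring
    · by_cases hm : δ - D.δ1 ∈ D.I0
      · have hfam := inFam_of hW D hX hW0 hm
        simp only [hm, if_true, one_mul]
        rw [(hPsi δ hfam).2.2.2 s (by rw [hs]; linarith)]
        unfold pref
        ring
      · simp only [hm, if_false, zero_mul, mul_zero]
  have e2 : cc W D j z * (2 : ℂ) ^ (n * j) *
        (pref a D L s * ∏' v : D.P, mloc a (nrm v.1) s) = pref a D L s *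
        (Tot W z ((2 : ℝ) ^ j) / (Ideal.absNorm D.I0 : ℂ) * ∏' v : D.P, mloc a (nrm v.1) s) := by
    unfold cc
    rw [← hn]
    field_simp
  rw [e1, e2, ← mul_sub, norm_mul]
  have h3 := h2 z hz s hs ((2 : ℝ) ^ j) hX1
  have h4 : (((2 : ℝ) ^ j) ^ Module.finrank ℚ K) ^ ε' ≤ (2 : ℝ) ^ (ε * (j : ℝ)) := by
    rw [← hn, ← pow_mul, ← Real.rpow_natCast, ← Real.rpow_mul (by norm_num)]
    apply Real.rpow_le_rpow_of_exponent_le (by norm_num)
    push_cast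
    have : ε' ≤ ε / n := min_le_left _ _
    have hj : (0 : ℝ) ≤ j := Nat.cast_nonneg j
    calc (j : ℝ) * n * ε' ≤ (j : ℝ) * n * (ε / n) := by gcongr
      _ = ε * j := by field_simp
  calc ‖pref a D L s‖ * _ ≤ C1 * (C2 * (((2 : ℝ) ^ j) ^ Module.finrank ℚ K) ^ ε') := by
        have := h1 s hs
        gcongr
    _ ≤ C1 * (C2 * (2 : ℝ) ^ (ε * (j : ℝ))) := by gcongr
    _ = C1 * C2 * (2 : ℝ) ^ (ε * (j : ℝ)) := by ring

include hW in
theorem cc_bounds (hTp : ∀ p ∈ T, p.Prime) (R : ℝ) : ∃ C : ℝ, ∀ (j : ℕ) (z : ℂ), ‖z‖ ≤ R →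
      ‖cc W D j z‖ ≤ C ∧ ‖cc W D (j + 1) z - cc W D j z‖ ≤
        C * (2 : ℝ) ^ (-((Module.finrank ℚ K : ℝ) * (j : ℝ))) := by
  set n := Module.finrank ℚ K with hn
  have hI := absNorm_I0_pos D hTp
  have hI1 : (1 : ℝ) ≤ Ideal.absNorm D.I0 := by
    have : 0 < Ideal.absNorm D.I0 := by exact_mod_cast hI
    exact_mod_cast this
  have hIc : (Ideal.absNorm D.I0 : ℂ) ≠ 0 := by exact_mod_cast hI.ne'
  obtain ⟨C1, hC1, h1⟩ := exists_sum_bound hW |R|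
  obtain ⟨C2, hC2, h2⟩ := tot_double hW R
  refine ⟨C1 + C2, fun j z hz => ?_⟩
  have hX1 : (1 : ℝ) ≤ (2 : ℝ) ^ j := one_le_pow₀ (by norm_num)
  have hX : (0 : ℝ) < (2 : ℝ) ^ j := by positivity
  have hzre : |z.re| ≤ |R| := (Complex.abs_re_le_norm z).trans (hz.trans (le_abs_self R))
  have h3 : ‖Tot W z ((2 : ℝ) ^ j)‖ ≤ C1 * ((2 : ℝ) ^ j) ^ n := by
    refine le_trans ?_ (h1 z hzre _ hX1)
    exact norm_tsum_le_tsum_norm (summable_norm_Phi hW z hX)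
  have hpw : ((2 : ℝ) ^ j) ^ n = (2 : ℝ) ^ (n * j) := by rw [← pow_mul, mul_comm]
  constructor
  · unfold cc
    rw [← hn, norm_div, norm_mul, norm_pow, Complex.norm_natCast, Complex.norm_ofNat]
    rw [div_le_iff₀ (by positivity)]
    rw [hpw] at h3
    calc ‖Tot W z ((2 : ℝ) ^ j)‖ ≤ C1 * (2 : ℝ) ^ (n * j) := h3
      _ ≤ (C1 + C2) * (1 * (2 : ℝ) ^ (n * j)) := by
          rw [one_mul]; gcongr; linarith
      _ ≤ (C1 + C2) * ((Ideal.absNorm D.I0 : ℝ) * (2 : ℝ) ^ (n * j)) := by gcongr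
  · have e1 : cc W D (j + 1) z - cc W D j z =
        (Tot W z (2 * (2 : ℝ) ^ j) - 2 ^ n * Tot W z ((2 : ℝ) ^ j)) /
          ((Ideal.absNorm D.I0 : ℂ) * (2 : ℂ) ^ (n * (j + 1))) := by
      unfold cc
      rw [← hn, show (2 : ℝ) ^ (j + 1) = 2 * (2 : ℝ) ^ j by rw [pow_succ]; ring]
      have h2a : (2 : ℂ) ^ (n * (j + 1)) = (2 : ℂ) ^ (n * j) * (2 : ℂ) ^ n := by
        rw [← pow_add]; congr 1
      rw [h2a]
      field_simp
    rw [e1, norm_div, norm_mul, norm_pow, Complex.norm_natCast, Complex.norm_ofNat]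
    have h4 := h2 z hz _ hX1
    rw [div_le_iff₀ (by positivity)]
    have e2 : (2 : ℝ) ^ (-((n : ℝ) * (j : ℝ))) * (2 : ℝ) ^ (n * (j + 1)) = (2 : ℝ) ^ n := by
      rw [← Real.rpow_natCast, ← Real.rpow_natCast, ← Real.rpow_add (by norm_num)]
      congr 1
      push_cast; ring
    calc ‖Tot W z (2 * (2 : ℝ) ^ j) - 2 ^ n * Tot W z ((2 : ℝ) ^ j)‖ ≤ C2 := h4
      _ ≤ (C1 + C2) * (1 * 1) := by linarith
      _ ≤ (C1 + C2) * ((Ideal.absNorm D.I0 : ℝ) * (2 : ℝ) ^ n) := by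
          gcongr
          exact one_le_pow₀ (by norm_num)
      _ = (C1 + C2) * (2 : ℝ) ^ (-((n : ℝ) * (j : ℝ))) *
            ((Ideal.absNorm D.I0 : ℝ) * (2 : ℝ) ^ (n * (j + 1))) := by
          rw [← e2]; ring

include hW in
theorem cc_lim_ne (hTp : ∀ p ∈ T, p.Prime) {cinf : ℂ}
    (hc : Tendsto (fun j => cc W D j 0) atTop (𝓝 cinf)) : cinf ≠ 0 := by
  obtain ⟨c, hc0, X0, hX0⟩ := lower hW
  have hI := absNorm_I0_pos D hTp
  set n := Module.finrank ℚ K with hn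
  have h1 : ∀ᶠ j : ℕ in atTop, c / (Ideal.absNorm D.I0 : ℝ) ≤ ‖cc W D j 0‖ := by
    have h2 : Tendsto (fun j : ℕ => (2 : ℝ) ^ j) atTop atTop :=
      tendsto_pow_atTop_atTop_of_one_lt (by norm_num)
    filter_upwards [h2.eventually_ge_atTop X0] with j hj
    unfold cc
    rw [← hn, norm_div, norm_mul, norm_pow, Complex.norm_natCast, Complex.norm_ofNat]
    have h3 := hX0 _ hj
    have hpw : ((2 : ℝ) ^ j) ^ n = (2 : ℝ) ^ (n * j) := by rw [← pow_mul, mul_comm]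
    rw [hpw] at h3
    rw [div_le_div_iff₀ hI (by positivity)]
    calc c * ((Ideal.absNorm D.I0 : ℝ) * (2 : ℝ) ^ (n * j))
        = (c * (2 : ℝ) ^ (n * j)) * (Ideal.absNorm D.I0 : ℝ) := by ring
      _ ≤ ‖Tot W 0 ((2 : ℝ) ^ j)‖ * (Ideal.absNorm D.I0 : ℝ) := by gcongr
  have h4 : c / (Ideal.absNorm D.I0 : ℝ) ≤ ‖cinf‖ := ge_of_tendsto hc.norm h1
  intro h0
  rw [h0, norm_zero] at h4
  have : 0 < c / (Ideal.absNorm D.I0 : ℝ) := by positivity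
  linarith

end Sums

end Pool.Agent.HWR
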