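import Pool.Agent.HWR.Defs

/-!
# HWR-D6b: the norm form in coordinates

PLAN. `emb σ (crd δ) = σ δ` (basis expansion, `sum_crd`, `map_sum`, `zsmul`),
`∏ σ |σ δ| = |N δ|` (`Algebra.norm_eq_prod_embeddings`, `Algebra.coe_norm_int` or
`RingOfIntegers.coe_norm..`), and homogeneity: `NN (y / X) = NN y / X^n` for `X > 0`
(`NumberField.Embeddings.card K ℂ`: `Fintype.card (K →+* ℂ) = finrank`).
-/

namespace Pool.Agent.HWR

open NumberField IsDedekindDomain

variable {K : Type} [Field K] [NumberField K]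

private theorem sigma_eq (σ : K →+* ℂ) (δ : 𝓞 K) :
    σ (δ : K) = ∑ i, (crd δ i : ℂ) * σ ((RingOfIntegers.basis K i : 𝓞 K) : K) := by
  have h1 : (δ : K) = ∑ i, (crd δ i : K) * ((RingOfIntegers.basis K i : 𝓞 K) : K) := by
    have h2 := congrArg (fun x : 𝓞 K => algebraMap (𝓞 K) K x) (sum_crd δ)
    simp only [map_sum, zsmul_eq_mul, map_mul, map_intCast] at h2
    exact h2.symm
  rw [h1]
  simp only [map_sum, map_mul, map_intCast]

theorem emb_crdR (σ : K →+* ℂ) (δ : 𝓞 K) (X : ℝ) : emb σ (crdR X δ) = σ (δ : K) / X := by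
  rw [sigma_eq, Finset.sum_div]
  unfold emb crdR
  apply Finset.sum_congr rfl
  intro i _
  push_cast
  ring

theorem NN_crdR {δ : 𝓞 K} {X : ℝ} (hX : 0 < X) :
    NN (crdR X δ) = ((Algebra.norm ℤ δ).natAbs : ℝ) / X ^ Module.finrank ℚ K := by
  classical
  unfold NN
  simp only [emb_crdR, norm_div, Complex.norm_real, Real.norm_of_nonneg hX.le]
  rw [Finset.prod_div_distrib, Finset.prod_const, Finset.card_univ,
    NumberField.Embeddings.card K ℂ, ← norm_prod]
  congr 1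
  have h1 := Algebra.norm_eq_prod_embeddings ℚ ℂ (δ : K)
  have h2 : ∏ σ : K →ₐ[ℚ] ℂ, σ (δ : K) = ∏ σ : K →+* ℂ, σ (δ : K) :=
    (Fintype.prod_equiv (RingHom.equivRatAlgHom K ℂ) _ _ fun _ => rfl).symm
  rw [← h2, ← h1, ← Algebra.coe_norm_int]
  simp only [map_intCast]
  rw [Complex.norm_intCast, Nat.cast_natAbs]
  simp

end Pool.Agent.HWR
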