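import Pool.Agent.HWR.NormA

/-!
# HWR-D6c: the correction factor `TT`

PLAN.
`TT_fe`: for each `v`, `k = ord/2`, `z = z4 (nrm v) s`, `z4 (nrm v) (2-s) = z⁻¹`:
`∑_{i ≤ k} z^i = z^k ∑_{i ≤ k} z^(-i)`; multiply (`finprod_mul_distrib`, finite supports by
`ord_finite`).
`TT_entire`: finite product (`ord_finite`) of finite sums of exponentials; `TT_bdd`: bounded in
vertical strips: `‖z4 q s‖ = q^(4 (1 - Re s))`.
-/

namespace Pool.Agent.HWR

open NumberField IsDedekindDomain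

variable {K : Type} [Field K] [NumberField K]

private theorem TTfe_nrm_ne (v : HeightOneSpectrum (𝓞 K)) : nrm v ≠ 0 := by
  unfold nrm
  rw [Ne, Ideal.absNorm_eq_zero_iff]
  exact v.ne_bot

private theorem TT_eq {δ : 𝓞 K} (hδ : δ ≠ 0) (s : ℂ) :
    TT δ s = ∏ v ∈ (ord_finite hδ).toFinset,
      ∑ k ∈ Finset.range (ord v δ / 2 + 1), z4 (nrm v) s ^ k := by
  unfold TT
  apply finprod_eq_prod_of_mulSupport_subset
  intro v hv
  simp only [Set.Finite.coe_toFinset, Set.mem_ofPred_eq]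
  intro h0
  apply hv
  simp [h0]

private theorem nat_prod_eq {δ : 𝓞 K} (hδ : δ ≠ 0) :
    (∏ᶠ v : HeightOneSpectrum (𝓞 K), nrm v ^ (ord v δ / 2) : ℕ) =
      ∏ v ∈ (ord_finite hδ).toFinset, nrm v ^ (ord v δ / 2) := by
  apply finprod_eq_prod_of_mulSupport_subset
  intro v hv
  simp only [Set.Finite.coe_toFinset, Set.mem_ofPred_eq]
  intro h0
  apply hv
  simp [h0]

private theorem prod_cpow {ι : Type*} (S : Finset ι) (f : ι → ℕ) (w : ℂ) :
    ((∏ i ∈ S, f i : ℕ) : ℂ) ^ w = ∏ i ∈ S, ((f i : ℕ) : ℂ) ^ w := by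
  classical
  induction S using Finset.induction_on with
  | empty => simp
  | insert i S hi ih =>
    rw [Finset.prod_insert hi, Finset.prod_insert hi, Nat.cast_mul,
      Complex.natCast_mul_natCast_cpow, ih]

private theorem z4_inv {q : ℕ} (hq : q ≠ 0) (s : ℂ) : z4 q s * z4 q (2 - s) = 1 := by
  unfold z4
  rw [← Complex.cpow_add _ _ (by exact_mod_cast hq)]
  have : 4 * (1 - s) + 4 * (1 - (2 - s)) = 0 := by ring
  rw [this, Complex.cpow_zero]

private theorem sum_flip (z w : ℂ) (h : z * w = 1) (m : ℕ) :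
    ∑ k ∈ Finset.range (m + 1), z ^ k = z ^ m * ∑ k ∈ Finset.range (m + 1), w ^ k := by
  rw [Finset.mul_sum, ← Finset.sum_range_reflect]
  apply Finset.sum_congr rfl
  intro k hk
  rw [Finset.mem_range] at hk
  have h1 : z ^ m = z ^ (m - k) * z ^ k := by rw [← pow_add]; congr 1; omega
  rw [h1, mul_assoc, ← mul_pow, h, one_pow, mul_one]
  congr 1

theorem TT_fe {δ : 𝓞 K} (hδ : δ ≠ 0) (s : ℂ) :
    TT δ s = ((∏ᶠ v : HeightOneSpectrum (𝓞 K), nrm v ^ (ord v δ / 2) : ℕ) : ℂ) ^ (4 * (1 - s)) *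
      TT δ (2 - s) := by
  rw [TT_eq hδ s, TT_eq hδ (2 - s), nat_prod_eq hδ, prod_cpow, ← Finset.prod_mul_distrib]
  apply Finset.prod_congr rfl
  intro v _
  rw [sum_flip _ _ (z4_inv (TTfe_nrm_ne v) s)]
  congr 1
  rw [Nat.cast_pow, ← Complex.natCast_cpow_natCast_mul, z4, ← Complex.cpow_nat_mul]

private theorem z4_diff {q : ℕ} (hq : q ≠ 0) : Differentiable ℂ (z4 q) := by
  intro s
  unfold z4
  apply DifferentiableAt.const_cpow
  · fun_prop
  · left
    exact_mod_cast hq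

theorem TT_entire {δ : 𝓞 K} (hδ : δ ≠ 0) : Differentiable ℂ (TT δ) := by
  have : TT δ = fun s => ∏ v ∈ (ord_finite hδ).toFinset,
      ∑ k ∈ Finset.range (ord v δ / 2 + 1), z4 (nrm v) s ^ k := funext (TT_eq hδ)
  rw [this]
  apply Differentiable.fun_finsetProd
  intro v _
  apply Differentiable.fun_sum
  intro k _
  exact (z4_diff (TTfe_nrm_ne v)).pow k

theorem TT_bdd {δ : 𝓞 K} (hδ : δ ≠ 0) (a b : ℝ) :
    ∃ M : ℝ, ∀ s : ℂ, a ≤ s.re → s.re ≤ b → ‖TT δ s‖ ≤ M := by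
  refine ⟨∏ v ∈ (ord_finite hδ).toFinset,
      ∑ k ∈ Finset.range (ord v δ / 2 + 1), ((nrm v : ℝ) ^ (4 * (1 - a))) ^ k, ?_⟩
  intro s hs _
  rw [TT_eq hδ s, _root_.norm_prod]
  apply Finset.prod_le_prod
  · intro v _; exact norm_nonneg _
  intro v _
  refine (norm_sum_le _ _).trans ?_
  apply Finset.sum_le_sum
  intro k _
  rw [norm_pow]
  apply pow_le_pow_left₀ (norm_nonneg _)
  have hq : 0 < nrm v := Nat.pos_of_ne_zero (TTfe_nrm_ne v)
  rw [z4, Complex.norm_natCast_cpow_of_pos hq]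
  apply Real.rpow_le_rpow_of_exponent_le
  · exact_mod_cast hq
  · have : (4 * (1 - s)).re = 4 * (1 - s.re) := by
      simp [Complex.mul_re]
    rw [this]
    linarith

end Pool.Agent.HWR
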