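import Pool.Agent.HWR.Discr
import Pool.Agent.HWR.NormTT
import Pool.Agent.HWR.LTExt
import Pool.Agent.HWR.ExtExists
import Pool.Agent.HWR.DatExists
import Pool.Agent.HWR.Symbol
import Pool.Agent.HWR.RAloc

/-!
# HWR-PSI (owner helper86): the entire functions attached to the family
-/

namespace Pool.Agent.HWR

open NumberField IsDedekindDomain

theorem ofReal_pow_cpow {x : ℝ} (hx : 0 ≤ x) (k : ℕ) (y : ℂ) :
    ((x ^ k : ℝ) : ℂ) ^ y = ((x : ℂ) ^ y) ^ k := by
  induction k with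
  | zero => simp
  | succ k ih =>
    rw [pow_succ, Complex.ofReal_mul, Complex.mul_cpow_ofReal_nonneg (by positivity) hx, ih,
      pow_succ]

section aux

variable {K : Type} [Field K] [NumberField K]

theorem summable_P {T : Finset ℕ} (D : Dat K T) {x : ℝ} (hx : 1 < x) :
    Summable fun v : D.P => (nrm v.1 : ℝ) ^ (-x) :=
  (summable_nrm K hx).comp_injective Subtype.val_injective

theorem norm_uu_le (v : HeightOneSpectrum (𝓞 K)) (δ : 𝓞 K) : ‖uu v δ‖ ≤ 1 := by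
  rcases uu_cases v δ with h | h | h <;> rw [h] <;> simp

theorem mult_uu {a : ℕ → ℝ} (ha : ∀ q : ℕ, |a q| ≤ 2 * Real.sqrt q) {T : Finset ℕ}
    (hT : ∀ p : ℕ, p.Prime → p < 101 → p ∈ T) (D : Dat K T) (δ : 𝓞 K) {s : ℂ}
    (hs : 3 / 2 < s.re) :
    Multipliable fun v : D.P =>
      (1 + bet a (nrm v.1) s * uu v.1 δ + gamm a (nrm v.1) s * uu v.1 δ ^ 2) := by
  have h1 : Summable fun v : D.P =>
      ‖bet a (nrm v.1) s * uu v.1 δ + gamm a (nrm v.1) s * uu v.1 δ ^ 2‖ := by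
    have h2 : Summable fun v : D.P => 14 * (nrm v.1 : ℝ) ^ (-(s.re - 1 / 2)) :=
      (summable_P D (by linarith)).mul_left 14
    refine Summable.of_nonneg_of_le (fun _ => norm_nonneg _) (fun v => ?_) h2
    have hq := nrm_ge K T hT v.1 v.2.1
    have hs1 : 1 ≤ s.re := by linarith
    have hb := bet_le ha hq hs1
    have hg := gamm_le ha hq hs1
    have hq1 : (1 : ℝ) ≤ (nrm v.1 : ℝ) := by
      have : (101 : ℝ) ≤ (nrm v.1 : ℝ) := by exact_mod_cast hq
      linarith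
    have hpow : (nrm v.1 : ℝ) ^ (1 - 2 * s.re) ≤ (nrm v.1 : ℝ) ^ (1 / 2 - s.re) :=
      Real.rpow_le_rpow_of_exponent_le hq1 (by linarith)
    have hu := norm_uu_le v.1 δ
    calc ‖bet a (nrm v.1) s * uu v.1 δ + gamm a (nrm v.1) s * uu v.1 δ ^ 2‖
        ≤ ‖bet a (nrm v.1) s * uu v.1 δ‖ + ‖gamm a (nrm v.1) s * uu v.1 δ ^ 2‖ := norm_add_le _ _
      _ ≤ ‖bet a (nrm v.1) s‖ * 1 + ‖gamm a (nrm v.1) s‖ * 1 := by
          rw [norm_mul, norm_mul, norm_pow]
          gcongr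
          exact pow_le_one₀ (norm_nonneg _) hu
      _ ≤ 4 * (nrm v.1 : ℝ) ^ (1 / 2 - s.re) + 10 * (nrm v.1 : ℝ) ^ (1 / 2 - s.re) := by
          linarith
      _ = 14 * (nrm v.1 : ℝ) ^ (-(s.re - 1 / 2)) := by
          rw [show -(s.re - 1 / 2) = 1 / 2 - s.re by ring]; ring
  have h3 := multipliable_one_add_of_summable h1
  refine h3.congr fun v => ?_
  ring

theorem TT_eq_tprod {T : Finset ℕ} (D : Dat K T) {δ : 𝓞 K} (hδ0 : δ ≠ 0)
    (hδ : δ - D.δ1 ∈ D.I0) (s : ℂ) :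
    (Multipliable fun v : D.P => ∑ k ∈ Finset.range (ord v.1 δ / 2 + 1), z4 (nrm v.1) s ^ k) ∧
    TT δ s = ∏' v : D.P, ∑ k ∈ Finset.range (ord v.1 δ / 2 + 1), z4 (nrm v.1) s ^ k := by
  classical
  set f : HeightOneSpectrum (𝓞 K) → ℂ :=
    fun v => ∑ k ∈ Finset.range (ord v δ / 2 + 1), z4 (nrm v) s ^ k with hf
  have hone : ∀ v, ord v δ = 0 → f v = 1 := by
    intro v hv
    simp [hf, hv]
  have hfin : (Function.mulSupport f).Finite := by
    refine (ord_finite hδ0).subset ?_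
    intro v hv h0
    exact hv (hone v h0)
  have hsub : Function.mulSupport f ⊆ {v | Away K T v ∧ v ≠ D.q} := by
    intro v hv
    by_contra hn
    apply hv
    apply hone
    by_contra h0
    have h1 : δ ∈ v.asIdeal ^ 1 := (ord_iff hδ0 v 1).2 (Nat.one_le_iff_ne_zero.2 h0)
    rw [pow_one] at h1
    exact D.unit_at hδ v hn h1
  constructor
  · have hfin2 : (Function.mulSupport fun v : D.P => f v.1).Finite :=
      (hfin.preimage (Subtype.val_injective.injOn)).subset (fun v hv => hv)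
    exact multipliable_of_hasFiniteMulSupport hfin2
  · have e1 : TT δ s = ∏ᶠ v, f v := rfl
    rw [e1, ← tprod_eq_finprod (L := SummationFilter.unconditional _) hfin]
    exact (tprod_subtype_eq_of_mulSupport_subset (f := f) hsub).symm

end aux

theorem exists_Psi (K : Type) [Field K] [NumberField K] {a : ℕ → ℝ}
    (ha : ∀ q : ℕ, |a q| ≤ 2 * Real.sqrt q) {T : Finset ℕ}
    (hT : ∀ p : ℕ, p.Prime → p < 101 → p ∈ T) (hTp : ∀ p ∈ T, p.Prime) (D : Dat K T)
    {Q : ℝ} (hQ : 0 < Q) (L : List (ℂ × ℕ))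
    (H : ∀ (K' : Type) [Field K'] [NumberField K'] [Algebra K K'], Module.finrank K K' = 2 →
      IsTotallyComplex K' → (∀ v, ¬ Away K T v → Splits K K' v) → Nice K K' a T Q L)
    (δ : 𝓞 K) (hδ0 : δ ≠ 0) (hδ : δ - D.δ1 ∈ D.I0)
    (hneg : ∀ σ : K →+* ℂ, ComplexEmbedding.IsReal σ → (σ (δ : K)).re < 0) :
    ∃ Ψ : ℂ → ℂ, Differentiable ℂ Ψ ∧ FinOrd Ψ ∧
      (∀ s : ℂ, Ψ s = (-1) ^ Module.finrank ℚ K *
        ((Q * (NumberField.discr K : ℝ) ^ 4 * ((Algebra.norm ℤ δ).natAbs : ℝ) ^ 2 : ℝ) : ℂ) ^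
          (1 - s) * Ψ (2 - s)) ∧
      ∀ s : ℂ, 3 / 2 < s.re → Ψ s =
        gam1 s ^ (2 * Module.finrank ℚ K) * (finEuler L s ^ 2 * Fm a (nrm D.q) s *
          (∏' v : D.P, efac a (nrm v.1) s)) * ∏' v : D.P, loc a v.1 δ s := by
  classical
  have hns := D.not_square hδ
  obtain ⟨K', _, _, _, θ, hdeg, hθ⟩ := exists_ext K δ hns
  have hTC := totally_complex K K' δ θ hθ hneg
  have hspl : ∀ v, ¬ Away K T v → Splits K K' v := fun v hv =>
    split_T K K' hdeg δ θ hθ hδ0 hns v T (D.one' hδ) hv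
  obtain ⟨Lam, hL1, hL2, hL3, hL4⟩ := H K' hdeg hTC hspl
  have h8 : δ - 1 ∈ Ideal.span {(8 : 𝓞 K)} := by
    have h := D.one' hδ
    rw [Ideal.mem_span_singleton] at h ⊢
    refine dvd_trans ?_ h
    push_cast
    exact Dvd.intro _ rfl
  have hdisc := discr_ext K K' hdeg δ θ hθ hδ0 hns h8
  have hnorm := norm_prod hδ0
  set nd : ℕ := ∏ᶠ v : HeightOneSpectrum (𝓞 K), (if Odd (ord v δ) then nrm v else 1) with hnd
  set nf : ℕ := ∏ᶠ v : HeightOneSpectrum (𝓞 K), nrm v ^ (ord v δ / 2) with hnf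
  set n := Module.finrank ℚ K with hn
  set A : ℝ := Q * (NumberField.discr K' : ℝ) ^ 2 with hA
  have hdK' : (NumberField.discr K' : ℝ) ≠ 0 := by
    exact_mod_cast NumberField.discr_ne_zero K'
  have hApos : 0 < A := by positivity
  have hnorm0 : (Algebra.norm ℤ δ).natAbs ≠ 0 := by
    rw [Int.natAbs_ne_zero]
    exact Algebra.norm_ne_zero_iff.2 hδ0
  have hnf0 : nf ≠ 0 := by
    intro h0
    rw [h0] at hnorm
    exact hnorm0 (by rw [hnorm]; simp)
  have hdsq : (NumberField.discr K' : ℝ) ^ 2 = (NumberField.discr K : ℝ) ^ 4 * (nd : ℝ) ^ 2 := by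
    have e1 : (NumberField.discr K' : ℝ) ^ 2 = ((NumberField.discr K').natAbs : ℝ) ^ 2 := by
      rw [Nat.cast_natAbs, Int.cast_abs, sq_abs]
    have e2 : (NumberField.discr K : ℝ) ^ 4 = (((NumberField.discr K).natAbs : ℝ) ^ 2) ^ 2 := by
      rw [Nat.cast_natAbs, Int.cast_abs, sq_abs]; ring
    rw [e1, e2, hdisc]
    push_cast
    ring
  have hA' : Q * (NumberField.discr K : ℝ) ^ 4 * ((Algebra.norm ℤ δ).natAbs : ℝ) ^ 2 =
      A * ((nf : ℝ) ^ 4) := by
    rw [hA, hdsq, hnorm]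
    push_cast
    ring
  have hAne : (A : ℂ) ≠ 0 := by exact_mod_cast hApos.ne'
  have hnfne : (nf : ℂ) ≠ 0 := by exact_mod_cast hnf0
  refine ⟨fun s => Lam s * (A : ℂ) ^ (-(s / 2)) * TT δ s, ?_, ?_, ?_, ?_⟩
  · -- entire
    refine (hL1.mul ?_).mul (TT_entire hδ0)
    intro s
    exact ((differentiableAt_id.div_const 2).neg).const_cpow (Or.inl hAne)
  · -- finite order in strips
    intro x y
    obtain ⟨A0, C, hC⟩ := hL2 x y
    obtain ⟨M, hM⟩ := TT_bdd hδ0 x y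
    -- bound for the exponential
    obtain ⟨M2, hM2⟩ : ∃ M2 : ℝ, ∀ s : ℂ, x ≤ s.re → s.re ≤ y → ‖(A : ℂ) ^ (-(s / 2))‖ ≤ M2 := by
      refine ⟨Real.exp (|Real.log A| * (|x| + |y|)), fun s h1 h2 => ?_⟩
      rw [Complex.norm_cpow_eq_rpow_re_of_pos hApos]
      rw [Real.rpow_def_of_pos hApos]
      apply Real.exp_le_exp.2
      have h3 : |(-(s / 2)).re| ≤ |x| + |y| := by
        have : (-(s / 2)).re = -(s.re / 2) := by simp
        rw [this, abs_neg, abs_div, abs_two]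
        have h4 : |s.re| ≤ |x| + |y| := by
          rw [abs_le]
          constructor
          · have := neg_abs_le x
            have := abs_nonneg y
            linarith
          · have := le_abs_self y
            have := abs_nonneg x
            linarith
        have := abs_nonneg s.re
        linarith
      calc Real.log A * (-(s / 2)).re ≤ |Real.log A * (-(s / 2)).re| := le_abs_self _
        _ = |Real.log A| * |(-(s / 2)).re| := abs_mul _ _
        _ ≤ |Real.log A| * (|x| + |y|) := by gcongr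
    refine ⟨max A0 0, |C| + |M| + |M2|, fun s h1 h2 => ?_⟩
    have ht : (1 : ℝ) ≤ 1 + |s.im| := by linarith [abs_nonneg s.im]
    have ht1 : (1 : ℝ) ≤ (1 + |s.im|) ^ (max A0 0) := Real.one_le_rpow ht (le_max_right _ _)
    have e1 : ‖Lam s‖ ≤ Real.exp (|C| * (1 + |s.im|) ^ (max A0 0)) := by
      refine (hC s h1 h2).trans (Real.exp_le_exp.2 ?_)
      calc C * (1 + |s.im|) ^ A0 ≤ |C| * (1 + |s.im|) ^ A0 := by
            gcongr
            exact le_abs_self C
        _ ≤ |C| * (1 + |s.im|) ^ (max A0 0) := by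
            gcongr
            exact le_max_left _ _
    have e2 : ‖(A : ℂ) ^ (-(s / 2))‖ ≤ Real.exp (|M2| * (1 + |s.im|) ^ (max A0 0)) := by
      have : M2 ≤ |M2| * (1 + |s.im|) ^ (max A0 0) := by
        calc M2 ≤ |M2| := le_abs_self _
          _ = |M2| * 1 := by ring
          _ ≤ |M2| * (1 + |s.im|) ^ (max A0 0) := by gcongr
      refine (hM2 s h1 h2).trans ?_
      exact this.trans ((by linarith : _ ≤ |M2| * (1 + |s.im|) ^ (max A0 0) + 1).trans
        (Real.add_one_le_exp _))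
    have e3 : ‖TT δ s‖ ≤ Real.exp (|M| * (1 + |s.im|) ^ (max A0 0)) := by
      have : M ≤ |M| * (1 + |s.im|) ^ (max A0 0) := by
        calc M ≤ |M| := le_abs_self _
          _ = |M| * 1 := by ring
          _ ≤ |M| * (1 + |s.im|) ^ (max A0 0) := by gcongr
      refine (hM s h1 h2).trans ?_
      exact this.trans ((by linarith : _ ≤ |M| * (1 + |s.im|) ^ (max A0 0) + 1).trans
        (Real.add_one_le_exp _))
    calc ‖Lam s * (A : ℂ) ^ (-(s / 2)) * TT δ s‖
        = ‖Lam s‖ * ‖(A : ℂ) ^ (-(s / 2))‖ * ‖TT δ s‖ := by rw [norm_mul, norm_mul]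
      _ ≤ Real.exp (|C| * (1 + |s.im|) ^ (max A0 0)) *
            Real.exp (|M2| * (1 + |s.im|) ^ (max A0 0)) *
            Real.exp (|M| * (1 + |s.im|) ^ (max A0 0)) := by gcongr
      _ = Real.exp ((|C| + |M| + |M2|) * (1 + |s.im|) ^ (max A0 0)) := by
          rw [← Real.exp_add, ← Real.exp_add]; ring_nf
  · -- functional equation
    intro s
    have hsq : ((-1 : ℂ)) ^ n * (-1) ^ n = 1 := by
      rw [← mul_pow]; simp
    have hLs : Lam s = (-1) ^ n * Lam (2 - s) := by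
      rw [hL3 s, ← mul_assoc, hsq, one_mul]
    have hTT := TT_fe hδ0 s
    rw [← hnf] at hTT
    rw [hA']
    have e1 : ((A * (nf : ℝ) ^ 4 : ℝ) : ℂ) ^ (1 - s) = (A : ℂ) ^ (1 - s) * (nf : ℂ) ^ (4 * (1 - s)) := by
      rw [Complex.ofReal_mul, Complex.mul_cpow_ofReal_nonneg hApos.le (by positivity)]
      congr 1
      rw [ofReal_pow_cpow (by positivity) 4, Complex.ofReal_natCast]
      have := Complex.cpow_nat_mul (nf : ℂ) 4 (1 - s)
      rw [← this]
      norm_num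
    have e2 : (A : ℂ) ^ (1 - s) * (A : ℂ) ^ (-((2 - s) / 2)) = (A : ℂ) ^ (-(s / 2)) := by
      rw [← Complex.cpow_add _ _ hAne]
      congr 1
      ring
    simp only
    rw [e1, hLs, hTT, ← e2]
    ring
  · -- Euler product
    intro s hs
    have hfin : Module.finrank ℚ K' = 2 * n := by
      rw [← Module.finrank_mul_finrank ℚ K K', hdeg, hn]; ring
    have hq := nrm_ge K T hT
    have hs1 : 1 ≤ s.re := by linarith
    have hlt := LT_quad K K' hdeg ha hT hTp D δ θ hθ hδ0 hδ hs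
    have hFF : ∀ v : D.P, FF a (nrm v.1) (uu v.1 δ) s = efac a (nrm v.1) s *
        (1 + bet a (nrm v.1) s * uu v.1 δ + gamm a (nrm v.1) s * uu v.1 δ ^ 2) := by
      intro v
      exact FF_eq ha (hq v.1 v.2.1) hs1 (uu_cases v.1 δ)
    have m1 : Multipliable fun v : D.P => efac a (nrm v.1) s :=
      mult_efac ha (fun v : D.P => hq v.1 v.2.1) (fun x hx => summable_P D hx) hs
    have m2 := mult_uu ha hT D δ hs
    obtain ⟨m3, hTTe⟩ := TT_eq_tprod D hδ0 hδ s
    have e1 : (∏' v : D.P, FF a (nrm v.1) (uu v.1 δ) s) = (∏' v : D.P, efac a (nrm v.1) s) *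
        ∏' v : D.P, (1 + bet a (nrm v.1) s * uu v.1 δ + gamm a (nrm v.1) s * uu v.1 δ ^ 2) := by
      rw [← m1.tprod_mul m2]
      exact tprod_congr hFF
    have e2 : (∏' v : D.P, loc a v.1 δ s) =
        (∏' v : D.P, (1 + bet a (nrm v.1) s * uu v.1 δ + gamm a (nrm v.1) s * uu v.1 δ ^ 2)) *
          TT δ s := by
      rw [hTTe, ← m2.tprod_mul m3]
      rfl
    have e3 : ((A : ℝ) : ℂ) ^ (s / 2) * (A : ℂ) ^ (-(s / 2)) = 1 := by
      rw [← Complex.cpow_add _ _ hAne]; simp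
    simp only
    rw [hL4 s hs, hlt, e1, e2, hfin]
    have : ((Q * (NumberField.discr K' : ℝ) ^ 2 : ℝ) : ℂ) = (A : ℂ) := rfl
    rw [this]
    linear_combination (gam1 s ^ (2 * n) * (finEuler L s ^ 2 * (Fm a (nrm D.q) s *
      ((∏' v : D.P, efac a (nrm v.1) s) *
        ∏' v : D.P, (1 + bet a (nrm v.1) s * uu v.1 δ + gamm a (nrm v.1) s * uu v.1 δ ^ 2)))) *
      TT δ s) * e3

end Pool.Agent.HWR
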