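import Pool.Agent.HWR.Quad
import Pool.Agent.HWR.NormA

/-!
# HWR-D2 (auxiliary): orders in a quadratic extension, the nontrivial automorphism

`qa_ord_over`: `ord w x = e * ord v x` for `x` in the base ring.
`qa_tau`: the automorphism with `τ θ = - θ`.
`qa_tau_pow`: it preserves the powers of the prime above `v` if there is only one.
`qa_frac`: for `δ ∈ v^(2j)` there are `π ∈ v^j`, `m ∉ v` with `π^2 δ1 = m^2 δ`.
-/

set_option linter.unusedSectionVars false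

namespace Pool.Agent.HWR

open NumberField IsDedekindDomain

variable {K : Type} [Field K] [NumberField K] {K' : Type} [Field K'] [NumberField K']
    [Algebra K K']

theorem qa_map_le {v : HeightOneSpectrum (𝓞 K)} {P : Ideal (𝓞 K')}
    (hP : P ∈ v.asIdeal.primesOver (𝓞 K')) :
    P ∣ v.asIdeal.map (algebraMap (𝓞 K) (𝓞 K')) := by
  obtain ⟨h1, h2⟩ := hP
  rw [Ideal.dvd_iff_le, Ideal.map_le_iff_le_comap]
  exact h2.over.le

theorem qa_max {v : HeightOneSpectrum (𝓞 K)} {P : Ideal (𝓞 K')}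
    (hP : P ∈ v.asIdeal.primesOver (𝓞 K')) : P.IsMaximal := by
  obtain ⟨h1, h2⟩ := hP
  have : v.asIdeal.IsMaximal := v.isMaximal
  exact Ideal.IsMaximal.of_liesOver_isMaximal P v.asIdeal

theorem qa_ne_bot {v : HeightOneSpectrum (𝓞 K)} {P : Ideal (𝓞 K')}
    (hP : P ∈ v.asIdeal.primesOver (𝓞 K')) : P ≠ ⊥ := by
  obtain ⟨h1, h2⟩ := hP
  exact Ideal.ne_bot_of_liesOver_of_ne_bot v.ne_bot P

/-- the prime `P` above `v` as a height one prime -/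
def qaH {v : HeightOneSpectrum (𝓞 K)} {P : Ideal (𝓞 K')}
    (hP : P ∈ v.asIdeal.primesOver (𝓞 K')) : HeightOneSpectrum (𝓞 K') :=
  ⟨P, hP.1, qa_ne_bot hP⟩

theorem qa_comap {v : HeightOneSpectrum (𝓞 K)} {P : Ideal (𝓞 K')}
    (hP : P ∈ v.asIdeal.primesOver (𝓞 K')) :
    P.comap (algebraMap (𝓞 K) (𝓞 K')) = v.asIdeal := hP.2.over.symm

theorem qa_inj : Function.Injective (algebraMap (𝓞 K) (𝓞 K')) :=
  FaithfulSMul.algebraMap_injective _ _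

theorem qa_mem_iff {v : HeightOneSpectrum (𝓞 K)} {P : Ideal (𝓞 K')}
    (hP : P ∈ v.asIdeal.primesOver (𝓞 K')) (x : 𝓞 K) :
    algebraMap (𝓞 K) (𝓞 K') x ∈ P ↔ x ∈ v.asIdeal := by
  rw [← qa_comap hP]
  rfl

/-- factorization of a principal ideal at `v` -/
theorem qa_factor {δ : 𝓞 K} (hδ : δ ≠ 0) (v : HeightOneSpectrum (𝓞 K)) :
    ∃ a : Ideal (𝓞 K), Ideal.span {δ} = v.asIdeal ^ ord v δ * a ∧ ¬ v.asIdeal ∣ a := by
  have h1 : v.asIdeal ^ ord v δ ∣ Ideal.span {δ} := by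
    rw [Ideal.dvd_span_singleton, ord_iff hδ]
  obtain ⟨a, ha⟩ := h1
  refine ⟨a, ha, fun h => ?_⟩
  have h2 : v.asIdeal ^ (ord v δ + 1) ∣ Ideal.span {δ} := by
    rw [ha, pow_succ]
    exact mul_dvd_mul_left _ h
  rw [Ideal.dvd_span_singleton, ord_iff hδ] at h2
  omega

theorem qa_ord_over {v : HeightOneSpectrum (𝓞 K)} {P : Ideal (𝓞 K')}
    (hP : P ∈ v.asIdeal.primesOver (𝓞 K')) {e : ℕ} {J : Ideal (𝓞 K')}
    (h : v.asIdeal.map (algebraMap (𝓞 K) (𝓞 K')) = P ^ e * J) (hJ : ¬ P ∣ J)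
    {x : 𝓞 K} (hx : x ≠ 0) :
    ord (qaH hP) (algebraMap (𝓞 K) (𝓞 K') x) = e * ord v x := by
  obtain ⟨a, ha, hva⟩ := qa_factor hx v
  have hx' : algebraMap (𝓞 K) (𝓞 K') x ≠ 0 := by
    rwa [Ne, map_eq_zero_iff _ qa_inj]
  have hmap : Ideal.span {algebraMap (𝓞 K) (𝓞 K') x} =
      P ^ (e * ord v x) * (J ^ ord v x * a.map (algebraMap (𝓞 K) (𝓞 K'))) := by
    rw [← Set.image_singleton, ← Ideal.map_span, ha, Ideal.map_mul, Ideal.map_pow, h, mul_pow,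
      ← pow_mul, mul_assoc]
  have hPp : Prime P := Ideal.prime_of_isPrime (qa_ne_bot hP) hP.1
  have h1 : e * ord v x ≤ ord (qaH hP) (algebraMap (𝓞 K) (𝓞 K') x) := by
    rw [← ord_iff hx']
    show _ ∈ P ^ _
    rw [← Ideal.dvd_span_singleton, hmap]
    exact dvd_mul_right _ _
  have h2 : ¬ e * ord v x + 1 ≤ ord (qaH hP) (algebraMap (𝓞 K) (𝓞 K') x) := by
    rw [← ord_iff hx']
    show ¬ _ ∈ P ^ _
    rw [← Ideal.dvd_span_singleton, hmap, pow_succ]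
    intro hd
    have h3 : P ∣ J ^ ord v x * a.map (algebraMap (𝓞 K) (𝓞 K')) :=
      (mul_dvd_mul_iff_left (pow_ne_zero _ (qa_ne_bot hP))).1 hd
    rcases hPp.dvd_or_dvd h3 with h4 | h4
    · exact hJ (hPp.dvd_of_dvd_pow h4)
    · apply hva
      rw [Ideal.dvd_iff_le] at h4 ⊢
      rw [← qa_comap hP]
      exact Ideal.map_le_iff_le_comap.1 h4
  omega

/-- the nontrivial automorphism -/
theorem qa_tau (hdeg : Module.finrank K K' = 2) {δ : 𝓞 K} {θ : 𝓞 K'}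
    (hθ : θ ^ 2 = algebraMap (𝓞 K) (𝓞 K') δ) (hns : ∀ x : K, x ^ 2 ≠ (δ : K)) :
    ∃ τ : 𝓞 K' ≃ₐ[𝓞 K] 𝓞 K', τ θ = -θ := by
  have : FiniteDimensional K K' := Module.finite_of_finrank_pos (by omega)
  have hq : Algebra.IsQuadraticExtension K K' := ⟨hdeg⟩
  have hG : IsGalois K K' := inferInstance
  have h1 : ∃ σ : K' ≃ₐ[K] K', σ (θ : K') ≠ (θ : K') := by
    by_contra hcon
    push Not at hcon
    have h2 : (θ : K') ∈ (⊥ : IntermediateField K K') :=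
      (IsGalois.mem_bot_iff_fixed _).2 fun σ => hcon σ
    obtain ⟨y, hy⟩ := IntermediateField.mem_bot.1 h2
    apply hns y
    apply (algebraMap K K').injective
    rw [map_pow, hy]
    exact congrArg (fun z : 𝓞 K' => (z : K')) hθ
  obtain ⟨σ, hσ⟩ := h1
  refine ⟨RingOfIntegers.mapAlgEquiv σ, ?_⟩
  have h3 : (RingOfIntegers.mapAlgEquiv σ θ) ^ 2 = θ ^ 2 := by
    rw [← map_pow, hθ]
    exact AlgEquiv.commutes _ δ
  rcases sq_eq_sq_iff_eq_or_eq_neg.1 h3 with h4 | h4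
  · exfalso
    apply hσ
    exact congrArg (fun z : 𝓞 K' => (z : K')) h4
  · exact h4

theorem qa_tau_pow {v : HeightOneSpectrum (𝓞 K)} {w : Ideal (𝓞 K')}
    (hw : v.asIdeal.primesOver (𝓞 K') = {w}) (τ : 𝓞 K' ≃ₐ[𝓞 K] 𝓞 K') {k : ℕ} {y : 𝓞 K'}
    (hy : y ∈ w ^ k) : τ y ∈ w ^ k := by
  have hmem : w ∈ v.asIdeal.primesOver (𝓞 K') := by rw [hw]; exact Set.mem_singleton _
  have hmap : w.map (τ : 𝓞 K' →+* 𝓞 K') = w := by
    have h1 : w.map (τ : 𝓞 K' →+* 𝓞 K') ∈ v.asIdeal.primesOver (𝓞 K') := by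
      have h2 : w.map (τ : 𝓞 K' →+* 𝓞 K') = w.comap (τ.symm : 𝓞 K' →+* 𝓞 K') :=
        Ideal.map_comap_of_equiv (τ : 𝓞 K' ≃+* 𝓞 K')
      rw [h2]
      refine ⟨?_, ⟨?_⟩⟩
      · have := hmem.1
        exact Ideal.comap_isPrime _ _
      · rw [← qa_comap hmem]
        ext x
        simp [Ideal.mem_comap]
    rw [hw] at h1
    exact h1
  have h3 : τ y ∈ (w ^ k).map (τ : 𝓞 K' →+* 𝓞 K') := Ideal.mem_map_of_mem _ hy
  rwa [Ideal.map_pow, hmap] at h3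

/-- removing the even part of the order at `v` -/
theorem qa_frac {δ : 𝓞 K} (v : HeightOneSpectrum (𝓞 K)) {j : ℕ}
    (hj : δ ∈ v.asIdeal ^ (2 * j)) :
    ∃ π m δ1 : 𝓞 K, π ≠ 0 ∧ π ∈ v.asIdeal ^ j ∧ m ∉ v.asIdeal ∧ π ^ 2 * δ1 = m ^ 2 * δ := by
  obtain ⟨π, hπ, hπ'⟩ : ∃ π ∈ v.asIdeal ^ j, π ∉ v.asIdeal ^ (j + 1) := by
    have hlt : v.asIdeal ^ (j + 1) < v.asIdeal ^ j :=
      Ideal.pow_right_strictAnti v.asIdeal v.ne_bot v.isPrime.ne_top (Nat.lt_succ_self j)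
    obtain ⟨π, h1, h2⟩ := SetLike.exists_of_lt hlt
    exact ⟨π, h1, h2⟩
  have hπ0 : π ≠ 0 := by
    rintro rfl
    exact hπ' (Submodule.zero_mem _)
  obtain ⟨a, ha⟩ := Ideal.dvd_span_singleton.2 hπ
  have hva : ¬ v.asIdeal ∣ a := by
    intro h
    apply hπ'
    rw [← Ideal.dvd_span_singleton, ha, pow_succ]
    exact mul_dvd_mul_left _ h
  rw [Ideal.dvd_iff_le, SetLike.not_le_iff_exists] at hva
  obtain ⟨m, hm, hm'⟩ := hva
  have h1 : m ^ 2 * δ ∈ Ideal.span {π} ^ 2 := by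
    rw [ha, mul_pow, ← pow_mul, mul_comm (v.asIdeal ^ (j * 2)), mul_comm j]
    exact Ideal.mul_mem_mul (Ideal.pow_mem_pow hm 2) hj
  rw [Ideal.span_singleton_pow, Ideal.mem_span_singleton] at h1
  obtain ⟨δ1, hδ1⟩ := h1
  exact ⟨π, m, δ1, hπ0, hπ, hm', hδ1.symm⟩

end Pool.Agent.HWR
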