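import Pool.Agent.HWR.Latc
import Pool.Agent.HWR.NormTT

/-!
# HWR-RA1: mean values of finite Euler products over the family

`S` a finite set of places (not containing `I0`, odd), local weights `x v c`, `y v c`
(`c = 0,1,2,...`), bounded in `c`, with `y v c = 0` for odd `c`;
`locxy v δ = ∑_{c ≤ ord v δ} x v c + y v (ord v δ) uu v δ`.

PROOF. For `V > ord v δ` the local factor is `locV V`, a sum over `c < V`.  Induction on `S`, with
the conditions `hh I0 δ1 s0 l0 c0` carried along (`rec_bound`); the case `S = ∅` is `latc`.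
Then `V → ∞` (the left side does not depend on `V`, for `V` large).
-/

namespace Pool.Agent.HWR

open NumberField IsDedekindDomain

variable {K : Type} [Field K] [NumberField K]

/-- local factor with weights `x`, `y` -/
noncomputable def locxy (x y : HeightOneSpectrum (𝓞 K) → ℕ → ℂ) (v : HeightOneSpectrum (𝓞 K))
    (δ : 𝓞 K) : ℂ :=
  ∑ c ∈ Finset.range (ord v δ + 1), x v c + y v (ord v δ) * uu v δ

open Classical in
/-- truncated local factor -/
noncomputable def locV (V : ℕ) (x y : HeightOneSpectrum (𝓞 K) → ℕ → ℂ)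
    (v : HeightOneSpectrum (𝓞 K)) (δ : 𝓞 K) : ℂ :=
  ∑ c ∈ Finset.range V, (x v c * (if δ ∈ v.asIdeal ^ c then 1 else 0) +
    y v c * ((if δ ∈ v.asIdeal ^ c then 1 else 0) * (if δ ∈ v.asIdeal ^ (c + 1) then 0 else uu v δ)))

theorem locxy_eq_locV {δ : 𝓞 K} (hδ : δ ≠ 0) (x y : HeightOneSpectrum (𝓞 K) → ℕ → ℂ)
    (v : HeightOneSpectrum (𝓞 K)) {V : ℕ} (hV : ord v δ < V) :
    locxy x y v δ = locV V x y v δ := by
  classical
  unfold locxy locV
  rw [Finset.sum_add_distrib]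
  congr 1
  · have h1 : Finset.range (ord v δ + 1) ⊆ Finset.range V := by
      intro c hc
      simp only [Finset.mem_range] at hc ⊢
      omega
    rw [← Finset.sum_subset h1]
    · refine Finset.sum_congr rfl fun c hc => ?_
      rw [if_pos ((ord_iff hδ v c).2 (by simp only [Finset.mem_range] at hc; omega)), mul_one]
    · intro c _ hc
      rw [if_neg fun h => hc (by
        have := (ord_iff hδ v c).1 h
        simp only [Finset.mem_range]
        omega), mul_zero]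
  · rw [Finset.sum_eq_single (ord v δ)]
    · rw [if_pos ((ord_iff hδ v _).2 le_rfl), if_neg fun h => by
        have := (ord_iff hδ v _).1 h
        omega]
      ring
    · intro c _ hc
      by_cases h1 : δ ∈ v.asIdeal ^ c
      · have h2 := (ord_iff hδ v c).1 h1
        rw [if_pos ((ord_iff hδ v (c + 1)).2 (by omega)), mul_zero, mul_zero]
      · rw [if_neg h1, zero_mul, mul_zero]
    · intro h
      exact absurd (Finset.mem_range.2 hV) h

omit [NumberField K] in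
open Classical in
private theorem hh_insert1 (I0 : Ideal (𝓞 K)) (δ1 : 𝓞 K) (s l : Finset (HeightOneSpectrum (𝓞 K)))
    (c : HeightOneSpectrum (𝓞 K) → ℕ) (a : HeightOneSpectrum (𝓞 K)) (ha : a ∉ s) (hl : l ⊆ s) (k : ℕ)
    (δ : 𝓞 K) :
    hh I0 δ1 (insert a s) l (Function.update c a k) δ =
      hh I0 δ1 s l c δ * (if δ ∈ a.asIdeal ^ k then 1 else 0) := by
  unfold hh
  rw [Finset.prod_insert ha, Function.update_self]
  have h1 : ∏ v ∈ s, (if δ ∈ v.asIdeal ^ (Function.update c a k v) then (1 : ℂ) else 0) =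
      ∏ v ∈ s, (if δ ∈ v.asIdeal ^ c v then (1 : ℂ) else 0) := by
    refine Finset.prod_congr rfl fun v hv => ?_
    rw [Function.update_of_ne (ne_of_mem_of_not_mem hv ha)]
  have h2 : ∏ v ∈ l, (if δ ∈ v.asIdeal ^ (Function.update c a k v + 1) then (0 : ℂ) else uu v δ) =
      ∏ v ∈ l, (if δ ∈ v.asIdeal ^ (c v + 1) then (0 : ℂ) else uu v δ) := by
    refine Finset.prod_congr rfl fun v hv => ?_
    rw [Function.update_of_ne (ne_of_mem_of_not_mem (hl hv) ha)]
  rw [h1, h2]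
  ring

omit [NumberField K] in
open Classical in
private theorem hh_insert2 (I0 : Ideal (𝓞 K)) (δ1 : 𝓞 K) (s l : Finset (HeightOneSpectrum (𝓞 K)))
    (c : HeightOneSpectrum (𝓞 K) → ℕ) (a : HeightOneSpectrum (𝓞 K)) (ha : a ∉ s) (hl : l ⊆ s) (k : ℕ)
    (δ : 𝓞 K) :
    hh I0 δ1 (insert a s) (insert a l) (Function.update c a k) δ =
      hh I0 δ1 s l c δ * ((if δ ∈ a.asIdeal ^ k then 1 else 0) *
        (if δ ∈ a.asIdeal ^ (k + 1) then 0 else uu a δ)) := by
  unfold hh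
  rw [Finset.prod_insert ha, Finset.prod_insert (fun h => ha (hl h)), Function.update_self]
  have h1 : ∏ v ∈ s, (if δ ∈ v.asIdeal ^ (Function.update c a k v) then (1 : ℂ) else 0) =
      ∏ v ∈ s, (if δ ∈ v.asIdeal ^ c v then (1 : ℂ) else 0) := by
    refine Finset.prod_congr rfl fun v hv => ?_
    rw [Function.update_of_ne (ne_of_mem_of_not_mem hv ha)]
  have h2 : ∏ v ∈ l, (if δ ∈ v.asIdeal ^ (Function.update c a k v + 1) then (0 : ℂ) else uu v δ) =
      ∏ v ∈ l, (if δ ∈ v.asIdeal ^ (c v + 1) then (0 : ℂ) else uu v δ) := by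
    refine Finset.prod_congr rfl fun v hv => ?_
    rw [Function.update_of_ne (ne_of_mem_of_not_mem (hl hv) ha)]
  rw [h1, h2]
  ring

private theorem nrm_two_le (v : HeightOneSpectrum (𝓞 K)) : 2 ≤ nrm v := by
  unfold nrm
  have h0 : Ideal.absNorm v.asIdeal ≠ 0 := by
    rw [Ne, Ideal.absNorm_eq_zero_iff]
    exact v.ne_bot
  have h1 : Ideal.absNorm v.asIdeal ≠ 1 := by
    rw [Ne, Ideal.absNorm_eq_one_iff]
    exact v.isPrime.ne_top
  omega

/-- the sum over the support of the weight -/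
private theorem tsum_T {W : (Idx K → ℝ) → ℝ} {X : ℝ} (T : Finset (𝓞 K))
    (hT : ∀ δ, W (crdR X δ) ≠ 0 → δ ∈ T) (z : ℂ) (G : 𝓞 K → ℂ) :
    ∑' δ : 𝓞 K, Phi W z (crdR X δ) * G δ = ∑ δ ∈ T, Phi W z (crdR X δ) * G δ := by
  refine tsum_eq_sum fun δ hδ => ?_
  have : W (crdR X δ) = 0 := by
    by_contra h
    exact hδ (hT δ h)
  unfold Phi
  rw [this]
  simp

open Classical in
private theorem rec_bound {W : (Idx K → ℝ) → ℝ} {I0 : Ideal (𝓞 K)} (δ1 : 𝓞 K) {ε C X : ℝ} {z : ℂ}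
    (hX : 1 ≤ X) (T : Finset (𝓞 K))
    (hlat : ∀ (s l : Finset (HeightOneSpectrum (𝓞 K))), l ⊆ s →
      (∀ v ∈ s, ¬ I0 ≤ v.asIdeal) → (∀ v ∈ l, (2 : 𝓞 K) ∉ v.asIdeal) →
      ∀ c : HeightOneSpectrum (𝓞 K) → ℕ, (∀ v ∈ l, Even (c v)) →
        ‖∑ δ ∈ T, Phi W z (crdR X δ) * hh I0 δ1 s l c δ -
          (if l = ∅ then
            Tot W z X / ((Ideal.absNorm I0 : ℂ) * ∏ v ∈ s, (nrm v : ℂ) ^ c v) else 0)‖ ≤
        C * (∏ v ∈ l, (2 * Real.sqrt (nrm v))) *
          (X ^ Module.finrank ℚ K / ∏ v ∈ s, (nrm v : ℝ) ^ c v) ^ ε)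
    (V : ℕ) (x y : HeightOneSpectrum (𝓞 K) → ℕ → ℂ) (hy : ∀ v c, Odd c → y v c = 0) :
    ∀ S : Finset (HeightOneSpectrum (𝓞 K)), (∀ v ∈ S, ¬ I0 ≤ v.asIdeal) →
      (∀ v ∈ S, (2 : 𝓞 K) ∉ v.asIdeal) →
    ∀ (s l : Finset (HeightOneSpectrum (𝓞 K))), Disjoint s S → l ⊆ s →
      (∀ v ∈ s, ¬ I0 ≤ v.asIdeal) → (∀ v ∈ l, (2 : 𝓞 K) ∉ v.asIdeal) →
      ∀ c : HeightOneSpectrum (𝓞 K) → ℕ, (∀ v ∈ l, Even (c v)) →
        ‖∑ δ ∈ T, Phi W z (crdR X δ) * (hh I0 δ1 s l c δ * ∏ v ∈ S, locV V x y v δ) -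
          (if l = ∅ then
            Tot W z X / ((Ideal.absNorm I0 : ℂ) * ∏ v ∈ s, (nrm v : ℂ) ^ c v) else 0) *
            ∏ v ∈ S, ∑ k ∈ Finset.range V, x v k * ((nrm v : ℂ) ^ k)⁻¹‖ ≤
        C * (∏ v ∈ l, (2 * Real.sqrt (nrm v))) *
          (X ^ Module.finrank ℚ K / ∏ v ∈ s, (nrm v : ℝ) ^ c v) ^ ε *
          ∏ v ∈ S, (∑ k ∈ Finset.range V, ‖x v k‖ * (nrm v : ℝ) ^ (-(ε * k)) +
            2 * Real.sqrt (nrm v) * ∑ k ∈ Finset.range V, ‖y v k‖ * (nrm v : ℝ) ^ (-(ε * k))) := by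
  intro S
  induction S using Finset.induction_on with
  | empty =>
    intro _ _ s l _ hl h1 h2 c hc
    simpa using hlat s l hl h1 h2 c hc
  | insert a S ha ih =>
    intro hS1 hS2 s l hd hl h1 h2 c hc
    have has : a ∉ s := fun h => (Finset.disjoint_left.1 hd h) (Finset.mem_insert_self a S)
    have hd' : Disjoint (insert a s) S := by
      rw [Finset.disjoint_insert_left]
      exact ⟨ha, hd.mono_right (Finset.subset_insert a S)⟩
    have ih' := ih (fun v hv => hS1 v (Finset.mem_insert_of_mem hv))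
      (fun v hv => hS2 v (Finset.mem_insert_of_mem hv))
    have h1' : ∀ v ∈ insert a s, ¬ I0 ≤ v.asIdeal := by
      intro v hv
      rcases Finset.mem_insert.1 hv with h | h
      · rw [h]; exact hS1 a (Finset.mem_insert_self a S)
      · exact h1 v h
    have h2' : ∀ v ∈ insert a l, (2 : 𝓞 K) ∉ v.asIdeal := by
      intro v hv
      rcases Finset.mem_insert.1 hv with h | h
      · rw [h]; exact hS2 a (Finset.mem_insert_self a S)
      · exact h2 v h
    set P : 𝓞 K → ℂ := fun δ => ∏ v ∈ S, locV V x y v δ with hP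
    set Q : ℂ := ∏ v ∈ S, ∑ k ∈ Finset.range V, x v k * ((nrm v : ℂ) ^ k)⁻¹ with hQ
    set E' : ℝ := ∏ v ∈ S, (∑ k ∈ Finset.range V, ‖x v k‖ * (nrm v : ℝ) ^ (-(ε * k)) +
            2 * Real.sqrt (nrm v) * ∑ k ∈ Finset.range V, ‖y v k‖ * (nrm v : ℝ) ^ (-(ε * k))) with hE'
    have hNa : (0 : ℝ) < (nrm a : ℝ) := by
      have := nrm_two_le a
      positivity
    have hNac : (nrm a : ℂ) ≠ 0 := by
      have := nrm_two_le a
      exact Nat.cast_ne_zero.2 (by omega)
    -- product of norms after insertion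
    have hprodR : ∀ k, ∏ v ∈ insert a s, (nrm v : ℝ) ^ (Function.update c a k v) =
        (nrm a : ℝ) ^ k * ∏ v ∈ s, (nrm v : ℝ) ^ c v := by
      intro k
      rw [Finset.prod_insert has, Function.update_self]
      congr 1
      refine Finset.prod_congr rfl fun v hv => ?_
      rw [Function.update_of_ne (ne_of_mem_of_not_mem hv has)]
    have hprodC : ∀ k, ∏ v ∈ insert a s, (nrm v : ℂ) ^ (Function.update c a k v) =
        (nrm a : ℂ) ^ k * ∏ v ∈ s, (nrm v : ℂ) ^ c v := by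
      intro k
      rw [Finset.prod_insert has, Function.update_self]
      congr 1
      refine Finset.prod_congr rfl fun v hv => ?_
      rw [Function.update_of_ne (ne_of_mem_of_not_mem hv has)]
    set Ps : ℝ := ∏ v ∈ s, (nrm v : ℝ) ^ c v with hPs
    have hPs0 : 0 < Ps := Finset.prod_pos fun v _ => by
      have := nrm_two_le v
      positivity
    have hXn : 0 < X ^ Module.finrank ℚ K := by positivity
    have hpow : ∀ k : ℕ, (X ^ Module.finrank ℚ K / ((nrm a : ℝ) ^ k * Ps)) ^ ε =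
        (X ^ Module.finrank ℚ K / Ps) ^ ε * (nrm a : ℝ) ^ (-(ε * k)) := by
      intro k
      have e1 : X ^ Module.finrank ℚ K / ((nrm a : ℝ) ^ k * Ps) =
          X ^ Module.finrank ℚ K / Ps * ((nrm a : ℝ) ^ k)⁻¹ := by
        field_simp
      rw [e1, Real.mul_rpow (div_pos hXn hPs0).le (inv_nonneg.2 (pow_nonneg hNa.le k))]
      congr 1
      have e0 : ((nrm a : ℝ) ^ k)⁻¹ = (nrm a : ℝ) ^ (-(k : ℝ)) := by
        rw [Real.rpow_neg hNa.le, Real.rpow_natCast]
      rw [e0, ← Real.rpow_mul hNa.le]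
      congr 1
      ring
    set U : ℕ → ℂ := fun k => ∑ δ ∈ T, Phi W z (crdR X δ) *
      (hh I0 δ1 (insert a s) l (Function.update c a k) δ * P δ) with hU
    set Z : ℕ → ℂ := fun k => ∑ δ ∈ T, Phi W z (crdR X δ) *
      (hh I0 δ1 (insert a s) (insert a l) (Function.update c a k) δ * P δ) with hZ
    set mm : ℂ := if l = ∅ then
            Tot W z X / ((Ideal.absNorm I0 : ℂ) * ∏ v ∈ s, (nrm v : ℂ) ^ c v) else 0 with hmm
    -- induction hypothesis for the two kinds of terms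
    have hUb : ∀ k, ‖U k - mm * ((nrm a : ℂ) ^ k)⁻¹ * Q‖ ≤
        C * (∏ v ∈ l, (2 * Real.sqrt (nrm v))) * (X ^ Module.finrank ℚ K / Ps) ^ ε *
          (nrm a : ℝ) ^ (-(ε * k)) * E' := by
      intro k
      have hev : ∀ v ∈ l, Even (Function.update c a k v) := by
        intro v hv
        rw [Function.update_of_ne (ne_of_mem_of_not_mem (hl hv) has)]
        exact hc v hv
      have h := ih' (insert a s) l hd' (hl.trans (Finset.subset_insert a s)) h1' h2
        (Function.update c a k) hev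
      rw [hprodR k, hprodC k, hpow k] at h
      have e2 : (if l = ∅ then Tot W z X / ((Ideal.absNorm I0 : ℂ) *
          ((nrm a : ℂ) ^ k * ∏ v ∈ s, (nrm v : ℂ) ^ c v)) else 0) = mm * ((nrm a : ℂ) ^ k)⁻¹ := by
        rw [hmm]
        split_ifs
        · rw [div_eq_mul_inv, div_eq_mul_inv, mul_inv, mul_inv, mul_inv]
          ring
        · rw [zero_mul]
      rw [e2] at h
      refine h.trans (le_of_eq ?_)
      ring
    have hZb : ∀ k, Even k → ‖Z k‖ ≤
        C * (∏ v ∈ l, (2 * Real.sqrt (nrm v))) * (X ^ Module.finrank ℚ K / Ps) ^ ε *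
          (2 * Real.sqrt (nrm a) * (nrm a : ℝ) ^ (-(ε * k))) * E' := by
      intro k hk
      have hev : ∀ v ∈ insert a l, Even (Function.update c a k v) := by
        intro v hv
        rcases Finset.mem_insert.1 hv with h | h
        · rw [h, Function.update_self]; exact hk
        · rw [Function.update_of_ne (ne_of_mem_of_not_mem (hl h) has)]
          exact hc v h
      have h := ih' (insert a s) (insert a l) hd' (Finset.insert_subset_insert a hl) h1' h2'
        (Function.update c a k) hev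
      rw [if_neg (Finset.insert_ne_empty a l), zero_mul, sub_zero, hprodR k, hpow k,
        Finset.prod_insert (fun h => has (hl h))] at h
      refine h.trans (le_of_eq ?_)
      ring
    -- expansion of the left side
    have hsum : ∑ δ ∈ T, Phi W z (crdR X δ) * (hh I0 δ1 s l c δ * ∏ v ∈ insert a S, locV V x y v δ) =
        ∑ k ∈ Finset.range V, (x a k * U k + y a k * Z k) := by
      have e3 : ∀ δ, Phi W z (crdR X δ) * (hh I0 δ1 s l c δ * ∏ v ∈ insert a S, locV V x y v δ) =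
          ∑ k ∈ Finset.range V, (x a k * (Phi W z (crdR X δ) *
            (hh I0 δ1 (insert a s) l (Function.update c a k) δ * P δ)) +
            y a k * (Phi W z (crdR X δ) *
            (hh I0 δ1 (insert a s) (insert a l) (Function.update c a k) δ * P δ))) := by
        intro δ
        rw [Finset.prod_insert ha]
        have e4 : locV V x y a δ = ∑ k ∈ Finset.range V, (x a k * (if δ ∈ a.asIdeal ^ k then 1 else 0) +
          y a k * ((if δ ∈ a.asIdeal ^ k then 1 else 0) *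
            (if δ ∈ a.asIdeal ^ (k + 1) then 0 else uu a δ))) := rfl
        rw [e4, Finset.sum_mul, Finset.mul_sum, Finset.mul_sum]
        refine Finset.sum_congr rfl fun k _ => ?_
        rw [hh_insert1 I0 δ1 s l c a has hl k δ, hh_insert2 I0 δ1 s l c a has hl k δ]
        simp only [hP]
        ring
      rw [Finset.sum_congr rfl fun δ _ => e3 δ, Finset.sum_comm]
      refine Finset.sum_congr rfl fun k _ => ?_
      rw [Finset.sum_add_distrib, ← Finset.mul_sum, ← Finset.mul_sum]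
    have hmain : mm * ∏ v ∈ insert a S, ∑ k ∈ Finset.range V, x v k * ((nrm v : ℂ) ^ k)⁻¹ =
        ∑ k ∈ Finset.range V, x a k * (mm * ((nrm a : ℂ) ^ k)⁻¹ * Q) := by
      rw [Finset.prod_insert ha, Finset.sum_mul, Finset.mul_sum]
      refine Finset.sum_congr rfl fun k _ => ?_
      rw [← hQ]
      ring
    rw [hsum, hmain, ← Finset.sum_sub_distrib, Finset.prod_insert ha]
    have hterm : ∀ k ∈ Finset.range V, ‖x a k * U k + y a k * Z k -
        x a k * (mm * ((nrm a : ℂ) ^ k)⁻¹ * Q)‖ ≤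
        C * (∏ v ∈ l, (2 * Real.sqrt (nrm v))) * (X ^ Module.finrank ℚ K / Ps) ^ ε * E' *
          (‖x a k‖ * (nrm a : ℝ) ^ (-(ε * k)) +
            2 * Real.sqrt (nrm a) * (‖y a k‖ * (nrm a : ℝ) ^ (-(ε * k)))) := by
      intro k _
      have e5 : x a k * U k + y a k * Z k - x a k * (mm * ((nrm a : ℂ) ^ k)⁻¹ * Q) =
          x a k * (U k - mm * ((nrm a : ℂ) ^ k)⁻¹ * Q) + y a k * Z k := by ring
      rw [e5]
      refine (norm_add_le _ _).trans ?_
      rw [norm_mul, norm_mul]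
      have g1 := mul_le_mul_of_nonneg_left (hUb k) (norm_nonneg (x a k))
      have g2 : ‖y a k‖ * ‖Z k‖ ≤ ‖y a k‖ * (C * (∏ v ∈ l, (2 * Real.sqrt (nrm v))) *
          (X ^ Module.finrank ℚ K / Ps) ^ ε *
          (2 * Real.sqrt (nrm a) * (nrm a : ℝ) ^ (-(ε * k))) * E') := by
        rcases Nat.even_or_odd k with hk | hk
        · exact mul_le_mul_of_nonneg_left (hZb k hk) (norm_nonneg _)
        · rw [hy a k hk, norm_zero, zero_mul, zero_mul]
      refine (add_le_add g1 g2).trans (le_of_eq ?_)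
      ring
    refine (norm_sum_le _ _).trans ((Finset.sum_le_sum hterm).trans (le_of_eq ?_))
    rw [← Finset.mul_sum, Finset.sum_add_distrib, ← Finset.mul_sum (Finset.range V)
      (fun k => ‖y a k‖ * (nrm a : ℝ) ^ (-(ε * k)))]
    ring

open Classical in
theorem ra_fin {W : (Idx K → ℝ) → ℝ} (hW : IsWeight W)
    {I0 : Ideal (𝓞 K)} (hI0 : I0 ≠ ⊥) (δ1 : 𝓞 K) {ε : ℝ} (hε : 0 < ε)
    (hε1 : ε ≤ 1) (R : ℝ) :
    ∃ C : ℝ, 0 ≤ C ∧ ∀ (S : Finset (HeightOneSpectrum (𝓞 K))),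
      (∀ v ∈ S, ¬ I0 ≤ v.asIdeal) → (∀ v ∈ S, (2 : 𝓞 K) ∉ v.asIdeal) →
      ∀ x y : HeightOneSpectrum (𝓞 K) → ℕ → ℂ, (∀ v c, Odd c → y v c = 0) →
      (∃ B : ℝ, ∀ v ∈ S, ∀ c, ‖x v c‖ ≤ B ∧ ‖y v c‖ ≤ B) →
      ∀ z : ℂ, ‖z‖ ≤ R → ∀ X : ℝ, 1 ≤ X →
        ‖∑' δ : 𝓞 K, Phi W z (crdR X δ) *
            ((if δ - δ1 ∈ I0 then 1 else 0) * ∏ v ∈ S, locxy x y v δ) -
          Tot W z X / (Ideal.absNorm I0 : ℂ) *
            ∏ v ∈ S, ∑' c : ℕ, x v c * ((nrm v : ℂ) ^ c)⁻¹‖ ≤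
        C * (X ^ Module.finrank ℚ K) ^ ε *
          ∏ v ∈ S, (∑' c : ℕ, ‖x v c‖ * (nrm v : ℝ) ^ (-(ε * c)) +
            2 * Real.sqrt (nrm v) * ∑' c : ℕ, ‖y v c‖ * (nrm v : ℝ) ^ (-(ε * c))) := by
  obtain ⟨C, hC, hlat⟩ := latc hW hI0 δ1 hε hε1 R
  refine ⟨C, hC, ?_⟩
  intro S hS1 hS2 x y hy hB z hz X hX
  obtain ⟨B, hB⟩ := hB
  set T : Finset (𝓞 K) := (supp_finite hW (X := X) (by linarith)).toFinset with hTd
  have hT : ∀ δ, W (crdR X δ) ≠ 0 → δ ∈ T := fun δ hδ => by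
    rw [hTd, Set.Finite.mem_toFinset]
    exact hδ
  have hT0 : ∀ δ ∈ T, δ ≠ 0 := by
    intro δ hδ
    rw [hTd, Set.Finite.mem_toFinset] at hδ
    exact ne_zero_of_ne hW (X := X) (by linarith) hδ
  -- truncation level
  obtain ⟨V0, hV0⟩ : ∃ V0 : ℕ, ∀ δ ∈ T, ∀ v ∈ S, ord v δ < V0 := by
    refine ⟨(T ×ˢ S).sup (fun p => ord p.2 p.1) + 1, fun δ hδ v hv => ?_⟩
    have := Finset.le_sup (f := fun p : 𝓞 K × HeightOneSpectrum (𝓞 K) => ord p.2 p.1)
      (Finset.mk_mem_product hδ hv)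
    simp only at this
    omega
  have hlat' := fun s l h1 h2 h3 c h4 => hlat s l h1 h2 h3 c h4 z hz X hX
  simp only [tsum_T T hT] at hlat'
  rw [tsum_T T hT]
  set LHS : ℂ := ∑ δ ∈ T, Phi W z (crdR X δ) *
            ((if δ - δ1 ∈ I0 then 1 else 0) * ∏ v ∈ S, locxy x y v δ) with hLHS
  -- summability
  have hgeo : ∀ v ∈ S, Summable fun c : ℕ => (nrm v : ℝ) ^ (-(ε * c)) := by
    intro v _
    have h2 : (2 : ℝ) ≤ (nrm v : ℝ) := by exact_mod_cast nrm_two_le v
    have e : (fun c : ℕ => (nrm v : ℝ) ^ (-(ε * c))) = fun c : ℕ => ((nrm v : ℝ) ^ (-ε)) ^ c := by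
      funext c
      rw [← Real.rpow_natCast, ← Real.rpow_mul (by linarith)]
      congr 1
      ring
    rw [e]
    refine summable_geometric_of_lt_one (by positivity) ?_
    exact Real.rpow_lt_one_of_one_lt_of_neg (by linarith) (by linarith)
  have hsx : ∀ v ∈ S, Summable fun c : ℕ => ‖x v c‖ * (nrm v : ℝ) ^ (-(ε * c)) := fun v hv =>
    Summable.of_nonneg_of_le (fun c => by positivity)
      (fun c => mul_le_mul_of_nonneg_right (hB v hv c).1 (by positivity)) ((hgeo v hv).mul_left B)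
  have hsy : ∀ v ∈ S, Summable fun c : ℕ => ‖y v c‖ * (nrm v : ℝ) ^ (-(ε * c)) := fun v hv =>
    Summable.of_nonneg_of_le (fun c => by positivity)
      (fun c => mul_le_mul_of_nonneg_right (hB v hv c).2 (by positivity)) ((hgeo v hv).mul_left B)
  have hsm : ∀ v ∈ S, Summable fun c : ℕ => x v c * ((nrm v : ℂ) ^ c)⁻¹ := by
    intro v hv
    have h2 : (2 : ℝ) ≤ (nrm v : ℝ) := by exact_mod_cast nrm_two_le v
    have hg : Summable fun c : ℕ => ((nrm v : ℝ)⁻¹) ^ c :=
      summable_geometric_of_lt_one (by positivity) (inv_lt_one_of_one_lt₀ (by linarith))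
    refine Summable.of_norm_bounded (hg.mul_left B) fun c => ?_
    rw [norm_mul, norm_inv, norm_pow, Complex.norm_natCast, ← inv_pow]
    exact mul_le_mul_of_nonneg_right (hB v hv c).1 (by positivity)
  -- bound for each large V
  have hV : ∀ V : ℕ, V0 ≤ V → ‖LHS - Tot W z X / (Ideal.absNorm I0 : ℂ) *
      ∏ v ∈ S, ∑ k ∈ Finset.range V, x v k * ((nrm v : ℂ) ^ k)⁻¹‖ ≤
      C * (X ^ Module.finrank ℚ K) ^ ε *
          ∏ v ∈ S, (∑' c : ℕ, ‖x v c‖ * (nrm v : ℝ) ^ (-(ε * c)) +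
            2 * Real.sqrt (nrm v) * ∑' c : ℕ, ‖y v c‖ * (nrm v : ℝ) ^ (-(ε * c))) := by
    intro V hVV
    have h := rec_bound δ1 hX T hlat' V x y hy S hS1 hS2 ∅ ∅ (Finset.disjoint_empty_left _)
      (Finset.empty_subset _) (by simp) (by simp) (fun _ => 0) (by simp)
    have e1 : ∑ δ ∈ T, Phi W z (crdR X δ) * (hh I0 δ1 ∅ ∅ (fun _ => 0) δ * ∏ v ∈ S, locV V x y v δ) =
        LHS := by
      rw [hLHS]
      refine Finset.sum_congr rfl fun δ hδ => ?_
      have e2 : hh I0 δ1 ∅ ∅ (fun _ => 0) δ = if δ - δ1 ∈ I0 then 1 else 0 := by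
        unfold hh
        simp
      rw [e2]
      congr 2
      refine Finset.prod_congr rfl fun v hv => ?_
      exact (locxy_eq_locV (hT0 δ hδ) x y v (lt_of_lt_of_le (hV0 δ hδ v hv) hVV)).symm
    rw [e1] at h
    simp only [if_true, Finset.prod_empty, mul_one, div_one] at h
    refine h.trans ?_
    refine mul_le_mul_of_nonneg_left ?_ (by positivity)
    refine Finset.prod_le_prod (fun v _ => by positivity) fun v hv => ?_
    refine add_le_add ?_ (mul_le_mul_of_nonneg_left ?_ (by positivity))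
    · exact (hsx v hv).sum_le_tsum _ fun c _ => by positivity
    · exact (hsy v hv).sum_le_tsum _ fun c _ => by positivity
  have hlim : Filter.Tendsto (fun V : ℕ => ‖LHS - Tot W z X / (Ideal.absNorm I0 : ℂ) *
      ∏ v ∈ S, ∑ k ∈ Finset.range V, x v k * ((nrm v : ℂ) ^ k)⁻¹‖) Filter.atTop
      (nhds ‖LHS - Tot W z X / (Ideal.absNorm I0 : ℂ) *
            ∏ v ∈ S, ∑' c : ℕ, x v c * ((nrm v : ℂ) ^ c)⁻¹‖) := by
    refine (tendsto_const_nhds.sub (tendsto_const_nhds.mul ?_)).norm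
    exact tendsto_finsetProd _ fun v hv => (hsm v hv).hasSum.tendsto_sum_nat
  exact le_of_tendsto hlim (Filter.eventually_atTop.2 ⟨V0, hV⟩)

end Pool.Agent.HWR
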