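import Pool.Agent.HWR.Types
import Pool.Agent.HWR.QuadAux

/-!
# HWR-D3: the places over `T` split

`split_two` PLAN (`2 ∈ v`, `δ ≡ 1` mod `8`).  `η = (1+θ)/2 ∈ K'` satisfies
`η^2 - η = (δ-1)/4 ∈ 2 𝓞 K`, so `η ∈ 𝓞 K'` and `η (η - 1) ∈ v 𝓞 K'`.  If there is only one prime
`w` above `v`, then `w` contains `η` or `η - 1`; apply the nontrivial automorphism `τ`
(`τ η = 1 - η`, `τ w = w`): it contains both, so `1 ∈ w`.  (Without `τ`: `w` contains `η` or
`η - 1`; `w` is the only prime over `v`, so `w ∩ ... `: the norm of `η` to `K` is `(1-δ)/4 ∈ v`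
and equals the norm of `1 - η`; if `η ∉ w`, then `η` is a unit at all primes above `v`, so its
norm is not in `v`, contradiction; same for `1 - η`.)  Hence two primes (`quad_types`).

`split_T`: `v` not away from `T`, i.e. some `p ∈ T` lies in `v`.  If `2 ∈ v`: `split_two` (as
`8 ∣ R`).  Otherwise `δ - 1 ∈ v` (`R ∈ v`), so `δ ∉ v`, `uu v δ = 1` (`j = 0`, `x = 1`), and
`type_split`.

`splits_norm`: from `quad_types`.
-/

namespace Pool.Agent.HWR

open NumberField IsDedekindDomain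

variable (K : Type) [Field K] [NumberField K] (K' : Type) [Field K'] [NumberField K']
    [Algebra K K'] (hdeg : Module.finrank K K' = 2) (δ : 𝓞 K) (θ : 𝓞 K')
    (hθ : θ ^ 2 = algebraMap (𝓞 K) (𝓞 K') δ) (hδ : δ ≠ 0)
    (hns : ∀ x : K, x ^ 2 ≠ (δ : K)) (v : HeightOneSpectrum (𝓞 K))
include hdeg hθ hδ hns

theorem split_two (h2 : (2 : 𝓞 K) ∈ v.asIdeal) (h8 : δ - 1 ∈ Ideal.span {(8 : 𝓞 K)}) :
    Splits K K' v := by
  obtain ⟨τ, hτ⟩ := qa_tau hdeg hθ hns
  obtain ⟨c, hc⟩ := Ideal.mem_span_singleton.1 h8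
  have hδc : δ = 1 + 8 * c := by rw [← hc]; ring
  -- `η = (1 + θ)/2`
  obtain ⟨η, hη⟩ : ∃ η : 𝓞 K', 2 * η = 1 + θ := by
    have h20 : (2 : K') ≠ 0 := two_ne_zero
    have hint : IsIntegral (𝓞 K) ((1 + (θ : K')) / 2) := by
      refine ⟨Polynomial.X ^ 2 - Polynomial.X - Polynomial.C (2 * c), ?_, ?_⟩
      · monicity!
      · have hθ' : (θ : K') ^ 2 = 1 + 8 * algebraMap (𝓞 K) K' c := by
          have h3 : (θ : K') ^ 2 = algebraMap (𝓞 K) K' δ := by
            rw [IsScalarTower.algebraMap_apply (𝓞 K) (𝓞 K') K', ← hθ]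
            simp
          rw [h3, hδc, map_add, map_mul, map_one, map_ofNat]
        simp only [Polynomial.eval₂_sub, Polynomial.eval₂_pow, Polynomial.eval₂_X,
          Polynomial.eval₂_C]
        rw [map_mul, map_ofNat]
        field_simp
        linear_combination hθ'
    have hint' : IsIntegral ℤ ((1 + (θ : K')) / 2) := isIntegral_trans _ hint
    refine ⟨⟨_, hint'⟩, ?_⟩
    apply FaithfulSMul.algebraMap_injective (𝓞 K') K'
    rw [map_mul, map_ofNat, map_add, map_one]
    show (2 : K') * ((1 + (θ : K')) / 2) = 1 + (θ : K')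
    field_simp
  have h20 : (2 : 𝓞 K') ≠ 0 := two_ne_zero
  have hτη : τ η = 1 - η := by
    have h3 : 2 * τ η = 2 * (1 - η) := by
      have h4 : τ (2 * η) = τ (1 + θ) := by rw [hη]
      rw [map_mul, map_add, hτ, map_ofNat, map_one] at h4
      rw [h4]
      linear_combination hη
    exact mul_left_cancel₀ h20 h3
  have hηη : η * (η - 1) = algebraMap (𝓞 K) (𝓞 K') (2 * c) := by
    have h3 : 4 * (η * (η - 1)) = 4 * algebraMap (𝓞 K) (𝓞 K') (2 * c) := by
      rw [map_mul, map_ofNat]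
      have h5 : θ ^ 2 = 1 + 8 * algebraMap (𝓞 K) (𝓞 K') c := by
        rw [hθ, hδc, map_add, map_mul, map_one, map_ofNat]
      have h6 : θ = 2 * η - 1 := by linear_combination -hη
      rw [h6] at h5
      linear_combination h5
    exact mul_left_cancel₀ (by norm_num) h3
  -- only one prime above `v` is impossible
  have key : ∀ (w : Ideal (𝓞 K')), v.asIdeal.primesOver (𝓞 K') = {w} → False := by
    intro w hw
    have hP : w ∈ v.asIdeal.primesOver (𝓞 K') := by rw [hw]; exact Set.mem_singleton _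
    have h3 : η * (η - 1) ∈ w := by
      rw [hηη, qa_mem_iff hP]
      exact Ideal.mul_mem_right _ _ h2
    have hτw : ∀ y ∈ w, τ y ∈ w := by
      intro y hy
      have := qa_tau_pow hw τ (k := 1) (y := y) (by rwa [pow_one])
      rwa [pow_one] at this
    apply (qa_max hP).ne_top
    rw [Ideal.eq_top_iff_one]
    rcases hP.1.mem_or_mem h3 with h4 | h4
    · have h5 := hτw _ h4
      rw [hτη] at h5
      have h6 := w.add_mem h5 h4
      simpa using h6
    · have h5 := hτw _ h4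
      rw [map_sub, hτη, map_one] at h5
      have h6 := w.add_mem h5 h4
      have h7 : 1 - η - 1 + (η - 1) = -1 := by ring
      rw [h7] at h6
      have h8 := w.neg_mem h6
      simpa using h8
  rcases quad_types K K' hdeg v with ⟨hs, _⟩ | ⟨w, hw, _⟩
  · exact hs
  · exact absurd (key w hw) id

theorem split_T (T : Finset ℕ)
    (hone : δ - 1 ∈ Ideal.span {(((8 * ∏ p ∈ T, p : ℕ)) : 𝓞 K)}) (hv : ¬ Away K T v) :
    Splits K K' v := by
  by_cases h2 : (2 : 𝓞 K) ∈ v.asIdeal
  · refine split_two K K' hdeg δ θ hθ hδ hns v h2 ?_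
    rw [Ideal.mem_span_singleton] at hone ⊢
    refine dvd_trans ?_ hone
    push_cast
    exact dvd_mul_right _ _
  · refine type_split K K' hdeg δ θ hθ hδ hns v h2 ?_
    unfold Away at hv
    push Not at hv
    obtain ⟨p, hp, hpv⟩ := hv
    have h3 : δ - 1 ∈ v.asIdeal := by
      refine (Ideal.span_singleton_le_iff_mem _).2 ?_ hone
      push_cast
      refine Ideal.mul_mem_left _ _ ?_
      rw [← Finset.mul_prod_erase T _ hp]
      exact Ideal.mul_mem_right _ _ hpv
    have h4 : δ ∉ v.asIdeal := by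
      intro h5
      apply v.isPrime.ne_top
      rw [Ideal.eq_top_iff_one]
      have := v.asIdeal.sub_mem h5 h3
      simpa using this
    have hex : ∃ j : ℕ, δ ∈ v.asIdeal ^ (2 * j) ∧ δ ∉ v.asIdeal ^ (2 * j + 1) ∧
        ∃ x : 𝓞 K, δ - x ^ 2 ∈ v.asIdeal ^ (2 * j + 1) :=
      ⟨0, by simp, by simpa using h4, 1, by simpa using h3⟩
    have hex' : ∃ j : ℕ, δ ∈ v.asIdeal ^ (2 * j) ∧ δ ∉ v.asIdeal ^ (2 * j + 1) :=
      ⟨0, by simp, by simpa using h4⟩
    unfold uu
    rw [if_pos hex', if_pos hex]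

end Pool.Agent.HWR
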