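import Mathlib

/-!
# HWR-AB1: three lines with a Gaussian factor

`three_lines` PLAN. `κ1 = κ / (b-a)^2`, `T1 = |T0| + sqrt (max 0 (ρt - ρa) / κ1) + 1`.
Fix `s0` with `|Im s0| ≤ T0` in the strip and put `g s = f s * exp (κ1 log X (s - s0)^2)`;
`‖g s‖ = ‖f s‖ X^(κ1 ((σ-σ0)^2 - (t-t0)^2))`.  On `Re s = b`: `‖g‖ ≤ C X^(ρb + κ)`; on `Re s = a`,
`|t| ≤ T1`: `‖g‖ ≤ C X^(ρa + κ)`; on `Re s = a`, `|t| > T1`: `‖g‖ ≤ C X^(ρt + κ - κ1 (T1 - T0)^2)
≤ C X^(ρa + κ)`.  `g` is bounded in the strip.  Hadamard three lines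
(`Complex.HadamardThreeLines.norm_le_interp_of_mem_verticalClosedStrip'`, general strips) at
`s0`, where `g s0 = f s0`:
`‖f s0‖ ≤ (C X^(ρa+κ))^(1-θ) (C X^(ρb+κ))^θ`, `θ = (σ0-a)/(b-a)`.

-/

namespace Pool.Agent.HWR

theorem three_lines {a b : ℝ} (hab : a < b) (ρa ρb ρt : ℝ) {κ : ℝ} (hκ : 0 < κ) (T0 : ℝ) :
    ∃ T1 : ℝ, ∀ (X C : ℝ) (f : ℂ → ℂ), 1 ≤ X → 0 < C → Differentiable ℂ f →
      (∃ M : ℝ, ∀ s : ℂ, a ≤ s.re → s.re ≤ b → ‖f s‖ ≤ M) →
      (∀ s : ℂ, s.re = b → ‖f s‖ ≤ C * X ^ ρb) →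
      (∀ s : ℂ, s.re = a → |s.im| ≤ T1 → ‖f s‖ ≤ C * X ^ ρa) →
      (∀ s : ℂ, s.re = a → ‖f s‖ ≤ C * X ^ ρt) →
      ∀ s : ℂ, a ≤ s.re → s.re ≤ b → |s.im| ≤ T0 →
        ‖f s‖ ≤ C * X ^ ((ρa * (b - s.re) + ρb * (s.re - a)) / (b - a) + κ) := by
  have hba : 0 < b - a := by linarith
  set κ1 : ℝ := κ / (b - a) ^ 2 with hκ1
  have hκ1p : 0 < κ1 := by positivity
  set R : ℝ := Real.sqrt (max 0 (ρt - ρa) / κ1) with hR
  have hR0 : 0 ≤ R := Real.sqrt_nonneg _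
  have hR2 : κ1 * R ^ 2 = max 0 (ρt - ρa) := by
    rw [hR, Real.sq_sqrt (by positivity)]
    field_simp
  refine ⟨|T0| + R + 1, ?_⟩
  intro X C f hX hC hf hM hb ha hat s0 hs0a hs0b hs0
  obtain ⟨M, hM⟩ := hM
  have hX0 : 0 < X := by linarith
  have hL : 0 ≤ Real.log X := Real.log_nonneg hX
  set g : ℂ → ℂ := fun s => f s * Complex.exp (((κ1 * Real.log X : ℝ) : ℂ) * (s - s0) ^ 2) with hg
  have hgd : Differentiable ℂ g := by
    rw [hg]
    fun_prop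
  have hexp : ∀ s : ℂ, ‖Complex.exp (((κ1 * Real.log X : ℝ) : ℂ) * (s - s0) ^ 2)‖
      = X ^ (κ1 * ((s.re - s0.re) ^ 2 - (s.im - s0.im) ^ 2)) := by
    intro s
    rw [Complex.norm_exp, Complex.re_ofReal_mul, Real.rpow_def_of_pos hX0]
    congr 1
    have : ((s - s0) ^ 2).re = (s.re - s0.re) ^ 2 - (s.im - s0.im) ^ 2 := by
      rw [sq, Complex.mul_re, Complex.sub_re, Complex.sub_im]; ring
    rw [this]; ring
  have hsq : ∀ s : ℂ, a ≤ s.re → s.re ≤ b → κ1 * (s.re - s0.re) ^ 2 ≤ κ := by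
    intro s h1 h2
    have : (s.re - s0.re) ^ 2 ≤ (b - a) ^ 2 := by
      apply sq_le_sq'
      · linarith
      · linarith
    calc κ1 * (s.re - s0.re) ^ 2 ≤ κ1 * (b - a) ^ 2 := by gcongr
      _ = κ := by rw [hκ1]; field_simp
  have hgn : ∀ s : ℂ, ‖g s‖ = ‖f s‖ * X ^ (κ1 * ((s.re - s0.re) ^ 2 - (s.im - s0.im) ^ 2)) := by
    intro s
    rw [hg]
    simp only [norm_mul]
    rw [hexp s]
  have hgle : ∀ s : ℂ, a ≤ s.re → s.re ≤ b → ∀ B : ℝ, ‖f s‖ ≤ B → ‖g s‖ ≤ B * X ^ κ := by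
    intro s h1 h2 B hB
    rw [hgn]
    have hB0 : 0 ≤ B := le_trans (norm_nonneg _) hB
    apply mul_le_mul hB _ (by positivity) hB0
    apply Real.rpow_le_rpow_of_exponent_le hX
    have := hsq s h1 h2
    nlinarith [sq_nonneg (s.im - s0.im), mul_nonneg hκ1p.le (sq_nonneg (s.im - s0.im))]
  -- bounds on the edges
  have hedgeb : ∀ s : ℂ, s.re = b → ‖g s‖ ≤ C * X ^ (ρb + κ) := by
    intro s hs
    have := hgle s (by linarith) (by linarith) _ (hb s hs)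
    rw [Real.rpow_add hX0]
    calc _ ≤ _ := this
      _ = _ := by ring
  have hedgea : ∀ s : ℂ, s.re = a → ‖g s‖ ≤ C * X ^ (ρa + κ) := by
    intro s hs
    by_cases ht : |s.im| ≤ |T0| + R + 1
    · have := hgle s (by linarith) (by linarith) _ (ha s hs ht)
      rw [Real.rpow_add hX0]
      calc _ ≤ _ := this
        _ = _ := by ring
    · push Not at ht
      rw [hgn]
      have h1 : R ≤ |s.im - s0.im| := by
        have h2 : |s.im| - |s0.im| ≤ |s.im - s0.im| := abs_sub_abs_le_abs_sub _ _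
        have h3 : |s0.im| ≤ |T0| := le_trans hs0 (le_abs_self _)
        linarith
      have h2 : R ^ 2 ≤ (s.im - s0.im) ^ 2 := by
        rw [← sq_abs (s.im - s0.im)]
        gcongr
      have h3 : ρt - ρa ≤ κ1 * (s.im - s0.im) ^ 2 := by
        calc ρt - ρa ≤ max 0 (ρt - ρa) := le_max_right _ _
          _ = κ1 * R ^ 2 := hR2.symm
          _ ≤ _ := by gcongr
      have h4 := hsq s (by linarith) (by linarith)
      calc ‖f s‖ * X ^ (κ1 * ((s.re - s0.re) ^ 2 - (s.im - s0.im) ^ 2))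
          ≤ (C * X ^ ρt) * X ^ (κ1 * ((s.re - s0.re) ^ 2 - (s.im - s0.im) ^ 2)) := by
            gcongr
            exact hat s hs
        _ = C * X ^ (ρt + κ1 * ((s.re - s0.re) ^ 2 - (s.im - s0.im) ^ 2)) := by
            rw [Real.rpow_add hX0]; ring
        _ ≤ C * X ^ (ρa + κ) := by
            apply mul_le_mul_of_nonneg_left _ hC.le
            apply Real.rpow_le_rpow_of_exponent_le hX
            rw [mul_sub]
            linarith
  have hint := Complex.HadamardThreeLines.norm_le_interp_of_mem_verticalClosedStrip' (f := g)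
    (l := a) (u := b) (z := s0) (a := C * X ^ (ρa + κ)) (b := C * X ^ (ρb + κ)) hab
    ⟨hs0a, hs0b⟩ hgd.diffContOnCl
    ⟨M * X ^ κ, by
      rintro _ ⟨s, hs, rfl⟩
      exact hgle s hs.1 hs.2 M (hM s hs.1 hs.2)⟩
    (fun s hs => hedgea s hs) (fun s hs => hedgeb s hs)
  have hg0 : ‖g s0‖ = ‖f s0‖ := by
    rw [hgn]; simp
  rw [hg0] at hint
  refine le_trans hint (le_of_eq ?_)
  rw [Real.mul_rpow hC.le (by positivity), Real.mul_rpow hC.le (by positivity),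
    ← Real.rpow_mul hX0.le, ← Real.rpow_mul hX0.le]
  have e1 : C ^ (1 - (s0.re - a) / (b - a)) * C ^ ((s0.re - a) / (b - a)) = C := by
    rw [← Real.rpow_add hC]; simp
  have e2 : X ^ ((ρa + κ) * (1 - (s0.re - a) / (b - a))) * X ^ ((ρb + κ) * ((s0.re - a) / (b - a)))
      = X ^ ((ρa * (b - s0.re) + ρb * (s0.re - a)) / (b - a) + κ) := by
    rw [← Real.rpow_add hX0]
    congr 1
    field_simp
    ring
  calc _ = (C ^ (1 - (s0.re - a) / (b - a)) * C ^ ((s0.re - a) / (b - a))) *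
        (X ^ ((ρa + κ) * (1 - (s0.re - a) / (b - a))) *
          X ^ ((ρb + κ) * ((s0.re - a) / (b - a)))) := by ring
    _ = _ := by rw [e1, e2]

end Pool.Agent.HWR
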