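import Pool.Agent.HWR.Quad
import Pool.Agent.HWR.NormA
import Pool.Agent.HWR.QuadAux

/-!
# HWR-D2c: places (not above 2) with symbol -1 are inert

Setting: `[K':K] = 2`, `θ^2 = δ`, `δ` not a square in `K` (so `K' = K(θ)`).
Write `w(x)` for the order at a prime `w` of `𝓞 K'` and `e = e(w/v)`.

PLAN. The order of `δ` at `v` is `2j`, and no `x : 𝓞 K` has `δ - x^2 ∈ v^(2j+1)`.
Suppose some `w ∣ v` has residue degree `f(w/v) = 1` (i.e. `N w = N v`).  Choose `t ∈ K` with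
`v(t) = -j`.  `z = t θ` is a unit at `w` (`w(θ) = w(δ)/2 = e j`); as the residue fields of `v` and
`w` agree, there is `c ∈ 𝓞 K` with `w(z - c) > 0`, so `w(t^2 δ - c^2) > 0`, `v(t^2 δ - c^2) > 0`
and `v(δ - (c/t)^2) > 2j`, where `c/t ∈ K` is `v`-integral of order `≥ j`; approximate it by
`x ∈ 𝓞 K` modulo `v^(2j+1)` (`c/t = r/m` with `m ∉ v`: take `x = r m'` with `m m' ≡ 1` mod
`v^(2j+1)`).  Contradiction.  So all `w ∣ v` have residue degree 2 and `quad_types` gives the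
claim.  (Mathlib: `HeightOneSpectrum.valuation`, or work with ideals: `π ∈ v^j \ v^(j+1)`,
`δ b ≡ ...`.)
-/

namespace Pool.Agent.HWR

open NumberField IsDedekindDomain

variable (K : Type) [Field K] [NumberField K] (K' : Type) [Field K'] [NumberField K']
    [Algebra K K'] (hdeg : Module.finrank K K' = 2) (δ : 𝓞 K) (θ : 𝓞 K')
    (hθ : θ ^ 2 = algebraMap (𝓞 K) (𝓞 K') δ) (hδ : δ ≠ 0)
    (hns : ∀ x : K, x ^ 2 ≠ (δ : K)) (v : HeightOneSpectrum (𝓞 K))
include hdeg hθ hδ hns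

theorem type_inert (h2 : (2 : 𝓞 K) ∉ v.asIdeal) (hu : uu v δ = -1) :
    ∃ w : Ideal (𝓞 K'), v.asIdeal.primesOver (𝓞 K') = {w} ∧
      v.asIdeal.map (algebraMap (𝓞 K) (𝓞 K')) = w ∧ Ideal.absNorm w = nrm v ^ 2 := by
  classical
  -- the data given by the symbol
  obtain ⟨j, hj, hj', hnx⟩ : ∃ (j : ℕ), δ ∈ v.asIdeal ^ (2 * j) ∧
      δ ∉ v.asIdeal ^ (2 * j + 1) ∧ ∀ x : 𝓞 K, δ - x ^ 2 ∉ v.asIdeal ^ (2 * j + 1) := by
    unfold uu at hu
    split_ifs at hu with ha hb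
    · exfalso; norm_num at hu
    · obtain ⟨j, h1, h3⟩ := ha
      exact ⟨j, h1, h3, fun x hx => hb ⟨j, h1, h3, x, hx⟩⟩
    · exfalso; norm_num at hu
  obtain ⟨π, m, δ1, hπ0, hπ, hm, hπδ⟩ := qa_frac v hj
  -- the integral element `z = m θ / π`
  obtain ⟨z, hz⟩ : ∃ z : 𝓞 K', z ^ 2 = algebraMap (𝓞 K) (𝓞 K') δ1 := by
    have hπ' : algebraMap (𝓞 K) K' π ≠ 0 := by
      rw [IsScalarTower.algebraMap_apply (𝓞 K) (𝓞 K') K', Ne,
        map_eq_zero_iff _ (FaithfulSMul.algebraMap_injective (𝓞 K') K'),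
        map_eq_zero_iff _ qa_inj]
      exact hπ0
    have hsq : (algebraMap (𝓞 K) K' m * (θ : K') / algebraMap (𝓞 K) K' π) ^ 2 =
        algebraMap (𝓞 K) K' δ1 := by
      have hθ' : (θ : K') ^ 2 = algebraMap (𝓞 K) K' δ := by
        rw [IsScalarTower.algebraMap_apply (𝓞 K) (𝓞 K') K', ← hθ]
        simp
      rw [div_pow, mul_pow, div_eq_iff (pow_ne_zero _ hπ'), hθ', ← map_pow, ← map_pow,
        ← map_mul, ← map_mul, mul_comm δ1, hπδ]
    have hint : IsIntegral ℤ (algebraMap (𝓞 K) K' m * (θ : K') / algebraMap (𝓞 K) K' π) := by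
      refine IsIntegral.of_pow (n := 2) (by norm_num) ?_
      rw [hsq, IsScalarTower.algebraMap_apply (𝓞 K) (𝓞 K') K']
      exact RingOfIntegers.isIntegral_coe _
    refine ⟨⟨_, hint⟩, ?_⟩
    apply FaithfulSMul.algebraMap_injective (𝓞 K') K'
    rw [map_pow, ← IsScalarTower.algebraMap_apply (𝓞 K) (𝓞 K') K']
    exact hsq
  -- residue degree one is impossible
  have key : ∀ (w : Ideal (𝓞 K')), w ∈ v.asIdeal.primesOver (𝓞 K') →
      Ideal.absNorm w = nrm v → False := by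
    intro w hP hn
    have hwm := qa_max hP
    have hover : w.LiesOver v.asIdeal := hP.2
    -- surjectivity on residue fields
    obtain ⟨c, hc⟩ : ∃ c : 𝓞 K, z - algebraMap (𝓞 K) (𝓞 K') c ∈ w := by
      have hf1 : Finite (𝓞 K ⧸ v.asIdeal) := Ring.HasFiniteQuotients.finiteQuotient v.ne_bot
      have hf2 : Finite (𝓞 K' ⧸ w) := Ring.HasFiniteQuotients.finiteQuotient (qa_ne_bot hP)
      have hcard : Nat.card (𝓞 K ⧸ v.asIdeal) = Nat.card (𝓞 K' ⧸ w) := by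
        have h1 : Ideal.absNorm w = Nat.card (𝓞 K' ⧸ w) := rfl
        have h3 : nrm v = Nat.card (𝓞 K ⧸ v.asIdeal) := rfl
        rw [← h1, hn, h3]
      let f : 𝓞 K ⧸ v.asIdeal → 𝓞 K' ⧸ w := algebraMap (𝓞 K ⧸ v.asIdeal) (𝓞 K' ⧸ w)
      have hfi : Function.Injective f := by
        have : v.asIdeal.IsMaximal := v.isMaximal
        exact FaithfulSMul.algebraMap_injective (𝓞 K ⧸ v.asIdeal) (𝓞 K' ⧸ w)
      have hfb : Function.Bijective f :=
        (Nat.bijective_iff_injective_and_card f).2 ⟨hfi, hcard⟩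
      obtain ⟨y, hy⟩ := hfb.2 (Ideal.Quotient.mk w z)
      obtain ⟨c, rfl⟩ := Ideal.Quotient.mk_surjective y
      refine ⟨c, ?_⟩
      rw [← Ideal.Quotient.eq, ← hy]
      rfl
    have h1 : algebraMap (𝓞 K) (𝓞 K') (δ1 - c ^ 2) ∈ w := by
      have h3 : algebraMap (𝓞 K) (𝓞 K') (δ1 - c ^ 2) =
          (z + algebraMap (𝓞 K) (𝓞 K') c) * (z - algebraMap (𝓞 K) (𝓞 K') c) := by
        rw [map_sub, map_pow, ← hz]
        ring
      rw [h3]
      exact w.mul_mem_left _ hc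
    rw [qa_mem_iff hP] at h1
    have h3 : m ^ 2 * δ - (π * c) ^ 2 ∈ v.asIdeal ^ (2 * j + 1) := by
      have h4 : m ^ 2 * δ - (π * c) ^ 2 = π ^ 2 * (δ1 - c ^ 2) := by
        rw [← hπδ]
        ring
      rw [h4, pow_succ]
      refine Ideal.mul_mem_mul ?_ h1
      rw [mul_comm 2 j, pow_mul]
      exact Ideal.pow_mem_pow hπ 2
    -- invert `m` modulo a power of `v`
    obtain ⟨m', hm'⟩ : ∃ m' : 𝓞 K, m * m' - 1 ∈ v.asIdeal ^ (2 * j + 1) := by
      have hvm : v.asIdeal.IsMaximal := v.isMaximal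
      have h5 : Ideal.span {m} ⊔ v.asIdeal ^ (2 * j + 1) = ⊤ := by
        have h6 : Ideal.span {m} ⊔ v.asIdeal = ⊤ := by
          obtain ⟨y, i, hi, hyi⟩ := hvm.exists_inv hm
          rw [Ideal.eq_top_iff_one, Submodule.mem_sup]
          exact ⟨y * m, Ideal.mem_span_singleton'.2 ⟨y, rfl⟩, i, hi, hyi⟩
        exact Ideal.sup_pow_eq_top h6
      rw [Ideal.eq_top_iff_one, Submodule.mem_sup] at h5
      obtain ⟨y, hy, u, hu', hyu⟩ := h5
      obtain ⟨m', rfl⟩ := Ideal.mem_span_singleton.1 hy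
      refine ⟨m', ?_⟩
      have h7 : m * m' - 1 = -u := by rw [← hyu]; ring
      rw [h7]
      exact (v.asIdeal ^ (2 * j + 1)).neg_mem hu'
    apply hnx (m' * (π * c))
    have h8 : δ - (m' * (π * c)) ^ 2 =
        m' ^ 2 * (m ^ 2 * δ - (π * c) ^ 2) - (m * m' - 1) * ((m * m' + 1) * δ) := by
      ring
    rw [h8]
    exact (v.asIdeal ^ (2 * j + 1)).sub_mem (Ideal.mul_mem_left _ _ h3)
      (Ideal.mul_mem_right _ _ hm')
  rcases quad_types K K' hdeg v with ⟨hs, hn⟩ | ⟨w, hw, h | h⟩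
  · exfalso
    unfold Splits at hs
    obtain ⟨P, Q, hne, he⟩ := Set.ncard_eq_two.1 hs
    have hP : P ∈ v.asIdeal.primesOver (𝓞 K') := by rw [he]; simp
    exact key P hP (hn P hP)
  · exfalso
    exact key w (by rw [hw]; exact Set.mem_singleton _) h.2
  · exact ⟨w, hw, h⟩

end Pool.Agent.HWR
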