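import Pool.Agent.HWR.Quad
import Pool.Agent.HWR.NormA
import Pool.Agent.HWR.QuadAux

/-!
# HWR-D2a: places where the order of `δ` is odd are ramified

Setting: `[K':K] = 2`, `θ^2 = δ`, `δ` not a square in `K` (so `K' = K(θ)`).
Write `w(x)` for the order at a prime `w` of `𝓞 K'` and `e = e(w/v)`.

PLAN. Order `2j+1` at `v` (`ord_iff`): for `w ∣ v`: `2 w(θ) = w(δ) = e (2j+1)`, so `e` is even; by
`quad_types` the type is `v = w^2`, one prime of norm `N v`.
-/

namespace Pool.Agent.HWR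

open NumberField IsDedekindDomain

variable (K : Type) [Field K] [NumberField K] (K' : Type) [Field K'] [NumberField K']
    [Algebra K K'] (hdeg : Module.finrank K K' = 2) (δ : 𝓞 K) (θ : 𝓞 K')
    (hθ : θ ^ 2 = algebraMap (𝓞 K) (𝓞 K') δ) (hδ : δ ≠ 0)
    (hns : ∀ x : K, x ^ 2 ≠ (δ : K)) (v : HeightOneSpectrum (𝓞 K))
include hdeg hθ hδ hns

theorem type_ram (hodd : Odd (ord v δ)) :
    ∃ w : Ideal (𝓞 K'), v.asIdeal.primesOver (𝓞 K') = {w} ∧
      v.asIdeal.map (algebraMap (𝓞 K) (𝓞 K')) = w ^ 2 ∧ Ideal.absNorm w = nrm v := by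
  have hθ0 : θ ≠ 0 := by
    rintro rfl
    apply hδ
    rw [← map_eq_zero_iff _ (qa_inj (K := K) (K' := K')), ← hθ]
    simp
  -- the order at a prime above `v` of ramification index one is impossible
  have key : ∀ (P : Ideal (𝓞 K')) (hP : P ∈ v.asIdeal.primesOver (𝓞 K')) (J : Ideal (𝓞 K')),
      v.asIdeal.map (algebraMap (𝓞 K) (𝓞 K')) = P ^ 1 * J → ¬ P ∣ J → False := by
    intro P hP J h hJ
    have h1 := qa_ord_over hP h hJ hδ
    rw [← hθ, pow_two, ord_mul hθ0 hθ0, one_mul] at h1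
    rw [← h1] at hodd
    exact (Nat.not_odd_iff_even.2 ⟨_, rfl⟩) hodd
  rcases quad_types K K' hdeg v with ⟨hs, hn⟩ | ⟨w, hw, h | h⟩
  · exfalso
    unfold Splits at hs
    obtain ⟨P, Q, hne, he⟩ := Set.ncard_eq_two.1 hs
    have hP : P ∈ v.asIdeal.primesOver (𝓞 K') := by rw [he]; simp
    have hQ : Q ∈ v.asIdeal.primesOver (𝓞 K') := by rw [he]; simp
    have hPm := qa_max hP
    have hQm := qa_max hQ
    have hc : IsCoprime P Q := Ideal.isCoprime_of_isMaximal hne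
    obtain ⟨J, hJ⟩ := hc.mul_dvd (qa_map_le hP) (qa_map_le hQ)
    have hn' : Ideal.absNorm (v.asIdeal.map (algebraMap (𝓞 K) (𝓞 K'))) = nrm v ^ 2 := by
      rw [Ideal.absNorm_algebraMap, ← IsFractionRing.finrank_eq (𝓞 K) K (𝓞 K') K', hdeg, nrm]
    rw [hJ, map_mul, map_mul, hn P hP, hn Q hQ, ← pow_two] at hn'
    have hpos : 0 < nrm v := by
      unfold nrm
      rw [Nat.pos_iff_ne_zero, Ideal.absNorm_ne_zero_iff]
      exact Ring.HasFiniteQuotients.finiteQuotient v.ne_bot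
    have hJ1 : Ideal.absNorm J = 1 :=
      Nat.eq_of_mul_eq_mul_left (pow_pos hpos 2) (by rw [hn', mul_one])
    have hJ2 : J = ⊤ := Ideal.absNorm_eq_one_iff.1 hJ1
    refine key P hP Q ?_ ?_
    · rw [hJ, hJ2, Ideal.mul_top, pow_one]
    · intro hd
      rw [Ideal.dvd_iff_le] at hd
      exact hne (hQm.eq_of_le hPm.ne_top hd).symm
  · exact ⟨w, hw, h⟩
  · exfalso
    have hP : w ∈ v.asIdeal.primesOver (𝓞 K') := by rw [hw]; exact Set.mem_singleton _
    refine key w hP 1 ?_ ?_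
    · rw [h.1, pow_one, mul_one]
    · intro hd
      rw [Ideal.dvd_iff_le] at hd
      exact (qa_max hP).ne_top (top_le_iff.1 (by rwa [Ideal.one_eq_top] at hd))

end Pool.Agent.HWR
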