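import Pool.Agent.HWR.Quad
import Pool.Agent.HWR.NormA
import Pool.Agent.HWR.QuadAux

/-!
# HWR-D2b: places (not above 2) with symbol 1 split

Setting: `[K':K] = 2`, `θ^2 = δ`, `δ` not a square in `K` (so `K' = K(θ)`).
Write `w(x)` for the order at a prime `w` of `𝓞 K'` and `e = e(w/v)`.

PLAN. There are `j` and `x : 𝓞 K` with `δ ∈ v^(2j) \ v^(2j+1)`, `δ - x^2 ∈ v^(2j+1)`; then
`v(x) = j`.  Suppose there is only one prime `w` above `v`.  It is stable under the nontrivial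
automorphism `τ` of `K'/K`, `τ θ = -θ` (`K'/K` is Galois of degree 2).  (Alternatively avoid `τ`:
`A = θ - x`, `B = θ + x`; `N_{K'/K}(A) = x^2 - δ = N_{K'/K}(B)` up to sign, and with one prime
above `v`, `f w(y) = v(N y)`; so `w(A) = w(B)`.)  As `A B = δ - x^2`,
`2 w(A) = w(A) + w(B) ≥ e (2j+1)`, so `w(A), w(B) > e j`, hence `w(2x) = w(B - A) > e j`, but
`w(2x) = e v(x) = e j` (`2 ∉ v`).  Contradiction.  So by `quad_types` `v` splits.
-/

namespace Pool.Agent.HWR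

open NumberField IsDedekindDomain

variable (K : Type) [Field K] [NumberField K] (K' : Type) [Field K'] [NumberField K']
    [Algebra K K'] (hdeg : Module.finrank K K' = 2) (δ : 𝓞 K) (θ : 𝓞 K')
    (hθ : θ ^ 2 = algebraMap (𝓞 K) (𝓞 K') δ) (hδ : δ ≠ 0)
    (hns : ∀ x : K, x ^ 2 ≠ (δ : K)) (v : HeightOneSpectrum (𝓞 K))
include hdeg hθ hδ hns

theorem type_split (h2 : (2 : 𝓞 K) ∉ v.asIdeal) (hu : uu v δ = 1) : Splits K K' v := by
  classical
  -- the data given by the symbol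
  obtain ⟨j, x, hj, hj', hx⟩ : ∃ (j : ℕ) (x : 𝓞 K), δ ∈ v.asIdeal ^ (2 * j) ∧
      δ ∉ v.asIdeal ^ (2 * j + 1) ∧ δ - x ^ 2 ∈ v.asIdeal ^ (2 * j + 1) := by
    unfold uu at hu
    split_ifs at hu with ha hb
    · obtain ⟨j, h1, h3, x, h4⟩ := hb
      exact ⟨j, x, h1, h3, h4⟩
    · exfalso; norm_num at hu
    · exfalso; norm_num at hu
  obtain ⟨τ, hτ⟩ := qa_tau hdeg hθ hns
  have hxδ : ∀ y : 𝓞 K, y ^ 2 ≠ δ := by
    intro y hy
    exact hns (y : K) (by rw [← hy]; simp)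
  have hx0 : x ≠ 0 := by
    rintro rfl
    apply hj'
    simpa using hx
  have hsub : δ - x ^ 2 ≠ 0 := by
    intro h
    exact hxδ x (sub_eq_zero.1 h).symm
  have h20 : (2 : 𝓞 K) ≠ 0 := two_ne_zero
  have hordx : ord v x = j := by
    have h3 : x ^ 2 ∈ v.asIdeal ^ (2 * j) := by
      have h4 : δ - x ^ 2 ∈ v.asIdeal ^ (2 * j) := Ideal.pow_le_pow_right (by omega) hx
      have := (v.asIdeal ^ (2 * j)).sub_mem hj h4
      simpa using this
    have h4 : x ^ 2 ∉ v.asIdeal ^ (2 * j + 1) := by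
      intro h5
      apply hj'
      have := (v.asIdeal ^ (2 * j + 1)).add_mem hx h5
      simpa using this
    have hx2 : x ^ 2 ≠ 0 := pow_ne_zero _ hx0
    rw [ord_iff hx2, pow_two, ord_mul hx0 hx0] at h3 h4
    omega
  have hord2 : ord v (2 : 𝓞 K) = 0 := by
    by_contra hc
    apply h2
    have : (2 : 𝓞 K) ∈ v.asIdeal ^ 1 := by
      rw [ord_iff h20]
      omega
    rwa [pow_one] at this
  -- only one prime above `v` is impossible
  have key : ∀ (w : Ideal (𝓞 K')) (hw : v.asIdeal.primesOver (𝓞 K') = {w}) (e : ℕ),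
      v.asIdeal.map (algebraMap (𝓞 K) (𝓞 K')) = w ^ e → 0 < e → False := by
    intro w hw e he he0
    have hP : w ∈ v.asIdeal.primesOver (𝓞 K') := by rw [hw]; exact Set.mem_singleton _
    have hJ : ¬ w ∣ 1 := by
      intro hd
      rw [Ideal.dvd_iff_le] at hd
      exact (qa_max hP).ne_top (top_le_iff.1 (by rwa [Ideal.one_eq_top] at hd))
    have hord : ∀ {y : 𝓞 K}, y ≠ 0 → ord (qaH hP) (algebraMap (𝓞 K) (𝓞 K') y) = e * ord v y :=
      fun hy => qa_ord_over hP (by rw [he, mul_one]) hJ hy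
    set X := algebraMap (𝓞 K) (𝓞 K') x with hX
    have hAB : (θ - X) * (θ + X) = algebraMap (𝓞 K) (𝓞 K') (δ - x ^ 2) := by
      rw [map_sub, map_pow, ← hθ]
      ring
    have hAB0 : (θ - X) * (θ + X) ≠ 0 := by
      rw [hAB, Ne, map_eq_zero_iff _ qa_inj]
      exact hsub
    have hA0 : θ - X ≠ 0 := left_ne_zero_of_mul hAB0
    have hB0 : θ + X ≠ 0 := right_ne_zero_of_mul hAB0
    have hτX : τ X = X := AlgEquiv.commutes τ x
    have hle : ord (qaH hP) (θ - X) ≤ ord (qaH hP) (θ + X) := by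
      rw [← ord_iff hB0]
      have h5 : θ - X ∈ w ^ ord (qaH hP) (θ - X) := (ord_iff hA0 (qaH hP) _).2 le_rfl
      have h6 := qa_tau_pow hw τ h5
      rw [map_sub, hτ, hτX] at h6
      have h7 := (w ^ ord (qaH hP) (θ - X)).neg_mem h6
      have h8 : -(-θ - X) = θ + X := by ring
      rwa [h8] at h7
    have hge : ord (qaH hP) (θ + X) ≤ ord (qaH hP) (θ - X) := by
      rw [← ord_iff hA0]
      have h5 : θ + X ∈ w ^ ord (qaH hP) (θ + X) := (ord_iff hB0 (qaH hP) _).2 le_rfl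
      have h6 := qa_tau_pow hw τ h5
      rw [map_add, hτ, hτX] at h6
      have h7 := (w ^ ord (qaH hP) (θ + X)).neg_mem h6
      have h8 : -(-θ + X) = θ - X := by ring
      rwa [h8] at h7
    have hsum : ord (qaH hP) (θ - X) + ord (qaH hP) (θ + X) = e * ord v (δ - x ^ 2) := by
      rw [← ord_mul hA0 hB0, hAB, hord hsub]
    have hbig : 2 * j + 1 ≤ ord v (δ - x ^ 2) := (ord_iff hsub v _).1 hx
    have h9 : e * j + 1 ≤ ord (qaH hP) (θ - X) := by
      have h10 : e * (2 * j + 1) ≤ e * ord v (δ - x ^ 2) := Nat.mul_le_mul_left _ hbig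
      have h11 : e * (2 * j + 1) = 2 * (e * j) + e := by ring
      omega
    have h12 : e * j + 1 ≤ ord (qaH hP) (θ + X) := by omega
    have h13 : algebraMap (𝓞 K) (𝓞 K') (2 * x) ∈ w ^ (e * j + 1) := by
      have h14 : θ - X ∈ w ^ (e * j + 1) := (ord_iff hA0 (qaH hP) _).2 h9
      have h15 : θ + X ∈ w ^ (e * j + 1) := (ord_iff hB0 (qaH hP) _).2 h12
      have h16 := (w ^ (e * j + 1)).sub_mem h15 h14
      have h17 : θ + X - (θ - X) = algebraMap (𝓞 K) (𝓞 K') (2 * x) := by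
        rw [map_mul, ← hX, map_ofNat]
        ring
      rwa [h17] at h16
    have h2x : (2 : 𝓞 K) * x ≠ 0 := mul_ne_zero h20 hx0
    have h2x' : algebraMap (𝓞 K) (𝓞 K') (2 * x) ≠ 0 := by
      rwa [Ne, map_eq_zero_iff _ qa_inj]
    have h18 := (ord_iff h2x' (qaH hP) _).1 h13
    rw [hord h2x, ord_mul h20 hx0, hord2, hordx, zero_add] at h18
    omega
  rcases quad_types K K' hdeg v with ⟨hs, _⟩ | ⟨w, hw, h | h⟩
  · exact hs
  · exact absurd (key w hw 2 h.1 (by norm_num)) id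
  · exact absurd (key w hw 1 (by rw [pow_one]; exact h.1) (by norm_num)) id

end Pool.Agent.HWR
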