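import Pool.Agent.HWR.NormB

/-!
# HWR-P0a: existence of weights, support

`exists_weight` PLAN. `x0 = crd (-1)`, `emb σ x0 = σ (-1) = -1`.  The maps `y ↦ emb σ y` are
continuous (linear), so there is `r > 0` with `‖emb σ y + 1‖ ≤ 1/2` for all `σ` on the closed
ball of radius `r` about `x0`; take a `ContDiffBump` at `x0` with outer radius `r` (its support is
the open ball, its topological support the closed ball; `HasContDiffBump` for the finite
dimensional space `Idx K → ℝ`).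
`near_of_ne`: `emb σ (crdR X δ) = σ δ / X` (`emb_crdR`) and `IsWeight.near`; `neg_of_ne`,
`ne_zero_of_ne`, `NN_bounds` (`1/2 ≤ ‖emb σ y‖ ≤ 3/2`, `Fintype.card (K →+* ℂ) = finrank`) follow.
-/

namespace Pool.Agent.HWR

open NumberField IsDedekindDomain

theorem exists_weight (K : Type) [Field K] [NumberField K] :
    ∃ W : (Idx K → ℝ) → ℝ, IsWeight W := by
  have hx0 : ∀ σ : K →+* ℂ, emb σ (fun i => (crd (-1 : 𝓞 K) i : ℝ)) = -1 := by
    intro σ
    have h1 := emb_crdR σ (-1 : 𝓞 K) 1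
    have h2 : crdR 1 (-1 : 𝓞 K) = fun i => (crd (-1 : 𝓞 K) i : ℝ) := by
      funext i
      simp [crdR]
    rw [h2] at h1
    rw [h1]
    simp
  have hcont : ∀ σ : K →+* ℂ, Continuous (emb σ) := by
    intro σ
    unfold emb
    fun_prop
  have hev : ∀ᶠ y in nhds (fun i => (crd (-1 : 𝓞 K) i : ℝ)), ∀ σ : K →+* ℂ, ‖emb σ y + 1‖ < 1 / 2 := by
    rw [Filter.eventually_all]
    intro σ
    have hc : Continuous fun y => ‖emb σ y + 1‖ := ((hcont σ).add continuous_const).norm
    apply hc.continuousAt.eventually_lt continuousAt_const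
    rw [hx0]
    norm_num
  obtain ⟨r, hr, hball⟩ := Metric.eventually_nhds_iff_ball.mp hev
  let f : ContDiffBump (fun i => (crd (-1 : 𝓞 K) i : ℝ)) :=
    { rIn := r / 4, rOut := r / 2, rIn_pos := by positivity, rIn_lt_rOut := by linarith }
  refine ⟨f, ?_⟩
  refine ⟨fun k => f.contDiff, fun y => f.nonneg, f.hasCompactSupport, ?_, ?_⟩
  · exact f.pos_of_mem_ball (Metric.mem_ball_self f.rOut_pos)
  · intro y hy σ
    rw [f.tsupport_eq] at hy
    have h1 : dist y (fun i => (crd (-1 : 𝓞 K) i : ℝ)) ≤ r / 2 := hy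
    exact (hball y (by rw [Metric.mem_ball]; linarith) σ).le

variable {K : Type} [Field K] [NumberField K] {W : (Idx K → ℝ) → ℝ} (hW : IsWeight W)
include hW

/-- on the support the embeddings are near `-X` -/
theorem near_of_ne {X : ℝ} (hX : 0 < X) {δ : 𝓞 K} (h : W (crdR X δ) ≠ 0) (σ : K →+* ℂ) :
    ‖σ (δ : K) + X‖ ≤ X / 2 := by
  have h1 := hW.near _ (subset_tsupport W (Function.mem_support.mpr h)) σ
  rw [emb_crdR] at h1
  have hXc : (X : ℂ) ≠ 0 := by exact_mod_cast hX.ne'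
  have h2 : σ (δ : K) + X = X * (σ (δ : K) / X + 1) := by
    field_simp
  rw [h2, norm_mul, Complex.norm_real, Real.norm_eq_abs, abs_of_pos hX]
  calc X * ‖σ (δ : K) / X + 1‖ ≤ X * (1 / 2) := mul_le_mul_of_nonneg_left h1 hX.le
    _ = X / 2 := by ring

theorem neg_of_ne {X : ℝ} (hX : 0 < X) {δ : 𝓞 K} (h : W (crdR X δ) ≠ 0) (σ : K →+* ℂ) :
    (σ (δ : K)).re < 0 := by
  have h1 := near_of_ne hW hX h σ
  have h2 := Complex.abs_re_le_norm (σ (δ : K) + X)
  rw [Complex.add_re, Complex.ofReal_re] at h2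
  have h3 := (abs_le.mp (h2.trans h1)).2
  linarith

theorem ne_zero_of_ne {X : ℝ} (hX : 0 < X) {δ : 𝓞 K} (h : W (crdR X δ) ≠ 0) : δ ≠ 0 := by
  rintro rfl
  obtain ⟨σ⟩ : Nonempty (K →+* ℂ) := inferInstance
  have := neg_of_ne hW hX h σ
  simp at this

theorem NN_bounds {y : Idx K → ℝ} (h : W y ≠ 0) :
    (1 / 2 : ℝ) ^ Module.finrank ℚ K ≤ NN y ∧ NN y ≤ (3 / 2 : ℝ) ^ Module.finrank ℚ K := by
  have hn : ∀ σ : K →+* ℂ, 1 / 2 ≤ ‖emb σ y‖ ∧ ‖emb σ y‖ ≤ 3 / 2 := by
    intro σ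
    have h1 := hW.near _ (subset_tsupport W (Function.mem_support.mpr h)) σ
    constructor
    · have h2 : ‖(1 : ℂ)‖ ≤ ‖emb σ y + 1‖ + ‖emb σ y‖ := by
        have : (1 : ℂ) = (emb σ y + 1) - emb σ y := by ring
        conv_lhs => rw [this]
        exact norm_sub_le _ _
      rw [norm_one] at h2
      linarith
    · have h2 : ‖emb σ y‖ ≤ ‖emb σ y + 1‖ + ‖(1 : ℂ)‖ := by
        have : emb σ y = (emb σ y + 1) - 1 := by ring
        conv_lhs => rw [this]
        exact norm_sub_le _ _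
      rw [norm_one] at h2
      linarith
  rw [← NumberField.Embeddings.card K ℂ]
  unfold NN
  constructor
  · rw [← Finset.card_univ, ← Finset.prod_const]
    exact Finset.prod_le_prod (fun _ _ => by norm_num) fun σ _ => (hn σ).1
  · rw [← Finset.card_univ, ← Finset.prod_const]
    exact Finset.prod_le_prod (fun _ _ => norm_nonneg _) fun σ _ => (hn σ).2

end Pool.Agent.HWR
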